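import Pool.Agent.Z5.Defs

namespace Pool.Agent.Z5

open Filter Topology

/-! Condition (H) holds for every line of `G_m^3`, except for one explicit configuration. -/

/-- Rolle: a differentiable function with infinitely many zeros has a derivative with infinitely many zeros. -/
theorem hhc_rolle {f f' : ℝ → ℝ} (hf : ∀ x, HasDerivAt f (f' x) x) (h : {x | f x = 0}.Infinite) :
    {x | f' x = 0}.Infinite := by
  intro hfin
  apply h
  refine Set.Finite.of_injOn (f := fun z => {c | f' c = 0 ∧ c < z})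
    (t := {b : Set ℝ | b ⊆ {x | f' x = 0}}) ?_ ?_ hfin.finite_subsets
  · intro z _ c hc
    exact hc.1
  · have key : ∀ z z', f z = 0 → f z' = 0 → z < z' →
        ({c | f' c = 0 ∧ c < z} : Set ℝ) ≠ {c | f' c = 0 ∧ c < z'} := by
      intro z z' hz hz' hlt heq
      obtain ⟨c, hc, hc0⟩ := exists_hasDerivAt_eq_zero hlt
        (fun x _ => (hf x).continuousAt.continuousWithinAt) (hz.trans hz'.symm) (fun x _ => hf x)
      have h1 : c ∈ ({c | f' c = 0 ∧ c < z'} : Set ℝ) := ⟨hc0, hc.2⟩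
      rw [← heq] at h1
      exact absurd h1.2 (not_lt.2 hc.1.le)
    intro z hz z' hz' heq
    rcases lt_trichotomy z z' with h1 | h1 | h1
    · exact absurd heq (key z z' hz hz' h1)
    · exact h1
    · exact absurd heq.symm (key z' z hz' hz h1)

/-- A real exponential sum with infinitely many zeros vanishes identically. -/
theorem hhc_zero {ι : Type} [DecidableEq ι] (T : Finset ι) : ∀ (a l : ι → ℝ),
    {s : ℝ | ∑ k ∈ T, a k * Real.exp (l k * s) = 0}.Infinite →
      ∀ s : ℝ, ∑ k ∈ T, a k * Real.exp (l k * s) = 0 := by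
  induction T using Finset.induction_on with
  | empty =>
    intro a l _ s
    rw [Finset.sum_empty]
  | insert k0 T hk0 ih =>
    intro a l h s
    -- the function multiplied by the inverse of the first exponential
    have e1 : ∀ s : ℝ, ∑ k ∈ insert k0 T, a k * Real.exp (l k * s) =
        Real.exp (l k0 * s) * (a k0 + ∑ k ∈ T, a k * Real.exp ((l k - l k0) * s)) := by
      intro s
      rw [Finset.sum_insert hk0, mul_add, Finset.mul_sum]
      congr 1
      · ring
      · refine Finset.sum_congr rfl fun k _ => ?_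
        have : l k * s = l k0 * s + (l k - l k0) * s := by ring
        rw [this, Real.exp_add]
        ring
    have e2 : ∀ s : ℝ, ∑ k ∈ insert k0 T, a k * Real.exp (l k * s) = 0 ↔
        a k0 + ∑ k ∈ T, a k * Real.exp ((l k - l k0) * s) = 0 := by
      intro s
      rw [e1, mul_eq_zero]
      exact ⟨fun h => h.resolve_left (Real.exp_ne_zero _), Or.inr⟩
    have hd : ∀ s : ℝ, HasDerivAt (fun s : ℝ => a k0 + ∑ k ∈ T, a k * Real.exp ((l k - l k0) * s))
        (∑ k ∈ T, (a k * (l k - l k0)) * Real.exp ((l k - l k0) * s)) s := by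
      intro s
      refine HasDerivAt.const_add _ ?_
      refine HasDerivAt.fun_sum fun k _ => ?_
      have h1 : HasDerivAt (fun s : ℝ => (l k - l k0) * s) ((l k - l k0) * 1) s :=
        (hasDerivAt_id s).const_mul _
      have h2 := (h1.exp).const_mul (a k)
      refine h2.congr_deriv ?_
      ring
    have h3 : {s : ℝ | a k0 + ∑ k ∈ T, a k * Real.exp ((l k - l k0) * s) = 0}.Infinite := by
      refine h.mono fun s hs => ?_
      exact (e2 s).1 hs
    have h4 := ih (fun k => a k * (l k - l k0)) (fun k => l k - l k0) (hhc_rolle hd h3)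
    obtain ⟨s0, hs0⟩ := h3.nonempty
    have h5 : ∀ x y : ℝ, a k0 + ∑ k ∈ T, a k * Real.exp ((l k - l k0) * x) =
        a k0 + ∑ k ∈ T, a k * Real.exp ((l k - l k0) * y) := by
      refine is_const_of_deriv_eq_zero (fun s => (hd s).differentiableAt) fun s => ?_
      rw [(hd s).deriv]
      exact h4 s
    rw [e2, h5 s s0]
    exact hs0

/-- The characters of the real line. -/
noncomputable def hhc_chi (l : ℝ) : Multiplicative ℝ →* ℝ where
  toFun s := Real.exp (l * Multiplicative.toAdd s)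
  map_one' := by simp
  map_mul' x y := by
    rw [toAdd_mul, mul_add, Real.exp_add]

theorem hhc_chi_inj : Function.Injective hhc_chi := by
  intro l l' h
  have h1 := DFunLike.congr_fun h (Multiplicative.ofAdd 1)
  have h2 : Real.exp (l * 1) = Real.exp (l' * 1) := h1
  have h3 := Real.exp_injective h2
  linarith

/-- The coefficients of an exponential sum with infinitely many zeros. -/
theorem hhc_coeff {ι : Type} [Fintype ι] [DecidableEq ι] (a l : ι → ℝ)
    (h : {s : ℝ | ∑ k, a k * Real.exp (l k * s) = 0}.Infinite) (μ : ℝ) :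
    ∑ k, (if l k = μ then a k else 0) = 0 := by
  have h0 := hhc_zero Finset.univ a l h
  have hli : LinearIndependent ℝ (fun μ : ℝ => (hhc_chi μ : Multiplicative ℝ → ℝ)) :=
    (linearIndependent_monoidHom (Multiplicative ℝ) ℝ).comp hhc_chi hhc_chi_inj
  rw [linearIndependent_iff'] at hli
  rw [← Finset.sum_filter]
  by_cases hμ : μ ∈ Finset.univ.image l
  · refine hli (Finset.univ.image l) (fun μ => ∑ k ∈ Finset.univ.filter (fun k => l k = μ), a k) ?_ μ hμ
    funext s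
    rw [Finset.sum_apply, Pi.zero_apply, ← h0 (Multiplicative.toAdd s),
      ← Finset.sum_fiberwise_of_maps_to (t := Finset.univ.image l) (g := l)
        (fun k _ => Finset.mem_image_of_mem l (Finset.mem_univ k))]
    refine Finset.sum_congr rfl fun ν _ => ?_
    rw [Pi.smul_apply, smul_eq_mul, Finset.sum_mul]
    refine Finset.sum_congr rfl fun k hk => ?_
    rw [(Finset.mem_filter.1 hk).2]
    rfl
  · rw [Finset.filter_eq_empty_iff.2, Finset.sum_empty]
    intro k _ hk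
    exact hμ (Finset.mem_image.2 ⟨k, Finset.mem_univ k, hk⟩)

/-- The vectors orthogonal to two independent vectors are on a line. -/
theorem hhc_line {u v : Fin 3 → ℝ} (h : LinearIndependent ℝ ![u, v]) :
    ∃ w : Fin 3 → ℝ, w ≠ 0 ∧ ∀ L : Fin 3 → ℝ, dt u L = 0 → dt v L = 0 → ∃ s : ℝ, ∀ i, L i = s * w i := by
  have hw : crossProduct u v ≠ 0 := crossProduct_ne_zero_iff_linearIndependent.2 h
  obtain ⟨w, hwd⟩ : ∃ w : Fin 3 → ℝ, w = crossProduct u v := ⟨_, rfl⟩
  rw [← hwd] at hw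
  refine ⟨w, hw, fun L hu hv => ?_⟩
  rw [cross_apply] at hwd
  have w0 : w 0 = u 1 * v 2 - u 2 * v 1 := by rw [hwd]; rfl
  have w1 : w 1 = u 2 * v 0 - u 0 * v 2 := by rw [hwd]; rfl
  have w2 : w 2 = u 0 * v 1 - u 1 * v 0 := by rw [hwd]; rfl
  unfold dt at hu hv
  rw [Fin.sum_univ_three] at hu hv
  have hww : 0 < w 0 * w 0 + w 1 * w 1 + w 2 * w 2 := by
    by_contra hcon
    push Not at hcon
    have h0 := mul_self_nonneg (w 0)
    have h1 := mul_self_nonneg (w 1)
    have h2 := mul_self_nonneg (w 2)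
    apply hw
    funext i
    have z0 : w 0 * w 0 = 0 := by linarith
    have z1 : w 1 * w 1 = 0 := by linarith
    have z2 : w 2 * w 2 = 0 := by linarith
    fin_cases i
    · exact mul_self_eq_zero.1 z0
    · exact mul_self_eq_zero.1 z1
    · exact mul_self_eq_zero.1 z2
  refine ⟨(L 0 * w 0 + L 1 * w 1 + L 2 * w 2) / (w 0 * w 0 + w 1 * w 1 + w 2 * w 2), fun i => ?_⟩
  rw [div_mul_eq_mul_div, eq_div_iff hww.ne']
  have c2 : L 0 * w 1 - L 1 * w 0 = 0 := by
    rw [w0, w1]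
    linear_combination u 2 * hv - v 2 * hu
  have c1 : L 0 * w 2 - L 2 * w 0 = 0 := by
    rw [w0, w2]
    linear_combination -u 1 * hv + v 1 * hu
  have c0 : L 1 * w 2 - L 2 * w 1 = 0 := by
    rw [w1, w2]
    linear_combination u 0 * hv - v 0 * hu
  fin_cases i
  · show L 0 * (w 0 * w 0 + w 1 * w 1 + w 2 * w 2) = (L 0 * w 0 + L 1 * w 1 + L 2 * w 2) * w 0
    linear_combination w 1 * c2 + w 2 * c1
  · show L 1 * (w 0 * w 0 + w 1 * w 1 + w 2 * w 2) = (L 0 * w 0 + L 1 * w 1 + L 2 * w 2) * w 1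
    linear_combination -w 0 * c2 + w 2 * c0
  · show L 2 * (w 0 * w 0 + w 1 * w 1 + w 2 * w 2) = (L 0 * w 0 + L 1 * w 1 + L 2 * w 2) * w 2
    linear_combination -w 0 * c1 - w 1 * c0

open Polynomial in
/-- Two circles with different centres. -/
theorem hhc_fib {p q : ℂ} (hpq : p ≠ q) (x y : ℝ) : {t : ℂ | ‖t - p‖ ^ 2 = x ∧ ‖t - q‖ ^ 2 = y}.Finite := by
  obtain ⟨δ, hδ⟩ : ∃ δ : ℂ, δ = q - p := ⟨_, rfl⟩
  have hδ0 : δ ≠ 0 := by rw [hδ]; exact sub_ne_zero.2 hpq.symm
  obtain ⟨A, hA⟩ : ∃ A : ℂ, A = x - y + δ * (starRingEnd ℂ) δ := ⟨_, rfl⟩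
  let P : ℂ[X] := C ((starRingEnd ℂ) δ) * X ^ 2 - C A * X + C (x * δ)
  have hP : P ≠ 0 := by
    intro h0
    have h1 := congrArg (fun P => P.coeff 2) h0
    simp [P] at h1
    exact hδ0 h1
  refine Set.Finite.subset ((Polynomial.finite_setOfPred_isRoot hP).preimage
    (f := fun t : ℂ => t - p) (fun a _ b _ h => sub_left_injective h)) ?_
  rintro t ⟨h1, h2⟩
  show P.eval (t - p) = 0
  have e1 : (t - p) * (starRingEnd ℂ) (t - p) = x := by
    rw [Complex.mul_conj', ← h1]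
    push_cast
    rfl
  have e2 : (t - q) * (starRingEnd ℂ) (t - q) = y := by
    rw [Complex.mul_conj', ← h2]
    push_cast
    rfl
  have e3 : t - q = (t - p) - δ := by rw [hδ]; ring
  rw [e3, map_sub] at e2
  simp only [P, eval_add, eval_sub, eval_mul, eval_C, eval_X, eval_pow]
  rw [hA]
  linear_combination (-(t - p)) * e2 + (t - p - δ) * e1

/-- The absolute values at a point where the vector of the logarithms is `s w`. -/
theorem hhc_norm {c d : Fin 3 → ℂ} (hc : ∀ i, c i ≠ 0) {t : ℂ} (ht : ∀ i, t ≠ d i) {w : Fin 3 → ℝ} {s : ℝ}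
    (h : ∀ i, LY c d t i = s * w i) (i : Fin 3) :
    ‖t - d i‖ ^ 2 = (‖c i‖ ^ 2)⁻¹ * Real.exp (2 * w i * s) := by
  have h0 : c i * (t - d i) ≠ 0 := mul_ne_zero (hc i) (sub_ne_zero.2 (ht i))
  have h1 : ‖c i * (t - d i)‖ = Real.exp (s * w i) := by
    rw [← h i]
    exact (Real.exp_log (norm_pos_iff.2 h0)).symm
  rw [norm_mul] at h1
  have hc0 : ‖c i‖ ≠ 0 := norm_ne_zero_iff.2 (hc i)
  have h2 : Real.exp (2 * w i * s) = Real.exp (s * w i) ^ 2 := by
    rw [← Real.exp_nat_mul]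
    congr 1
    push_cast
    ring
  rw [h2, ← h1, mul_pow]
  field_simp

/-- The differences of the three points. -/
def hhc_e (d : Fin 3 → ℂ) : Fin 3 → ℂ := ![d 1 - d 2, d 2 - d 0, d 0 - d 1]

theorem hhc_sq (z : ℂ) : z * (starRingEnd ℂ) z = ((‖z‖ ^ 2 : ℝ) : ℂ) := by
  rw [Complex.mul_conj']
  push_cast
  rfl

theorem hhc_id (d : Fin 3 → ℂ) (t : ℂ) :
    ∑ i, hhc_e d i * ((‖t - d i‖ ^ 2 : ℝ) : ℂ) =
      ∑ i, hhc_e d i * (d i * (starRingEnd ℂ) (d i)) - (∑ i, hhc_e d i * (starRingEnd ℂ) (d i)) * t := by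
  simp only [← hhc_sq, map_sub]
  rw [Fin.sum_univ_three, Fin.sum_univ_three, Fin.sum_univ_three]
  have e0 : hhc_e d 0 = d 1 - d 2 := rfl
  have e1 : hhc_e d 1 = d 2 - d 0 := rfl
  have e2 : hhc_e d 2 = d 0 - d 1 := rfl
  rw [e0, e1, e2]
  ring

/-- The case of three points on a line. -/
theorem hhc_sp {x y : ℂ} {bi bj bk ci cj ck : ℝ} (hxy : x ≠ y) (ha : y * (starRingEnd ℂ) x = x * (starRingEnd ℂ) y)
    (hb : (x - y) * (bi : ℂ) = x * y * ((starRingEnd ℂ) x - (starRingEnd ℂ) y)) (hc : y * (bj : ℂ) = x * (bk : ℂ))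
    (hbi : bi = (ci ^ 2)⁻¹) (hbj : bj = (cj ^ 2)⁻¹) (hbk : bk = (ck ^ 2)⁻¹) (hci : 0 < ci) (hcj : 0 < cj) (hck : 0 < ck) :
    ((ci ^ 2 : ℝ) : ℂ) * (x * (starRingEnd ℂ) y) = 1 ∧ ci * cj * ‖x‖ = ck := by
  have h1 : (bi : ℂ) = x * (starRingEnd ℂ) y := by
    have h2 : (x - y) * (bi : ℂ) = (x - y) * (x * (starRingEnd ℂ) y) := by
      rw [hb]
      linear_combination x * ha
    exact mul_left_cancel₀ (sub_ne_zero.2 hxy) h2
  constructor
  · rw [← h1, hbi, ← Complex.ofReal_mul, mul_inv_cancel₀ (by positivity), Complex.ofReal_one]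
  · have hbi0 : 0 < bi := by rw [hbi]; positivity
    have hbj0 : 0 < bj := by rw [hbj]; positivity
    have hbk0 : 0 < bk := by rw [hbk]; positivity
    have h2 : bi = ‖x‖ * ‖y‖ := by
      have h3 := congrArg norm h1
      rw [Complex.norm_real, Real.norm_eq_abs, abs_of_pos hbi0, norm_mul, Complex.norm_conj] at h3
      exact h3
    have h4 : ‖y‖ * bj = ‖x‖ * bk := by
      have h3 := congrArg norm hc
      rw [norm_mul, norm_mul, Complex.norm_real, Complex.norm_real, Real.norm_eq_abs, Real.norm_eq_abs,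
        abs_of_pos hbj0, abs_of_pos hbk0] at h3
      exact h3
    have h5 : bi * bj = ‖x‖ ^ 2 * bk := by
      rw [h2]
      linear_combination ‖x‖ * h4
    have h6 : (ci * cj * ‖x‖) ^ 2 = ck ^ 2 := by
      rw [hbi, hbj, hbk] at h5
      field_simp at h5
      rw [mul_pow, mul_pow]
      linear_combination -h5
    exact (pow_left_inj₀ (by positivity) hck.le two_ne_zero).1 h6

theorem hhc_mul {ι : Type} [Fintype ι] (A f : ι → ℝ) (s : ℝ) :
    (∑ o, A o * Real.exp (f o * s)) * (∑ o, A o * Real.exp (f o * s)) =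
      ∑ p : ι × ι, A p.1 * A p.2 * Real.exp ((f p.1 + f p.2) * s) := by
  rw [Finset.sum_mul_sum, Fintype.sum_prod_type]
  refine Finset.sum_congr rfl fun o _ => Finset.sum_congr rfl fun o' _ => ?_
  rw [add_mul, Real.exp_add]
  ring

theorem hhc_mul2 {ι : Type} [Fintype ι] (A : ι → ℝ) :
    (∑ o, A o) * (∑ o, A o) = ∑ p : ι × ι, A p.1 * A p.2 := by
  rw [Finset.sum_mul_sum, Fintype.sum_prod_type]

theorem hhc_four {x y m : ℝ} (hx : |x| ≤ 2 * |m|) (hy : |y| ≤ 2 * |m|) (h : x + y = 4 * m) :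
    x = 2 * m ∧ y = 2 * m := by
  rcases abs_cases m with ⟨h1, h2⟩ | ⟨h1, h2⟩ <;> rw [h1] at hx hy <;>
    have h3 := abs_le.1 hx <;> have h4 := abs_le.1 hy <;> constructor <;> linarith

/-- Three points which are not on a line. -/
theorem hhc_noncol {c d : Fin 3 → ℂ} (hc : ∀ i, c i ≠ 0) {w : Fin 3 → ℝ} (hw : w ≠ 0)
    (hD : ∑ i, hhc_e d i * (starRingEnd ℂ) (d i) ≠ 0)
    (hinf : {s : ℝ | ∃ t : ℂ, (∀ i, t ≠ d i) ∧ ∀ i, LY c d t i = s * w i}.Infinite) : False := by
  obtain ⟨b, hb⟩ : ∃ b : Fin 3 → ℝ, b = fun i => (‖c i‖ ^ 2)⁻¹ := ⟨_, rfl⟩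
  have hb0 : ∀ i, 0 < b i := by
    intro i
    rw [hb]
    have := norm_pos_iff.2 (hc i)
    positivity
  obtain ⟨e, he⟩ : ∃ e : Fin 3 → ℂ, e = hhc_e d := ⟨_, rfl⟩
  have e0 : e 0 = d 1 - d 2 := by rw [he]; rfl
  have e1 : e 1 = d 2 - d 0 := by rw [he]; rfl
  have e2 : e 2 = d 0 - d 1 := by rw [he]; rfl
  have hid := fun t => hhc_id d t
  rw [← he] at hD hid
  obtain ⟨D, hDD⟩ : ∃ D : ℂ, D = ∑ i, e i * (starRingEnd ℂ) (d i) := ⟨_, rfl⟩
  obtain ⟨K, hKK⟩ : ∃ K : ℂ, K = ∑ i, e i * (d i * (starRingEnd ℂ) (d i)) := ⟨_, rfl⟩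
  rw [← hDD] at hD
  rw [← hDD, ← hKK] at hid
  have hE : ∀ s t, (∀ i, t ≠ d i) → (∀ i, LY c d t i = s * w i) →
      ∑ i, e i * ((b i * Real.exp (2 * w i * s) : ℝ) : ℂ) = K - D * t := by
    intro s t ht hs
    rw [← hid t]
    refine Finset.sum_congr rfl fun i _ => ?_
    rw [hhc_norm hc ht hs i, hb]
  obtain ⟨κ, hκ⟩ : ∃ κ : ℂ, κ = K - D * d 0 := ⟨_, rfl⟩
  obtain ⟨A, hA⟩ : ∃ A : Option (Fin 3) → ℝ, A = fun o => o.elim κ.re (fun i => -((e i).re * b i)) := ⟨_, rfl⟩
  obtain ⟨B, hB⟩ : ∃ B : Option (Fin 3) → ℝ, B = fun o => o.elim κ.im (fun i => -((e i).im * b i)) := ⟨_, rfl⟩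
  obtain ⟨f, hf⟩ : ∃ f : Option (Fin 3) → ℝ, f = fun o => o.elim 0 (fun i => 2 * w i) := ⟨_, rfl⟩
  have hsum : ∀ s t, (∀ i, t ≠ d i) → (∀ i, LY c d t i = s * w i) →
      ∑ k : Option (Option (Fin 3) × Option (Fin 3)),
        (k.elim (-(‖D‖ ^ 2 * b 0)) (fun p => A p.1 * A p.2 + B p.1 * B p.2)) *
          Real.exp ((k.elim (2 * w 0) (fun p => f p.1 + f p.2)) * s) = 0 := by
    intro s t ht hs
    have h1 := hE s t ht hs
    have h2 : D * (t - d 0) = κ - ∑ i, e i * ((b i * Real.exp (2 * w i * s) : ℝ) : ℂ) := by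
      rw [h1, hκ]
      ring
    have h3 : ‖D‖ ^ 2 * (b 0 * Real.exp (2 * w 0 * s)) =
        (κ - ∑ i, e i * ((b i * Real.exp (2 * w i * s) : ℝ) : ℂ)).re *
          (κ - ∑ i, e i * ((b i * Real.exp (2 * w i * s) : ℝ) : ℂ)).re +
        (κ - ∑ i, e i * ((b i * Real.exp (2 * w i * s) : ℝ) : ℂ)).im *
          (κ - ∑ i, e i * ((b i * Real.exp (2 * w i * s) : ℝ) : ℂ)).im := by
      rw [← Complex.normSq_apply, Complex.normSq_eq_norm_sq, ← h2, norm_mul, mul_pow,
        hhc_norm hc ht hs 0, hb]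
    have h4 : (κ - ∑ i, e i * ((b i * Real.exp (2 * w i * s) : ℝ) : ℂ)).re =
        ∑ o, A o * Real.exp (f o * s) := by
      rw [Fintype.sum_option, hA, hf, Complex.sub_re, Complex.re_sum]
      simp only [Option.elim_none, Option.elim_some, zero_mul, Real.exp_zero, mul_one, Complex.re_mul_ofReal,
        neg_mul, Finset.sum_neg_distrib, mul_assoc]
      ring
    have h5 : (κ - ∑ i, e i * ((b i * Real.exp (2 * w i * s) : ℝ) : ℂ)).im =
        ∑ o, B o * Real.exp (f o * s) := by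
      rw [Fintype.sum_option, hB, hf, Complex.sub_im, Complex.im_sum]
      simp only [Option.elim_none, Option.elim_some, zero_mul, Real.exp_zero, mul_one, Complex.im_mul_ofReal,
        neg_mul, Finset.sum_neg_distrib, mul_assoc]
      ring
    rw [h4, h5, hhc_mul, hhc_mul, ← Finset.sum_add_distrib] at h3
    rw [Fintype.sum_option]
    simp only [Option.elim_none, Option.elim_some]
    have h6 : ∑ p : Option (Fin 3) × Option (Fin 3),
        (A p.1 * A p.2 + B p.1 * B p.2) * Real.exp ((f p.1 + f p.2) * s) =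
        ∑ p : Option (Fin 3) × Option (Fin 3), (A p.1 * A p.2 * Real.exp ((f p.1 + f p.2) * s) +
          B p.1 * B p.2 * Real.exp ((f p.1 + f p.2) * s)) :=
      Finset.sum_congr rfl fun p _ => by ring
    rw [h6, ← h3]
    ring
  have hinf2 : {s : ℝ | ∑ k : Option (Option (Fin 3) × Option (Fin 3)),
        (k.elim (-(‖D‖ ^ 2 * b 0)) (fun p => A p.1 * A p.2 + B p.1 * B p.2)) *
          Real.exp ((k.elim (2 * w 0) (fun p => f p.1 + f p.2)) * s) = 0}.Infinite := by
    refine hinf.mono ?_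
    rintro s ⟨t, ht, hs⟩
    exact hsum s t ht hs
  obtain ⟨m, hm⟩ := Finite.exists_max (fun i => |w i|)
  have hm0 : w m ≠ 0 := by
    intro h0
    apply hw
    funext i
    have h1 := hm i
    rw [h0, abs_zero] at h1
    exact abs_eq_zero.1 (le_antisymm h1 (abs_nonneg _))
  have hm1 : 0 < |w m| := abs_pos.2 hm0
  have hfb : ∀ o, |f o| ≤ 2 * |w m| := by
    intro o
    rw [hf]
    rcases o with _ | i
    · simp only [Option.elim_none, abs_zero]
      linarith
    · simp only [Option.elim_some, abs_mul, abs_two]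
      have := hm i
      linarith
  have hco := hhc_coeff (fun k : Option (Option (Fin 3) × Option (Fin 3)) =>
      k.elim (-(‖D‖ ^ 2 * b 0)) (fun p => A p.1 * A p.2 + B p.1 * B p.2))
    (fun k => k.elim (2 * w 0) (fun p => f p.1 + f p.2)) hinf2 (4 * w m)
  rw [Fintype.sum_option] at hco
  simp only [Option.elim_none, Option.elim_some] at hco
  rw [if_neg (by
    intro h1
    have h2 := hm 0
    have h3 : |2 * w 0| = |4 * w m| := by rw [h1]
    rw [abs_mul, abs_mul, abs_two] at h3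
    have h4 : |(4 : ℝ)| = 4 := by norm_num
    rw [h4] at h3
    linarith), zero_add] at hco
  obtain ⟨A', hA'⟩ : ∃ A' : Option (Fin 3) → ℝ, A' = fun o => if f o = 2 * w m then A o else 0 := ⟨_, rfl⟩
  obtain ⟨B', hB'⟩ : ∃ B' : Option (Fin 3) → ℝ, B' = fun o => if f o = 2 * w m then B o else 0 := ⟨_, rfl⟩
  have h7 : (∑ o, A' o) * (∑ o, A' o) + (∑ o, B' o) * (∑ o, B' o) = 0 := by
    rw [hhc_mul2, hhc_mul2, ← Finset.sum_add_distrib, ← hco]
    refine Finset.sum_congr rfl fun p _ => ?_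
    rw [hA', hB']
    simp only
    by_cases h1 : f p.1 + f p.2 = 4 * w m
    · obtain ⟨h2, h3⟩ := hhc_four (hfb p.1) (hfb p.2) h1
      rw [if_pos h1, if_pos h2, if_pos h3, if_pos h2, if_pos h3]
    · rw [if_neg h1]
      by_cases h2 : f p.1 = 2 * w m
      · have h3 : f p.2 ≠ 2 * w m := by
          intro h3
          apply h1
          rw [h2, h3]
          ring
        rw [if_neg h3, if_neg h3]
        ring
      · rw [if_neg h2, if_neg h2]
        ring
  have hA0 : ∑ o, A' o = 0 := by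
    have h1 := mul_self_nonneg (∑ o, A' o)
    have h2 := mul_self_nonneg (∑ o, B' o)
    exact mul_self_eq_zero.1 (by linarith)
  have hB0 : ∑ o, B' o = 0 := by
    have h1 := mul_self_nonneg (∑ o, A' o)
    have h2 := mul_self_nonneg (∑ o, B' o)
    exact mul_self_eq_zero.1 (by linarith)
  obtain ⟨r, hr⟩ : ∃ r : Fin 3 → ℝ, r = fun i => if w i = w m then b i else 0 := ⟨_, rfl⟩
  have hri : ∀ (x : ℝ) (i : Fin 3), (if 2 * w i = 2 * w m then -(x * b i) else 0) = -(x * r i) := by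
    intro x i
    rw [hr]
    by_cases h1 : w i = w m
    · simp only [h1, if_true]
    · have h2 : ¬ (2 * w i = 2 * w m) := fun h => h1 (by linarith)
      simp only [if_neg h1, if_neg h2, mul_zero, neg_zero]
  have hnone : ¬ ((0 : ℝ) = 2 * w m) := fun h => hm0 (by linarith)
  rw [Fintype.sum_option, hA'] at hA0
  rw [Fintype.sum_option, hB'] at hB0
  rw [hA, hf] at hA0
  rw [hB, hf] at hB0
  simp only [Option.elim_none, Option.elim_some, if_neg hnone, hri, zero_add] at hA0 hB0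
  rw [Fin.sum_univ_three] at hA0 hB0
  have r0 : (e 2).re = -(e 0).re - (e 1).re := by rw [e0, e1, e2]; simp only [Complex.sub_re]; ring
  have r1 : (e 2).im = -(e 0).im - (e 1).im := by rw [e0, e1, e2]; simp only [Complex.sub_im]; ring
  rw [r0] at hA0
  rw [r1] at hB0
  have hJ : (e 1).im * (e 0).re - (e 1).re * (e 0).im ≠ 0 := by
    intro h0
    apply hD
    have h1 : D = e 1 * (starRingEnd ℂ) (e 0) - e 0 * (starRingEnd ℂ) (e 1) := by
      rw [hDD, Fin.sum_univ_three, e0, e1, e2]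
      simp only [map_sub]
      ring
    rw [h1]
    apply Complex.ext
    · simp only [Complex.sub_re, Complex.mul_re, Complex.conj_re, Complex.conj_im, Complex.zero_re]
      ring
    · simp only [Complex.sub_im, Complex.mul_im, Complex.conj_re, Complex.conj_im, Complex.zero_im]
      linear_combination 2 * h0
  have h02 : r 0 = r 2 := by
    have h1 : (r 0 - r 2) * ((e 1).im * (e 0).re - (e 1).re * (e 0).im) = 0 := by
      linear_combination -(e 1).im * hA0 + (e 1).re * hB0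
    rcases mul_eq_zero.1 h1 with h2 | h2
    · linarith
    · exact absurd h2 hJ
  have h12 : r 1 = r 2 := by
    have h1 : (r 1 - r 2) * ((e 1).im * (e 0).re - (e 1).re * (e 0).im) = 0 := by
      linear_combination (e 0).im * hA0 - (e 0).re * hB0
    rcases mul_eq_zero.1 h1 with h2 | h2
    · linarith
    · exact absurd h2 hJ
  have hrm : r m = b m := by rw [hr]; simp
  have hall : ∀ i, r i = r m := by
    intro i
    have h1 : ∀ i, r i = r 2 := by
      intro i
      fin_cases i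
      · exact h02
      · exact h12
      · rfl
    rw [h1 i, h1 m]
  have hall2 : ∀ i, w i = w m ∧ b i = b m := by
    intro i
    have h1 := hall i
    rw [hrm] at h1
    by_cases h2 : w i = w m
    · refine ⟨h2, ?_⟩
      rw [hr] at h1
      simp only [h2, if_true] at h1
      exact h1
    · rw [hr] at h1
      simp only [if_neg h2] at h1
      exact absurd h1.symm (hb0 m).ne'
  have hfin : ∀ s t, (∀ i, t ≠ d i) → (∀ i, LY c d t i = s * w i) → t = K / D := by
    intro s t ht hs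
    have h1 := hE s t ht hs
    have h2 : ∑ i, e i * ((b i * Real.exp (2 * w i * s) : ℝ) : ℂ) =
        (∑ i, e i) * ((b m * Real.exp (2 * w m * s) : ℝ) : ℂ) := by
      rw [Finset.sum_mul]
      refine Finset.sum_congr rfl fun i _ => ?_
      rw [(hall2 i).1, (hall2 i).2]
    have h3 : ∑ i, e i = 0 := by
      rw [Fin.sum_univ_three, e0, e1, e2]
      ring
    rw [h2, h3, zero_mul] at h1
    rw [eq_div_iff hD]
    linear_combination h1
  obtain ⟨s, hs, s', hs', hne⟩ := hinf.nontrivial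
  obtain ⟨t, ht, h1⟩ := hs
  obtain ⟨t', ht', h1'⟩ := hs'
  have h2 := hfin s t ht h1
  have h2' := hfin s' t' ht' h1'
  apply hne
  have h3 := h1 m
  have h3' := h1' m
  rw [h2', ← h2, h3] at h3'
  exact mul_right_cancel₀ hm0 h3'

/-- Three points on a line. -/
theorem hhc_col {c d : Fin 3 → ℂ} (hc : ∀ i, c i ≠ 0) (hd : Function.Injective d) {w : Fin 3 → ℝ} (hw : w ≠ 0)
    (hD : ∑ i, hhc_e d i * (starRingEnd ℂ) (d i) = 0)
    (hinf : {s : ℝ | ∃ t : ℂ, (∀ i, t ≠ d i) ∧ ∀ i, LY c d t i = s * w i}.Infinite) :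
    ∃ i j k : Fin 3, i ≠ j ∧ j ≠ k ∧ i ≠ k ∧
      ((‖c i‖ ^ 2 : ℝ) : ℂ) * ((d j - d i) * (starRingEnd ℂ) (d k - d i)) = 1 ∧
      ‖c i‖ * ‖c j‖ * ‖d j - d i‖ = ‖c k‖ := by
  obtain ⟨b, hb⟩ : ∃ b : Fin 3 → ℝ, b = fun i => (‖c i‖ ^ 2)⁻¹ := ⟨_, rfl⟩
  have hb0 : ∀ i, 0 < b i := by
    intro i
    rw [hb]
    have := norm_pos_iff.2 (hc i)
    positivity
  obtain ⟨e, he⟩ : ∃ e : Fin 3 → ℂ, e = hhc_e d := ⟨_, rfl⟩
  have e0 : e 0 = d 1 - d 2 := by rw [he]; rfl
  have e1 : e 1 = d 2 - d 0 := by rw [he]; rfl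
  have e2 : e 2 = d 0 - d 1 := by rw [he]; rfl
  have hd01 : d 0 ≠ d 1 := fun h => absurd (hd h) (by decide)
  have hd12 : d 1 ≠ d 2 := fun h => absurd (hd h) (by decide)
  have hd02 : d 0 ≠ d 2 := fun h => absurd (hd h) (by decide)
  have he0 : ∀ i, e i ≠ 0 := by
    intro i
    fin_cases i
    · show e 0 ≠ 0
      rw [e0]; exact sub_ne_zero.2 hd12
    · show e 1 ≠ 0
      rw [e1]; exact sub_ne_zero.2 hd02.symm
    · show e 2 ≠ 0
      rw [e2]; exact sub_ne_zero.2 hd01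
  have hid := fun t => hhc_id d t
  rw [← he] at hD hid
  obtain ⟨K, hKK⟩ : ∃ K : ℂ, K = ∑ i, e i * (d i * (starRingEnd ℂ) (d i)) := ⟨_, rfl⟩
  rw [hD, ← hKK] at hid
  have hE : ∀ s t, (∀ i, t ≠ d i) → (∀ i, LY c d t i = s * w i) →
      ∑ i, e i * ((b i * Real.exp (2 * w i * s) : ℝ) : ℂ) = K := by
    intro s t ht hs
    have h1 := hid t
    rw [zero_mul, sub_zero] at h1
    rw [← h1]
    refine Finset.sum_congr rfl fun i _ => ?_
    rw [hhc_norm hc ht hs i, hb]
  -- the real numbers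
  have hq1 : e 1 * (starRingEnd ℂ) (e 0) = e 0 * (starRingEnd ℂ) (e 1) := by
    rw [Fin.sum_univ_three, e0, e1, e2] at hD
    rw [e0, e1]
    simp only [map_sub]
    linear_combination hD
  have him : ∀ i, (e i * (starRingEnd ℂ) (e 0)).im = 0 := by
    have h0 : (e 0 * (starRingEnd ℂ) (e 0)).im = 0 := by
      rw [hhc_sq]
      exact Complex.ofReal_im _
    have h1 : (e 1 * (starRingEnd ℂ) (e 0)).im = 0 := by
      have h2 : (starRingEnd ℂ) (e 1 * (starRingEnd ℂ) (e 0)) = e 1 * (starRingEnd ℂ) (e 0) := by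
        rw [map_mul, Complex.conj_conj, hq1]
        ring
      exact Complex.conj_eq_iff_im.1 h2
    intro i
    fin_cases i
    · exact h0
    · exact h1
    · show (e 2 * (starRingEnd ℂ) (e 0)).im = 0
      have h3 : e 2 * (starRingEnd ℂ) (e 0) = -(e 0 * (starRingEnd ℂ) (e 0)) - e 1 * (starRingEnd ℂ) (e 0) := by
        have : e 2 = -e 0 - e 1 := by rw [e0, e1, e2]; ring
        rw [this]
        ring
      rw [h3, Complex.sub_im, Complex.neg_im, h0, h1]
      ring
  obtain ⟨ρ, hρ⟩ : ∃ ρ : Fin 3 → ℝ, ρ = fun i => (e i * (starRingEnd ℂ) (e 0)).re := ⟨_, rfl⟩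
  have hρe : ∀ i, e i * (starRingEnd ℂ) (e 0) = (ρ i : ℂ) := by
    intro i
    rw [hρ]
    exact Complex.ext (by simp) (by simp [him i])
  have hce0 : (starRingEnd ℂ) (e 0) ≠ 0 := (map_ne_zero _).2 (he0 0)
  have hρ0 : ∀ i, ρ i ≠ 0 := by
    intro i h
    have h1 := hρe i
    rw [h, Complex.ofReal_zero] at h1
    exact (mul_ne_zero (he0 i) hce0) h1
  obtain ⟨k, hk⟩ : ∃ k : ℝ, k = (K * (starRingEnd ℂ) (e 0)).re := ⟨_, rfl⟩
  have hEr : ∀ s t, (∀ i, t ≠ d i) → (∀ i, LY c d t i = s * w i) →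
      K * (starRingEnd ℂ) (e 0) = ((∑ i, ρ i * b i * Real.exp (2 * w i * s) : ℝ) : ℂ) := by
    intro s t ht hs
    rw [← hE s t ht hs, Finset.sum_mul, Complex.ofReal_sum]
    refine Finset.sum_congr rfl fun i _ => ?_
    have := hρe i
    push_cast
    rw [← this]
    ring
  have hKk : K * (starRingEnd ℂ) (e 0) = (k : ℂ) := by
    obtain ⟨s, t, ht, hs⟩ := hinf.nonempty
    rw [hk, hEr s t ht hs, Complex.ofReal_re]
  have hK0 : K ≠ 0 := by
    have h1 : K = (d 1 - d 0) * (d 2 - d 0) * ((starRingEnd ℂ) (d 1) - (starRingEnd ℂ) (d 2)) := by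
      rw [hKK]
      rw [Fin.sum_univ_three, e0, e1, e2] at hD
      rw [Fin.sum_univ_three, e0, e1, e2]
      linear_combination d 0 * hD
    rw [h1, ← map_sub]
    exact mul_ne_zero (mul_ne_zero (sub_ne_zero.2 hd01.symm) (sub_ne_zero.2 hd02.symm))
      ((map_ne_zero _).2 (sub_ne_zero.2 hd12))
  have hk0 : k ≠ 0 := by
    intro h
    rw [h, Complex.ofReal_zero] at hKk
    exact (mul_ne_zero hK0 hce0) hKk
  have hinf2 : {s : ℝ | ∑ o : Option (Fin 3), (o.elim (-k) (fun i => ρ i * b i)) *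
      Real.exp ((o.elim 0 (fun i => 2 * w i)) * s) = 0}.Infinite := by
    refine hinf.mono ?_
    rintro s ⟨t, ht, hs⟩
    show ∑ o : Option (Fin 3), (o.elim (-k) (fun i => ρ i * b i)) *
      Real.exp ((o.elim 0 (fun i => 2 * w i)) * s) = 0
    rw [Fintype.sum_option]
    simp only [Option.elim_none, Option.elim_some, zero_mul, Real.exp_zero, mul_one]
    have h1 := hEr s t ht hs
    rw [hKk] at h1
    have h2 : k = ∑ i, ρ i * b i * Real.exp (2 * w i * s) := by exact_mod_cast h1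
    rw [← h2]
    ring
  obtain ⟨p, hp⟩ : ∃ p : Fin 3 → ℝ, p = fun i => ρ i * b i := ⟨_, rfl⟩
  have hp0 : ∀ i, p i ≠ 0 := by
    intro i
    rw [hp]
    exact mul_ne_zero (hρ0 i) (hb0 i).ne'
  have key : ∀ μ : ℝ, (if (0 : ℝ) = μ then -k else 0) + ((if 2 * w 0 = μ then p 0 else 0) +
      (if 2 * w 1 = μ then p 1 else 0) + (if 2 * w 2 = μ then p 2 else 0)) = 0 := by
    intro μ
    have h1 := hhc_coeff (fun o : Option (Fin 3) => o.elim (-k) (fun i => ρ i * b i))
      (fun o => o.elim 0 (fun i => 2 * w i)) hinf2 μ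
    rw [Fintype.sum_option, Fin.sum_univ_three] at h1
    simp only [Option.elim_none, Option.elim_some] at h1
    rw [hp]
    exact h1
  have n0 : ∀ i, w i ≠ 0 → ¬ ((0 : ℝ) = 2 * w i) := fun i h h1 => h (by linarith)
  have n1 : ∀ i, w i ≠ 0 → ¬ (2 * w i = 0) := fun i h h1 => h (by linarith)
  have n2 : ∀ i j, w i ≠ w j → ¬ (2 * w i = 2 * w j) := fun i j h h1 => h (by linarith)
  -- conclusion from the relations
  have fin1 : ∀ i j l : Fin 3, p i = k → p j + p l = 0 → e i * (b i : ℂ) = K ∧ e j * (b j : ℂ) + e l * (b l : ℂ) = 0 := by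
    intro i j l h1 h2
    constructor
    · apply mul_right_cancel₀ hce0
      rw [hKk, ← h1, hp]
      push_cast
      rw [← hρe i]
      ring
    · apply mul_right_cancel₀ hce0
      rw [zero_mul]
      have h3 : ((p j + p l : ℝ) : ℂ) = 0 := by rw [h2, Complex.ofReal_zero]
      rw [hp] at h3
      push_cast at h3
      rw [← hρe j, ← hρe l] at h3
      rw [← h3]
      ring
  have cpos : ∀ i, 0 < ‖c i‖ := fun i => norm_pos_iff.2 (hc i)
  have hbi : ∀ i, b i = (‖c i‖ ^ 2)⁻¹ := fun i => by rw [hb]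
  rw [Fin.sum_univ_three, e0, e1, e2] at hD
  rw [Fin.sum_univ_three, e0, e1, e2] at hKK
  have c012 : p 0 = k → p 1 + p 2 = 0 → ∃ i j k : Fin 3, i ≠ j ∧ j ≠ k ∧ i ≠ k ∧
      ((‖c i‖ ^ 2 : ℝ) : ℂ) * ((d j - d i) * (starRingEnd ℂ) (d k - d i)) = 1 ∧
      ‖c i‖ * ‖c j‖ * ‖d j - d i‖ = ‖c k‖ := by
    intro h1 h2
    obtain ⟨h3, h4⟩ := fin1 0 1 2 h1 h2
    rw [e0] at h3
    rw [e1, e2] at h4
    refine ⟨0, 1, 2, by decide, by decide, by decide,
      hhc_sp (bi := b 0) (bj := b 1) (bk := b 2) ?_ ?_ ?_ ?_ (hbi 0) (hbi 1) (hbi 2) (cpos 0) (cpos 1) (cpos 2)⟩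
    · intro h; exact hd12 (by linear_combination h)
    · simp only [map_sub]; linear_combination hD
    · simp only [map_sub]; linear_combination h3 + hKK + d 0 * hD
    · linear_combination h4
  have c120 : p 1 = k → p 2 + p 0 = 0 → ∃ i j k : Fin 3, i ≠ j ∧ j ≠ k ∧ i ≠ k ∧
      ((‖c i‖ ^ 2 : ℝ) : ℂ) * ((d j - d i) * (starRingEnd ℂ) (d k - d i)) = 1 ∧
      ‖c i‖ * ‖c j‖ * ‖d j - d i‖ = ‖c k‖ := by
    intro h1 h2
    obtain ⟨h3, h4⟩ := fin1 1 2 0 h1 h2
    rw [e1] at h3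
    rw [e2, e0] at h4
    refine ⟨1, 2, 0, by decide, by decide, by decide,
      hhc_sp (bi := b 1) (bj := b 2) (bk := b 0) ?_ ?_ ?_ ?_ (hbi 1) (hbi 2) (hbi 0) (cpos 1) (cpos 2) (cpos 0)⟩
    · intro h; exact hd02 (by linear_combination -h)
    · simp only [map_sub]; linear_combination hD
    · simp only [map_sub]; linear_combination h3 + hKK + d 1 * hD
    · linear_combination h4
  have c201 : p 2 = k → p 0 + p 1 = 0 → ∃ i j k : Fin 3, i ≠ j ∧ j ≠ k ∧ i ≠ k ∧
      ((‖c i‖ ^ 2 : ℝ) : ℂ) * ((d j - d i) * (starRingEnd ℂ) (d k - d i)) = 1 ∧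
      ‖c i‖ * ‖c j‖ * ‖d j - d i‖ = ‖c k‖ := by
    intro h1 h2
    obtain ⟨h3, h4⟩ := fin1 2 0 1 h1 h2
    rw [e2] at h3
    rw [e0, e1] at h4
    refine ⟨2, 0, 1, by decide, by decide, by decide,
      hhc_sp (bi := b 2) (bj := b 0) (bk := b 1) ?_ ?_ ?_ ?_ (hbi 2) (hbi 0) (hbi 1) (cpos 2) (cpos 0) (cpos 1)⟩
    · intro h; exact hd01 (by linear_combination h)
    · simp only [map_sub]; linear_combination hD
    · simp only [map_sub]; linear_combination h3 + hKK + d 2 * hD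
    · linear_combination h4
  by_cases w0 : w 0 = 0
  · by_cases w1 : w 1 = 0
    · have w2 : w 2 ≠ 0 := by
        intro w2
        apply hw
        funext i
        fin_cases i
        · exact w0
        · exact w1
        · exact w2
      have h1 := key (2 * w 2)
      rw [if_neg (n0 2 w2), if_neg (n2 0 2 (by rw [w0]; exact w2.symm)), if_neg (n2 1 2 (by rw [w1]; exact w2.symm)),
        if_pos rfl] at h1
      exact absurd (by linarith) (hp0 2)
    · by_cases w12 : w 1 = w 2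
      · have h1 := key (2 * w 1)
        rw [if_neg (n0 1 w1), if_neg (n2 0 1 (by rw [w0]; exact Ne.symm w1)), if_pos rfl, if_pos (by rw [w12])] at h1
        have h2 := key 0
        rw [if_pos rfl, if_pos (by rw [w0, mul_zero]), if_neg (n1 1 w1), if_neg (n1 2 (by rw [← w12]; exact w1))] at h2
        exact c012 (by linarith) (by linarith)
      · have h1 := key (2 * w 1)
        rw [if_neg (n0 1 w1), if_neg (n2 0 1 (by rw [w0]; exact Ne.symm w1)), if_pos rfl,
          if_neg (n2 2 1 (Ne.symm w12))] at h1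
        exact absurd (by linarith) (hp0 1)
  · by_cases w1 : w 1 = 0
    · by_cases w02 : w 0 = w 2
      · have h1 := key (2 * w 0)
        rw [if_neg (n0 0 w0), if_pos rfl, if_neg (n2 1 0 (by rw [w1]; exact Ne.symm w0)), if_pos (by rw [w02])] at h1
        have h2 := key 0
        rw [if_pos rfl, if_neg (n1 0 w0), if_pos (by rw [w1, mul_zero]), if_neg (n1 2 (by rw [← w02]; exact w0))] at h2
        exact c120 (by linarith) (by linarith)
      · have h1 := key (2 * w 0)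
        rw [if_neg (n0 0 w0), if_pos rfl, if_neg (n2 1 0 (by rw [w1]; exact Ne.symm w0)),
          if_neg (n2 2 0 (Ne.symm w02))] at h1
        exact absurd (by linarith) (hp0 0)
    · by_cases w2 : w 2 = 0
      · by_cases w01 : w 0 = w 1
        · have h1 := key (2 * w 0)
          rw [if_neg (n0 0 w0), if_pos rfl, if_pos (by rw [w01]), if_neg (n2 2 0 (by rw [w2]; exact Ne.symm w0))] at h1
          have h2 := key 0
          rw [if_pos rfl, if_neg (n1 0 w0), if_neg (n1 1 w1), if_pos (by rw [w2, mul_zero])] at h2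
          exact c201 (by linarith) (by linarith)
        · have h1 := key (2 * w 0)
          rw [if_neg (n0 0 w0), if_pos rfl, if_neg (n2 1 0 (Ne.symm w01)),
            if_neg (n2 2 0 (by rw [w2]; exact Ne.symm w0))] at h1
          exact absurd (by linarith) (hp0 0)
      · have h2 := key 0
        rw [if_pos rfl, if_neg (n1 0 w0), if_neg (n1 1 w1), if_neg (n1 2 w2)] at h2
        exact absurd (by linarith) hk0

/-- CRITERION. Condition (H) holds for the line `y_i = c_i (t - d_i)` of `G_m^3` (`c_i ≠ 0`, the `d_i` different) unless for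
some numbering `{i, j, k}` of the coordinates `d_j, d_k` are inverse points of the circle `|y_i| = 1` and `|y_j| = |y_k|` on it. -/
theorem HH_of {c d : Fin 3 → ℂ} (hc : ∀ i, c i ≠ 0) (hd : Function.Injective d)
    (hns : ∀ i j k : Fin 3, i ≠ j → j ≠ k → i ≠ k →
      ¬ (((‖c i‖ ^ 2 : ℝ) : ℂ) * ((d j - d i) * (starRingEnd ℂ) (d k - d i)) = 1 ∧
        ‖c i‖ * ‖c j‖ * ‖d j - d i‖ = ‖c k‖)) : HH c d := by
  intro u v huv
  by_contra hinf
  obtain ⟨w, hw, hline⟩ := hhc_line huv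
  have hinf' : {t : ℂ | (∀ i, t ≠ d i) ∧ dt u (LY c d t) = 0 ∧ dt v (LY c d t) = 0}.Infinite := hinf
  have hS : {s : ℝ | ∃ t : ℂ, (∀ i, t ≠ d i) ∧ ∀ i, LY c d t i = s * w i}.Infinite := by
    intro hfin
    apply hinf'
    refine Set.Finite.subset (hfin.biUnion (t := fun s =>
      {t : ℂ | ‖t - d 0‖ ^ 2 = (‖c 0‖ ^ 2)⁻¹ * Real.exp (2 * w 0 * s) ∧
        ‖t - d 1‖ ^ 2 = (‖c 1‖ ^ 2)⁻¹ * Real.exp (2 * w 1 * s)}) fun s _ =>
        hhc_fib (fun h => absurd (hd h) (by decide)) _ _) ?_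
    rintro t ⟨ht, h1, h2⟩
    obtain ⟨s, hs⟩ := hline _ h1 h2
    refine Set.mem_biUnion (x := s) ⟨t, ht, hs⟩ ?_
    exact ⟨hhc_norm hc ht hs 0, hhc_norm hc ht hs 1⟩
  by_cases hD : ∑ i, hhc_e d i * (starRingEnd ℂ) (d i) = 0
  · obtain ⟨i, j, k, h1, h2, h3, h4⟩ := hhc_col hc hd hw hD hS
    exact hns i j k h1 h2 h3 h4
  · exact hhc_noncol hc hw hD hS

end Pool.Agent.Z5

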