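import Pool.Agent.Z5.Defs

namespace Pool.Agent.Z5

open Pool.Agent.ZL2 Filter Topology

theorem a1_pow (b : ℝ) (hb : 1 ≤ b) (m n : ℕ) (h : m ≤ n) : b ^ m ≤ b ^ n := pow_le_pow_right₀ hb h

/-- Row Z5-A1. An integral polynomial which is very small at a given point. Pigeonhole `ZL2.pigeon` with `A = Fin k → Fin (L+1)`,
`J = Fin 2` (real and imaginary part of `∏ j, w0 j ^ α j`), `B = 2 ^ L`, `S = R ^ (k L)` with `R = max 1 (max ‖w0 j‖)`,
`η = exp (-((C+1) L)) / 4`: for `L` large `(2·2^L (L+1)^k S/η + 2)^2 < (2^L + 1)^((L+1)^k)` since the left side is `exp (O(L))`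
and the right side is `≥ 2^(L (L+1))`. -/
theorem pt_small (k : ℕ) (hk : 1 ≤ k) (w0 : Fin k → ℂ) (C : ℝ) :
    ∃ (L : ℕ) (f : (Fin k → Fin (L + 1)) → ℤ), 1 ≤ L ∧ f ≠ 0 ∧ (∀ α, |f α| ≤ 2 ^ L) ∧
      ‖ev f w0‖ < Real.exp (-(C * L)) := by
  classical
  obtain ⟨R, hR1, hR⟩ : ∃ R : ℝ, 1 ≤ R ∧ ∀ j, ‖w0 j‖ ≤ R := by
    refine ⟨1 + ∑ j, ‖w0 j‖, ?_, fun j => ?_⟩
    · have := Finset.sum_nonneg (fun j (_ : j ∈ Finset.univ) => norm_nonneg (w0 j)); linarith
    · have := Finset.single_le_sum (f := fun j => ‖w0 j‖) (fun j _ => norm_nonneg (w0 j)) (Finset.mem_univ j)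
      linarith
  have hR0 : 0 < R := by linarith
  set C1 : ℝ := max C 0 with hC1
  have hC10 : 0 ≤ C1 := le_max_right _ _
  have hlR : 0 ≤ Real.log R := Real.log_nonneg hR1
  set E : ℝ := 1 + k + k * Real.log R + C1 with hE
  have hE0 : 0 ≤ E := by positivity
  obtain ⟨L, hL⟩ : ∃ L : ℕ, 4 * (E + 3) ≤ L := exists_nat_ge _
  have hL1 : (1 : ℝ) ≤ L := by linarith
  have hLn : 1 ≤ L := by exact_mod_cast hL1
  have hL0 : (0 : ℝ) ≤ L := by linarith
  set S : ℝ := R ^ (k * L) with hS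
  have hS0 : 0 ≤ S := by positivity
  set η : ℝ := Real.exp (-(C1 * L)) / 4 with hη
  have hη0 : 0 < η := by positivity
  have hc : ∀ (α : Fin k → Fin (L + 1)) (j : Fin 2),
      |(![fun α : Fin k → Fin (L + 1) => (∏ j, w0 j ^ (α j : ℕ)).re, fun α => (∏ j, w0 j ^ (α j : ℕ)).im] j) α| ≤ S := by
    intro α j
    have h1 : ‖∏ j, w0 j ^ (α j : ℕ)‖ ≤ S := by
      rw [norm_prod]
      calc ∏ j, ‖w0 j ^ (α j : ℕ)‖ ≤ ∏ _j : Fin k, R ^ L := by
            refine Finset.prod_le_prod (fun _ _ => norm_nonneg _) fun j _ => ?_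
            rw [norm_pow]
            exact (pow_le_pow_left₀ (norm_nonneg _) (hR j) _).trans
              (a1_pow R hR1 _ _ (Nat.lt_succ_iff.1 (α j).2))
        _ = S := by rw [Finset.prod_const, Finset.card_univ, Fintype.card_fin, ← pow_mul, mul_comm L k]
    fin_cases j
    · exact (Complex.abs_re_le_norm _).trans h1
    · exact (Complex.abs_im_le_norm _).trans h1
  have hcount : (2 * ((2 ^ L : ℕ) : ℝ) * (Fintype.card (Fin k → Fin (L + 1)) : ℝ) * S / η + 2) ^ Fintype.card (Fin 2) <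
      (((2 ^ L : ℕ) : ℝ) + 1) ^ Fintype.card (Fin k → Fin (L + 1)) := by
    rw [Fintype.card_fin, Fintype.card_fun, Fintype.card_fin, Fintype.card_fin]
    push_cast
    have e1 : (2 : ℝ) ^ L ≤ Real.exp L := by
      have h2 : (2 : ℝ) ≤ Real.exp 1 := by have := Real.add_one_le_exp (1 : ℝ); linarith
      calc (2 : ℝ) ^ L ≤ Real.exp 1 ^ L := pow_le_pow_left₀ (by norm_num) h2 _
        _ = Real.exp L := by rw [← Real.exp_nat_mul, mul_one]
    have e2 : ((L : ℝ) + 1) ^ k ≤ Real.exp (k * L) := by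
      calc ((L : ℝ) + 1) ^ k ≤ Real.exp L ^ k := pow_le_pow_left₀ (by positivity) (Real.add_one_le_exp _) _
        _ = Real.exp (k * L) := by rw [← Real.exp_nat_mul]
    have e3 : S = Real.exp (k * Real.log R * L) := by
      rw [hS, show (k : ℝ) * Real.log R * L = ((k * L : ℕ) : ℝ) * Real.log R by push_cast; ring,
        Real.exp_nat_mul, Real.exp_log hR0]
    have e4 : 2 * (2 : ℝ) ^ L * ((L : ℝ) + 1) ^ k * S / η + 2 ≤ Real.exp ((E + 3) * L) := by
      have h1 : 2 * (2 : ℝ) ^ L * ((L : ℝ) + 1) ^ k * S / η = 8 * ((2 : ℝ) ^ L * ((L : ℝ) + 1) ^ k * S * Real.exp (C1 * L)) := by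
        rw [hη, Real.exp_neg]
        field_simp
        ring
      have h2 : (2 : ℝ) ^ L * ((L : ℝ) + 1) ^ k * S * Real.exp (C1 * L) ≤ Real.exp (E * L) := by
        calc (2 : ℝ) ^ L * ((L : ℝ) + 1) ^ k * S * Real.exp (C1 * L)
            ≤ Real.exp L * Real.exp (k * L) * Real.exp (k * Real.log R * L) * Real.exp (C1 * L) := by
              rw [e3]
              gcongr
          _ = Real.exp (E * L) := by
              rw [← Real.exp_add, ← Real.exp_add, ← Real.exp_add, hE]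
              congr 1; ring
      have h3 : 1 ≤ Real.exp (E * L) := Real.one_le_exp (by positivity)
      have h4 : (10 : ℝ) ≤ Real.exp (3 * L) := by
        have h5 : Real.exp 3 ≤ Real.exp (3 * L) := Real.exp_le_exp.2 (by linarith)
        have h6 : (10 : ℝ) ≤ Real.exp 3 := by
          have h7 := Real.exp_one_gt_d9
          have h8 : Real.exp 3 = Real.exp 1 ^ 3 := by rw [← Real.exp_nat_mul]; norm_num
          rw [h8]
          have h9 : (2.7 : ℝ) ^ 3 ≤ Real.exp 1 ^ 3 := pow_le_pow_left₀ (by norm_num) (by linarith) 3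
          norm_num at h9 ⊢
          linarith
        linarith
      have h10 : Real.exp ((E + 3) * L) = Real.exp (3 * L) * Real.exp (E * L) := by
        rw [← Real.exp_add]; congr 1; ring
      rw [h1, h10]
      nlinarith
    have e5 : (2 * (2 : ℝ) ^ L * ((L : ℝ) + 1) ^ k * S / η + 2) ^ 2 ≤ Real.exp (2 * ((E + 3) * L)) := by
      calc _ ≤ Real.exp ((E + 3) * L) ^ 2 := pow_le_pow_left₀ (by positivity) e4 2
        _ = Real.exp (2 * ((E + 3) * L)) := by
            have := Real.exp_nat_mul ((E + 3) * L) 2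
            push_cast at this
            exact this.symm
    have e6 : Real.exp (2 * ((E + 3) * L)) < ((2 : ℝ) ^ L) ^ (L + 1) := by
      have h1 : ((2 : ℝ) ^ L) ^ (L + 1) = Real.exp (((L * (L + 1) : ℕ) : ℝ) * Real.log 2) := by
        rw [← pow_mul, Real.exp_nat_mul, Real.exp_log (by norm_num)]
      rw [h1]
      refine Real.exp_lt_exp.2 ?_
      push_cast
      have h2 := Real.log_two_gt_d9
      have h3 : (L : ℝ) * ((L + 1) * Real.log 2) > L * (2 * (E + 3)) := by
        refine mul_lt_mul_of_pos_left ?_ (by linarith)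
        nlinarith
      linarith
    have e7 : ((2 : ℝ) ^ L) ^ (L + 1) ≤ ((2 : ℝ) ^ L + 1) ^ ((L + 1) ^ k) := by
      have h1 : (1 : ℝ) ≤ 2 ^ L := one_le_pow₀ (by norm_num)
      calc ((2 : ℝ) ^ L) ^ (L + 1) ≤ ((2 : ℝ) ^ L) ^ ((L + 1) ^ k) := by
            refine pow_le_pow_right₀ h1 ?_
            calc L + 1 = (L + 1) ^ 1 := (pow_one _).symm
              _ ≤ (L + 1) ^ k := Nat.pow_le_pow_right (Nat.succ_pos _) hk
        _ ≤ _ := pow_le_pow_left₀ (by positivity) (by linarith) _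
    exact (e5.trans_lt e6).trans_le e7
  obtain ⟨f, hf0, hfB, hf⟩ := pigeon (A := Fin k → Fin (L + 1)) (J := Fin 2) (2 ^ L)
    (fun α j => (![fun α : Fin k → Fin (L + 1) => (∏ j, w0 j ^ (α j : ℕ)).re, fun α => (∏ j, w0 j ^ (α j : ℕ)).im] j) α)
    S η hη0 hS0 hc hcount
  refine ⟨L, f, hLn, hf0, fun α => ?_, ?_⟩
  · have := hfB α
    push_cast at this
    exact this
  · have hre := hf 0
    have him := hf 1
    have h1 : (ev f w0).re = ∑ α, (f α : ℝ) * (∏ j, w0 j ^ (α j : ℕ)).re := by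
      unfold ev
      rw [Complex.re_sum]
      refine Finset.sum_congr rfl fun α _ => ?_
      simp
    have h2 : (ev f w0).im = ∑ α, (f α : ℝ) * (∏ j, w0 j ^ (α j : ℕ)).im := by
      unfold ev
      rw [Complex.im_sum]
      refine Finset.sum_congr rfl fun α _ => ?_
      simp
    simp only [Matrix.cons_val_zero, Matrix.cons_val_one] at hre him
    have h3 : ‖ev f w0‖ ≤ |(ev f w0).re| + |(ev f w0).im| := Complex.norm_le_abs_re_add_abs_im _
    rw [h1, h2] at h3
    have h4 : Real.exp (-(C1 * L)) ≤ Real.exp (-(C * L)) := by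
      refine Real.exp_le_exp.2 ?_
      have : C * L ≤ C1 * L := mul_le_mul_of_nonneg_right (le_max_left _ _) hL0
      linarith
    have h5 : 0 < Real.exp (-(C1 * L)) := Real.exp_pos _
    calc ‖ev f w0‖ ≤ η + η := h3.trans (add_le_add hre him)
      _ < Real.exp (-(C1 * L)) := by rw [hη]; linarith
      _ ≤ _ := h4

end Pool.Agent.Z5
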