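import Pool.Agent.Z5.A1

namespace Pool.Agent.Z5

open Pool.Agent.ZL2 Filter Topology

/-- Row Z5-A2a. No atoms: few points of the orbits are close to a given point. From `pt_small` with `k = 1` and
`C > max κ 0 / θ`, `C > 0`: `f` with `‖ev f w0‖ < exp (-(C L))`; by continuity of `w ↦ ev f (fun _ => w)` there is `δ > 0` with
`‖ev f w‖ ≤ exp (-(C L))` for `‖w - w0‖ < δ`; apply `Gen` and `fr_mono`. -/
theorem noatom {U : Filter ℕ} {ι : ℕ → Type} [∀ n, Fintype (ι n)] {κ : ℝ} {z : ∀ n, ι n → ℂ}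
    (hG : Gen (k := 1) U κ (fun n σ _ => z n σ)) (w0 : ℂ) {θ : ℝ} (hθ : 0 < θ) :
    ∃ δ : ℝ, 0 < δ ∧ ∀ᶠ n in U, fr (fun σ : ι n => ‖z n σ - w0‖ < δ) ≤ θ := by
  obtain ⟨C, hC0, hC⟩ : ∃ C : ℝ, 0 < C ∧ κ ≤ C * θ :=
    ⟨(|κ| + 1) / θ, by positivity, by rw [div_mul_cancel₀ _ hθ.ne']; linarith [le_abs_self κ]⟩
  obtain ⟨L, f, hL, hf, hb, hs⟩ := pt_small 1 le_rfl (fun _ => w0) C
  have hcont : Continuous (fun w : ℂ => ‖ev f (fun _ : Fin 1 => w)‖) := by
    unfold ev; fun_prop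
  have hev : ∀ᶠ w in 𝓝 w0, ‖ev f (fun _ : Fin 1 => w)‖ < Real.exp (-(C * L)) :=
    (hcont.tendsto w0).eventually (gt_mem_nhds hs)
  obtain ⟨δ, hδ, hδ'⟩ := Metric.eventually_nhds_iff.1 hev
  refine ⟨δ, hδ, ?_⟩
  filter_upwards [hG L f hL hf hb C hC0] with n hn
  have h1 : fr (fun σ : ι n => ‖z n σ - w0‖ < δ) ≤
      fr (fun σ : ι n => ‖ev f (fun _ : Fin 1 => z n σ)‖ ≤ Real.exp (-(C * L))) :=
    fr_mono fun σ hσ => (hδ' (by rwa [dist_eq_norm])).le
  have h2 : C * fr (fun σ : ι n => ‖z n σ - w0‖ < δ) ≤ C * θ :=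
    (mul_le_mul_of_nonneg_left h1 hC0.le).trans (hn.trans hC)
  exact le_of_mul_le_mul_left h2 hC0

variable {c d : Fin 3 → ℂ}

theorem a2_pos (hc : ∀ i, c i ≠ 0) {t : ℂ} {i : Fin 3} (ht : t ≠ d i) : 0 < ‖c i * (t - d i)‖ :=
  norm_pos_iff.2 (mul_ne_zero (hc i) (sub_ne_zero.2 ht))

theorem a2_KA_eq (hc : ∀ i, c i ≠ 0) (A : ℝ) :
    KA c d A = ⋂ i, {t : ℂ | Real.exp (-A) ≤ ‖c i * (t - d i)‖ ∧ ‖c i * (t - d i)‖ ≤ Real.exp A} := by
  ext t
  simp only [KA, Set.mem_ofPred_eq, Set.mem_iInter]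
  constructor
  · rintro ⟨h1, h2⟩ i
    have hp := a2_pos hc (h1 i)
    have h3 := abs_le.1 (h2 i)
    exact ⟨(Real.le_log_iff_exp_le hp).1 h3.1, (Real.log_le_iff_le_exp hp).1 h3.2⟩
  · intro h
    have hp : ∀ i, 0 < ‖c i * (t - d i)‖ := fun i => (Real.exp_pos _).trans_le (h i).1
    refine ⟨fun i hi => ?_, fun i => abs_le.2 ⟨(Real.le_log_iff_exp_le (hp i)).2 (h i).1,
      (Real.log_le_iff_le_exp (hp i)).2 (h i).2⟩⟩
    have := hp i
    rw [hi, sub_self, mul_zero, norm_zero] at this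
    exact lt_irrefl _ this

/-- Row Z5-A2b. `KA` is compact: `‖c_0 (t - d_0)‖ ≤ exp A` so `t` is bounded; it is closed because
`(∀ i, t ≠ d i) ∧ |LY t i| ≤ A` is equivalent to `exp (-A) ≤ ‖c_i (t - d_i)‖ ≤ exp A` for all `i` (`c_i ≠ 0`). -/
theorem KA_compact (hc : ∀ i, c i ≠ 0) (A : ℝ) : IsCompact (KA c d A) := by
  rw [a2_KA_eq hc]
  refine Metric.isCompact_of_isClosed_isBounded ?_ ?_
  · refine isClosed_iInter fun i => ?_
    have hi : Continuous (fun t : ℂ => ‖c i * (t - d i)‖) := by fun_prop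
    exact (isClosed_le continuous_const hi).inter (isClosed_le hi continuous_const)
  · refine (Metric.isBounded_closedBall (x := d 0) (r := Real.exp A / ‖c 0‖)).subset fun t ht => ?_
    have h0 := (Set.mem_iInter.1 ht 0).2
    rw [Metric.mem_closedBall, dist_eq_norm, le_div_iff₀ (norm_pos_iff.2 (hc 0)), mul_comm, ← norm_mul]
    exact h0

/-- Row Z5-A2c. `LY c d · i` is continuous at `t ≠ d i`. -/
theorem continuousAt_LY (hc : ∀ i, c i ≠ 0) {t : ℂ} {i : Fin 3} (ht : t ≠ d i) :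
    ContinuousAt (fun t => LY c d t i) t := by
  unfold LY
  exact ContinuousAt.log (by fun_prop) (a2_pos hc ht).ne'

/-- Row Z5-A2d. Few points of the orbits are outside a large `KA` (`fr_markov` for the three coordinates and `fr_exists`). -/
theorem KA_tail {ι : Type} [Fintype ι] [Nonempty ι] (t : ι → ℂ) (ht : ∀ σ i, t σ ≠ d i) (B : ℝ)
    (hB : ∀ i, ∑ σ, |LY c d (t σ) i| ≤ B * Fintype.card ι) {A : ℝ} (hA : 0 < A) :
    fr (fun σ => t σ ∉ KA c d A) ≤ 3 * (B / A) := by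
  have h1 : fr (fun σ => t σ ∉ KA c d A) ≤
      fr (fun σ => ∃ i ∈ (Finset.univ : Finset (Fin 3)), A < |LY c d (t σ) i|) := by
    refine fr_mono fun σ hσ => ?_
    by_contra hcon
    refine hσ ⟨ht σ, fun i => ?_⟩
    by_contra hi
    exact hcon ⟨i, Finset.mem_univ i, not_le.1 hi⟩
  refine h1.trans ((fr_exists _ _).trans ?_)
  refine (Finset.sum_le_sum fun i _ => fr_markov (fun σ => LY c d (t σ) i) B A hA (hB i)).trans ?_
  rw [Finset.sum_const, Finset.card_univ, Fintype.card_fin, nsmul_eq_mul]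
  norm_num

theorem a2_dt_sub (u v w : Fin 3 → ℝ) {A : ℝ} (hw : ∀ i, |w i| ≤ A) :
    |dt u w| ≤ |dt v w| + A * ∑ i, |v i - u i| := by
  have h1 : dt u w = dt v w - ∑ i, (v i - u i) * w i := by
    unfold dt
    rw [← Finset.sum_sub_distrib]
    exact Finset.sum_congr rfl fun i _ => by ring
  have h2 : |∑ i, (v i - u i) * w i| ≤ A * ∑ i, |v i - u i| := by
    refine (Finset.abs_sum_le_sum_abs _ _).trans ?_
    rw [Finset.mul_sum]
    refine Finset.sum_le_sum fun i _ => ?_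
    rw [abs_mul, mul_comm]
    exact mul_le_mul_of_nonneg_right (hw i) (abs_nonneg _)
  rw [h1]
  exact (abs_sub _ _).trans (by linarith)

theorem a2_tend {U : Filter ℕ} {un : ℕ → Fin 3 → ℝ} {u : Fin 3 → ℝ} (hu : Tendsto un U (𝓝 u)) :
    Tendsto (fun n => ∑ i, |un n i - u i|) U (𝓝 0) := by
  have h : Tendsto (fun n => ∑ i, |un n i - u i|) U (𝓝 (∑ i : Fin 3, |u i - u i|)) :=
    tendsto_finsetSum _ fun i _ => (((tendsto_pi_nhds.1 hu) i).sub tendsto_const_nhds).abs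
  simpa using h

/-- Row Z5-A2e. Tube lemma. By contradiction and compactness of `KA \ O`: on it the continuous function
`|dt u (LY t)| + |dt v (LY t)|` is positive, hence `≥ 2 η > 0` (if `KA \ O` is nonempty), and the `|LY t i|` are bounded by `A`, so
`|dt (un n) (LY t)| + |dt (vn n) (LY t)| ≥ 2 η - A (∑ |un n i - u i| + ∑ |vn n i - v i|) > 2 ε n` for `n` large. -/
theorem tube {U : Filter ℕ} (hc : ∀ i, c i ≠ 0) (A : ℝ) {un vn : ℕ → Fin 3 → ℝ} {u v : Fin 3 → ℝ} {ε : ℕ → ℝ}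
    (hu : Tendsto un U (𝓝 u)) (hv : Tendsto vn U (𝓝 v)) (hε : Tendsto ε U (𝓝 0)) {O : Set ℂ} (hO : IsOpen O)
    (h : ∀ t ∈ KA c d A, dt u (LY c d t) = 0 → dt v (LY c d t) = 0 → t ∈ O) :
    ∀ᶠ n in U, ∀ t ∈ KA c d A, |dt (un n) (LY c d t)| ≤ ε n → |dt (vn n) (LY c d t)| ≤ ε n → t ∈ O := by
  rcases (KA c d A \ O).eq_empty_or_nonempty with hem | hne
  · exact Eventually.of_forall fun n t ht _ _ => Set.sdiff_eq_empty.1 hem ht
  have hK : IsCompact (KA c d A \ O) := (KA_compact hc A).diff hO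
  have hdt : ∀ w : Fin 3 → ℝ, ∀ t ∈ KA c d A, ContinuousAt (fun t => dt w (LY c d t)) t := by
    intro w t ht
    unfold dt
    exact tendsto_finsetSum _ fun i _ => (continuousAt_LY hc (ht.1 i)).const_mul (w i)
  have hcont : ContinuousOn (fun t => |dt u (LY c d t)| + |dt v (LY c d t)|) (KA c d A \ O) := fun t ht =>
    ((hdt u t ht.1).abs.add (hdt v t ht.1).abs).continuousWithinAt
  obtain ⟨t0, ht0, hmin⟩ := hK.exists_isMinOn hne hcont
  have hpos : 0 < |dt u (LY c d t0)| + |dt v (LY c d t0)| := by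
    by_contra hcon
    have h1 := abs_nonneg (dt u (LY c d t0))
    have h2 := abs_nonneg (dt v (LY c d t0))
    exact ht0.2 (h t0 ht0.1 (abs_eq_zero.1 (by linarith)) (abs_eq_zero.1 (by linarith)))
  have hlim : Tendsto (fun n => A * (∑ i, |un n i - u i|) + A * (∑ i, |vn n i - v i|) + 2 * ε n) U (𝓝 0) := by
    simpa using (((a2_tend hu).const_mul A).add ((a2_tend hv).const_mul A)).add (hε.const_mul 2)
  filter_upwards [hlim.eventually (gt_mem_nhds hpos)] with n hn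
  intro t ht hut hvt
  by_contra htO
  have h1 : |dt u (LY c d t0)| + |dt v (LY c d t0)| ≤ |dt u (LY c d t)| + |dt v (LY c d t)| :=
    hmin ⟨ht, htO⟩
  have h2 := a2_dt_sub u (un n) (LY c d t) ht.2
  have h3 := a2_dt_sub v (vn n) (LY c d t) ht.2
  linarith

end Pool.Agent.Z5
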