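import Pool.Agent.Z5.A2

namespace Pool.Agent.Z5

open Pool.Agent.ZL2 Filter Topology

theorem a3_dt (u v : Fin 3 → ℝ) : dt u v = u 0 * v 0 + u 1 * v 1 + u 2 * v 2 := by
  unfold dt
  rw [Fin.sum_univ_three]

theorem a3_cont : Continuous fun p : (Fin 3 → ℝ) × (Fin 3 → ℝ) => dt p.1 p.2 := by
  unfold dt
  fun_prop

theorem a3_tendsto {α : Type} {F : Filter α} {u v : α → Fin 3 → ℝ} {u' v' : Fin 3 → ℝ}
    (hu : Tendsto u F (𝓝 u')) (hv : Tendsto v F (𝓝 v')) :
    Tendsto (fun n => dt (u n) (v n)) F (𝓝 (dt u' v')) :=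
  (a3_cont.tendsto (u', v')).comp (hu.prodMk_nhds hv)

/-- Unit vectors converge along an ultrafilter. -/
theorem a3_lim (U : Ultrafilter ℕ) (v : ℕ → Fin 3 → ℝ) (h : ∀ n, dt (v n) (v n) = 1) :
    ∃ v' : Fin 3 → ℝ, Tendsto v (U : Filter ℕ) (𝓝 v') ∧ dt v' v' = 1 := by
  have hK : IsCompact (Set.pi Set.univ fun _ : Fin 3 => Set.Icc (-1 : ℝ) 1) :=
    isCompact_univ_pi fun _ => isCompact_Icc
  have hm : ∀ n, v n ∈ Set.pi Set.univ fun _ : Fin 3 => Set.Icc (-1 : ℝ) 1 := by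
    intro n i _
    have h1 := h n
    rw [a3_dt] at h1
    have q0 := mul_self_nonneg (v n 0)
    have q1 := mul_self_nonneg (v n 1)
    have q2 := mul_self_nonneg (v n 2)
    have h2 : v n i * v n i ≤ 1 := by
      match i with
      | 0 => linarith
      | 1 => linarith
      | 2 => linarith
    exact abs_le.1 (abs_le_of_sq_le_sq (by nlinarith) (by norm_num))
  obtain ⟨v', -, hv'⟩ := hK.ultrafilter_le_nhds (U.map v) (by
    rw [Ultrafilter.coe_map, le_principal_iff, mem_map]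
    exact Filter.univ_mem' hm)
  have ht : Tendsto v (U : Filter ℕ) (𝓝 v') := by
    rw [Ultrafilter.coe_map] at hv'
    exact hv'
  refine ⟨v', ht, ?_⟩
  have h1 := a3_tendsto ht ht
  simp only [h] at h1
  exact (tendsto_nhds_unique h1 tendsto_const_nhds)

theorem a3_indep {u v : Fin 3 → ℝ} (hu : dt u u = 1) (hv : dt v v = 1) (h : dt u v = 0) :
    LinearIndependent ℝ ![u, v] := by
  rw [LinearIndependent.pair_iff]
  intro s t hst
  have h0 := congrFun hst 0
  have h1 := congrFun hst 1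
  have h2 := congrFun hst 2
  simp only [Pi.add_apply, Pi.smul_apply, smul_eq_mul, Pi.zero_apply] at h0 h1 h2
  rw [a3_dt] at hu hv h
  constructor
  · linear_combination u 0 * h0 + u 1 * h1 + u 2 * h2 - s * hu - t * h
  · linear_combination v 0 * h0 + v 1 * h1 + v 2 * h2 - t * hv - s * h

/-- Row Z5-A3. Two almost relations are impossible. The unit vectors `cn n`, `en n j` converge along the ultrafilter (compactness
of `{v | dt v v = 1}`, e.g. inside the cube `|v i| ≤ 1`: `Ultrafilter`, `IsCompact.ultrafilter_le_nhds` applied to `U.map`)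
to `c'`, `e' j` with `dt c' c' = 1`, `dt e' e' = 1`, `dt c' e' = 0`, so `![c', e' j]` is linearly independent. By `KA_tail` choose `A` with
`fr (t ∉ KA A) ≤ 1/8`. The set `Z` of the `t ∈ KA A` with `dt c' (LY t) = 0` and `dt (e' j) (LY t) = 0` for some `j` is finite (`HH`).
By `noatom` (`θ = 1 / (8 (card Z + 1))`) balls around the points of `Z` have `fr ≤ 1/8` in total, `O` = the union of the balls is open; by
`tube` (three times) eventually all `σ` with `t n σ ∈ KA A` and the property are in `O`. So `1/2 ≤ 1/8 + 1/8`. -/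
theorem lemI (U : Ultrafilter ℕ) {ι : ℕ → Type} [∀ n, Fintype (ι n)] [∀ n, Nonempty (ι n)] {κ B : ℝ}
    {c d : Fin 3 → ℂ} (hc : ∀ i, c i ≠ 0) (hH : HH c d) (t : ∀ n, ι n → ℂ)
    (hG : Gen (k := 1) (U : Filter ℕ) κ (fun n σ _ => t n σ)) (ht : ∀ n σ i, t n σ ≠ d i)
    (hB : ∀ n i, ∑ σ, |LY c d (t n σ) i| ≤ B * Fintype.card (ι n))
    (cn : ℕ → Fin 3 → ℝ) (en : ℕ → Fin 3 → Fin 3 → ℝ) (h1 : ∀ n, dt (cn n) (cn n) = 1)
    (h2 : ∀ n j, dt (en n j) (en n j) = 1) (h3 : ∀ n j, dt (cn n) (en n j) = 0) (ε : ℕ → ℝ)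
    (hε : Tendsto ε (U : Filter ℕ) (𝓝 0))
    (hS : ∀ᶠ n in (U : Filter ℕ), 1 / 2 ≤ fr (fun σ : ι n => ∃ j, |dt (cn n) (LY c d (t n σ))| ≤ ε n ∧
      |dt (en n j) (LY c d (t n σ))| ≤ ε n)) : False := by
  obtain ⟨c', hc', hcc⟩ := a3_lim U cn h1
  have he : ∀ j : Fin 3, ∃ e' : Fin 3 → ℝ, Tendsto (fun n => en n j) (U : Filter ℕ) (𝓝 e') ∧
      dt e' e' = 1 := fun j => a3_lim U (fun n => en n j) fun n => h2 n j
  choose e' he' hee using he
  have hce : ∀ j, dt c' (e' j) = 0 := by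
    intro j
    have h := a3_tendsto hc' (he' j)
    simp only [h3] at h
    exact tendsto_nhds_unique h tendsto_const_nhds
  have hfin : ∀ j, {s : ℂ | (∀ i, s ≠ d i) ∧ dt c' (LY c d s) = 0 ∧
      dt (e' j) (LY c d s) = 0}.Finite := fun j => hH c' (e' j) (a3_indep hcc (hee j) (hce j))
  have hZ : (⋃ j, {s : ℂ | (∀ i, s ≠ d i) ∧ dt c' (LY c d s) = 0 ∧
      dt (e' j) (LY c d s) = 0}).Finite := Set.finite_iUnion hfin
  set F : Finset ℂ := hZ.toFinset with hF
  -- the compact set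
  set A : ℝ := max (24 * B) 1 with hA
  have hA0 : 0 < A := lt_of_lt_of_le one_pos (le_max_right _ _)
  have hBA : 3 * (B / A) ≤ 1 / 8 := by
    have h4 : B / A ≤ 1 / 24 := by
      rw [div_le_iff₀ hA0]
      have := le_max_left (24 * B) 1
      rw [← hA] at this
      linarith
    linarith
  have htail : ∀ n, fr (fun σ : ι n => t n σ ∉ KA c d A) ≤ 1 / 8 := fun n =>
    (KA_tail (t n) (ht n) B (hB n) hA0).trans hBA
  -- the balls
  set θ : ℝ := 1 / (8 * ((F.card : ℝ) + 1)) with hθ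
  have hθ0 : 0 < θ := by positivity
  choose δ hδ0 hδ using fun z : ℂ => noatom hG z hθ0
  set O : Set ℂ := ⋃ z ∈ F, Metric.ball z (δ z) with hO
  have hOo : IsOpen O := isOpen_biUnion fun z _ => Metric.isOpen_ball
  have hballs : ∀ᶠ n in (U : Filter ℕ), fr (fun σ : ι n => ∃ z ∈ F, ‖t n σ - z‖ < δ z) ≤ 1 / 8 := by
    have h4 : ∀ᶠ n in (U : Filter ℕ), ∀ z ∈ F, fr (fun σ : ι n => ‖t n σ - z‖ < δ z) ≤ θ := by
      rw [Filter.eventually_all_finset]
      intro z _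
      exact hδ z
    filter_upwards [h4] with n hn
    refine (fr_exists F fun z σ => ‖t n σ - z‖ < δ z).trans ?_
    refine (Finset.sum_le_sum hn).trans ?_
    rw [Finset.sum_const, nsmul_eq_mul, hθ, mul_one_div, div_le_div_iff₀ (by positivity)
      (by norm_num)]
    linarith
  have htube : ∀ᶠ n in (U : Filter ℕ), ∀ j, ∀ s ∈ KA c d A, |dt (cn n) (LY c d s)| ≤ ε n →
      |dt (en n j) (LY c d s)| ≤ ε n → s ∈ O := by
    rw [Filter.eventually_all]
    intro j
    refine tube hc A hc' (he' j) hε hOo ?_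
    intro s hs q1 q2
    have hs' : s ∈ F := by
      rw [hF, Set.Finite.mem_toFinset]
      exact Set.mem_iUnion.2 ⟨j, hs.1, q1, q2⟩
    rw [hO]
    exact Set.mem_biUnion hs' (Metric.mem_ball_self (hδ0 s))
  obtain ⟨n, q1, q2, q3⟩ := ((hS.and (hballs.and htube))).exists
  have h5 : fr (fun σ : ι n => ∃ j, |dt (cn n) (LY c d (t n σ))| ≤ ε n ∧
      |dt (en n j) (LY c d (t n σ))| ≤ ε n) ≤
      fr (fun σ : ι n => t n σ ∉ KA c d A) + fr (fun σ : ι n => ∃ z ∈ F, ‖t n σ - z‖ < δ z) := by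
    refine le_trans (fr_mono ?_) (fr_or _ _)
    rintro σ ⟨j, r1, r2⟩
    by_cases hK : t n σ ∈ KA c d A
    · right
      have h6 := q3 j _ hK r1 r2
      rw [hO, Set.mem_iUnion₂] at h6
      obtain ⟨z, hz, hb⟩ := h6
      exact ⟨z, hz, by rwa [Metric.mem_ball, dist_eq_norm] at hb⟩
    · exact Or.inl hK
  have h7 := htail n
  linarith

end Pool.Agent.Z5
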