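import Pool.Agent.Z5.A3

namespace Pool.Agent.Z5

open Pool.Agent.ZL2 Filter Topology

theorem a4_abs {x : ℝ} (h1 : 1 / 2 ≤ x) (h2 : x ≤ 2) : |Real.log x| ≤ Real.log 2 := by
  have hx : 0 < x := by linarith
  rw [abs_le]
  constructor
  · have h3 : Real.log (1 / 2) ≤ Real.log x := Real.log_le_log (by norm_num) h1
    rw [one_div, Real.log_inv] at h3
    exact h3
  · exact Real.log_le_log hx h2

/-- Row Z5-A4a. At every `(X, 1 - X)` one of the three relations holds up to a constant: two of the three numbers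
`log ‖X‖, log ‖1-X‖, 0` which are largest differ by at most `log 2` (`X + (1 - X) = 1`). -/
theorem tripod {X : ℂ} (h0 : X ≠ 0) (h1 : X ≠ 1) :
    |Real.log ‖1 - X‖| ≤ Real.log 2 ∨ |Real.log ‖X‖| ≤ Real.log 2 ∨ |Real.log ‖X‖ - Real.log ‖1 - X‖| ≤ Real.log 2 := by
  have hx : 0 < ‖X‖ := norm_pos_iff.2 h0
  have hy : 0 < ‖1 - X‖ := norm_pos_iff.2 (sub_ne_zero.2 h1.symm)
  have t1 : 1 ≤ ‖X‖ + ‖1 - X‖ := by
    have h := norm_add_le X (1 - X)
    rw [add_sub_cancel, norm_one] at h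
    exact h
  have t2 : ‖X‖ ≤ 1 + ‖1 - X‖ := by
    have h := norm_sub_le (1 : ℂ) (1 - X)
    rw [sub_sub_cancel, norm_one] at h
    exact h
  have t3 : ‖1 - X‖ ≤ 1 + ‖X‖ := by
    have h := norm_sub_le (1 : ℂ) X
    rw [norm_one] at h
    exact h
  set x := ‖X‖
  set y := ‖1 - X‖
  rcases le_total x 1 with hx1 | hx1 <;> rcases le_total y 1 with hy1 | hy1
  · rcases le_total (1 / 2) y with h | h
    · exact Or.inl (a4_abs h (by linarith))
    · exact Or.inr (Or.inl (a4_abs (by linarith) (by linarith)))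
  · exact Or.inl (a4_abs (by linarith) (by linarith))
  · exact Or.inr (Or.inl (a4_abs (by linarith) (by linarith)))
  · refine Or.inr (Or.inr ?_)
    rw [← Real.log_div hx.ne' hy.ne']
    refine a4_abs ?_ ?_
    · rw [div_le_div_iff₀ (by norm_num) hy]; linarith
    · rw [div_le_iff₀ hy]; linarith

theorem a4_norm {u w : Fin 3 → ℝ} (hw : dt w u = 0) (h : 0 < dt w w) :
    ∃ e : Fin 3 → ℝ, dt e e = 1 ∧ dt u e = 0 ∧ ∀ y, dt w y = Real.sqrt (dt w w) * dt e y := by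
  have hs : 0 < Real.sqrt (dt w w) := Real.sqrt_pos.2 h
  have hss : Real.sqrt (dt w w) * Real.sqrt (dt w w) = dt w w := Real.mul_self_sqrt h.le
  refine ⟨fun i => (Real.sqrt (dt w w))⁻¹ * w i, ?_, ?_, fun y => ?_⟩
  · have h1 : dt (fun i => (Real.sqrt (dt w w))⁻¹ * w i) (fun i => (Real.sqrt (dt w w))⁻¹ * w i) =
        (Real.sqrt (dt w w) * Real.sqrt (dt w w))⁻¹ * dt w w := by
      rw [mul_inv]
      simp only [a3_dt]
      ring
    rw [h1, hss, inv_mul_cancel₀ h.ne']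
  · have h1 : dt u (fun i => (Real.sqrt (dt w w))⁻¹ * w i) = (Real.sqrt (dt w w))⁻¹ * dt w u := by
      simp only [a3_dt]
      ring
    rw [h1, hw, mul_zero]
  · have h1 : dt (fun i => (Real.sqrt (dt w w))⁻¹ * w i) y = (Real.sqrt (dt w w))⁻¹ * dt w y := by
      simp only [a3_dt]
      ring
    rw [h1, ← mul_assoc, mul_inv_cancel₀ hs.ne', one_mul]

theorem a4_orth {u : Fin 3 → ℝ} (hu : dt u u = 1) : ∃ e : Fin 3 → ℝ, dt e e = 1 ∧ dt u e = 0 := by
  have h3 : u 0 * u 0 + u 1 * u 1 + u 2 * u 2 = 1 := by rw [← a3_dt]; exact hu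
  by_cases h : 0 < u 0 * u 0 + u 1 * u 1
  · obtain ⟨e, h1, h2, -⟩ := a4_norm (u := u) (w := ![-u 1, u 0, 0]) (by
      rw [a3_dt]
      simp
      ring) (by
      rw [a3_dt]
      simp
      linarith)
    exact ⟨e, h1, h2⟩
  · have q0 := mul_self_nonneg (u 0)
    have q1 := mul_self_nonneg (u 1)
    obtain ⟨e, h1, h2, -⟩ := a4_norm (u := u) (w := ![-u 2, 0, u 0]) (by
      rw [a3_dt]
      simp
      ring) (by
      rw [a3_dt]
      simp
      linarith)
    exact ⟨e, h1, h2⟩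

theorem a4_sq (w : Fin 3 → ℝ) (i : Fin 3) : |w i| ≤ Real.sqrt (dt w w) := by
  apply Real.abs_le_sqrt
  rw [a3_dt]
  have q0 := mul_self_nonneg (w 0)
  have q1 := mul_self_nonneg (w 1)
  have q2 := mul_self_nonneg (w 2)
  rw [sq]
  match i with
  | 0 => linarith
  | 1 => linarith
  | 2 => linarith

theorem a4_unit {u w : Fin 3 → ℝ} (hu : dt u u = 1) (hw : dt w u = 0) :
    ∃ e : Fin 3 → ℝ, dt e e = 1 ∧ dt u e = 0 ∧ ∀ y, dt w y = Real.sqrt (dt w w) * dt e y := by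
  by_cases h : 0 < dt w w
  · exact a4_norm hw h
  · obtain ⟨e, h1, h2⟩ := a4_orth hu
    refine ⟨e, h1, h2, fun y => ?_⟩
    have hs : Real.sqrt (dt w w) = 0 := Real.sqrt_eq_zero_of_nonpos (not_lt.1 h)
    have hw0 : ∀ i, w i = 0 := fun i => abs_nonpos_iff.1 ((a4_sq w i).trans hs.le)
    rw [hs, zero_mul, a3_dt, hw0, hw0, hw0]
    ring

theorem a4_orth_rw {a b : ℂ} {c d : Fin 3 → ℂ} {U : Ultrafilter ℕ} (S : Sq a b c d U) (n : ℕ) (j : Fin 3) :
    dt (rw3 (S.M n) j) (S.u n) = 0 := by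
  match j with
  | 0 => exact S.hM n 1
  | 1 => exact S.hM n 0
  | 2 =>
    show dt (fun i => S.M n 0 i - S.M n 1 i) (S.u n) = 0
    have h0 := S.hM n 0
    have h1 := S.hM n 1
    rw [a3_dt] at h0 h1 ⊢
    linarith

theorem a4_core {a b : ℂ} {c d : Fin 3 → ℂ} {U : Ultrafilter ℕ} (S : Sq a b c d U) (hc : ∀ i, c i ≠ 0) (hH : HH c d)
    (φ : Fin 3 → Fin 3) {K : ℝ} (hK : 0 ≤ K)
    (hr : ∀ j, ∀ A : ℝ, ∀ᶠ n in (U : Filter ℕ),
      A < Real.sqrt (dt (rw3 (S.M n) (φ j)) (rw3 (S.M n) (φ j))))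
    (hP : ∀ᶠ n in (U : Filter ℕ), 1 / 2 ≤ fr (fun σ : S.ι n => ∃ j,
      |dt (rw3 (S.M n) (φ j)) (LY c d (S.t n σ))| ≤ K)) : False := by
  choose e he1 he2 he3 using fun n j => a4_unit (S.hu n) (a4_orth_rw S n j)
  have hlim : Tendsto (fun n => ∑ j, K / Real.sqrt (dt (rw3 (S.M n) (φ j)) (rw3 (S.M n) (φ j))))
      (U : Filter ℕ) (𝓝 0) := by
    have h1 : Tendsto (fun n => ∑ j, K / Real.sqrt (dt (rw3 (S.M n) (φ j)) (rw3 (S.M n) (φ j))))
        (U : Filter ℕ) (𝓝 (∑ _j : Fin 3, (0 : ℝ))) := by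
      refine tendsto_finsetSum _ fun j _ => ?_
      refine Tendsto.const_div_atTop ?_ K
      rw [tendsto_atTop]
      exact fun A => (hr j A).mono fun n hn => hn.le
    rwa [Finset.sum_const_zero] at h1
  refine lemI U hc hH S.t S.gen S.ht S.hB S.u (fun n j => e n (φ j)) S.hu (fun n j => he1 n (φ j))
    (fun n j => he2 n (φ j)) _ hlim ?_
  have hpos : ∀ᶠ n in (U : Filter ℕ), ∀ j,
      0 < Real.sqrt (dt (rw3 (S.M n) (φ j)) (rw3 (S.M n) (φ j))) := by
    rw [Filter.eventually_all]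
    exact fun j => hr j 0
  filter_upwards [hP, hpos] with n h1 h2
  refine h1.trans (fr_mono fun σ => ?_)
  rintro ⟨j, hj⟩
  have hnn : ∀ i, 0 ≤ K / Real.sqrt (dt (rw3 (S.M n) (φ i)) (rw3 (S.M n) (φ i))) := fun i =>
    div_nonneg hK (h2 i).le
  refine ⟨j, ?_, ?_⟩
  · rw [S.r0 n σ, abs_zero]
    exact Finset.sum_nonneg fun i _ => hnn i
  · rw [he3 n (φ j), abs_mul, abs_of_pos (h2 j)] at hj
    have h3 : |dt (e n (φ j)) (LY c d (S.t n σ))| ≤
        K / Real.sqrt (dt (rw3 (S.M n) (φ j)) (rw3 (S.M n) (φ j))) := by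
      rw [le_div_iff₀ (h2 j), mul_comm]
      exact hj
    exact h3.trans (Finset.single_le_sum
      (f := fun i => K / Real.sqrt (dt (rw3 (S.M n) (φ i)) (rw3 (S.M n) (φ i))))
      (fun i _ => hnn i) (Finset.mem_univ j))

/-- Row Z5-A4b. The matrices `M` of a sequence are bounded. By contradiction: for every `A` eventually (ultrafilter)
`A < |M n j i|` for some `j, i` (an ultrafilter picks a fixed `(j,i)`). Write `N n j = ∑ i, |rw3 (M n) j i|`.
Case 1: for all three `j` and all `A`, eventually `A < N n j`. Then with `en n j = rw3 (M n) j / norm` (Euclidean norm, unit, orthogonal to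
`u n` by `hM`; for the few `n` where the norm is zero take any unit vector orthogonal to `u n`), every `σ` has by `tripod`, `r1`, `r2` a `j` with
`|dt (rw3 (M n) j) (LY t)| ≤ log 2 + |log ‖a‖| + |log ‖b‖|`, so `|dt (en n j) (LY t)| ≤ ε n → 0`; `lemI` with `cn = u`.
Case 2: for some `j0` and some `A`, eventually `N n j0 ≤ A`. By `hbig` eventually `∑ σ (|log ‖X‖| + |log ‖1-X‖|) ≤ C card`. Some row `M n j1`
(`j1 = 0` or `1`) has `∑ i |M n j1 i| → ∞` along `U`; `dt (M n j1) (LY t) = log ‖X‖ - log ‖a‖` (or `log ‖1-X‖ - log ‖b‖`), so by `fr_markov` at most `1/4` of the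
`σ` have `|dt (M n j1) (LY t)| > 4 (C + ...)`; `lemI` with `en n j = M n j1 / norm` for all `j`. -/
theorem bddM {a b : ℂ} {c d : Fin 3 → ℂ} {U : Ultrafilter ℕ} (S : Sq a b c d U) (hc : ∀ i, c i ≠ 0) (hH : HH c d)
    (hbig : ∀ A : ℝ, ∃ C : ℝ, ∀ n, (∃ j, ∑ i, |rw3 (S.M n) j i| ≤ A) →
      ∑ σ, (|Real.log ‖S.X n σ‖| + |Real.log ‖1 - S.X n σ‖|) ≤ C * Fintype.card (S.ι n)) :
    ∃ A, S.Bdd A := by
  classical
  by_contra hno
  have hlog2 : 0 ≤ Real.log 2 := Real.log_nonneg (by norm_num)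
  have ha0 := abs_nonneg (Real.log ‖a‖)
  have hb0 := abs_nonneg (Real.log ‖b‖)
  -- one of the rows 0, 1 of rw3 is unbounded
  have hunb : ∃ j1 : Fin 3, (j1 = 0 ∨ j1 = 1) ∧ ∀ A : ℝ, ∀ᶠ n in (U : Filter ℕ),
      A < Real.sqrt (dt (rw3 (S.M n) j1) (rw3 (S.M n) j1)) := by
    by_contra hcon
    have hcon2 : ∀ j1 : Fin 3, (j1 = 0 ∨ j1 = 1) → ∃ A : ℝ, ∀ᶠ n in (U : Filter ℕ),
        Real.sqrt (dt (rw3 (S.M n) j1) (rw3 (S.M n) j1)) ≤ A := by
      intro j1 hj
      by_contra h2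
      refine hcon ⟨j1, hj, fun A => ?_⟩
      by_contra h3
      refine h2 ⟨A, ?_⟩
      rw [← Ultrafilter.eventually_not] at h3
      exact h3.mono fun n hn => not_lt.1 hn
    obtain ⟨A0, h0⟩ := hcon2 0 (Or.inl rfl)
    obtain ⟨A1, h1⟩ := hcon2 1 (Or.inr rfl)
    refine hno ⟨max A0 A1, ?_⟩
    filter_upwards [h0, h1] with n q0 q1
    intro j i
    match j with
    | 0 => exact ((a4_sq (rw3 (S.M n) 1) i).trans q1).trans (le_max_right _ _)
    | 1 => exact ((a4_sq (rw3 (S.M n) 0) i).trans q0).trans (le_max_left _ _)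
  by_cases hall : ∀ j : Fin 3, ∀ A : ℝ, ∀ᶠ n in (U : Filter ℕ),
      A < Real.sqrt (dt (rw3 (S.M n) j) (rw3 (S.M n) j))
  · refine a4_core S hc hH id (K := Real.log 2 + |Real.log ‖a‖| + |Real.log ‖b‖|) (by positivity)
      hall (Filter.Eventually.of_forall fun n => ?_)
    refine le_trans ?_ (fr_mono (P := fun _ : S.ι n => True) fun σ _ => ?_)
    · rw [fr_true]; norm_num
    have r1 := S.r1 n σ
    have r2 := S.r2 n σ
    have la := abs_le.1 (le_refl |Real.log ‖a‖|)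
    have lb := abs_le.1 (le_refl |Real.log ‖b‖|)
    rcases tripod (S.hX0 n σ) (S.hX1 n σ) with h | h | h
    · refine ⟨0, ?_⟩
      show |dt (S.M n 1) (LY c d (S.t n σ))| ≤ _
      have h' := abs_le.1 h
      rw [abs_le]
      constructor <;> linarith
    · refine ⟨1, ?_⟩
      show |dt (S.M n 0) (LY c d (S.t n σ))| ≤ _
      have h' := abs_le.1 h
      rw [abs_le]
      constructor <;> linarith
    · refine ⟨2, ?_⟩
      show |dt (fun i => S.M n 0 i - S.M n 1 i) (LY c d (S.t n σ))| ≤ _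
      have h' := abs_le.1 h
      have h4 : dt (fun i => S.M n 0 i - S.M n 1 i) (LY c d (S.t n σ)) =
          dt (S.M n 0) (LY c d (S.t n σ)) - dt (S.M n 1) (LY c d (S.t n σ)) := by
        simp only [a3_dt]; ring
      rw [h4, abs_le]
      constructor <;> linarith
  · -- case 2
    have hb2 : ∃ j0 : Fin 3, ∃ A : ℝ, ∀ᶠ n in (U : Filter ℕ),
        Real.sqrt (dt (rw3 (S.M n) j0) (rw3 (S.M n) j0)) ≤ A := by
      by_contra h2
      refine hall fun j A => ?_
      by_contra h3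
      refine h2 ⟨j, A, ?_⟩
      rw [← Ultrafilter.eventually_not] at h3
      exact h3.mono fun n hn => not_lt.1 hn
    obtain ⟨j0, A0, hA0⟩ := hb2
    obtain ⟨j1, hj1, hj1r⟩ := hunb
    obtain ⟨C, hC⟩ := hbig (3 * A0)
    set B' : ℝ := |C| + |Real.log ‖a‖| + |Real.log ‖b‖| + 1 with hB'
    have hB'0 : 0 < B' := by positivity
    refine a4_core S hc hH (fun _ => j1) (K := 2 * B') (by positivity) (fun _ => hj1r) ?_
    filter_upwards [hA0] with n hn
    have h5 : ∑ i, |rw3 (S.M n) j0 i| ≤ 3 * A0 := by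
      have h6 : ∀ i, |rw3 (S.M n) j0 i| ≤ A0 := fun i => (a4_sq _ i).trans hn
      rw [Fin.sum_univ_three]
      linarith [h6 0, h6 1, h6 2]
    have h6 := hC n ⟨j0, h5⟩
    have h7 : ∀ σ, |dt (rw3 (S.M n) j1) (LY c d (S.t n σ))| ≤
        |Real.log ‖S.X n σ‖| + |Real.log ‖1 - S.X n σ‖| + (|Real.log ‖a‖| + |Real.log ‖b‖|) := by
      intro σ
      have r1 := S.r1 n σ
      have r2 := S.r2 n σ
      have la := abs_le.1 (le_refl |Real.log ‖a‖|)
      have lb := abs_le.1 (le_refl |Real.log ‖b‖|)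
      have lx := abs_le.1 (le_refl |Real.log ‖S.X n σ‖|)
      have ly := abs_le.1 (le_refl |Real.log ‖1 - S.X n σ‖|)
      have lx0 := abs_nonneg (Real.log ‖S.X n σ‖)
      have ly0 := abs_nonneg (Real.log ‖1 - S.X n σ‖)
      rcases hj1 with rfl | rfl
      · show |dt (S.M n 1) (LY c d (S.t n σ))| ≤ _
        rw [abs_le]
        constructor <;> linarith
      · show |dt (S.M n 0) (LY c d (S.t n σ))| ≤ _
        rw [abs_le]
        constructor <;> linarith
    have hcard : (0 : ℝ) ≤ Fintype.card (S.ι n) := Nat.cast_nonneg _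
    have h8 : ∑ σ, |dt (rw3 (S.M n) j1) (LY c d (S.t n σ))| ≤ B' * Fintype.card (S.ι n) := by
      refine (Finset.sum_le_sum fun σ _ => h7 σ).trans ?_
      rw [Finset.sum_add_distrib, Finset.sum_const, Finset.card_univ, nsmul_eq_mul]
      have h9 : C * Fintype.card (S.ι n) ≤ |C| * Fintype.card (S.ι n) :=
        mul_le_mul_of_nonneg_right (le_abs_self C) hcard
      rw [hB']
      nlinarith
    have h9 := fr_markov (fun σ => dt (rw3 (S.M n) j1) (LY c d (S.t n σ))) B' (2 * B')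
      (by positivity) h8
    have h10 : B' / (2 * B') = 1 / 2 := by
      field_simp
    rw [h10] at h9
    have h11 : fr (fun _ : S.ι n => True) ≤
        fr (fun σ : S.ι n => ∃ _j : Fin 3, |dt (rw3 (S.M n) j1) (LY c d (S.t n σ))| ≤ 2 * B') +
        fr (fun σ : S.ι n => 2 * B' < |dt (rw3 (S.M n) j1) (LY c d (S.t n σ))|) := by
      refine le_trans (fr_mono fun σ _ => ?_) (fr_or _ _)
      rcases le_or_gt |dt (rw3 (S.M n) j1) (LY c d (S.t n σ))| (2 * B') with h | h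
      · exact Or.inl ⟨0, h⟩
      · exact Or.inr h
    rw [fr_true] at h11
    linarith

end Pool.Agent.Z5
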