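import Pool.Agent.Z5.Defs

namespace Pool.Agent.Z5

open Pool.Agent.ZL2 Filter Topology

/-- Taylor expansion with explicit tail. -/
theorem b1_taylor (t0 : ℂ) (ρ M : ℝ) (hρ : 0 < ρ) (hM : 0 ≤ M) (h : ℂ → ℂ)
    (hd : DifferentiableOn ℂ h (Metric.ball t0 ρ)) (hb : ∀ t ∈ Metric.ball t0 ρ, ‖h t‖ ≤ M) :
    ∃ g : ℕ → ℂ, (∀ n, ‖g n‖ ≤ M) ∧ ∀ (m : ℕ) (t : ℂ), ‖t - t0‖ ≤ ρ / 2 →
      ‖h t - ∑ n ∈ Finset.range m, g n * ((t - t0) / ((3 * ρ / 4 : ℝ) : ℂ)) ^ n‖ ≤ 3 * M * (2 / 3) ^ m := by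
  have hr : 0 < 3 * ρ / 4 := by positivity
  have hrC : (((3 * ρ / 4 : ℝ)) : ℂ) ≠ 0 := by exact_mod_cast hr.ne'
  have hsub : Metric.closedBall t0 (3 * ρ / 4) ⊆ Metric.ball t0 ρ :=
    Metric.closedBall_subset_ball (by linarith)
  have hcl : DiffContOnCl ℂ h (Metric.ball t0 (3 * ρ / 4)) :=
    DifferentiableOn.diffContOnCl_ball hd hsub
  refine ⟨fun n => ((n.factorial : ℂ))⁻¹ * iteratedDeriv n h t0 * ((3 * ρ / 4 : ℝ) : ℂ) ^ n, ?_, ?_⟩
  · intro n
    have h1 := Complex.norm_iteratedDeriv_le_of_forall_mem_sphere_norm_le n hr hcl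
      (fun z hz => hb z (hsub (Metric.sphere_subset_closedBall hz)))
    have hn : (0 : ℝ) < n.factorial := by exact_mod_cast n.factorial_pos
    rw [norm_mul, norm_mul, norm_inv, norm_pow, Complex.norm_natCast, Complex.norm_real,
      Real.norm_of_nonneg hr.le]
    have hp : 0 < (3 * ρ / 4) ^ n := by positivity
    calc ((n.factorial : ℝ))⁻¹ * ‖iteratedDeriv n h t0‖ * (3 * ρ / 4) ^ n
        ≤ ((n.factorial : ℝ))⁻¹ * ((n.factorial : ℝ) * M / (3 * ρ / 4) ^ n) * (3 * ρ / 4) ^ n := by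
          gcongr
      _ = M := by field_simp
  · intro m t ht
    have htb : t ∈ Metric.ball t0 ρ := by
      rw [Metric.mem_ball, dist_eq_norm]; linarith
    have hs := Complex.hasSum_taylorSeries_on_ball hd htb
    have hnz : ‖(t - t0) / ((3 * ρ / 4 : ℝ) : ℂ)‖ ≤ 2 / 3 := by
      rw [norm_div, Complex.norm_real, Real.norm_of_nonneg hr.le, div_le_iff₀ hr]
      linarith
    have hterm : ∀ n : ℕ, ((n.factorial : ℂ))⁻¹ • (t - t0) ^ n • iteratedDeriv n h t0 =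
        ((n.factorial : ℂ))⁻¹ * iteratedDeriv n h t0 * ((3 * ρ / 4 : ℝ) : ℂ) ^ n *
          ((t - t0) / ((3 * ρ / 4 : ℝ) : ℂ)) ^ n := by
      intro n
      rw [smul_eq_mul, smul_eq_mul, div_pow]
      field_simp
    have hg : ∀ n : ℕ, ‖((n.factorial : ℂ))⁻¹ * iteratedDeriv n h t0 * ((3 * ρ / 4 : ℝ) : ℂ) ^ n‖ ≤ M := by
      intro n
      have h1 := Complex.norm_iteratedDeriv_le_of_forall_mem_sphere_norm_le n hr hcl
        (fun z hz => hb z (hsub (Metric.sphere_subset_closedBall hz)))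
      have hn : (0 : ℝ) < n.factorial := by exact_mod_cast n.factorial_pos
      rw [norm_mul, norm_mul, norm_inv, norm_pow, Complex.norm_natCast, Complex.norm_real,
        Real.norm_of_nonneg hr.le]
      have hp : 0 < (3 * ρ / 4) ^ n := by positivity
      calc ((n.factorial : ℝ))⁻¹ * ‖iteratedDeriv n h t0‖ * (3 * ρ / 4) ^ n
          ≤ ((n.factorial : ℝ))⁻¹ * ((n.factorial : ℝ) * M / (3 * ρ / 4) ^ n) * (3 * ρ / 4) ^ n := by
            gcongr
        _ = M := by field_simp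
    have hs2 : HasSum (fun n : ℕ => ((n.factorial : ℂ))⁻¹ * iteratedDeriv n h t0 *
        ((3 * ρ / 4 : ℝ) : ℂ) ^ n * ((t - t0) / ((3 * ρ / 4 : ℝ) : ℂ)) ^ n) (h t) := by
      have := hs
      simp only [hterm] at this
      exact this
    have hs3 := (hasSum_nat_add_iff' m).2 hs2
    have hgeo : HasSum (fun n : ℕ => M * (2 / 3 : ℝ) ^ m * (2 / 3 : ℝ) ^ n)
        (M * (2 / 3 : ℝ) ^ m * (1 - 2 / 3)⁻¹) :=
      (hasSum_geometric_of_lt_one (by norm_num) (by norm_num)).mul_left _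
    have h4 : ‖h t - ∑ n ∈ Finset.range m, ((n.factorial : ℂ))⁻¹ * iteratedDeriv n h t0 *
        ((3 * ρ / 4 : ℝ) : ℂ) ^ n * ((t - t0) / ((3 * ρ / 4 : ℝ) : ℂ)) ^ n‖ ≤
        M * (2 / 3 : ℝ) ^ m * (1 - 2 / 3)⁻¹ := by
      rw [← hs3.tsum_eq, ← hgeo.tsum_eq]
      refine tsum_of_norm_bounded hgeo.summable.hasSum fun n => ?_
      rw [norm_mul, norm_pow]
      calc _ ≤ M * (2 / 3 : ℝ) ^ (n + m) :=
            mul_le_mul (hg (n + m)) (pow_le_pow_left₀ (norm_nonneg _) hnz _) (by positivity) hM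
        _ = M * (2 / 3 : ℝ) ^ m * (2 / 3 : ℝ) ^ n := by rw [pow_add]; ring
    refine h4.trans (le_of_eq ?_)
    norm_num
    ring


/-- `X^n = U_n X + V_n`; first component `U_n`, second component `V_n`. -/
noncomputable def b1_UV (R Q : ℂ → ℂ) : ℕ → (ℂ → ℂ) × (ℂ → ℂ)
  | 0 => (fun _ => 0, fun _ => 1)
  | n + 1 => (fun t => 2 * R t * (b1_UV R Q n).1 t + (b1_UV R Q n).2 t, fun t => - (Q t * (b1_UV R Q n).1 t))

theorem b1_UV_diff (t0 : ℂ) (ρ : ℝ) (R Q : ℂ → ℂ)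
    (hR : DifferentiableOn ℂ R (Metric.ball t0 ρ)) (hQ : DifferentiableOn ℂ Q (Metric.ball t0 ρ)) (n : ℕ) :
    DifferentiableOn ℂ (b1_UV R Q n).1 (Metric.ball t0 ρ) ∧
      DifferentiableOn ℂ (b1_UV R Q n).2 (Metric.ball t0 ρ) := by
  induction n with
  | zero => exact ⟨differentiableOn_const _, differentiableOn_const _⟩
  | succ n ih =>
    refine ⟨?_, ?_⟩
    · exact (((differentiableOn_const 2).mul hR).mul ih.1).add ih.2
    · exact (hQ.mul ih.1).neg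

theorem b1_UV_norm (R Q : ℂ → ℂ) (A : ℝ) (hA : 1 ≤ A) (t : ℂ) (hR : ‖R t‖ ≤ A) (hQ : ‖Q t‖ ≤ A) (n : ℕ) :
    ‖(b1_UV R Q n).1 t‖ ≤ (4 * A) ^ n ∧ ‖(b1_UV R Q n).2 t‖ ≤ (4 * A) ^ n := by
  induction n with
  | zero => simp [b1_UV]
  | succ n ih =>
    have hp : 0 < (4 * A) ^ n := by positivity
    have h1 : ‖R t‖ * ‖(b1_UV R Q n).1 t‖ ≤ A * (4 * A) ^ n :=
      mul_le_mul hR ih.1 (norm_nonneg _) (by linarith)
    have h2 : ‖Q t‖ * ‖(b1_UV R Q n).1 t‖ ≤ A * (4 * A) ^ n :=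
      mul_le_mul hQ ih.1 (norm_nonneg _) (by linarith)
    have h3 : (4 * A) ^ n ≤ A * (4 * A) ^ n := le_mul_of_one_le_left hp.le hA
    have h4 : 0 ≤ A * (4 * A) ^ n := by positivity
    refine ⟨?_, ?_⟩
    · calc ‖2 * R t * (b1_UV R Q n).1 t + (b1_UV R Q n).2 t‖
          ≤ ‖2 * R t * (b1_UV R Q n).1 t‖ + ‖(b1_UV R Q n).2 t‖ := norm_add_le _ _
        _ = 2 * (‖R t‖ * ‖(b1_UV R Q n).1 t‖) + ‖(b1_UV R Q n).2 t‖ := by
            rw [norm_mul, norm_mul, Complex.norm_ofNat]; ring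
        _ ≤ (4 * A) ^ (n + 1) := by
            rw [pow_succ]
            nlinarith [ih.2]
    · calc ‖-(Q t * (b1_UV R Q n).1 t)‖ = ‖Q t‖ * ‖(b1_UV R Q n).1 t‖ := by
            rw [norm_neg, norm_mul]
        _ ≤ (4 * A) ^ (n + 1) := by
            rw [pow_succ]
            nlinarith

theorem b1_UV_pow (R Q : ℂ → ℂ) (x t : ℂ) (h : x ^ 2 = 2 * R t * x - Q t) (n : ℕ) :
    x ^ n = (b1_UV R Q n).1 t * x + (b1_UV R Q n).2 t := by
  induction n with
  | zero => simp [b1_UV]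
  | succ n ih =>
    rw [pow_succ, ih]
    show ((b1_UV R Q n).1 t * x + (b1_UV R Q n).2 t) * x =
      (2 * R t * (b1_UV R Q n).1 t + (b1_UV R Q n).2 t) * x + -(Q t * (b1_UV R Q n).1 t)
    have : ((b1_UV R Q n).1 t * x + (b1_UV R Q n).2 t) * x =
      (b1_UV R Q n).1 t * x ^ 2 + (b1_UV R Q n).2 t * x := by ring
    rw [this, h]
    ring

/-- The two parts `i = 0` (constant), `i = 1` (coefficient of `x`) of the monomial `x^a t^b`. -/
noncomputable def b1_h (R Q : ℂ → ℂ) (i : Fin 2) (a b : ℕ) (t : ℂ) : ℂ :=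
  t ^ b * (if i = 0 then (b1_UV R Q a).2 t else (b1_UV R Q a).1 t)

theorem b1_h_diff (t0 : ℂ) (ρ : ℝ) (R Q : ℂ → ℂ)
    (hR : DifferentiableOn ℂ R (Metric.ball t0 ρ)) (hQ : DifferentiableOn ℂ Q (Metric.ball t0 ρ))
    (i : Fin 2) (a b : ℕ) : DifferentiableOn ℂ (b1_h R Q i a b) (Metric.ball t0 ρ) := by
  unfold b1_h
  refine (differentiableOn_id.pow b).mul ?_
  by_cases hi : i = 0
  · simp only [hi, if_true]
    exact (b1_UV_diff t0 ρ R Q hR hQ a).2
  · simp only [hi, if_false]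
    exact (b1_UV_diff t0 ρ R Q hR hQ a).1

theorem b1_h_norm (R Q : ℂ → ℂ) (A : ℝ) (hA : 1 ≤ A) (t : ℂ) (hR : ‖R t‖ ≤ A) (hQ : ‖Q t‖ ≤ A) (ht : ‖t‖ ≤ A)
    (L : ℕ) (i : Fin 2) (a b : ℕ) (ha : a ≤ L) (hb : b ≤ L) : ‖b1_h R Q i a b t‖ ≤ (4 * A ^ 2) ^ L := by
  unfold b1_h
  have h4 : (1 : ℝ) ≤ 4 * A := by linarith
  have h1 : ‖(if i = 0 then (b1_UV R Q a).2 t else (b1_UV R Q a).1 t)‖ ≤ (4 * A) ^ L := by
    have := b1_UV_norm R Q A hA t hR hQ a
    have h5 : (4 * A) ^ a ≤ (4 * A) ^ L := pow_le_pow_right₀ h4 ha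
    split_ifs
    · exact this.2.trans h5
    · exact this.1.trans h5
  have h2 : ‖t ^ b‖ ≤ A ^ L := by
    rw [norm_pow]
    exact (pow_le_pow_left₀ (norm_nonneg _) ht b).trans (pow_le_pow_right₀ hA hb)
  rw [norm_mul]
  calc _ ≤ A ^ L * (4 * A) ^ L := mul_le_mul h2 h1 (norm_nonneg _) (by positivity)
    _ = (4 * A ^ 2) ^ L := by rw [← mul_pow]; ring

theorem b1_ev (R Q : ℂ → ℂ) {L : ℕ} (f : (Fin 2 → Fin (L + 1)) → ℤ) (x t : ℂ)
    (h : x ^ 2 = 2 * R t * x - Q t) :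
    ev f ![x, t] = (∑ α, (f α : ℂ) * b1_h R Q 0 (α 0) (α 1) t) +
      x * ∑ α, (f α : ℂ) * b1_h R Q 1 (α 0) (α 1) t := by
  unfold ev b1_h
  rw [Finset.mul_sum, ← Finset.sum_add_distrib]
  refine Finset.sum_congr rfl fun α _ => ?_
  rw [Fin.prod_univ_two]
  simp only [Matrix.cons_val_zero, Matrix.cons_val_one, if_true, one_ne_zero, if_false]
  rw [b1_UV_pow R Q x t h (α 0)]
  ring

theorem b1_fin {s u v x1 A e E : ℝ} (hn : s ≤ u + x1) (hx1 : x1 ≤ A * v) (ha : u ≤ A * u)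
    (k0 : 2 * A * u ≤ 2 * e) (k1 : 2 * A * v ≤ 2 * e) (h : 2 * e < E) : s < E := by
  linarith

/-- Row Z5-B1. Box principle on an arc. On `X^2 = 2 R(t) X - Q(t)` one has `X^n = U_n(t) X + V_n(t)` with `U_0 = 0, V_0 = 1`,
`U_(n+1) = 2 R U_n + V_n`, `V_(n+1) = - Q U_n` holomorphic on the ball, `‖U_n‖, ‖V_n‖ ≤ (4 A)^n`. So
`ev f ![X, t] = G_0(t) + G_1(t) X` with `G_i = ∑_α f α t^(α 1) (V or U)_(α 0)(t)` linear in `f`, holomorphic, bounded on the ball by
`(L+1)^2 2^L A^L (4 A)^L`. Taylor coefficients at `t0` (Cauchy estimates on the circle of radius `3ρ/4`: `‖g_n‖ (3ρ/4)^n ≤ bound`; on `‖t - t0‖ ≤ ρ/2` the tail of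
order `≥ m` is `≤ bound · 3 · (2/3)^m`). Take `m = lam L` with `lam` large (depending on `A, C`), pigeonhole `ZL2.pigeon` with
`A = Fin 2 → Fin (L+1)`, `J = Fin 2 × Fin m × Fin 2` (which `G_i`, which coefficient `g_n (3ρ/4)^n`, real or imaginary part), `B = 2^L`: the number of conditions is
`4 lam L`, the number of unknowns is `(L+1)^2`, so for `L` large there is `f ≠ 0`, `|f α| ≤ 2^L`, with all these coefficients `≤ exp (-(C+2) L) / m`. -/
theorem arc_small (t0 : ℂ) (ρ A : ℝ) (hρ : 0 < ρ) (hA : 1 ≤ A) (R Q : ℂ → ℂ)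
    (hR : DifferentiableOn ℂ R (Metric.ball t0 ρ)) (hQ : DifferentiableOn ℂ Q (Metric.ball t0 ρ))
    (hRA : ∀ t ∈ Metric.ball t0 ρ, ‖R t‖ ≤ A) (hQA : ∀ t ∈ Metric.ball t0 ρ, ‖Q t‖ ≤ A)
    (htA : ∀ t ∈ Metric.ball t0 ρ, ‖t‖ ≤ A) (C : ℝ) :
    ∃ (L : ℕ) (f : (Fin 2 → Fin (L + 1)) → ℤ), 1 ≤ L ∧ f ≠ 0 ∧ (∀ α, |f α| ≤ 2 ^ L) ∧
      ∀ x t : ℂ, ‖t - t0‖ ≤ ρ / 2 → x ^ 2 = 2 * R t * x - Q t → ‖x‖ ≤ A →
        ‖ev f ![x, t]‖ < Real.exp (-(C * L)) := by
  obtain ⟨C', hC'⟩ : ∃ C' : ℝ, C' = max C 0 := ⟨_, rfl⟩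
  have hC0 : 0 ≤ C' := by rw [hC']; exact le_max_right _ _
  have hCC : C ≤ C' := by rw [hC']; exact le_max_left _ _
  have hl2 : 0 < Real.log 2 := Real.log_pos (by norm_num)
  have hl4 : 0 < Real.log 4 := Real.log_pos (by norm_num)
  have hq : 0 < Real.log (3 / 2) := Real.log_pos (by norm_num)
  have hA2 : 1 ≤ A ^ 2 := one_le_pow₀ hA
  obtain ⟨s0, hs0⟩ : ∃ s0 : ℝ, s0 = Real.log (4 * A ^ 2) := ⟨_, rfl⟩
  have hs00 : 0 ≤ s0 := by rw [hs0]; exact Real.log_nonneg (by linarith)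
  obtain ⟨e0, he0⟩ : ∃ e0 : ℝ, e0 = Real.log (6 * A) := ⟨_, rfl⟩
  have he00 : 0 ≤ e0 := by rw [he0]; exact Real.log_nonneg (by linarith)
  obtain ⟨lam, hlam⟩ := exists_nat_ge ((e0 + 3 * Real.log 2 + s0 + C' + 2) / Real.log (3 / 2))
  rw [div_le_iff₀ hq] at hlam
  have hlam0 : (0 : ℝ) ≤ lam := Nat.cast_nonneg lam
  obtain ⟨s2, hs2⟩ : ∃ s2 : ℝ, s2 = e0 + lam + C' + 2 := ⟨_, rfl⟩
  have hs20 : 0 ≤ s2 := by rw [hs2]; positivity
  obtain ⟨L0, hL0⟩ := exists_nat_ge ((Real.log 4 + (1 + 2) * Real.log 2 + (s0 + s2)) *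
    (4 * lam) / Real.log 2)
  obtain ⟨L, hLdef⟩ : ∃ L, L = max 1 L0 := ⟨_, rfl⟩
  have hL : 1 ≤ L := by rw [hLdef]; exact le_max_left _ _
  have hL1 : (1 : ℝ) ≤ L := by exact_mod_cast hL
  have hLs : (Real.log 4 + (1 + ((2 : ℕ) : ℝ)) * Real.log 2 + (s0 + s2)) *
      (2 ^ 2 * ((1 : ℕ) : ℝ) * (lam : ℝ) ^ 1) ≤ Real.log 2 * L := by
    rw [div_le_iff₀ hl2] at hL0
    have h1 : (L0 : ℝ) ≤ L := by
      rw [hLdef]
      exact_mod_cast le_max_right _ _
    have h2 := mul_le_mul_of_nonneg_right h1 hl2.le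
    have h3 : (Real.log 4 + (1 + ((2 : ℕ) : ℝ)) * Real.log 2 + (s0 + s2)) *
      (2 ^ 2 * ((1 : ℕ) : ℝ) * (lam : ℝ) ^ 1) = (Real.log 4 + (1 + 2) * Real.log 2 + (s0 + s2)) *
    (4 * lam) := by push_cast; ring
    rw [h3]
    linarith
  obtain ⟨m, hm⟩ : ∃ m, m = lam * L := ⟨_, rfl⟩
  have hmr : (m : ℝ) = lam * L := by rw [hm]; push_cast; ring
  obtain ⟨M, hM⟩ : ∃ M : ℝ, M = (4 * A ^ 2) ^ L := ⟨_, rfl⟩
  have hM0 : 0 ≤ M := by rw [hM]; positivity
  have hMe : M = Real.exp (L * s0) := by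
    rw [hM, hs0, bp5_pow _ (by positivity)]
  have hT := fun (α : Fin 2 → Fin (L + 1)) (i : Fin 2) =>
    b1_taylor t0 ρ M hρ hM0 (b1_h R Q i (α 0) (α 1)) (b1_h_diff t0 ρ R Q hR hQ i _ _)
      (fun t ht => by
        rw [hM]
        exact b1_h_norm R Q A hA t (hRA t ht) (hQA t ht) (htA t ht) L i _ _
          (Nat.lt_succ_iff.1 (α 0).2) (Nat.lt_succ_iff.1 (α 1).2))
  choose g hg1 hg2 using hT
  have hcardA : Fintype.card (Fin 2 → Fin (L + 1)) = (L + 1) ^ 2 := by simp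
  obtain ⟨f, hf0, hf1, hf2⟩ := pigeon (A := Fin 2 → Fin (L + 1))
    (J := Fin 2 × Fin m × Fin 2) (2 ^ L)
    (fun α j => if j.2.2 = 0 then (g α j.1 j.2.1).re else (g α j.1 j.2.1).im)
    (Real.exp (L * s0)) (Real.exp (-(L * s2)))
    (Real.exp_pos _) (Real.exp_pos _).le (by
      intro α j
      have h1 := hg1 α j.1 j.2.1
      rw [← hMe]
      split_ifs
      · exact (Complex.abs_re_le_norm _).trans h1
      · exact (Complex.abs_im_le_norm _).trans h1) (by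
      have hcount := bp5_count 2 1 1 lam L (by norm_num) hL (s0 + s2) (add_nonneg hs00 hs20) hLs
      have hcardJ : Fintype.card (Fin 2 × Fin m × Fin 2) = 2 ^ 2 * (1 * (lam * L) ^ 1) := by
        simp only [Fintype.card_prod, Fintype.card_fin, hm]
        ring
      rw [hcardA, hcardJ]
      push_cast
      have e1 : 2 * 2 ^ L * ((L : ℝ) + 1) ^ 2 * Real.exp (L * s0) / Real.exp (-(L * s2)) =
          2 * 2 ^ L * ((L : ℝ) + 1) ^ 2 * Real.exp (L * (s0 + s2)) := by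
        rw [mul_div_assoc, ← Real.exp_sub]
        ring_nf
      rw [e1]
      exact hcount)
  refine ⟨L, f, hL, hf0, fun α => by have := hf1 α; exact_mod_cast this, fun x t ht hx hxA => ?_⟩
  have hfR : ∀ α, ‖(f α : ℂ)‖ ≤ 2 ^ L := by
    intro α
    rw [Complex.norm_intCast]
    have := hf1 α
    exact_mod_cast this
  have hz : ‖(t - t0) / ((3 * ρ / 4 : ℝ) : ℂ)‖ ≤ 1 := by
    have hr : 0 < 3 * ρ / 4 := by positivity
    rw [norm_div, Complex.norm_real, Real.norm_of_nonneg hr.le, div_le_iff₀ hr]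
    linarith
  have h2L : (2 : ℝ) ^ L = Real.exp (L * Real.log 2) := bp5_pow 2 (by norm_num) L
  have h23 : (2 / 3 : ℝ) ^ m = Real.exp (-(lam * L * Real.log (3 / 2))) := by
    rw [bp5_pow (2 / 3) (by norm_num), hmr]
    have : Real.log (2 / 3) = - Real.log (3 / 2) := by
      rw [← Real.log_inv]; norm_num
    rw [this]
    ring_nf
  have hL6 : 6 * A ≤ Real.exp (L * e0) := by
    have h1 : 6 * A = Real.exp e0 := by rw [he0, Real.exp_log (by linarith)]
    rw [h1]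
    exact Real.exp_le_exp.2 (le_mul_of_one_le_left he00 hL1)
  have key : ∀ i : Fin 2, 2 * A * ‖∑ α, (f α : ℂ) * b1_h R Q i (α 0) (α 1) t‖ ≤
      2 * Real.exp (-((C' + 2) * L)) := by
    intro i
    have p1 : ‖∑ α, (f α : ℂ) * (b1_h R Q i (α 0) (α 1) t -
        ∑ n ∈ Finset.range m, g α i n * ((t - t0) / ((3 * ρ / 4 : ℝ) : ℂ)) ^ n)‖ ≤
        ((L : ℝ) + 1) ^ 2 * (2 ^ L * (3 * M * (2 / 3) ^ m)) := by
      refine (norm_sum_le _ _).trans ?_
      calc ∑ α : Fin 2 → Fin (L + 1), ‖(f α : ℂ) * (b1_h R Q i (α 0) (α 1) t -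
            ∑ n ∈ Finset.range m, g α i n * ((t - t0) / ((3 * ρ / 4 : ℝ) : ℂ)) ^ n)‖
          ≤ ∑ _α : Fin 2 → Fin (L + 1), (2 ^ L * (3 * M * (2 / 3) ^ m)) := by
            refine Finset.sum_le_sum fun α _ => ?_
            rw [norm_mul]
            exact mul_le_mul (hfR α) (hg2 α i m t ht) (norm_nonneg _) (by positivity)
        _ = _ := by
            rw [Finset.sum_const, Finset.card_univ, nsmul_eq_mul, hcardA]
            push_cast
            ring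
    have p2 : ‖∑ α, (f α : ℂ) *
        ∑ n ∈ Finset.range m, g α i n * ((t - t0) / ((3 * ρ / 4 : ℝ) : ℂ)) ^ n‖ ≤
        m * (2 * Real.exp (-(L * s2))) := by
      have h1 : ∑ α, (f α : ℂ) *
          ∑ n ∈ Finset.range m, g α i n * ((t - t0) / ((3 * ρ / 4 : ℝ) : ℂ)) ^ n =
          ∑ n ∈ Finset.range m, (∑ α, (f α : ℂ) * g α i n) *
            ((t - t0) / ((3 * ρ / 4 : ℝ) : ℂ)) ^ n := by
        simp only [Finset.mul_sum, Finset.sum_mul]
        rw [Finset.sum_comm]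
        refine Finset.sum_congr rfl fun n _ => Finset.sum_congr rfl fun α _ => by ring
      rw [h1]
      refine (norm_sum_le _ _).trans ?_
      calc ∑ n ∈ Finset.range m, ‖(∑ α, (f α : ℂ) * g α i n) *
            ((t - t0) / ((3 * ρ / 4 : ℝ) : ℂ)) ^ n‖
          ≤ ∑ n ∈ Finset.range m, (2 * Real.exp (-(L * s2))) := by
            refine Finset.sum_le_sum fun n hn => ?_
            rw [norm_mul, norm_pow]
            have hre : |(∑ α, (f α : ℂ) * g α i n).re| ≤ Real.exp (-(L * s2)) := by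
              have h5 := hf2 (i, ⟨n, Finset.mem_range.1 hn⟩, 0)
              have h6 : (∑ α, (f α : ℂ) * g α i n).re = ∑ α, (f α : ℝ) * (g α i n).re := by
                rw [Complex.re_sum]
                refine Finset.sum_congr rfl fun α _ => ?_
                rw [Complex.mul_re, Complex.intCast_re, Complex.intCast_im]
                ring
              rw [h6]
              simpa using h5
            have him : |(∑ α, (f α : ℂ) * g α i n).im| ≤ Real.exp (-(L * s2)) := by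
              have h5 := hf2 (i, ⟨n, Finset.mem_range.1 hn⟩, 1)
              have h6 : (∑ α, (f α : ℂ) * g α i n).im = ∑ α, (f α : ℝ) * (g α i n).im := by
                rw [Complex.im_sum]
                refine Finset.sum_congr rfl fun α _ => ?_
                rw [Complex.mul_im, Complex.intCast_re, Complex.intCast_im]
                ring
              rw [h6]
              simpa using h5
            have h7 : ‖∑ α, (f α : ℂ) * g α i n‖ ≤ 2 * Real.exp (-(L * s2)) := by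
              refine (Complex.norm_le_abs_re_add_abs_im _).trans ?_
              linarith
            calc _ ≤ 2 * Real.exp (-(L * s2)) * 1 :=
                  mul_le_mul h7 (pow_le_one₀ (norm_nonneg _) hz) (by positivity) (by positivity)
              _ = _ := mul_one _
        _ = _ := by
            rw [Finset.sum_const, Finset.card_range, nsmul_eq_mul]
    have hsplit : ∑ α, (f α : ℂ) * b1_h R Q i (α 0) (α 1) t =
        ∑ α, (f α : ℂ) * (b1_h R Q i (α 0) (α 1) t -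
          ∑ n ∈ Finset.range m, g α i n * ((t - t0) / ((3 * ρ / 4 : ℝ) : ℂ)) ^ n) +
        ∑ α, (f α : ℂ) *
          ∑ n ∈ Finset.range m, g α i n * ((t - t0) / ((3 * ρ / 4 : ℝ) : ℂ)) ^ n := by
      rw [← Finset.sum_add_distrib]
      refine Finset.sum_congr rfl fun α _ => by ring
    have q1 : 2 * A * (((L : ℝ) + 1) ^ 2 * (2 ^ L * (3 * M * (2 / 3) ^ m))) ≤
        Real.exp (-((C' + 2) * L)) := by
      have hb := bp5_card 2 L
      calc 2 * A * (((L : ℝ) + 1) ^ 2 * (2 ^ L * (3 * M * (2 / 3) ^ m)))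
          = (6 * A) * (((L : ℝ) + 1) ^ 2 * (2 ^ L * (M * (2 / 3) ^ m))) := by ring
        _ ≤ Real.exp (L * e0) * (Real.exp ((2 : ℕ) * L * Real.log 2) *
              (Real.exp (L * Real.log 2) *
                (Real.exp (L * s0) * Real.exp (-(lam * L * Real.log (3 / 2)))))) := by
            rw [h2L, h23, hMe]
            refine mul_le_mul hL6 ?_ (by positivity) (by positivity)
            exact mul_le_mul_of_nonneg_right hb (by positivity)
        _ = Real.exp (L * (e0 + 3 * Real.log 2 + s0) - lam * L * Real.log (3 / 2)) := by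
            simp only [← Real.exp_add]
            congr 1
            push_cast
            ring
        _ ≤ Real.exp (-((C' + 2) * L)) := by
            apply Real.exp_le_exp.2
            have h5 := mul_le_mul_of_nonneg_left hlam (by linarith : (0 : ℝ) ≤ L)
            nlinarith
    have q2 : 2 * A * (m * (2 * Real.exp (-(L * s2)))) ≤ Real.exp (-((C' + 2) * L)) := by
      have hm1 : (m : ℝ) ≤ Real.exp (lam * L) := by
        rw [hmr]
        have := Real.add_one_le_exp ((lam : ℝ) * L)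
        linarith
      calc 2 * A * (m * (2 * Real.exp (-(L * s2))))
          = (4 * A) * (m * Real.exp (-(L * s2))) := by ring
        _ ≤ Real.exp (L * e0) * (Real.exp (lam * L) * Real.exp (-(L * s2))) := by
            refine mul_le_mul (le_trans (by linarith) hL6) ?_ (by positivity) (by positivity)
            exact mul_le_mul_of_nonneg_right hm1 (Real.exp_pos _).le
        _ = Real.exp (-((C' + 2) * L)) := by
            simp only [← Real.exp_add]
            congr 1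
            rw [hs2]
            ring
    rw [hsplit]
    calc 2 * A * ‖_ + _‖ ≤ 2 * A * (((L : ℝ) + 1) ^ 2 * (2 ^ L * (3 * M * (2 / 3) ^ m)) +
          m * (2 * Real.exp (-(L * s2)))) := by
          refine mul_le_mul_of_nonneg_left ((norm_add_le _ _).trans (add_le_add p1 p2)) (by linarith)
      _ = 2 * A * (((L : ℝ) + 1) ^ 2 * (2 ^ L * (3 * M * (2 / 3) ^ m))) +
          2 * A * (m * (2 * Real.exp (-(L * s2)))) := by ring
      _ ≤ 2 * Real.exp (-((C' + 2) * L)) := by linarith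
  rw [b1_ev R Q f x t hx]
  have k0 := key 0
  have k1 := key 1
  have hexp : 2 * Real.exp (-((C' + 2) * L)) < Real.exp (-(C * L)) := by
    have h1 : Real.exp (-((C' + 2) * L)) = Real.exp (-(C' * L)) * Real.exp (-(2 * L)) := by
      rw [← Real.exp_add]; ring_nf
    have h2 : Real.exp (-(C' * L)) ≤ Real.exp (-(C * L)) := by
      apply Real.exp_le_exp.2
      have := mul_le_mul_of_nonneg_right hCC (by linarith : (0 : ℝ) ≤ L)
      linarith
    have h3 : 2 * Real.exp (-(2 * (L : ℝ))) < 1 := by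
      have h4 := Real.add_one_le_exp (2 * (L : ℝ))
      rw [Real.exp_neg, mul_inv_lt_iff₀ (Real.exp_pos _)]
      linarith
    have h5 := Real.exp_pos (-(C' * L))
    rw [h1]
    calc 2 * (Real.exp (-(C' * L)) * Real.exp (-(2 * L)))
        = Real.exp (-(C' * L)) * (2 * Real.exp (-(2 * (L : ℝ)))) := by ring
      _ < Real.exp (-(C' * L)) * 1 := mul_lt_mul_of_pos_left h3 h5
      _ ≤ Real.exp (-(C * L)) := by rw [mul_one]; exact h2
  have n0 := norm_nonneg (∑ α, (f α : ℂ) * b1_h R Q 0 (α 0) (α 1) t)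
  have n1 := norm_nonneg (∑ α, (f α : ℂ) * b1_h R Q 1 (α 0) (α 1) t)
  have hx1 : ‖x * ∑ α, (f α : ℂ) * b1_h R Q 1 (α 0) (α 1) t‖ ≤
      A * ‖∑ α, (f α : ℂ) * b1_h R Q 1 (α 0) (α 1) t‖ := by
    rw [norm_mul]
    exact mul_le_mul_of_nonneg_right hxA n1
  have hn := norm_add_le (∑ α, (f α : ℂ) * b1_h R Q 0 (α 0) (α 1) t)
    (x * ∑ α, (f α : ℂ) * b1_h R Q 1 (α 0) (α 1) t)
  exact b1_fin hn hx1 (le_mul_of_one_le_left n0 hA) k0 k1 hexp

end Pool.Agent.Z5
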