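import Pool.Agent.Z5.Defs

namespace Pool.Agent.Z5

open Pool.Agent.ZL2 Filter Topology

/-- Row Z5-B2a. Local branches of the logarithms of `y_i`: `ℓ_i t = log (y_i(t)/y_i(t0)) + log (y_i(t0))` on a ball where
`y_i(t)/y_i(t0) = (t - d_i)/(t0 - d_i)` is in the ball of centre 1 and radius 1. -/
theorem exists_log {c d : Fin 3 → ℂ} (hc : ∀ i, c i ≠ 0) {t0 : ℂ} (ht0 : ∀ i, t0 ≠ d i) :
    ∃ ρ : ℝ, 0 < ρ ∧ ∃ ℓ : Fin 3 → ℂ → ℂ, ∀ i, ∀ t ∈ Metric.ball t0 ρ, t ≠ d i ∧
      HasDerivAt (ℓ i) (1 / (t - d i)) t ∧ (ℓ i t).re = LY c d t i ∧ Complex.exp (ℓ i t) = c i * (t - d i) := by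
  obtain ⟨ρ, hρ, hle⟩ : ∃ ρ : ℝ, 0 < ρ ∧ ∀ i, ρ ≤ ‖t0 - d i‖ := by
    refine ⟨min (min ‖t0 - d 0‖ ‖t0 - d 1‖) ‖t0 - d 2‖, ?_, ?_⟩
    · exact lt_min (lt_min (norm_pos_iff.mpr (sub_ne_zero.mpr (ht0 0)))
        (norm_pos_iff.mpr (sub_ne_zero.mpr (ht0 1)))) (norm_pos_iff.mpr (sub_ne_zero.mpr (ht0 2)))
    · intro i
      fin_cases i
      · exact (min_le_left _ _).trans (min_le_left _ _)
      · exact (min_le_left _ _).trans (min_le_right _ _)
      · exact min_le_right _ _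
  refine ⟨ρ, hρ, fun i t => Complex.log ((t - d i) / (t0 - d i)) + Complex.log (c i * (t0 - d i)), ?_⟩
  intro i t ht
  have h0 : t0 - d i ≠ 0 := sub_ne_zero.mpr (ht0 i)
  have hn : ‖t - t0‖ < ‖t0 - d i‖ := by
    have h1 : dist t t0 < ρ := ht
    rw [dist_eq_norm] at h1
    exact h1.trans_le (hle i)
  have hw : (t - d i) / (t0 - d i) = 1 + (t - t0) / (t0 - d i) := by
    field_simp
    ring
  have hs : (t - d i) / (t0 - d i) ∈ Complex.slitPlane := by
    rw [hw]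
    refine Complex.mem_slitPlane_of_norm_lt_one ?_
    rw [norm_div, div_lt_one (norm_pos_iff.mpr h0)]
    exact hn
  have hne : (t - d i) / (t0 - d i) ≠ 0 := Complex.slitPlane_ne_zero hs
  have htd : t - d i ≠ 0 := fun h => hne (by rw [h, zero_div])
  have hexp : Complex.exp (Complex.log ((t - d i) / (t0 - d i)) + Complex.log (c i * (t0 - d i)))
      = c i * (t - d i) := by
    rw [Complex.exp_add, Complex.exp_log hne, Complex.exp_log (mul_ne_zero (hc i) h0)]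
    field_simp
  refine ⟨sub_ne_zero.mp htd, ?_, ?_, hexp⟩
  · have h1 : HasDerivAt (fun s : ℂ => (s - d i) / (t0 - d i)) (1 / (t0 - d i)) t :=
      ((hasDerivAt_id t).sub_const (d i)).div_const (t0 - d i)
    have h2 := (h1.clog hs).add_const (Complex.log (c i * (t0 - d i)))
    have h3 : 1 / (t0 - d i) / ((t - d i) / (t0 - d i)) = 1 / (t - d i) := by
      field_simp
    rw [h3] at h2
    exact h2
  · show (Complex.log ((t - d i) / (t0 - d i)) + Complex.log (c i * (t0 - d i))).re = Real.log ‖c i * (t - d i)‖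
    rw [← hexp, Complex.norm_exp, Real.log_exp]

theorem b2_conj_neg {w : ℂ} (h : w.re = 0) : (starRingEnd ℂ) (-w) = w := by
  apply Complex.ext
  · simp [h]
  · simp

/-- Row Z5-B2b. The Schwarz function of the level curve `Re f = 0`. Let `g` be the local inverse of `f` at `t0`
(`HasStrictDerivAt.localInverse`, holomorphic near `f t0`: `ContDiffAt.to_localInverse` or `AnalyticAt`), then
`χ t = conj (g (conj (- f t)))`: if `Re (f t) = 0` then `conj (- f t) = f t` and `g (f t) = t`. -/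
theorem schwarz {f : ℂ → ℂ} {t0 : ℂ} (hf : ∀ᶠ t in 𝓝 t0, DifferentiableAt ℂ f t) (hd : deriv f t0 ≠ 0)
    (h0 : (f t0).re = 0) : ∃ ρ : ℝ, 0 < ρ ∧ ∃ χ : ℂ → ℂ, DifferentiableOn ℂ χ (Metric.ball t0 ρ) ∧
      ∀ t ∈ Metric.ball t0 ρ, (f t).re = 0 → χ t = (starRingEnd ℂ) t := by
  have han : AnalyticAt ℂ f t0 := Complex.analyticAt_iff_eventually_differentiableAt.mpr hf
  have hcd : ContDiffAt ℂ 1 f t0 := han.contDiffAt
  have hda : HasDerivAt f (deriv f t0) t0 := han.differentiableAt.hasDerivAt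
  have hfd : HasFDerivAt f ((ContinuousLinearEquiv.unitsEquivAut ℂ (Units.mk0 (deriv f t0) hd) : ℂ ≃L[ℂ] ℂ) :
      ℂ →L[ℂ] ℂ) t0 := hda.hasFDerivAt_equiv hd
  have h10 : (1 : WithTop ℕ∞) ≠ 0 := one_ne_zero
  set g : ℂ → ℂ := hcd.localInverse hfd h10 with hg
  have hgc : ContDiffAt ℂ 1 g (f t0) := hcd.to_localInverse hfd h10
  have hleft : ∀ᶠ t in 𝓝 t0, g (f t) = t :=
    (hcd.hasStrictFDerivAt' hfd h10).eventually_left_inverse
  have hgd : ∀ᶠ w in 𝓝 (f t0), DifferentiableAt ℂ g w := by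
    filter_upwards [hgc.eventually (by simp)] with w hw
    exact hw.differentiableAt (by simp)
  have hct : ContinuousAt f t0 := han.continuousAt
  have hfix : (starRingEnd ℂ) (-f t0) = f t0 := b2_conj_neg h0
  have hcj : Tendsto (fun t => (starRingEnd ℂ) (-f t)) (𝓝 t0) (𝓝 (f t0)) := by
    have h1 : Tendsto (fun t => (starRingEnd ℂ) (-f t)) (𝓝 t0) (𝓝 ((starRingEnd ℂ) (-f t0))) :=
      (Complex.continuous_conj.tendsto _).comp hct.neg
    rwa [hfix] at h1
  have hall : ∀ᶠ t in 𝓝 t0, DifferentiableAt ℂ f t ∧ DifferentiableAt ℂ g ((starRingEnd ℂ) (-f t)) ∧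
      g (f t) = t := by
    filter_upwards [hf, hcj.eventually hgd, hleft] with t h1 h2 h3
    exact ⟨h1, h2, h3⟩
  obtain ⟨ρ, hρ, hball⟩ := Metric.eventually_nhds_iff_ball.mp hall
  refine ⟨ρ, hρ, fun t => (starRingEnd ℂ) (g ((starRingEnd ℂ) (-f t))), ?_, ?_⟩
  · intro t ht
    obtain ⟨h1, h2, -⟩ := hball t ht
    have h3 : DifferentiableAt ℂ ((starRingEnd ℂ) ∘ g ∘ (starRingEnd ℂ)) (-f t) :=
      differentiableAt_conj_conj_iff.mpr h2
    have h4 : DifferentiableAt ℂ (((starRingEnd ℂ) ∘ g ∘ (starRingEnd ℂ)) ∘ (fun s => -f s)) t :=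
      h3.comp t h1.neg
    exact h4.differentiableWithinAt
  · intro t ht hre
    obtain ⟨-, -, h3⟩ := hball t ht
    show (starRingEnd ℂ) (g ((starRingEnd ℂ) (-f t))) = (starRingEnd ℂ) t
    rw [b2_conj_neg hre, h3]

/-- Row Z5-B2c. `f_0 = ∑ u_i ℓ_i` has derivative `∑ u_i / (t - d_i)`, which vanishes at finitely many points only:
multiplied by `∏ (t - d_i)` it is a polynomial, nonzero because its value at `d_i` is `u_i ∏_{j ≠ i} (d_i - d_j)`. -/
theorem crit_finite {d : Fin 3 → ℂ} (hd : Function.Injective d) {u : Fin 3 → ℝ} (hu : u ≠ 0) :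
    {t : ℂ | (∀ i, t ≠ d i) ∧ ∑ i, (u i : ℂ) / (t - d i) = 0}.Finite := by
  classical
  set P : Polynomial ℂ := ∑ i, Polynomial.C (u i : ℂ) * ∏ j ∈ Finset.univ.erase i,
    (Polynomial.X - Polynomial.C (d j)) with hP
  have hev : ∀ t, P.eval t = ∑ i, (u i : ℂ) * ∏ j ∈ Finset.univ.erase i, (t - d j) := by
    intro t
    simp [hP, Polynomial.eval_finsetSum, Polynomial.eval_prod]
  have hP0 : P ≠ 0 := by
    obtain ⟨k, hk⟩ := Function.ne_iff.mp hu
    intro h
    have h1 := hev (d k)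
    rw [h, Polynomial.eval_zero, Finset.sum_eq_single k] at h1
    · have h2 : ∏ j ∈ Finset.univ.erase k, (d k - d j) ≠ 0 := by
        refine Finset.prod_ne_zero_iff.mpr fun j hj => sub_ne_zero.mpr fun h => ?_
        exact (Finset.ne_of_mem_erase hj) (hd h).symm
      have h3 : (u k : ℂ) ≠ 0 := by exact_mod_cast hk
      exact (mul_ne_zero h3 h2) h1.symm
    · intro i _ hik
      have : ∏ j ∈ Finset.univ.erase i, (d k - d j) = 0 :=
        Finset.prod_eq_zero (Finset.mem_erase.mpr ⟨hik.symm, Finset.mem_univ k⟩) (sub_self _)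
      rw [this, mul_zero]
    · intro h; exact absurd (Finset.mem_univ k) h
  refine (P.roots.toFinset.finite_toSet).subset ?_
  rintro t ⟨ht, hs⟩
  rw [Finset.mem_coe, Multiset.mem_toFinset, Polynomial.mem_roots hP0, Polynomial.IsRoot.def, hev]
  have h4 : ∀ i, (u i : ℂ) * ∏ j ∈ Finset.univ.erase i, (t - d j) =
      ((u i : ℂ) / (t - d i)) * ∏ j, (t - d j) := by
    intro i
    have hi : t - d i ≠ 0 := sub_ne_zero.mpr (ht i)
    rw [← Finset.mul_prod_erase Finset.univ (fun j => t - d j) (Finset.mem_univ i)]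
    field_simp
  rw [Finset.sum_congr rfl (fun i _ => h4 i), ← Finset.sum_mul, hs, zero_mul]

end Pool.Agent.Z5
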