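import Pool.Agent.Z5.B2

namespace Pool.Agent.Z5

open Pool.Agent.ZL2 Filter Topology

/-- Row Z5-B3. Near a point `t0` of the level curve `u · LY = 0` which is not critical the points `(X, t)` satisfy a monic quadratic equation
over the holomorphic functions. `exists_log`, `schwarz` with `f = ∑ u_i ℓ_i` (`Re f = u · LY`); with `χ` the Schwarz function and
`ℓ_i^* s = conj (ℓ_i (conj s))` (holomorphic near `conj t0`; `χ t0 = conj t0`, so shrink the ball so that `conj (χ t)` stays in the ball of the `ℓ_i`)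
the holomorphic function `Λ_i t = (ℓ_i t + ℓ_i^* (χ t)) / 2` equals `LY t i` on the level curve. `Q = ‖a‖^2 exp (2 ∑ M_0i Λ_i)` equals `|X|^2` and
`Q' = ‖b‖^2 exp (2 ∑ M_1i Λ_i)` equals `|1-X|^2`, `R = (1 + Q - Q') / 2` equals `Re X`, and `X^2 = 2 Re X · X - |X|^2`. Shrink the ball once more for the bounds
(the functions are continuous at `t0`). -/
theorem exists_RQ {a b : ℂ} (ha : a ≠ 0) (hb : b ≠ 0) {c d : Fin 3 → ℂ} (hc : ∀ i, c i ≠ 0) {t0 : ℂ}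
    (ht0 : ∀ i, t0 ≠ d i) {u : Fin 3 → ℝ} (hu0 : dt u (LY c d t0) = 0) (hcr : ∑ i, (u i : ℂ) / (t0 - d i) ≠ 0)
    (M : Fin 2 → Fin 3 → ℝ) :
    ∃ (ρ A : ℝ) (R Q : ℂ → ℂ), 0 < ρ ∧ 1 ≤ A ∧ DifferentiableOn ℂ R (Metric.ball t0 ρ) ∧
      DifferentiableOn ℂ Q (Metric.ball t0 ρ) ∧ (∀ t ∈ Metric.ball t0 ρ, ‖R t‖ ≤ A ∧ ‖Q t‖ ≤ A ∧ ‖t‖ ≤ A) ∧
      ∀ x t : ℂ, t ∈ Metric.ball t0 ρ → dt u (LY c d t) = 0 → x ≠ 0 → x ≠ 1 →
        Real.log ‖x‖ = dt (M 0) (LY c d t) + Real.log ‖a‖ →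
        Real.log ‖1 - x‖ = dt (M 1) (LY c d t) + Real.log ‖b‖ → x ^ 2 = 2 * R t * x - Q t ∧ ‖x‖ ≤ A := by
  obtain ⟨ρ0, hρ0, ℓ, hℓ⟩ := exists_log hc ht0
  have hfd : ∀ t ∈ Metric.ball t0 ρ0,
      HasDerivAt (fun t => ∑ i, (u i : ℂ) * ℓ i t) (∑ i, (u i : ℂ) / (t - d i)) t := by
    intro t ht
    have h := HasDerivAt.fun_sum (u := Finset.univ) (A := fun i t => (u i : ℂ) * ℓ i t)
      (A' := fun i => (u i : ℂ) * (1 / (t - d i))) (x := t)
      (fun i _ => ((hℓ i t ht).2.1).const_mul _)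
    have e : (∑ i, (u i : ℂ) / (t - d i)) = ∑ i, (u i : ℂ) * (1 / (t - d i)) :=
      Finset.sum_congr rfl fun i _ => by rw [mul_one_div]
    rw [e]
    exact h
  have hre : ∀ t ∈ Metric.ball t0 ρ0, (∑ i, (u i : ℂ) * ℓ i t).re = dt u (LY c d t) := by
    intro t ht
    rw [Complex.re_sum]
    unfold dt
    refine Finset.sum_congr rfl fun i _ => ?_
    rw [Complex.re_ofReal_mul, (hℓ i t ht).2.2.1]
  have ht0m : t0 ∈ Metric.ball t0 ρ0 := Metric.mem_ball_self hρ0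
  obtain ⟨ρ1, hρ1, χ, hχ, hχ2⟩ := schwarz (f := fun t => ∑ i, (u i : ℂ) * ℓ i t) (t0 := t0)
    (by
      filter_upwards [Metric.ball_mem_nhds t0 hρ0] with t ht
      exact (hfd t ht).differentiableAt)
    (by rw [(hfd t0 ht0m).deriv]; exact hcr)
    (by rw [hre t0 ht0m]; exact hu0)
  have hχ0 : χ t0 = (starRingEnd ℂ) t0 := hχ2 t0 (Metric.mem_ball_self hρ1) (by rw [hre t0 ht0m]; exact hu0)
  have hχc : ContinuousAt χ t0 :=
    (hχ.differentiableAt (Metric.ball_mem_nhds t0 hρ1)).continuousAt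
  -- the set where everything is defined
  have hnear : ∀ᶠ t in 𝓝 t0, (starRingEnd ℂ) (χ t) ∈ Metric.ball t0 ρ0 := by
    have h1 : ContinuousAt (fun t => (starRingEnd ℂ) (χ t)) t0 :=
      Complex.continuous_conj.continuousAt.comp hχc
    have h2 : (starRingEnd ℂ) (χ t0) = t0 := by rw [hχ0, Complex.conj_conj]
    have h3 : Metric.ball t0 ρ0 ∈ 𝓝 ((starRingEnd ℂ) (χ t0)) := by
      rw [h2]; exact Metric.ball_mem_nhds t0 hρ0
    exact h1 h3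
  have hL : ∀ t ∈ Metric.ball t0 ρ0, t ∈ Metric.ball t0 ρ1 → (starRingEnd ℂ) (χ t) ∈ Metric.ball t0 ρ0 →
      ∀ i, DifferentiableAt ℂ (fun t => (ℓ i t + (starRingEnd ℂ) (ℓ i ((starRingEnd ℂ) (χ t)))) / 2) t := by
    intro t h0 h1 h2 i
    have h3 : DifferentiableAt ℂ (fun s => (starRingEnd ℂ) (ℓ i ((starRingEnd ℂ) s))) (χ t) := by
      have h4 := ((hℓ i _ h2).2.1).differentiableAt.conj_conj
      rw [Complex.conj_conj] at h4
      exact h4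
    have h5 : DifferentiableAt ℂ χ t := hχ.differentiableAt (Metric.isOpen_ball.mem_nhds h1)
    have h6 := h3.comp t h5
    exact (((hℓ i t h0).2.1).differentiableAt.add h6).div_const 2
  have hLv : ∀ t ∈ Metric.ball t0 ρ0, t ∈ Metric.ball t0 ρ1 → dt u (LY c d t) = 0 → ∀ i,
      (ℓ i t + (starRingEnd ℂ) (ℓ i ((starRingEnd ℂ) (χ t)))) / 2 = (LY c d t i : ℂ) := by
    intro t h0 h1 h2 i
    rw [hχ2 t h1 (by rw [hre t h0]; exact h2), Complex.conj_conj, Complex.add_conj, (hℓ i t h0).2.2.1]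
    push_cast
    ring
  obtain ⟨Λ, hΛ⟩ : ∃ Λ : Fin 3 → ℂ → ℂ, Λ = fun i t =>
    (ℓ i t + (starRingEnd ℂ) (ℓ i ((starRingEnd ℂ) (χ t)))) / 2 := ⟨_, rfl⟩
  obtain ⟨E, hE⟩ : ∃ E : ℂ → Fin 2 → ℂ → ℂ, E = fun a j t =>
    (‖a‖ : ℂ) ^ 2 * Complex.exp (2 * ∑ i, (M j i : ℂ) * Λ i t) := ⟨_, rfl⟩
  have hEd : ∀ a j, ∀ t ∈ Metric.ball t0 ρ0, t ∈ Metric.ball t0 ρ1 →
      (starRingEnd ℂ) (χ t) ∈ Metric.ball t0 ρ0 → DifferentiableAt ℂ (E a j) t := by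
    intro a j t h0 h1 h2
    rw [hE]
    refine DifferentiableAt.const_mul ?_ _
    refine DifferentiableAt.cexp ?_
    refine DifferentiableAt.const_mul ?_ _
    refine DifferentiableAt.fun_sum fun i _ => ?_
    refine DifferentiableAt.const_mul ?_ _
    rw [hΛ]
    exact hL t h0 h1 h2 i
  have hEv : ∀ a : ℂ, a ≠ 0 → ∀ j, ∀ x : ℂ, x ≠ 0 → ∀ t ∈ Metric.ball t0 ρ0, t ∈ Metric.ball t0 ρ1 →
      dt u (LY c d t) = 0 → Real.log ‖x‖ = dt (M j) (LY c d t) + Real.log ‖a‖ →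
      E a j t = ((‖x‖ ^ 2 : ℝ) : ℂ) := by
    intro a ha j x hx t h0 h1 h2 h3
    have h4 : ∑ i, (M j i : ℂ) * Λ i t = ((dt (M j) (LY c d t) : ℝ) : ℂ) := by
      unfold dt
      push_cast
      refine Finset.sum_congr rfl fun i _ => ?_
      rw [hΛ]
      simp only
      rw [hLv t h0 h1 h2 i]
    have h5 : ‖x‖ = ‖a‖ * Real.exp (dt (M j) (LY c d t)) := by
      have hx' : 0 < ‖x‖ := norm_pos_iff.2 hx
      have ha' : 0 < ‖a‖ := norm_pos_iff.2 ha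
      rw [← Real.exp_log hx', h3, Real.exp_add, Real.exp_log ha', mul_comm]
    rw [hE]
    simp only
    rw [h4, h5, mul_pow, ← Real.exp_nat_mul]
    push_cast
    ring
  obtain ⟨A, hA⟩ : ∃ A : ℝ, A = ‖(1 + E a 0 t0 - E b 1 t0) / 2‖ + ‖E a 0 t0‖ + ‖t0‖ + 1 := ⟨_, rfl⟩
  have hE0 := (hEd a 0 t0 ht0m (Metric.mem_ball_self hρ1) hnear.self_of_nhds)
  have hE1 := (hEd b 1 t0 ht0m (Metric.mem_ball_self hρ1) hnear.self_of_nhds)
  have hR0 : ContinuousAt (fun t => (1 + E a 0 t - E b 1 t) / 2) t0 :=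
    (((hE0.const_add 1).sub hE1).div_const 2).continuousAt
  have hev : ∀ᶠ t in 𝓝 t0, t ∈ Metric.ball t0 ρ0 ∧ t ∈ Metric.ball t0 ρ1 ∧
      (starRingEnd ℂ) (χ t) ∈ Metric.ball t0 ρ0 ∧ ‖(1 + E a 0 t - E b 1 t) / 2‖ < A ∧ ‖E a 0 t‖ < A ∧ ‖t‖ < A := by
    have n1 := norm_nonneg ((1 + E a 0 t0 - E b 1 t0) / 2)
    have n2 := norm_nonneg (E a 0 t0)
    have n3 := norm_nonneg t0
    have e1 := hR0.norm.eventually (gt_mem_nhds (show ‖(1 + E a 0 t0 - E b 1 t0) / 2‖ < A by rw [hA]; linarith))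
    have e2 := hE0.continuousAt.norm.eventually (gt_mem_nhds (show ‖E a 0 t0‖ < A by rw [hA]; linarith))
    have e3 := (continuous_norm.continuousAt (x := t0)).eventually (gt_mem_nhds (show ‖t0‖ < A by rw [hA]; linarith))
    filter_upwards [Metric.ball_mem_nhds t0 hρ0, Metric.ball_mem_nhds t0 hρ1, hnear, e1, e2, e3]
      with t a1 a2 a3 a4 a5 a6
    exact ⟨a1, a2, a3, a4, a5, a6⟩
  obtain ⟨ρ, hρ, hball⟩ := Metric.eventually_nhds_iff_ball.1 hev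
  have hA1 : 1 ≤ A := by
    rw [hA]
    have n1 := norm_nonneg ((1 + E a 0 t0 - E b 1 t0) / 2)
    have n2 := norm_nonneg (E a 0 t0)
    have n3 := norm_nonneg t0
    linarith
  refine ⟨ρ, A, fun t => (1 + E a 0 t - E b 1 t) / 2, E a 0, hρ, hA1, ?_, ?_, ?_, ?_⟩
  · intro t ht
    obtain ⟨a1, a2, a3, -⟩ := hball t ht
    exact ((((hEd a 0 t a1 a2 a3).const_add 1).sub (hEd b 1 t a1 a2 a3)).div_const 2).differentiableWithinAt
  · intro t ht
    obtain ⟨a1, a2, a3, -⟩ := hball t ht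
    exact (hEd a 0 t a1 a2 a3).differentiableWithinAt
  · intro t ht
    obtain ⟨-, -, -, a4, a5, a6⟩ := hball t ht
    exact ⟨a4.le, a5.le, a6.le⟩
  · intro x t ht hut hx0 hx1 h1 h2
    obtain ⟨a1, a2, a3, a4, a5, a6⟩ := hball t ht
    have e1 := hEv a ha 0 x hx0 t a1 a2 hut h1
    have e2 := hEv b hb 1 (1 - x) (sub_ne_zero.2 hx1.symm) t a1 a2 hut h2
    constructor
    · simp only
      rw [e1, e2]
      have h3 : ‖1 - x‖ ^ 2 = 1 - 2 * x.re + ‖x‖ ^ 2 := by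
        rw [Complex.sq_norm, Complex.sq_norm, Complex.normSq_apply, Complex.normSq_apply]
        simp only [Complex.sub_re, Complex.sub_im, Complex.one_re, Complex.one_im]
        ring
      rw [h3]
      have h4 : x * (starRingEnd ℂ) x = ((‖x‖ ^ 2 : ℝ) : ℂ) := by
        rw [Complex.mul_conj, Complex.normSq_eq_norm_sq]
      have h5 : x + (starRingEnd ℂ) x = ((2 * x.re : ℝ) : ℂ) := Complex.add_conj x
      have h6 : (starRingEnd ℂ) x = ((2 * x.re : ℝ) : ℂ) - x := by rw [← h5]; ring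
      rw [h6] at h4
      push_cast at h4 ⊢
      linear_combination (-1 : ℂ) * h4
    · rw [e1, Complex.norm_real, Real.norm_eq_abs, abs_of_nonneg (by positivity)] at a5
      nlinarith [norm_nonneg x]

end Pool.Agent.Z5
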