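import Pool.Agent.Z5.A2

namespace Pool.Agent.Z5

open Pool.Agent.ZL2 Filter Topology

theorem c1_closed {a b : ℂ} {c d : Fin 3 → ℂ} {U : Ultrafilter ℕ} (S : Sq a b c d U) : IsClosed S.Sup := by
  rw [← isOpen_compl_iff, isOpen_iff_mem_nhds]
  intro p hp
  have hp' : ¬ ∀ O ∈ 𝓝 p, ∀ᶠ n in (U : Filter ℕ), ∃ σ, (S.X n σ, S.t n σ) ∈ O := hp
  push Not at hp'
  obtain ⟨O, hO, h⟩ := hp'
  obtain ⟨O', hO', ho, hpO⟩ := mem_nhds_iff.1 hO
  refine mem_nhds_iff.2 ⟨O', ?_, ho, hpO⟩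
  intro q hq hqS
  obtain ⟨n, hn, σ, hσ⟩ := (h.and (hqS O' (ho.mem_nhds hq))).exists
  exact hn σ (hO' hσ)

theorem c1_cover {a b : ℂ} {c d : Fin 3 → ℂ} {U : Ultrafilter ℕ} (S : Sq a b c d U) {K : Set (ℂ × ℂ)}
    (hK : IsCompact K) (hS : ∀ p ∈ K, p ∉ S.Sup) :
    ∀ᶠ n in (U : Filter ℕ), ∀ σ, (S.X n σ, S.t n σ) ∉ K := by
  refine hK.induction_on (p := fun s => ∀ᶠ n in (U : Filter ℕ), ∀ σ, (S.X n σ, S.t n σ) ∉ s) ?_ ?_ ?_ ?_
  · exact Eventually.of_forall fun n σ h => h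
  · intro s t hst h
    exact h.mono fun n hn σ hσ => hn σ (hst hσ)
  · intro s t h1 h2
    filter_upwards [h1, h2] with n h1 h2 σ hσ
    rcases hσ with h | h
    · exact h1 σ h
    · exact h2 σ h
  · intro x hx
    have hp' : ¬ ∀ O ∈ 𝓝 x, ∀ᶠ n in (U : Filter ℕ), ∃ σ, (S.X n σ, S.t n σ) ∈ O := hS x hx
    push Not at hp'
    obtain ⟨O, hO, h⟩ := hp'
    refine ⟨O, mem_nhdsWithin_of_mem_nhds hO, ?_⟩
    exact h

theorem c1_open {a b : ℂ} {c d : Fin 3 → ℂ} {U : Ultrafilter ℕ} (S : Sq a b c d U) {F : Set ℂ} (hF : F.Finite) :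
    ∀ θ : ℝ, 0 < θ → ∃ W : Set ℂ, IsOpen W ∧ F ⊆ W ∧
      ∀ᶠ n in (U : Filter ℕ), fr (fun σ => S.t n σ ∈ W) ≤ θ := by
  induction F, hF using Set.Finite.induction_on with
  | empty =>
    intro θ hθ
    refine ⟨∅, isOpen_empty, subset_rfl, Eventually.of_forall fun n => ?_⟩
    have : fr (fun σ : S.ι n => S.t n σ ∈ (∅ : Set ℂ)) = 0 := by
      unfold fr
      have : IsEmpty {σ : S.ι n // S.t n σ ∈ (∅ : Set ℂ)} := ⟨fun σ => σ.2⟩
      rw [Nat.card_of_isEmpty]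
      simp
    rw [this]
    exact hθ.le
  | @insert w F hw hF ih =>
    intro θ hθ
    obtain ⟨W, hWo, hFW, hW⟩ := ih (θ / 2) (by linarith)
    obtain ⟨δ, hδ, hd⟩ := noatom S.gen w (θ := θ / 2) (by linarith)
    refine ⟨Metric.ball w δ ∪ W, Metric.isOpen_ball.union hWo, ?_, ?_⟩
    · refine Set.insert_subset (Or.inl (Metric.mem_ball_self hδ)) (hFW.trans Set.subset_union_right)
    · filter_upwards [hW, hd] with n h1 h2
      have h3 : fr (fun σ : S.ι n => S.t n σ ∈ Metric.ball w δ ∪ W) ≤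
          fr (fun σ : S.ι n => ‖S.t n σ - w‖ < δ ∨ S.t n σ ∈ W) := by
        refine fr_mono ?_
        intro σ hσ
        rcases hσ with h | h
        · left
          rwa [Metric.mem_ball, dist_eq_norm] at h
        · exact Or.inr h
      have h4 := fr_or (fun σ : S.ι n => ‖S.t n σ - w‖ < δ) (fun σ => S.t n σ ∈ W)
      linarith

/-- The compact sets of points `(x, t)` used below. -/
def c1K (c d : Fin 3 → ℂ) (W : Set ℂ) (A1 A2 : ℝ) : Set (ℂ × ℂ) :=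
  {p | p.2 ∈ KA c d A1 ∧ p.2 ∉ W ∧ Real.exp (-A2) ≤ ‖p.1‖ ∧ ‖p.1‖ ≤ Real.exp A2 ∧ Real.exp (-A2) ≤ ‖1 - p.1‖ ∧
    ‖1 - p.1‖ ≤ Real.exp A2}

theorem c1K_compact {c d : Fin 3 → ℂ} (hc : ∀ i, c i ≠ 0) {W : Set ℂ} (hW : IsOpen W) (A1 A2 : ℝ) :
    IsCompact (c1K c d W A1 A2) := by
  have h1 : IsCompact ((Metric.closedBall (0 : ℂ) (Real.exp A2)) ×ˢ (KA c d A1)) :=
    (isCompact_closedBall _ _).prod (KA_compact hc A1)
  have h2 : IsClosed {p : ℂ × ℂ | p.2 ∉ W ∧ Real.exp (-A2) ≤ ‖p.1‖ ∧ ‖p.1‖ ≤ Real.exp A2 ∧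
      Real.exp (-A2) ≤ ‖1 - p.1‖ ∧ ‖1 - p.1‖ ≤ Real.exp A2} := by
    refine IsClosed.and ?_ (IsClosed.and ?_ (IsClosed.and ?_ (IsClosed.and ?_ ?_)))
    · exact (hW.preimage continuous_snd).isClosed_compl
    · exact isClosed_le continuous_const (continuous_fst.norm)
    · exact isClosed_le (continuous_fst.norm) continuous_const
    · exact isClosed_le continuous_const ((continuous_const.sub continuous_fst).norm)
    · exact isClosed_le ((continuous_const.sub continuous_fst).norm) continuous_const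
  have h3 : c1K c d W A1 A2 = ((Metric.closedBall (0 : ℂ) (Real.exp A2)) ×ˢ (KA c d A1)) ∩
      {p : ℂ × ℂ | p.2 ∉ W ∧ Real.exp (-A2) ≤ ‖p.1‖ ∧ ‖p.1‖ ≤ Real.exp A2 ∧
      Real.exp (-A2) ≤ ‖1 - p.1‖ ∧ ‖1 - p.1‖ ≤ Real.exp A2} := by
    ext p
    constructor
    · rintro ⟨h1, h2, h3, h4, h5, h6⟩
      exact ⟨⟨mem_closedBall_zero_iff.2 h4, h1⟩, h2, h3, h4, h5, h6⟩
    · rintro ⟨⟨_, h1⟩, h2, h3, h4, h5, h6⟩
      exact ⟨h1, h2, h3, h4, h5, h6⟩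
  rw [h3]
  exact h1.inter_right h2

theorem c1_dt {A A1 : ℝ} {m y : Fin 3 → ℝ} (hm : ∀ i, |m i| ≤ A) (hy : ∀ i, |y i| ≤ A1) :
    |dt m y| ≤ 3 * (A * A1) := by
  unfold dt
  refine (Finset.abs_sum_le_sum_abs _ _).trans ?_
  have hA : 0 ≤ A := (abs_nonneg _).trans (hm 0)
  have h : ∀ i ∈ (Finset.univ : Finset (Fin 3)), |m i * y i| ≤ A * A1 := by
    intro i _
    rw [abs_mul]
    exact mul_le_mul (hm i) (hy i) (abs_nonneg _) hA
  refine (Finset.sum_le_card_nsmul _ _ _ h).trans ?_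
  simp

theorem c1_exp {x : ℂ} (hx : x ≠ 0) {A : ℝ} (h : |Real.log ‖x‖| ≤ A) :
    Real.exp (-A) ≤ ‖x‖ ∧ ‖x‖ ≤ Real.exp A := by
  have h0 : 0 < ‖x‖ := norm_pos_iff.2 hx
  obtain ⟨h1, h2⟩ := abs_le.1 h
  exact ⟨(Real.le_log_iff_exp_le h0).1 h1, (Real.log_le_iff_le_exp h0).1 h2⟩

theorem c1_mem {a b : ℂ} {c d : Fin 3 → ℂ} {U : Ultrafilter ℕ} (S : Sq a b c d U) {A A1 : ℝ} {W : Set ℂ} {n : ℕ}
    (hA : ∀ j i, |S.M n j i| ≤ A) (σ : S.ι n) (ht : S.t n σ ∈ KA c d A1) (hW : S.t n σ ∉ W) :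
    (S.X n σ, S.t n σ) ∈ c1K c d W A1 (3 * (A * A1) + |Real.log ‖a‖| + |Real.log ‖b‖|) := by
  have h0 : |Real.log ‖S.X n σ‖| ≤ 3 * (A * A1) + |Real.log ‖a‖| + |Real.log ‖b‖| := by
    rw [S.r1 n σ]
    have h1 := c1_dt (hA 0) ht.2
    have h2 := abs_add_le (dt (S.M n 0) (LY c d (S.t n σ))) (Real.log ‖a‖)
    have h3 := abs_nonneg (Real.log ‖b‖)
    linarith
  have h1 : |Real.log ‖1 - S.X n σ‖| ≤ 3 * (A * A1) + |Real.log ‖a‖| + |Real.log ‖b‖| := by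
    rw [S.r2 n σ]
    have h1 := c1_dt (hA 1) ht.2
    have h2 := abs_add_le (dt (S.M n 1) (LY c d (S.t n σ))) (Real.log ‖b‖)
    have h3 := abs_nonneg (Real.log ‖a‖)
    linarith
  obtain ⟨h2, h3⟩ := c1_exp (S.hX0 n σ) h0
  obtain ⟨h4, h5⟩ := c1_exp (sub_ne_zero.2 (S.hX1 n σ).symm) h1
  exact ⟨ht, hW, h2, h3, h4, h5⟩

theorem c1_inf {a b : ℂ} {c d : Fin 3 → ℂ} {U : Ultrafilter ℕ} (S : Sq a b c d U) (hc : ∀ i, c i ≠ 0)
    {A : ℝ} (hA : S.Bdd A) {E : Set ℂ} (hE : E.Finite) :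
    ∃ (W : Set ℂ) (A1 A2 : ℝ), IsOpen W ∧ E ⊆ W ∧ (Prod.snd '' (S.Sup ∩ c1K c d W A1 A2)).Infinite := by
  obtain ⟨W, hWo, hEW, hW⟩ := c1_open S hE (1 / 4) (by norm_num)
  have hA1 : 0 < 12 * (|S.B| + 1) := by positivity
  refine ⟨W, 12 * (|S.B| + 1), 3 * (A * (12 * (|S.B| + 1))) + |Real.log ‖a‖| + |Real.log ‖b‖|, hWo, hEW, ?_⟩
  intro hfin
  obtain ⟨W', hWo', hFW, hW'⟩ := c1_open S hfin (1 / 4) (by norm_num)
  have hcomp : IsCompact (c1K c d W (12 * (|S.B| + 1)) (3 * (A * (12 * (|S.B| + 1))) + |Real.log ‖a‖| + |Real.log ‖b‖|)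
      ∩ {p : ℂ × ℂ | p.2 ∉ W'}) :=
    (c1K_compact hc hWo _ _).inter_right (hWo'.preimage continuous_snd).isClosed_compl
  have hev := c1_cover S hcomp (fun p hp hpS => hp.2 (hFW ⟨p, ⟨hpS, hp.1⟩, rfl⟩))
  have hfalse : ∀ᶠ n in (U : Filter ℕ), False := by
    filter_upwards [hev, hW, hW', hA] with n h1 h2 h3 h4
    have h5 := KA_tail (c := c) (S.t n) (S.ht n) S.B (S.hB n) hA1
    have h6 : 3 * (S.B / (12 * (|S.B| + 1))) ≤ 1 / 4 := by
      rw [← mul_div_assoc, div_le_iff₀ hA1]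
      have := le_abs_self S.B
      linarith
    have h7 : fr (fun _ : S.ι n => True) ≤ fr (fun σ : S.ι n => S.t n σ ∉ KA c d (12 * (|S.B| + 1)) ∨
        (S.t n σ ∈ W ∨ S.t n σ ∈ W')) := by
      refine fr_mono ?_
      intro σ _
      by_contra hcon
      push Not at hcon
      obtain ⟨ha, hb, hc'⟩ := hcon
      exact h1 σ ⟨c1_mem S h4 σ ha hb, hc'⟩
    rw [fr_true] at h7
    have h8 := fr_or (fun σ : S.ι n => S.t n σ ∉ KA c d (12 * (|S.B| + 1))) (fun σ => S.t n σ ∈ W ∨ S.t n σ ∈ W')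
    have h9 := fr_or (fun σ : S.ι n => S.t n σ ∈ W) (fun σ => S.t n σ ∈ W')
    linarith
  exact hfalse.exists.elim fun _ h => h

theorem c1_acc {S K : Set (ℂ × ℂ)} (hK : IsCompact K) (hinf : (Prod.snd '' (S ∩ K)).Infinite) (hS : IsClosed S) :
    ∃ p ∈ S, p ∈ K ∧ ∀ O ∈ 𝓝 p, ∃ q ∈ S, q ∈ O ∧ q.2 ≠ p.2 := by
  by_contra hcon
  push Not at hcon
  apply hinf
  have hcomp : IsCompact (S ∩ K) := hK.inter_left hS
  have h := hcomp.induction_on (p := fun s => (Prod.snd '' (S ∩ s)).Finite) ?_ ?_ ?_ ?_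
  · rwa [← Set.inter_assoc, Set.inter_self] at h
  · simp
  · intro s t hst h
    exact h.subset (Set.image_mono (Set.inter_subset_inter_right _ hst))
  · intro s t h1 h2
    rw [Set.inter_union_distrib_left, Set.image_union]
    exact h1.union h2
  · intro x hx
    obtain ⟨O, hO, h⟩ := hcon x hx.1 hx.2
    refine ⟨O, mem_nhdsWithin_of_mem_nhds hO, (Set.finite_singleton x.2).subset ?_⟩
    rintro y ⟨q, ⟨hq, hqO⟩, rfl⟩
    exact h q hq hqO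

/-- Row Z5-C1. The orbits accumulate at infinitely many points, away from any finite set. `A1` with `fr (t ∉ KA A1) ≤ 1/4` (`KA_tail`); `e ∈ E` has a ball with
`fr ≤ 1 / (4 (card E + 1))` (`noatom`). By `r1, r2` and `hA`, for `t n σ ∈ KA A1` one has `|log ‖X‖|, |log ‖1 - X‖| ≤ A2`, so for eventually all `n` at least half of the `(X n σ, t n σ)` are in the compact set
`K = {(x,t) | t ∈ KA A1, t not in the open balls around E, exp (-A2) ≤ ‖x‖ ≤ exp A2, exp (-A2) ≤ ‖1 - x‖}`. The set `W = Prod.snd '' (S.Sup ∩ K)` is infinite: otherwise (`noatom`) balls around the points of `W` have total `fr ≤ 1/4`;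
the part `K'` of `K` over the complement of the balls is compact and contains no point of `S.Sup`, so every point of `K'` has an open neighbourhood free of points of the orbit for eventually all `n` (negation of the definition of `Sup` and
`Ultrafilter.eventually_not`), finitely many of them cover `K'`, so eventually there is no `σ` in `K'`, and `1/2 ≤ 1/4`. `S.Sup` is closed, so `S.Sup ∩ K` is compact; take points `q_k ∈ S.Sup ∩ K` with different `q_k.2` and a cluster point `p`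
(of infinitely many of them): in every neighbourhood of `p` there are infinitely many `q_k`, hence one with `q_k.2 ≠ p.2`. -/
theorem exists_sup {a b : ℂ} {c d : Fin 3 → ℂ} {U : Ultrafilter ℕ} (S : Sq a b c d U) (hc : ∀ i, c i ≠ 0)
    {A : ℝ} (hA : S.Bdd A) {E : Set ℂ} (hE : E.Finite) :
    ∃ p ∈ S.Sup, p.2 ∉ E ∧ (∀ i, p.2 ≠ d i) ∧ p.1 ≠ 0 ∧ p.1 ≠ 1 ∧
      ∀ O ∈ 𝓝 p, ∃ q ∈ S.Sup, q ∈ O ∧ q.2 ≠ p.2 := by
  obtain ⟨W, A1, A2, hWo, hEW, hinf⟩ := c1_inf S hc hA hE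
  obtain ⟨p, hpS, hpK, hp⟩ := c1_acc (c1K_compact hc hWo A1 A2) hinf (c1_closed S)
  obtain ⟨h1, h2, h3, h4, h5, h6⟩ := hpK
  refine ⟨p, hpS, fun h => h2 (hEW h), h1.1, ?_, ?_, hp⟩
  · intro h
    rw [h, norm_zero] at h3
    exact absurd (Real.exp_pos (-A2)) (not_lt.2 h3)
  · intro h
    rw [h, sub_self, norm_zero] at h5
    exact absurd (Real.exp_pos (-A2)) (not_lt.2 h5)

end Pool.Agent.Z5
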