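import Pool.Agent.Z5.Defs

namespace Pool.Agent.Z5

open Pool.Agent.ZL2 Filter Topology Polynomial

theorem c2_ev2 (G : Polynomial (Polynomial ℂ)) (t x : ℂ) :
    ev2 G t x = ∑ i ∈ Finset.range (G.natDegree + 1), (G.coeff i).eval t * x ^ i := by
  unfold ev2
  rw [eval_map, eval₂_eq_sum_range]
  rfl

theorem c2_contDiff (G : Polynomial (Polynomial ℂ)) :
    ContDiff ℂ 1 (fun p : ℂ × ℂ => ev2 G p.1 p.2) := by
  simp only [c2_ev2]
  refine ContDiff.sum fun i _ => ContDiff.mul ?_ (contDiff_snd.pow i)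
  have h : ContDiff ℂ 1 fun x : ℂ => aeval x (G.coeff i) := (G.coeff i).contDiff_aeval 1
  simp only [coe_aeval_eq_eval] at h
  exact h.comp contDiff_fst

theorem c2_deriv (G : Polynomial (Polynomial ℂ)) (t x : ℂ) :
    HasDerivAt (fun x => ev2 G t x) (ev2 (derivative G) t x) x := by
  unfold ev2
  rw [← derivative_map]
  exact (G.map (evalRingHom t)).hasDerivAt x

/-- Row Z5-C2. The implicit function theorem for `G(x,t) = 0` at a point where `∂G/∂x ≠ 0`. (For example: the map `(t, x) ↦ (t, ev2 G t x)` of `ℂ × ℂ` is continuously differentiable with invertible derivative, take the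
local inverse `ContDiffAt.toOpenPartialHomeomorph` / `HasStrictFDerivAt.to_localInverse`, `ξ t = (inverse (t, 0)).2`; or `HasStrictFDerivAt.implicitFunction`.) Uniqueness: `x` close to `x0` and `ev2 G t x = 0` implies `x = ξ t`. -/
theorem chart (G : Polynomial (Polynomial ℂ)) {t0 x0 : ℂ} (h0 : ev2 G t0 x0 = 0)
    (h1 : ev2 (derivative G) t0 x0 ≠ 0) :
    ∃ (ρ η : ℝ) (ξ : ℂ → ℂ), 0 < ρ ∧ 0 < η ∧ DifferentiableOn ℂ ξ (Metric.ball t0 ρ) ∧ ξ t0 = x0 ∧
      (∀ t ∈ Metric.ball t0 ρ, ev2 G t (ξ t) = 0) ∧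
      ∀ t ∈ Metric.ball t0 ρ, ∀ x, ‖x - x0‖ < η → ev2 G t x = 0 → x = ξ t := by
  set f : ℂ × ℂ → ℂ := fun p => ev2 G p.1 p.2 with hf
  set u : ℂ × ℂ := (t0, x0) with hu
  have cdf : ContDiffAt ℂ 1 f u := (c2_contDiff G).contDiffAt
  have hone : (1 : WithTop ℕ∞) ≠ 0 := one_ne_zero
  have hfd : HasFDerivAt f (fderiv ℂ f u) u := (cdf.differentiableAt hone).hasFDerivAt
  have hd : fderiv ℂ f u (0, 1) = ev2 (derivative G) t0 x0 := by
    have e1 : HasDerivAt (fun x : ℂ => ((t0, x) : ℂ × ℂ)) ((0, 1) : ℂ × ℂ) x0 :=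
      (hasDerivAt_const x0 t0).prodMk (hasDerivAt_id x0)
    have e2 : HasDerivAt (f ∘ fun x : ℂ => ((t0, x) : ℂ × ℂ)) (fderiv ℂ f u (0, 1)) x0 :=
      HasFDerivAt.comp_hasDerivAt x0 hfd e1
    exact e2.unique (c2_deriv G t0 x0)
  have if2 : (fderiv ℂ f u ∘L .inr ℂ ℂ ℂ).IsInvertible := by
    refine ⟨ContinuousLinearEquiv.unitsEquivAut ℂ (Units.mk0 _ h1), ?_⟩
    ext
    simp [hd]
  set ψ : ℂ → ℂ := cdf.implicitFunction hone if2 with hψ
  have p1 : ψ t0 = x0 := cdf.implicitFunction_apply_self hone if2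
  have hfu : f u = 0 := h0
  have p2 : ∀ᶠ t in 𝓝 t0, f (t, ψ t) = 0 := by
    have := cdf.eventually_apply_implicitFunction hone if2
    rw [hfu] at this
    exact this
  have p3 : ∀ᶠ v in 𝓝 u, f v = 0 ↔ ψ v.1 = v.2 := by
    have := cdf.eventually_apply_eq_iff_implicitFunction hone if2
    rw [hfu] at this
    exact this
  have p4 : ∀ᶠ t in 𝓝 t0, DifferentiableAt ℂ ψ t := by
    have h2 : ContDiffAt ℂ 1 ψ t0 := cdf.contDiffAt_implicitFunction hone if2
    filter_upwards [h2.eventually (by simp)] with t ht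
    exact ht.differentiableAt hone
  obtain ⟨ρ1, r1, q1⟩ := Metric.eventually_nhds_iff_ball.1 (p2.and p4)
  obtain ⟨ρ2, r2, q2⟩ := Metric.eventually_nhds_iff_ball.1 p3
  refine ⟨min ρ1 ρ2, ρ2, ψ, lt_min r1 r2, r2, ?_, p1, ?_, ?_⟩
  · intro t ht
    exact (q1 t (Metric.ball_subset_ball (min_le_left _ _) ht)).2.differentiableWithinAt
  · intro t ht
    exact (q1 t (Metric.ball_subset_ball (min_le_left _ _) ht)).1
  · intro t ht x hx h
    have h3 : ((t, x) : ℂ × ℂ) ∈ Metric.ball u ρ2 := by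
      rw [Metric.mem_ball, Prod.dist_eq, max_lt_iff]
      refine ⟨Metric.ball_subset_ball (min_le_right _ _) ht, ?_⟩
      show dist x x0 < ρ2
      rw [dist_eq_norm]
      exact hx
    exact ((q2 _ h3).1 h).symm

end Pool.Agent.Z5
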