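import Pool.Agent.Z5.A2

namespace Pool.Agent.Z5

open Pool.Agent.ZL2 Filter Topology

/-- Row Z5-C3a. Let `h` be the local inverse of `f` at `t1` (`HasStrictDerivAt.localInverse`, `to_localInverse`), so `g ∘ h` has the strict derivative `g'/f'` at `f t1`. For `z` near `t1` put
`z' = h (i Im (f z))`: then `f z' = i Im (f z)`, `Re f z' = 0`, so `Re g z' = 0`, and `g z - g z' = (g'/f') (f z - f z') + o(|f z - f z'|)` with `f z - f z' = Re f z` real. -/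
theorem ratio {f g : ℂ → ℂ} {t1 f' g' : ℂ} (hf : HasStrictDerivAt f f' t1) (hg : HasStrictDerivAt g g' t1)
    (hf' : f' ≠ 0) (hf0 : (f t1).re = 0) (hz : ∀ᶠ t in 𝓝 t1, (f t).re = 0 → (g t).re = 0) {δ : ℝ} (hδ : 0 < δ) :
    ∀ᶠ t in 𝓝 t1, |(g t).re - (g' / f').re * (f t).re| ≤ δ * |(f t).re| := by
  have hh := hf.to_localInverse hf'
  have hh1 : hf.localInverse f f' t1 hf' (f t1) = t1 := (hf.eventually_left_inverse hf').self_of_nhds
  have hl := hf.eventually_left_inverse hf'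
  have hr := hf.eventually_right_inverse hf'
  set k := hf.localInverse f f' t1 hf' with hk
  have hgk : HasStrictDerivAt (g ∘ k) (g' * f'⁻¹) (f t1) := by
    refine HasStrictDerivAt.comp (f t1) ?_ hh
    rw [hh1]; exact hg
  have hw : (((f t1).im : ℂ) * Complex.I) = f t1 := by
    apply Complex.ext <;> simp [hf0]
  have hcf : ContinuousAt f t1 := hf.hasDerivAt.continuousAt
  have ht2 : Tendsto (fun z => (((f z).im : ℂ) * Complex.I)) (𝓝 t1) (𝓝 (f t1)) := by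
    have h1 : Continuous fun w : ℂ => ((w.im : ℂ) * Complex.I) := by fun_prop
    have h2 := (h1.tendsto (f t1)).comp hcf
    rw [hw] at h2
    exact h2
  have hlo := hgk.hasStrictFDerivAt.isLittleO.def hδ
  have hpair : Tendsto (fun z => (f z, (((f z).im : ℂ) * Complex.I))) (𝓝 t1) (𝓝 (f t1, f t1)) :=
    Tendsto.prodMk_nhds hcf ht2
  have hkc : Tendsto k (𝓝 (f t1)) (𝓝 t1) := by
    have h3 := hh.hasDerivAt.continuousAt
    rw [ContinuousAt, hh1] at h3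
    exact h3
  filter_upwards [hpair.eventually hlo, hl, ht2.eventually hr, (hkc.comp ht2).eventually hz] with z e1 e2 e3 e4
  have e5 : (g (k (((f z).im : ℂ) * Complex.I))).re = 0 := by
    apply e4
    show (f (k (((f z).im : ℂ) * Complex.I))).re = 0
    rw [e3]; simp
  have e6 : f z - ((f z).im : ℂ) * Complex.I = ((f z).re : ℂ) := by
    apply Complex.ext <;> simp
  simp only [Function.comp_apply, e2, e6] at e1
  have e7 : ‖(((f z).re : ℂ))‖ = |(f z).re| := by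
    rw [Complex.norm_real, Real.norm_eq_abs]
  rw [e7] at e1
  refine le_trans ?_ e1
  have e8 := Complex.abs_re_le_norm (g z - g (k (((f z).im : ℂ) * Complex.I)) -
    (ContinuousLinearMap.toSpanSingleton ℂ (g' * f'⁻¹)) (((f z).re : ℂ)))
  refine le_trans (le_of_eq ?_) e8
  congr 1
  rw [Complex.sub_re, Complex.sub_re, e5, ContinuousLinearMap.toSpanSingleton_apply, smul_eq_mul,
    Complex.re_ofReal_mul, sub_zero, div_eq_mul_inv, mul_comm (f z).re]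

/-- The limit principle at a point of `Sup`. -/
theorem c3_key {a b : ℂ} {c d : Fin 3 → ℂ} {U : Ultrafilter ℕ} (S : Sq a b c d U) {q : ℂ × ℂ} (hq : q ∈ S.Sup)
    {Φ : ℕ × (ℂ × ℂ) → ℝ} {l : ℝ} (hΦ : Tendsto Φ ((U : Filter ℕ) ×ˢ 𝓝 q) (𝓝 l)) {O : Set (ℂ × ℂ)} (hO : O ∈ 𝓝 q)
    (h0 : ∀ᶠ n in (U : Filter ℕ), ∀ σ, (S.X n σ, S.t n σ) ∈ O → Φ (n, (S.X n σ, S.t n σ)) ≤ 0) : l ≤ 0 := by
  by_contra hl
  have h1 := hΦ.eventually (lt_mem_nhds (not_le.1 hl))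
  rw [Filter.eventually_prod_iff] at h1
  obtain ⟨pa, hpa, pb, hpb, hab⟩ := h1
  obtain ⟨n, ⟨q1, q2⟩, ⟨σ, q3⟩⟩ := ((hpa.and h0).and (hq (O ∩ {x | pb x}) (Filter.inter_mem hO hpb))).exists
  exact absurd (hab q1 q3.2) (not_lt.2 (q2 σ q3.1))

theorem c3_LY {c d : Fin 3 → ℂ} {U : Ultrafilter ℕ} (hc : ∀ i, c i ≠ 0) {q : ℂ × ℂ}
    (hqd : ∀ i, q.2 ≠ d i) :
    Tendsto (fun p : ℕ × (ℂ × ℂ) => LY c d p.2.2) ((U : Filter ℕ) ×ˢ 𝓝 q) (𝓝 (LY c d q.2)) := by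
  have h1 : Tendsto (fun z => LY c d z) (𝓝 q.2) (𝓝 (LY c d q.2)) :=
    tendsto_pi_nhds.2 fun i => continuousAt_LY hc (hqd i)
  exact h1.comp ((continuous_snd.tendsto q).comp tendsto_snd)

theorem c3_dt {α : Type} {F : Filter α} {u v : α → Fin 3 → ℝ} {u' v' : Fin 3 → ℝ}
    (hu : Tendsto u F (𝓝 u')) (hv : Tendsto v F (𝓝 v')) :
    Tendsto (fun n => dt (u n) (v n)) F (𝓝 (dt u' v')) := by
  unfold dt
  exact tendsto_finsetSum _ fun i _ => (tendsto_pi_nhds.1 hu i).mul (tendsto_pi_nhds.1 hv i)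

theorem c3_u {a b : ℂ} {c d : Fin 3 → ℂ} {U : Ultrafilter ℕ} (S : Sq a b c d U) (hc : ∀ i, c i ≠ 0)
    {u' : Fin 3 → ℝ} (hu' : Tendsto S.u (U : Filter ℕ) (𝓝 u')) {q : ℂ × ℂ} (hq : q ∈ S.Sup)
    (hqd : ∀ i, q.2 ≠ d i) : dt u' (LY c d q.2) = 0 := by
  have h1 : Tendsto (fun p : ℕ × (ℂ × ℂ) => |dt (S.u p.1) (LY c d p.2.2)|) ((U : Filter ℕ) ×ˢ 𝓝 q)
      (𝓝 |dt u' (LY c d q.2)|) := (c3_dt (hu'.comp tendsto_fst) (c3_LY hc hqd)).abs
  have h2 := c3_key S hq h1 Filter.univ_mem (Filter.Eventually.of_forall fun n σ _ => by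
    show |dt (S.u n) (LY c d (S.t n σ))| ≤ 0
    rw [S.r0 n σ, abs_zero])
  exact abs_nonpos_iff.1 h2

/-- Row Z5-C3b. The blow-up identity. Write `un = (ε n)⁻¹ • (S.u n - u')`, `Mn = (ε n)⁻¹ • (S.M n - M')`. For `σ` with `(X, t) = (S.X n σ, S.t n σ)` in a small neighbourhood of `q` (exists for eventually all `n`, by `hq`; `z = S.t n σ`):
`Re f z = dt u' (LY z) = - ε n dt un (LY z)` (by `S.r0`), `Re g z = ε n dt (Mn j) (LY z)` (`hgr`), so by `ratio` (note `(f q.2).re = 0`: it is `dt u' (LY q.2)`, the limit of `- ε n dt un (LY z)`)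
`|dt (Mn j) (LY z) + (g'/f').re dt un (LY z)| ≤ δ |dt un (LY z)|`. Let the neighbourhood shrink and `n → U` (`continuousAt_LY`), then `δ → 0`. -/
theorem star {a b : ℂ} {c d : Fin 3 → ℂ} {U : Ultrafilter ℕ} (S : Sq a b c d U) (hc : ∀ i, c i ≠ 0)
    {u' : Fin 3 → ℝ} {M' : Fin 2 → Fin 3 → ℝ} {ε : ℕ → ℝ} (hε0 : ∀ᶠ n in (U : Filter ℕ), 0 < ε n)
    (hε : Tendsto ε (U : Filter ℕ) (𝓝 0)) {u1 : Fin 3 → ℝ} {M1 : Fin 2 → Fin 3 → ℝ}
    (h1 : Tendsto (fun n => (ε n)⁻¹ • (S.u n - u')) (U : Filter ℕ) (𝓝 u1))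
    (h2 : Tendsto (fun n => (ε n)⁻¹ • (S.M n - M')) (U : Filter ℕ) (𝓝 M1)) {q : ℂ × ℂ} (hq : q ∈ S.Sup)
    (hqd : ∀ i, q.2 ≠ d i) {f g : ℂ → ℂ} {f' g' : ℂ} (hf : HasStrictDerivAt f f' q.2)
    (hg : HasStrictDerivAt g g' q.2) (hf' : f' ≠ 0) (hfr : ∀ᶠ t in 𝓝 q.2, (f t).re = dt u' (LY c d t))
    (j : Fin 2) {O : Set (ℂ × ℂ)} (hO : O ∈ 𝓝 q)
    (hgr : ∀ᶠ n in (U : Filter ℕ), ∀ σ, (S.X n σ, S.t n σ) ∈ O →
      (g (S.t n σ)).re = dt (S.M n j) (LY c d (S.t n σ)) - dt (M' j) (LY c d (S.t n σ)))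
    (hz : ∀ᶠ t in 𝓝 q.2, (f t).re = 0 → (g t).re = 0) :
    dt (M1 j) (LY c d q.2) = - (g' / f').re * dt u1 (LY c d q.2) := by
  have hu' : Tendsto S.u (U : Filter ℕ) (𝓝 u') := by
    have e1 : Tendsto (fun n => u' + ε n • ((ε n)⁻¹ • (S.u n - u'))) (U : Filter ℕ) (𝓝 (u' + (0 : ℝ) • u1)) :=
      tendsto_const_nhds.add (hε.smul h1)
    rw [zero_smul, add_zero] at e1
    refine e1.congr' ?_
    filter_upwards [hε0] with n hn
    rw [smul_smul, mul_inv_cancel₀ hn.ne', one_smul, add_sub_cancel]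
  have hf0 : (f q.2).re = 0 := by
    rw [hfr.self_of_nhds]
    exact c3_u S hc hu' hq hqd
  have hMj : Tendsto (fun n => ((ε n)⁻¹ • (S.M n - M')) j) (U : Filter ℕ) (𝓝 (M1 j)) :=
    tendsto_pi_nhds.1 h2 j
  have key : ∀ δ : ℝ, 0 < δ → |dt (M1 j) (LY c d q.2) + (g' / f').re * dt u1 (LY c d q.2)| ≤
      δ * |dt u1 (LY c d q.2)| := by
    intro δ hδ
    have hL := c3_LY (U := U) hc hqd
    have hD1 := c3_dt (hMj.comp tendsto_fst) hL
    have hD2 := c3_dt (h1.comp tendsto_fst) hL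
    have hD := ((hD1.add (hD2.const_mul ((g' / f').re))).abs).sub ((hD2.abs).const_mul δ)
    have hra := ratio hf hg hf' hf0 hz hδ
    have hO2 : {p : ℂ × ℂ | |(g p.2).re - (g' / f').re * (f p.2).re| ≤ δ * |(f p.2).re| ∧
        (f p.2).re = dt u' (LY c d p.2)} ∈ 𝓝 q := (continuous_snd.tendsto q).eventually (hra.and hfr)
    have hkey := c3_key S hq hD (Filter.inter_mem hO hO2) (by
      filter_upwards [hε0, hgr] with n hn hg1
      rintro σ ⟨q1, q2, q3⟩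
      have q4 := hg1 σ q1
      have q5 := S.r0 n σ
      simp only [Function.comp_apply]
      simp only at q2 q3
      set y := LY c d (S.t n σ) with hy
      have q6 : dt ((ε n)⁻¹ • (S.u n - u')) y = - ((ε n)⁻¹ * (f (S.t n σ)).re) := by
        rw [q3]
        have : dt ((ε n)⁻¹ • (S.u n - u')) y = (ε n)⁻¹ * (dt (S.u n) y - dt u' y) := by
          simp only [dt, Pi.smul_apply, Pi.sub_apply, smul_eq_mul, Finset.mul_sum, ← Finset.sum_sub_distrib]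
          exact Finset.sum_congr rfl fun i _ => by ring
        rw [this, q5]; ring
      have q7 : dt (((ε n)⁻¹ • (S.M n - M')) j) y = (ε n)⁻¹ * (g (S.t n σ)).re := by
        rw [q4]
        simp only [dt, Pi.smul_apply, Pi.sub_apply, smul_eq_mul, Finset.mul_sum, ← Finset.sum_sub_distrib]
        exact Finset.sum_congr rfl fun i _ => by ring
      rw [q6, q7]
      have hi : 0 < (ε n)⁻¹ := inv_pos.2 hn
      have q8 : (ε n)⁻¹ * (g (S.t n σ)).re + (g' / f').re * -((ε n)⁻¹ * (f (S.t n σ)).re) =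
          (ε n)⁻¹ * ((g (S.t n σ)).re - (g' / f').re * (f (S.t n σ)).re) := by ring
      rw [q8, abs_neg, abs_mul, abs_mul, abs_of_pos hi]
      have q9 := mul_le_mul_of_nonneg_left q2 hi.le
      linarith)
    linarith
  have hlim : |dt (M1 j) (LY c d q.2) + (g' / f').re * dt u1 (LY c d q.2)| ≤ 0 := by
    by_contra hcon
    have hcon := not_le.1 hcon
    have h3 := key (|dt (M1 j) (LY c d q.2) + (g' / f').re * dt u1 (LY c d q.2)| /
      (2 * (|dt u1 (LY c d q.2)| + 1))) (by positivity)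
    rw [div_mul_eq_mul_div, le_div_iff₀ (by positivity)] at h3
    nlinarith [abs_nonneg (dt u1 (LY c d q.2))]
  have h4 := abs_nonpos_iff.1 hlim
  linarith

/-- Row Z5-C3c. Points of `Sup` satisfy the limit relations (all functions are continuous at `q`; `S.r0, S.r1, S.r2` at the points of the orbits near `q`). -/
theorem sup_rel {a b : ℂ} {c d : Fin 3 → ℂ} {U : Ultrafilter ℕ} (S : Sq a b c d U) (hc : ∀ i, c i ≠ 0)
    {u' : Fin 3 → ℝ} {M' : Fin 2 → Fin 3 → ℝ} (hu' : Tendsto S.u (U : Filter ℕ) (𝓝 u'))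
    (hM' : Tendsto S.M (U : Filter ℕ) (𝓝 M')) {q : ℂ × ℂ} (hq : q ∈ S.Sup) (hqd : ∀ i, q.2 ≠ d i)
    (hq0 : q.1 ≠ 0) (hq1 : q.1 ≠ 1) : dt u' (LY c d q.2) = 0 ∧
      Real.log ‖q.1‖ = dt (M' 0) (LY c d q.2) + Real.log ‖a‖ ∧
      Real.log ‖1 - q.1‖ = dt (M' 1) (LY c d q.2) + Real.log ‖b‖ := by
  have hL := c3_LY (U := U) hc hqd
  have hX : Tendsto (fun p : ℕ × (ℂ × ℂ) => Real.log ‖p.2.1‖) ((U : Filter ℕ) ×ˢ 𝓝 q) (𝓝 (Real.log ‖q.1‖)) := by
    have h1 : ContinuousAt (fun x : ℂ × ℂ => Real.log ‖x.1‖) q :=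
      ContinuousAt.log (by fun_prop) (norm_ne_zero_iff.2 hq0)
    exact Tendsto.comp h1 tendsto_snd
  have hX1 : Tendsto (fun p : ℕ × (ℂ × ℂ) => Real.log ‖1 - p.2.1‖) ((U : Filter ℕ) ×ˢ 𝓝 q)
      (𝓝 (Real.log ‖1 - q.1‖)) := by
    have h1 : ContinuousAt (fun x : ℂ × ℂ => Real.log ‖1 - x.1‖) q :=
      ContinuousAt.log (by fun_prop) (norm_ne_zero_iff.2 (sub_ne_zero.2 hq1.symm))
    exact Tendsto.comp h1 tendsto_snd
  refine ⟨c3_u S hc hu' hq hqd, ?_, ?_⟩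
  · have hM0 : Tendsto (fun n => S.M n 0) (U : Filter ℕ) (𝓝 (M' 0)) := tendsto_pi_nhds.1 hM' 0
    have h1 := (hX.sub ((c3_dt (hM0.comp tendsto_fst) hL).add_const (Real.log ‖a‖))).abs
    have h2 := c3_key S hq h1 Filter.univ_mem (Filter.Eventually.of_forall fun n σ _ => by
      simp only [Function.comp_apply]
      rw [← S.r1 n σ, sub_self, abs_zero])
    have h3 := abs_nonpos_iff.1 h2
    linarith
  · have hM1 : Tendsto (fun n => S.M n 1) (U : Filter ℕ) (𝓝 (M' 1)) := tendsto_pi_nhds.1 hM' 1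
    have h1 := (hX1.sub ((c3_dt (hM1.comp tendsto_fst) hL).add_const (Real.log ‖b‖))).abs
    have h2 := c3_key S hq h1 Filter.univ_mem (Filter.Eventually.of_forall fun n σ _ => by
      simp only [Function.comp_apply]
      rw [← S.r2 n σ, sub_self, abs_zero])
    have h3 := abs_nonpos_iff.1 h2
    linarith

end Pool.Agent.Z5
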