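import Pool.Agent.Z5.Defs

namespace Pool.Agent.Z5

open Pool.Agent.ZL2 Filter Topology

/-- Row Z5-C5a. `s ↦ conj (g (conj s))` is holomorphic, with derivative `conj (g' (conj s))` (Mathlib: `HasDerivAt.conj_conj` or similar). -/
theorem hasDerivAt_conj_conj {g : ℂ → ℂ} {g' s : ℂ} (h : HasDerivAt g g' ((starRingEnd ℂ) s)) :
    HasDerivAt (fun s => (starRingEnd ℂ) (g ((starRingEnd ℂ) s))) ((starRingEnd ℂ) g') s := by
  have h1 := HasDerivAt.conj_conj h
  rw [Complex.conj_conj] at h1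
  exact h1

/-- Row Z5-C5b. Reflection. `χ t0 = conj t0`, so for `ρ'` small `conj (χ t)` stays in the ball of radius `ρ` for `t` in the ball of radius `ρ'`; the function
`F t = g t + conj (g (conj (χ t)))` is holomorphic there (`hasDerivAt_conj_conj`, chain rule) and equals `2 Re (g t) = 0` at the points of `hacc`, which accumulate at `t0`
(for them `χ t = conj t`); identity theorem on the ball (`AnalyticOnNhd.eqOn_zero_of_preconnected_of_frequently_eq_zero`). -/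
theorem reflect {f g χ : ℂ → ℂ} {t0 : ℂ} {ρ : ℝ} (hρ : 0 < ρ) (hg : DifferentiableOn ℂ g (Metric.ball t0 ρ))
    (hχ : DifferentiableOn ℂ χ (Metric.ball t0 ρ))
    (hχc : ∀ t ∈ Metric.ball t0 ρ, (f t).re = 0 → χ t = (starRingEnd ℂ) t) (h0 : (f t0).re = 0)
    (hacc : ∀ O ∈ 𝓝 t0, ∃ t ∈ O, t ≠ t0 ∧ (f t).re = 0 ∧ (g t).re = 0) :
    ∃ ρ' : ℝ, 0 < ρ' ∧ ρ' ≤ ρ ∧ ∀ t ∈ Metric.ball t0 ρ', (starRingEnd ℂ) (χ t) ∈ Metric.ball t0 ρ ∧
      g t + (starRingEnd ℂ) (g ((starRingEnd ℂ) (χ t))) = 0 := by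
  have ht0 : t0 ∈ Metric.ball t0 ρ := Metric.mem_ball_self hρ
  have hχ0 : (starRingEnd ℂ) (χ t0) = t0 := by rw [hχc t0 ht0 h0, Complex.conj_conj]
  have hcont : ContinuousAt (fun t => (starRingEnd ℂ) (χ t)) t0 :=
    Complex.continuous_conj.continuousAt.comp
      ((hχ.differentiableAt (Metric.isOpen_ball.mem_nhds ht0)).continuousAt)
  have hmem : ∀ᶠ t in 𝓝 t0, (starRingEnd ℂ) (χ t) ∈ Metric.ball t0 ρ := by
    refine hcont.eventually_mem ?_
    rw [hχ0]
    exact Metric.ball_mem_nhds t0 hρ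
  obtain ⟨ρ1, h1, hρ1⟩ := Metric.eventually_nhds_iff_ball.1 hmem
  set ρ' : ℝ := min ρ1 ρ with hρ'
  have hpos : 0 < ρ' := lt_min h1 hρ
  have hsub : Metric.ball t0 ρ' ⊆ Metric.ball t0 ρ := Metric.ball_subset_ball (min_le_right _ _)
  have hsub1 : Metric.ball t0 ρ' ⊆ Metric.ball t0 ρ1 := Metric.ball_subset_ball (min_le_left _ _)
  have hdiff : DifferentiableOn ℂ (fun t => g t + (starRingEnd ℂ) (g ((starRingEnd ℂ) (χ t))))
      (Metric.ball t0 ρ') := by
    intro t ht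
    have d1 : DifferentiableAt ℂ g t := hg.differentiableAt (Metric.isOpen_ball.mem_nhds (hsub ht))
    have d2 : DifferentiableAt ℂ χ t := hχ.differentiableAt (Metric.isOpen_ball.mem_nhds (hsub ht))
    have d3 : DifferentiableAt ℂ g ((starRingEnd ℂ) (χ t)) :=
      hg.differentiableAt (Metric.isOpen_ball.mem_nhds (hρ1 t (hsub1 ht)))
    have d4 := hasDerivAt_conj_conj d3.hasDerivAt
    have d5 : DifferentiableAt ℂ (fun s => (starRingEnd ℂ) (g ((starRingEnd ℂ) s))) (χ t) :=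
      d4.differentiableAt
    exact (d1.add (d5.comp t d2)).differentiableWithinAt
  have hzero := (hdiff.analyticOnNhd Metric.isOpen_ball).eqOn_zero_of_preconnected_of_frequently_eq_zero
    (convex_ball t0 ρ').isPreconnected (Metric.mem_ball_self hpos) (by
      rw [frequently_iff]
      intro V hV
      obtain ⟨O, hO, hOV⟩ := mem_nhdsWithin_iff_exists_mem_nhds_inter.1 hV
      obtain ⟨t, ht, hne, q1, q2⟩ := hacc (O ∩ Metric.ball t0 ρ')
        (inter_mem hO (Metric.ball_mem_nhds t0 hpos))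
      refine ⟨t, hOV ⟨ht.1, hne⟩, ?_⟩
      have e1 : (starRingEnd ℂ) (χ t) = t := by rw [hχc t (hsub ht.2) q1, Complex.conj_conj]
      show g t + (starRingEnd ℂ) (g ((starRingEnd ℂ) (χ t))) = 0
      rw [e1, Complex.add_conj, q2]
      simp)
  exact ⟨ρ', hpos, min_le_right _ _, fun t ht => ⟨hρ1 t (hsub1 ht), hzero ht⟩⟩

end Pool.Agent.Z5
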