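import Pool.Agent.Z5.Defs

namespace Pool.Agent.Z5

open Pool.Agent.ZL2 Filter Topology Polynomial

/-- Holomorphic functions on a ball which are algebraic over the rational functions. -/
def Alg (t0 : ℂ) (ρ : ℝ) (ψ : ℂ → ℂ) : Prop :=
  DifferentiableOn ℂ ψ (Metric.ball t0 ρ) ∧ ∃ P : Polynomial (Polynomial ℂ), P ≠ 0 ∧
    ∀ t ∈ Metric.ball t0 ρ, ev2 P t (ψ t) = 0

/-- Two holomorphic functions on a ball which are algebraically dependent. -/
def Dep (t0 : ℂ) (ρ : ℝ) (φ ψ : ℂ → ℂ) : Prop :=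
  ∃ P : Polynomial (Polynomial ℂ), P ≠ 0 ∧ ∀ t ∈ Metric.ball t0 ρ, ev2 P (φ t) (ψ t) = 0

variable {t0 : ℂ} {ρ : ℝ}

/-- the ring of the holomorphic functions on the ball -/
def d1_H (t0 : ℂ) (ρ : ℝ) : Subring (Metric.ball t0 ρ → ℂ) where
  carrier := {f | ∃ g : ℂ → ℂ, DifferentiableOn ℂ g (Metric.ball t0 ρ) ∧ ∀ x, f x = g x}
  mul_mem' := by
    rintro f f' ⟨g, hg, h⟩ ⟨g', hg', h'⟩
    exact ⟨fun t => g t * g' t, hg.mul hg', fun x => by rw [Pi.mul_apply, h, h']⟩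
  one_mem' := ⟨fun _ => 1, differentiableOn_const _, fun _ => rfl⟩
  add_mem' := by
    rintro f f' ⟨g, hg, h⟩ ⟨g', hg', h'⟩
    exact ⟨fun t => g t + g' t, hg.add hg', fun x => by rw [Pi.add_apply, h, h']⟩
  zero_mem' := ⟨fun _ => 0, differentiableOn_const _, fun _ => rfl⟩
  neg_mem' := by
    rintro f ⟨g, hg, h⟩
    exact ⟨fun t => - g t, hg.neg, fun x => by rw [Pi.neg_apply, h]⟩

/-- a holomorphic function as an element of the ring -/
def d1_mk (ψ : ℂ → ℂ) (h : DifferentiableOn ℂ ψ (Metric.ball t0 ρ)) : d1_H t0 ρ :=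
  ⟨fun x => ψ x, ψ, h, fun _ => rfl⟩

/-- the constants -/
def d1_c (t0 : ℂ) (ρ : ℝ) : ℂ →+* d1_H t0 ρ where
  toFun z := d1_mk (fun _ => z) (differentiableOn_const _)
  map_one' := rfl
  map_mul' _ _ := rfl
  map_zero' := rfl
  map_add' _ _ := rfl

/-- the algebra structure over the polynomials in `t` -/
noncomputable def d1_alg (t0 : ℂ) (ρ : ℝ) : Algebra ℂ[X] (d1_H t0 ρ) :=
  (Polynomial.eval₂RingHom (d1_c t0 ρ) (d1_mk (fun t => t) differentiableOn_id)).toAlgebra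

attribute [local instance] d1_alg

/-- the value at a point -/
def d1_ev (x : Metric.ball t0 ρ) : d1_H t0 ρ →+* ℂ := (Pi.evalRingHom _ x).comp (d1_H t0 ρ).subtype

theorem d1_ev_mk (x : Metric.ball t0 ρ) (ψ : ℂ → ℂ) (h : DifferentiableOn ℂ ψ (Metric.ball t0 ρ)) :
    d1_ev x (d1_mk ψ h) = ψ x := rfl

theorem d1_ev_c (x : Metric.ball t0 ρ) (z : ℂ) : d1_ev x (d1_c t0 ρ z) = z := rfl

theorem d1_ext {f g : d1_H t0 ρ} (h : ∀ x, d1_ev x f = d1_ev x g) : f = g :=
  Subtype.ext (funext h)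

theorem d1_ev_alg (x : Metric.ball t0 ρ) :
    (d1_ev x).comp (algebraMap ℂ[X] (d1_H t0 ρ)) = Polynomial.evalRingHom (x : ℂ) := by
  refine Polynomial.ringHom_ext (fun a => ?_) ?_
  · rw [RingHom.comp_apply]
    change d1_ev x (Polynomial.eval₂ _ _ (C a)) = Polynomial.eval _ (C a)
    rw [Polynomial.eval₂_C, Polynomial.eval_C, d1_ev_c]
  · rw [RingHom.comp_apply]
    change d1_ev x (Polynomial.eval₂ _ _ X) = Polynomial.eval _ X
    rw [Polynomial.eval₂_X, Polynomial.eval_X, d1_ev_mk]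

theorem d1_ev2 (P : Polynomial (Polynomial ℂ)) (t x : ℂ) :
    ev2 P t x = Polynomial.eval₂ (Polynomial.evalRingHom t) x P := by
  unfold ev2
  rw [Polynomial.eval_map]

theorem d1_ev_aeval (x : Metric.ball t0 ρ) (f : d1_H t0 ρ) (P : Polynomial (Polynomial ℂ)) :
    d1_ev x (Polynomial.aeval f P) = ev2 P x (d1_ev x f) := by
  rw [Polynomial.aeval_def, Polynomial.hom_eval₂, d1_ev_alg, d1_ev2]

theorem d1_alg_of {ψ : ℂ → ℂ} (h : Alg t0 ρ ψ) : IsAlgebraic ℂ[X] (d1_mk ψ h.1) := by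
  obtain ⟨P, hP, h2⟩ := h.2
  refine ⟨P, hP, d1_ext fun x => ?_⟩
  rw [d1_ev_aeval, d1_ev_mk, map_zero]
  exact h2 x x.2

theorem d1_of_alg {ψ : ℂ → ℂ} (h : DifferentiableOn ℂ ψ (Metric.ball t0 ρ))
    (h2 : IsAlgebraic ℂ[X] (d1_mk ψ h)) : Alg t0 ρ ψ := by
  obtain ⟨P, hP, h3⟩ := h2
  refine ⟨h, P, hP, fun t ht => ?_⟩
  have := congrArg (d1_ev ⟨t, ht⟩) h3
  rw [d1_ev_aeval, d1_ev_mk, map_zero] at this
  exact this

instance d1_nzd : NoZeroDivisors (d1_H t0 ρ) where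
  eq_zero_or_eq_zero_of_mul_eq_zero := by
    rintro ⟨f, g, hg, hf⟩ ⟨f', g', hg', hf'⟩ h
    have h1 : ∀ z ∈ Metric.ball t0 ρ, g z * g' z = 0 := by
      intro z hz
      have h2 := congrArg (d1_ev ⟨z, hz⟩) h
      rw [map_mul, map_zero] at h2
      have h3 : f ⟨z, hz⟩ * f' ⟨z, hz⟩ = 0 := h2
      rwa [hf, hf'] at h3
    have h4 := AnalyticOnNhd.eq_zero_or_eq_zero_of_mul_eq_zero (hg.analyticOnNhd Metric.isOpen_ball)
      (hg'.analyticOnNhd Metric.isOpen_ball) h1 (convex_ball t0 ρ).isPreconnected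
    rcases h4 with h4 | h4
    · left
      exact Subtype.ext (funext fun x => (hf x).trans (h4 x x.2))
    · right
      exact Subtype.ext (funext fun x => (hf' x).trans (h4 x x.2))

/-- Row Z5-D1. Suggested proof of all parts: let `𝒜` be the subalgebra of `Metric.ball t0 ρ → ℂ` of the restrictions of functions which are `DifferentiableOn` the ball; it is an integral domain
(`AnalyticOnNhd.eq_zero_or_eq_zero_of_mul_eq_zero` or identity theorem). With the `ℂ[X]`-algebra structure `X ↦ (restriction of id)`, which is injective, `Alg ψ` is `IsAlgebraic ℂ[X] ψ`; Mathlib has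
`IsAlgebraic.add, .mul, .neg, ...` over domains. For the quotient pass to `FractionRing 𝒜` (`IsAlgebraic.inv`) or: if `P(t, ψ) = 0` then `1/ψ` is a root of the reversed polynomial.
Alternatively use resultants. Part c is the exchange property: `P(k, χ) = 0` gives `χ` algebraic over `ℂ(k)` because `k` is transcendental over `ℂ` (a nonconstant holomorphic function on a ball is not a root of a nonzero polynomial with
constant coefficients), and `ℂ(k)` is algebraic over `ℂ(t)`. -/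
theorem Alg.const (hρ : 0 < ρ) (z : ℂ) : Alg t0 ρ (fun _ => z) := by
  refine ⟨differentiableOn_const _, X - C (C z), X_sub_C_ne_zero _, fun t _ => ?_⟩
  simp [ev2]

theorem Alg.id (hρ : 0 < ρ) : Alg t0 ρ (fun t => t) := by
  refine ⟨differentiableOn_id, X - C X, X_sub_C_ne_zero _, fun t _ => ?_⟩
  simp [ev2]

theorem Alg.add (hρ : 0 < ρ) {φ ψ : ℂ → ℂ} (h1 : Alg t0 ρ φ) (h2 : Alg t0 ρ ψ) : Alg t0 ρ (fun t => φ t + ψ t) := by
  refine d1_of_alg (h1.1.add h2.1) ?_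
  exact (d1_alg_of h1).add (d1_alg_of h2)

theorem Alg.mul (hρ : 0 < ρ) {φ ψ : ℂ → ℂ} (h1 : Alg t0 ρ φ) (h2 : Alg t0 ρ ψ) : Alg t0 ρ (fun t => φ t * ψ t) := by
  refine d1_of_alg (h1.1.mul h2.1) ?_
  exact (d1_alg_of h1).mul (d1_alg_of h2)

theorem Alg.inv (hρ : 0 < ρ) {ψ : ℂ → ℂ} (h : Alg t0 ρ ψ) (h0 : ∀ t ∈ Metric.ball t0 ρ, ψ t ≠ 0) :
    Alg t0 ρ (fun t => (ψ t)⁻¹) := by
  have hd : DifferentiableOn ℂ (fun t => (ψ t)⁻¹) (Metric.ball t0 ρ) := h.1.inv h0
  refine d1_of_alg hd ?_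
  have h1 : d1_mk ψ h.1 * d1_mk _ hd = 1 := by
    refine d1_ext fun x => ?_
    rw [map_mul, d1_ev_mk, d1_ev_mk, map_one]
    exact mul_inv_cancel₀ (h0 x x.2)
  refine IsAlgebraic.of_mul (IsUnit.of_mul_eq_one _ h1).mem_nonZeroDivisors (d1_alg_of h) ?_
  rw [h1]
  exact isAlgebraic_one

theorem Alg.exchange (hρ : 0 < ρ) {k χ : ℂ → ℂ} (hk : Alg t0 ρ k) (hχ : DifferentiableOn ℂ χ (Metric.ball t0 ρ))
    (hdep : Dep t0 ρ χ k) (hnc : ¬ ∀ t ∈ Metric.ball t0 ρ, k t = k t0) : Alg t0 ρ χ := by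
  obtain ⟨P, hP, hPd⟩ := hdep
  refine d1_of_alg hχ ?_
  set S := Subalgebra.algebraicClosure ℂ[X] (d1_H t0 ρ) with hS
  let κ : S := ⟨d1_mk k hk.1, d1_alg_of hk⟩
  let θ : ℂ[X] →+* S := Polynomial.eval₂RingHom ((algebraMap ℂ[X] S).comp C) κ
  have hθ : ∀ x : Metric.ball t0 ρ, ((d1_ev x).comp (algebraMap S (d1_H t0 ρ))).comp θ =
      Polynomial.evalRingHom (k x) := by
    intro x
    refine Polynomial.ringHom_ext (fun a => ?_) ?_
    · rw [RingHom.comp_apply]
      change (d1_ev x).comp (algebraMap S (d1_H t0 ρ)) (Polynomial.eval₂ _ _ (C a)) = Polynomial.eval _ (C a)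
      rw [Polynomial.eval₂_C, Polynomial.eval_C, RingHom.comp_apply, RingHom.comp_apply,
        ← IsScalarTower.algebraMap_apply]
      have := congrArg (fun φ : ℂ[X] →+* ℂ => φ (C a)) (d1_ev_alg x)
      simpa using this
    · rw [RingHom.comp_apply]
      change (d1_ev x).comp (algebraMap S (d1_H t0 ρ)) (Polynomial.eval₂ _ _ X) = Polynomial.eval _ X
      rw [Polynomial.eval₂_X, Polynomial.eval_X]
      rfl
  have hinj : Function.Injective θ := by
    rw [injective_iff_map_eq_zero]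
    intro p hp
    by_contra hp0
    apply hnc
    intro t ht
    have hroot : ∀ z ∈ Metric.ball t0 ρ, p.eval (k z) = 0 := by
      intro z hz
      have h1 := congrArg (fun φ : ℂ[X] →+* ℂ => φ p) (hθ ⟨z, hz⟩)
      simp only [RingHom.comp_apply, hp, map_zero, Polynomial.coe_evalRingHom] at h1
      exact h1.symm
    have hfin : {z : ℂ | p.IsRoot z}.Finite := Polynomial.finite_setOfPred_isRoot hp0
    haveI : Finite {z : ℂ | p.IsRoot z} := hfin
    exact IsPreconnected.constant_of_mapsTo (convex_ball t0 ρ).isPreconnected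
      (T := {z : ℂ | p.IsRoot z}) (isDiscrete_iff_discreteTopology.2 inferInstance) hk.1.continuousOn (fun z hz => hroot z hz) ht
      (Metric.mem_ball_self hρ)
  have halg : IsAlgebraic S (d1_mk χ hχ) := by
    refine ⟨(Polynomial.Bivariate.swap P).map θ, ?_, d1_ext fun x => ?_⟩
    · rw [Polynomial.map_ne_zero_iff hinj]
      exact (map_ne_zero_iff _ (Polynomial.Bivariate.swap (R := ℂ)).injective).2 hP
    · rw [Polynomial.aeval_def, Polynomial.hom_eval₂, Polynomial.eval₂_map, hθ, d1_ev_mk, map_zero,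
        ← d1_ev2]
      have h1 : ev2 (Polynomial.Bivariate.swap P) (k x) (χ x) = ev2 P (χ x) (k x) := by
        unfold ev2
        rw [Polynomial.map_evalRingHom_eval, Polynomial.map_evalRingHom_eval,
          ← Polynomial.coe_aevalAeval_eq_evalEval, ← Polynomial.coe_aevalAeval_eq_evalEval,
          Polynomial.Bivariate.aevalAeval_swap]
      rw [h1]
      exact hPd x x.2
  exact halg.restrictScalars ℂ[X]

end Pool.Agent.Z5
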