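import Pool.Agent.Z5.D1

namespace Pool.Agent.Z5

open Pool.Agent.ZL2 Filter Topology Polynomial

variable {t0 : ℂ} {ρ : ℝ}

theorem d2_ev2 (P : Polynomial (Polynomial ℂ)) (t x : ℂ) :
    ev2 P t x = ∑ i ∈ Finset.range (P.natDegree + 1), (P.coeff i).eval t * x ^ i := by
  unfold ev2
  rw [eval_map, eval₂_eq_sum_range]
  rfl

theorem d2_ev2_der (P : Polynomial (Polynomial ℂ)) (t x : ℂ) :
    ev2 (derivative P) t x = ∑ i ∈ Finset.range (P.natDegree + 1), (P.coeff i).eval t * ((i : ℂ) * x ^ (i - 1)) := by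
  have h := P.as_sum_range_C_mul_X_pow
  have h1 : ev2 (derivative P) t x =
      eval x (derivative ((∑ i ∈ Finset.range (P.natDegree + 1), C (P.coeff i) * X ^ i).map (evalRingHom t))) := by
    rw [← h, derivative_map]
    rfl
  rw [h1]
  simp only [Polynomial.map_sum, Polynomial.map_mul, map_C, Polynomial.map_pow, map_X, derivative_sum,
    eval_finsetSum, derivative_mul, derivative_C, zero_mul, zero_add, derivative_X_pow, eval_mul, eval_C,
    eval_natCast, eval_pow, eval_X, coe_evalRingHom]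

theorem d2_hasDeriv (P : Polynomial (Polynomial ℂ)) {ψ : ℂ → ℂ} {t ψ' : ℂ} (h : HasDerivAt ψ ψ' t) :
    HasDerivAt (fun t => ev2 P t (ψ t))
      (∑ i ∈ Finset.range (P.natDegree + 1), (derivative (P.coeff i)).eval t * ψ t ^ i +
        ev2 (derivative P) t (ψ t) * ψ') t := by
  have h1 : ∀ i ∈ Finset.range (P.natDegree + 1), HasDerivAt (fun t => (P.coeff i).eval t * ψ t ^ i)
      ((derivative (P.coeff i)).eval t * ψ t ^ i + (P.coeff i).eval t * ((i : ℂ) * ψ t ^ (i - 1) * ψ')) t :=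
    fun i _ => ((P.coeff i).hasDerivAt t).mul (h.pow i)
  have h2 := HasDerivAt.fun_sum h1
  rw [Finset.sum_add_distrib] at h2
  have h3 : ∑ i ∈ Finset.range (P.natDegree + 1), (P.coeff i).eval t * ((i : ℂ) * ψ t ^ (i - 1) * ψ') =
      ev2 (derivative P) t (ψ t) * ψ' := by
    rw [d2_ev2_der, Finset.sum_mul]
    refine Finset.sum_congr rfl fun i _ => ?_
    ring
  rw [h3] at h2
  refine h2.congr_of_eventuallyEq (Eventually.of_forall fun s => ?_)
  exact d2_ev2 P s (ψ s)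

theorem d2_diff (P : Polynomial (Polynomial ℂ)) {ψ : ℂ → ℂ} (h : DifferentiableOn ℂ ψ (Metric.ball t0 ρ)) :
    DifferentiableOn ℂ (fun t => ev2 P t (ψ t)) (Metric.ball t0 ρ) := fun _ ht =>
  (d2_hasDeriv P (h.differentiableAt (Metric.isOpen_ball.mem_nhds ht)).hasDerivAt).differentiableAt.differentiableWithinAt

theorem d2_congr {φ ψ : ℂ → ℂ} (h : Alg t0 ρ φ) (he : ∀ t ∈ Metric.ball t0 ρ, ψ t = φ t) : Alg t0 ρ ψ := by
  obtain ⟨h1, P, hP, h2⟩ := h
  exact ⟨h1.congr he, P, hP, fun t ht => by rw [he t ht]; exact h2 t ht⟩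

theorem d2_pow (hρ : 0 < ρ) {ψ : ℂ → ℂ} (h : Alg t0 ρ ψ) (n : ℕ) : Alg t0 ρ (fun t => ψ t ^ n) := by
  induction n with
  | zero => simpa using Alg.const hρ 1
  | succ n ih =>
    have h1 := Alg.mul hρ ih h
    simpa only [pow_succ] using h1

theorem d2_poly (hρ : 0 < ρ) (a : Polynomial ℂ) : Alg t0 ρ (fun t => a.eval t) := by
  induction a using Polynomial.induction_on with
  | C z => simpa using Alg.const hρ z
  | add p q hp hq =>
    have h1 := Alg.add hρ hp hq
    simpa only [eval_add] using h1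
  | monomial n z ih =>
    have h1 := Alg.mul hρ ih (Alg.id hρ)
    refine d2_congr h1 fun t _ => ?_
    simp only [eval_mul, eval_C, eval_pow, eval_X, pow_succ]
    ring

theorem d2_sum (hρ : 0 < ρ) (s : Finset ℕ) (f : ℕ → ℂ → ℂ) (h : ∀ i ∈ s, Alg t0 ρ (f i)) :
    Alg t0 ρ (fun t => ∑ i ∈ s, f i t) := by
  classical
  induction s using Finset.induction_on with
  | empty => simpa using Alg.const hρ 0
  | insert a s ha ih =>
    have h1 := Alg.add hρ (h a (Finset.mem_insert_self a s)) (ih fun i hi => h i (Finset.mem_insert_of_mem hi))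
    refine d2_congr h1 fun t _ => ?_
    rw [Finset.sum_insert ha]

theorem d2_ev2_alg (hρ : 0 < ρ) {ψ : ℂ → ℂ} (h : Alg t0 ρ ψ) (P : Polynomial (Polynomial ℂ)) :
    Alg t0 ρ (fun t => ev2 P t (ψ t)) :=
  d2_congr (d2_sum hρ _ (fun i t => (P.coeff i).eval t * ψ t ^ i)
    fun i _ => Alg.mul hρ (d2_poly hρ _) (d2_pow hρ h i)) fun t _ => d2_ev2 P t (ψ t)

/-- Row Z5-D2b. Restriction to a smaller ball and extension from a smaller ball. -/
theorem Alg.mono {t1 : ℂ} {ρ' : ℝ} {ψ : ℂ → ℂ} (h : Alg t0 ρ ψ) (hs : Metric.ball t1 ρ' ⊆ Metric.ball t0 ρ) :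
    Alg t1 ρ' ψ := by
  obtain ⟨h1, P, hP, h2⟩ := h
  exact ⟨h1.mono hs, P, hP, fun t ht => h2 t (hs ht)⟩

/-- Row Z5-D2. The derivative of an algebraic function is algebraic. Take `P ≠ 0` of minimal degree (in `X`) with `P(t, ψ t) = 0` on the ball. Differentiate: `P_T(t, ψ) + P_X(t, ψ) ψ' = 0`, where `P_X(t, ψ t)` is not
identically zero on the ball (minimality; if the degree is `0` then `P = P(T)` vanishes on a ball, impossible). `P_T(t,ψ)` and `P_X(t,ψ)` are `Alg` (`Alg.add`, `Alg.mul`); `ψ' · P_X(t,ψ) = - P_T(t,ψ)`: divide in the domain of holomorphic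
functions (e.g. a polynomial relation for `-P_T/P_X` on a smaller ball where `P_X(t,ψ) ≠ 0`, `Alg.inv`, `Alg.mul`, then the relation `ev2 Q t (ψ' t) = 0` extends to the whole ball by the identity theorem). -/
theorem Alg.deriv (hρ : 0 < ρ) {ψ : ℂ → ℂ} (h : Alg t0 ρ ψ) : Alg t0 ρ (fun t => _root_.deriv ψ t) := by
  classical
  have hψ := h.1
  have hex : ∃ n : ℕ, ∃ P : Polynomial (Polynomial ℂ), P ≠ 0 ∧ P.natDegree = n ∧
      ∀ t ∈ Metric.ball t0 ρ, ev2 P t (ψ t) = 0 := by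
    obtain ⟨-, P, hP, h2⟩ := h
    exact ⟨_, P, hP, rfl, h2⟩
  obtain ⟨P, hP, hPn, hP0⟩ := Nat.find_spec hex
  have hmin : ∀ Q : Polynomial (Polynomial ℂ), Q ≠ 0 → Q.natDegree < P.natDegree →
      ¬ ∀ t ∈ Metric.ball t0 ρ, ev2 Q t (ψ t) = 0 := by
    intro Q hQ hlt hQ0
    rw [hPn] at hlt
    exact Nat.find_min hex hlt ⟨Q, hQ, rfl, hQ0⟩
  have hdeg : P.natDegree ≠ 0 := by
    intro h0
    rw [eq_C_of_natDegree_eq_zero h0] at hP hP0
    refine hP ?_
    have h1 : P.coeff 0 = 0 := by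
      refine eq_of_infinite_eval_eq _ _ ((infinite_of_mem_nhds t0 (Metric.ball_mem_nhds t0 hρ)).mono fun t ht => ?_)
      have h2 := hP0 t ht
      unfold ev2 at h2
      rw [map_C, eval_C] at h2
      show eval t (P.coeff 0) = eval t 0
      rw [eval_zero]
      exact h2
    rw [h1, C_0]
  have hder : derivative P ≠ 0 := fun h0 => hdeg (natDegree_eq_zero_of_derivative_eq_zero h0)
  have hq := hmin _ hder (natDegree_derivative_lt hdeg)
  push Not at hq
  obtain ⟨t1, ht1, hq1⟩ := hq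
  have hrel : ∀ t ∈ Metric.ball t0 ρ, ∑ i ∈ Finset.range (P.natDegree + 1), (derivative (P.coeff i)).eval t * ψ t ^ i +
        ev2 (derivative P) t (ψ t) * _root_.deriv ψ t = 0 := by
    intro t ht
    have h1 := d2_hasDeriv P (hψ.differentiableAt (Metric.isOpen_ball.mem_nhds ht)).hasDerivAt
    have h2 : (fun t => ev2 P t (ψ t)) =ᶠ[𝓝 t] fun _ => 0 := by
      filter_upwards [Metric.isOpen_ball.mem_nhds ht] with s hs using hP0 s hs
    exact (h1.congr_of_eventuallyEq h2.symm).unique (hasDerivAt_const t 0)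
  have hc : ContinuousAt (fun t => ev2 (derivative P) t (ψ t)) t1 :=
    ((d2_diff (derivative P) hψ).differentiableAt (Metric.isOpen_ball.mem_nhds ht1)).continuousAt
  obtain ⟨ρ1, hρ1, hb⟩ := Metric.mem_nhds_iff.1 (inter_mem (Metric.isOpen_ball.mem_nhds ht1) (hc.eventually_ne hq1))
  have hs : Metric.ball t1 ρ1 ⊆ Metric.ball t0 ρ := fun t ht => (hb ht).1
  have hA := Alg.mono h hs
  have hA1 : Alg t1 ρ1 (fun t => ∑ i ∈ Finset.range (P.natDegree + 1), (derivative (P.coeff i)).eval t * ψ t ^ i) :=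
    d2_sum hρ1 _ (fun i t => (derivative (P.coeff i)).eval t * ψ t ^ i)
      fun i _ => Alg.mul hρ1 (d2_poly hρ1 _) (d2_pow hρ1 hA i)
  have hA2 : Alg t1 ρ1 (fun t => (ev2 (derivative P) t (ψ t))⁻¹) :=
    Alg.inv hρ1 (d2_ev2_alg hρ1 hA _) fun t ht => (hb ht).2
  have hA3 : Alg t1 ρ1 (fun t => _root_.deriv ψ t) := by
    refine d2_congr (Alg.mul hρ1 (Alg.const hρ1 (-1)) (Alg.mul hρ1 hA1 hA2)) fun t ht => ?_
    have h1 := hrel t (hs ht)
    have h2 : ev2 (derivative P) t (ψ t) ≠ 0 := (hb ht).2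
    field_simp
    linear_combination h1
  obtain ⟨-, Q, hQ, hQ0⟩ := hA3
  have hd : DifferentiableOn ℂ (fun t => _root_.deriv ψ t) (Metric.ball t0 ρ) := hψ.deriv Metric.isOpen_ball
  refine ⟨hd, Q, hQ, ?_⟩
  have hF := (d2_diff Q hd).analyticOnNhd Metric.isOpen_ball
  have h1 := hF.eqOn_zero_of_preconnected_of_eventuallyEq_zero (convex_ball t0 ρ).isPreconnected ht1 (by
    filter_upwards [Metric.ball_mem_nhds t1 hρ1] with s hs using hQ0 s hs)
  exact fun t ht => h1 ht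

end Pool.Agent.Z5
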