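import Pool.Agent.Z5.D1

namespace Pool.Agent.Z5

open Pool.Agent.ZL2 Filter Topology Polynomial

variable {t0 : ℂ} {ρ : ℝ}

attribute [local instance] d1_alg

/-- the constants -/
noncomputable def d3_alg (t0 : ℂ) (ρ : ℝ) : Algebra ℂ (d1_H t0 ρ) :=
  ((algebraMap ℂ[X] (d1_H t0 ρ)).comp C).toAlgebra

attribute [local instance] d3_alg

theorem d3_tower : IsScalarTower ℂ ℂ[X] (d1_H t0 ρ) := IsScalarTower.of_algebraMap_eq' rfl

attribute [local instance] d3_tower

theorem d3_ev_algebraMap (x : Metric.ball t0 ρ) (z : ℂ) : d1_ev x (algebraMap ℂ (d1_H t0 ρ) z) = z := by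
  change d1_ev x (algebraMap ℂ[X] (d1_H t0 ρ) (C z)) = z
  have := congrArg (fun φ : ℂ[X] →+* ℂ => φ (C z)) (d1_ev_alg x)
  simpa using this

theorem d3_inj (hρ : 0 < ρ) : Function.Injective (algebraMap ℂ[X] (d1_H t0 ρ)) := by
  rw [injective_iff_map_eq_zero]
  intro p hp
  have h1 : ∀ z ∈ Metric.ball t0 ρ, p.eval z = 0 := by
    intro z hz
    have := congrArg (fun φ : ℂ[X] →+* ℂ => φ p) (d1_ev_alg (⟨z, hz⟩ : Metric.ball t0 ρ))
    simp only [RingHom.comp_apply, hp, map_zero, Polynomial.coe_evalRingHom] at this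
    exact this.symm
  refine Polynomial.eq_zero_of_infinite_isRoot p (Set.Infinite.mono (fun z hz => h1 z hz) ?_)
  exact infinite_of_mem_nhds t0 (Metric.ball_mem_nhds t0 hρ)

theorem d3_dep (hρ : 0 < ρ) {φ ψ : ℂ → ℂ} (h1 : Alg t0 ρ φ) (h2 : Alg t0 ρ ψ) :
    ∃ p : MvPolynomial (Fin 2) ℂ, p ≠ 0 ∧ ∀ t ∈ Metric.ball t0 ρ, MvPolynomial.eval ![φ t, ψ t] p = 0 := by
  let S := Subalgebra.algebraicClosure ℂ[X] (d1_H t0 ρ)
  have hS : Algebra.IsAlgebraic ℂ[X] S := inferInstance
  haveI : FaithfulSMul ℂ[X] S := by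
    rw [faithfulSMul_iff_algebraMap_injective]
    intro p q hpq
    exact d3_inj hρ (congrArg Subtype.val hpq)
  have h3 : Algebra.trdeg ℂ S = 1 := by
    have := trdeg_add_eq ℂ ℂ[X] (A := S)
    rw [Polynomial.trdeg_of_isDomain, trdeg_eq_zero, add_zero] at this
    exact this.symm
  by_contra hcon
  push Not at hcon
  have h4 : AlgebraicIndependent ℂ (![⟨d1_mk φ h1.1, d1_alg_of h1⟩, ⟨d1_mk ψ h2.1, d1_alg_of h2⟩] : Fin 2 → S) := by
    rw [algebraicIndependent_iff]
    intro p hp
    by_contra hp0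
    obtain ⟨t, ht, h⟩ := hcon p hp0
    apply h
    let E : S →ₐ[ℂ] ℂ :=
      { toRingHom := (d1_ev (⟨t, ht⟩ : Metric.ball t0 ρ)).comp S.subtype
        commutes' := fun z => d3_ev_algebraMap _ z }
    have h5 := congrArg E hp
    rw [map_zero, MvPolynomial.comp_aeval_apply] at h5
    have h6 : (![φ t, ψ t] : Fin 2 → ℂ) = fun i => E ((![⟨d1_mk φ h1.1, d1_alg_of h1⟩,
        ⟨d1_mk ψ h2.1, d1_alg_of h2⟩] : Fin 2 → S) i) := by
      ext i
      fin_cases i <;> rfl
    rw [← h5, ← MvPolynomial.coe_aeval_eq_eval, h6]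
    rfl
  have h6 := h4.cardinalMk_le_trdeg
  rw [h3] at h6
  simp at h6

theorem d3_diff (p : MvPolynomial (Fin 2) ℂ) :
    Differentiable ℂ (fun y : ℂ => MvPolynomial.eval ![y, Complex.exp y] p) := by
  induction p using MvPolynomial.induction_on with
  | C a =>
    simp only [MvPolynomial.eval_C]
    exact differentiable_const a
  | add p q hp hq =>
    simp only [map_add]
    exact hp.add hq
  | mul_X p i hp =>
    simp only [map_mul, MvPolynomial.eval_X]
    refine hp.mul ?_
    fin_cases i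
    · exact differentiable_id
    · exact Complex.differentiable_exp

/-- entire functions polynomial in `y` and `exp y` are not zero -/
theorem d3_exp (p : MvPolynomial (Fin 2) ℂ) (h : ∀ y : ℂ, MvPolynomial.eval ![y, Complex.exp y] p = 0) : p = 0 := by
  have h1 : ∀ x : ℂ, x ≠ 0 → ∀ y, MvPolynomial.eval ![y, x] p = 0 := by
    intro x hx y
    let q : ℂ[X] := MvPolynomial.aeval ![X, C x] p
    have hq : ∀ y, q.eval y = MvPolynomial.eval ![y, x] p := by
      intro y
      have h2 : (Polynomial.aeval y) (MvPolynomial.aeval ![X, C x] p) = MvPolynomial.aeval ![y, x] p := by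
        rw [MvPolynomial.comp_aeval_apply]
        congr 2
        ext i
        fin_cases i <;> simp
      rw [← MvPolynomial.coe_aeval_eq_eval]
      rw [Polynomial.coe_aeval_eq_eval] at h2
      exact h2
    have hq0 : q = 0 := by
      refine Polynomial.eq_zero_of_infinite_isRoot q ?_
      have h3 : (Set.range fun k : ℤ => Complex.log x + k * (2 * Real.pi * Complex.I)).Infinite := by
        refine Set.infinite_range_of_injective ?_
        intro k l hkl
        have h4 : (k : ℂ) * (2 * Real.pi * Complex.I) = l * (2 * Real.pi * Complex.I) := add_left_cancel hkl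
        have h5 := mul_right_cancel₀ Complex.two_pi_I_ne_zero h4
        exact_mod_cast h5
      refine h3.mono ?_
      rintro _ ⟨k, rfl⟩
      change q.eval _ = 0
      rw [hq]
      have h6 := h (Complex.log x + k * (2 * Real.pi * Complex.I))
      rwa [Complex.exp_add, Complex.exp_int_mul_two_pi_mul_I, mul_one, Complex.exp_log hx] at h6
    rw [← hq, hq0, Polynomial.eval_zero]
  refine MvPolynomial.funext_set (s := ![Set.univ, {0}ᶜ]) ?_ ?_
  · intro i
    fin_cases i
    · exact Set.infinite_univ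
    · exact (Set.finite_singleton (0 : ℂ)).infinite_compl
  · intro x hx
    rw [map_zero]
    have h2 : x = ![x 0, x 1] := by
      ext i
      fin_cases i <;> rfl
    rw [h2]
    exact h1 _ (hx 1 trivial) _

/-- Row Z5-D3. An algebraic function whose exponential is algebraic is constant. -/
theorem Alg.exp_const (hρ : 0 < ρ) {g : ℂ → ℂ} (h1 : Alg t0 ρ g) (h2 : Alg t0 ρ (fun t => Complex.exp (g t))) :
    ∀ t ∈ Metric.ball t0 ρ, g t = g t0 := by
  obtain ⟨p, hp, h3⟩ := d3_dep hρ h1 h2
  rcases (h1.1.analyticOnNhd Metric.isOpen_ball).is_constant_or_isOpen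
    (convex_ball t0 ρ).isPreconnected with ⟨w, hw⟩ | h4
  · intro t ht
    rw [hw t ht, hw t0 (Metric.mem_ball_self hρ)]
  · exfalso
    apply hp
    apply d3_exp
    have h5 : IsOpen (g '' Metric.ball t0 ρ) := h4 _ subset_rfl Metric.isOpen_ball
    have h6 : AnalyticOnNhd ℂ (fun y => MvPolynomial.eval ![y, Complex.exp y] p) Set.univ := by
      exact (d3_diff p).differentiableOn.analyticOnNhd isOpen_univ
    have h7 := h6.eqOn_zero_of_preconnected_of_eventuallyEq_zero isPreconnected_univ (Set.mem_univ (g t0)) ?_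
    · intro y
      exact h7 (Set.mem_univ y)
    · filter_upwards [h5.mem_nhds ⟨t0, Metric.mem_ball_self hρ, rfl⟩] with y hy
      obtain ⟨t, ht, rfl⟩ := hy
      exact h3 t ht

end Pool.Agent.Z5
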