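import Pool.Agent.ZL2.Const

namespace Pool.Agent.Z5

open Pool.Agent.ZL2 Filter Topology

/-- `LY c d t i = log |c_i (t - d_i)|`. -/
noncomputable def LY (c d : Fin 3 → ℂ) (t : ℂ) (i : Fin 3) : ℝ := Real.log ‖c i * (t - d i)‖

/-- The scalar product. -/
def dt (u v : Fin 3 → ℝ) : ℝ := ∑ i, u i * v i

/-- Condition (H): two independent real relations between the `log |y_i|` hold at finitely many points only. -/
def HH (c d : Fin 3 → ℂ) : Prop :=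
  ∀ u v : Fin 3 → ℝ, LinearIndependent ℝ ![u, v] →
    {t : ℂ | (∀ i, t ≠ d i) ∧ dt u (LY c d t) = 0 ∧ dt v (LY c d t) = 0}.Finite

/-- The proportion of the indices with property `P`. -/
noncomputable def fr {ι : Type} [Fintype ι] (P : ι → Prop) : ℝ :=
  (Nat.card {σ // P σ} : ℝ) / (Fintype.card ι : ℝ)

/-- The points `z n σ` are generic: integral polynomials which are very small on a set of values take
these values for few `σ` only. -/
def Gen {k : ℕ} (U : Filter ℕ) {ι : ℕ → Type} [∀ n, Fintype (ι n)] (κ : ℝ) (z : ∀ n, ι n → (Fin k → ℂ)) :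
    Prop :=
  ∀ (L : ℕ) (f : (Fin k → Fin (L + 1)) → ℤ), 1 ≤ L → f ≠ 0 → (∀ α, |f α| ≤ 2 ^ L) → ∀ C : ℝ, 0 < C →
    ∀ᶠ n in U, C * fr (fun σ : ι n => ‖ev f (z n σ)‖ ≤ Real.exp (-(C * L))) ≤ κ

/-- The compact sets `|log |y_i|| ≤ A`. -/
def KA (c d : Fin 3 → ℂ) (A : ℝ) : Set ℂ := {t | (∀ i, t ≠ d i) ∧ ∀ i, |LY c d t i| ≤ A}

/-- The three rows `M_1, M_0, M_0 - M_1`. -/
def rw3 (M : Fin 2 → Fin 3 → ℝ) : Fin 3 → Fin 3 → ℝ := ![M 1, M 0, fun i => M 0 i - M 1 i]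

/-- A sequence of Galois orbits of points `(X, t)`, `x_1 = X / a`, `x_2 = (1 - X) / b`, `y_i = c_i (t - d_i)`, with
the relations `u · log |y| = 0`, `log |x| = M log |y|`. -/
structure Sq (a b : ℂ) (c d : Fin 3 → ℂ) (U : Ultrafilter ℕ) where
  ι : ℕ → Type
  fin : ∀ n, Fintype (ι n)
  ne : ∀ n, Nonempty (ι n)
  X : ∀ n, ι n → ℂ
  t : ∀ n, ι n → ℂ
  u : ℕ → Fin 3 → ℝ
  M : ℕ → Fin 2 → Fin 3 → ℝ
  B : ℝ
  κ : ℝ
  hX0 : ∀ n σ, X n σ ≠ 0
  hX1 : ∀ n σ, X n σ ≠ 1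
  ht : ∀ n σ i, t n σ ≠ d i
  hu : ∀ n, dt (u n) (u n) = 1
  hM : ∀ n j, dt (M n j) (u n) = 0
  r0 : ∀ n σ, dt (u n) (LY c d (t n σ)) = 0
  r1 : ∀ n σ, Real.log ‖X n σ‖ = dt (M n 0) (LY c d (t n σ)) + Real.log ‖a‖
  r2 : ∀ n σ, Real.log ‖1 - X n σ‖ = dt (M n 1) (LY c d (t n σ)) + Real.log ‖b‖
  hB : ∀ n i, ∑ σ, |LY c d (t n σ) i| ≤ B * Fintype.card (ι n)
  gen : Gen (k := 1) (U : Filter ℕ) κ (fun n σ _ => t n σ)

attribute [instance] Sq.fin Sq.ne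

/-- `|M| ≤ A` eventually. -/
def Sq.Bdd {a b : ℂ} {c d : Fin 3 → ℂ} {U : Ultrafilter ℕ} (S : Sq a b c d U) (A : ℝ) : Prop :=
  ∀ᶠ n in (U : Filter ℕ), ∀ j i, |S.M n j i| ≤ A

/-- The limit points of the orbits. -/
def Sq.Sup {a b : ℂ} {c d : Fin 3 → ℂ} {U : Ultrafilter ℕ} (S : Sq a b c d U) : Set (ℂ × ℂ) :=
  {p | ∀ O ∈ 𝓝 p, ∀ᶠ n in (U : Filter ℕ), ∃ σ, (S.X n σ, S.t n σ) ∈ O}

/-- The value `G(x, t)` of `G ∈ ℂ[T][X]`. -/
noncomputable def ev2 (G : Polynomial (Polynomial ℂ)) (t x : ℂ) : ℂ := (G.map (Polynomial.evalRingHom t)).eval x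

theorem fr_nonneg {ι : Type} [Fintype ι] (P : ι → Prop) : 0 ≤ fr P := by
  unfold fr; positivity

theorem fr_mono {ι : Type} [Fintype ι] {P Q : ι → Prop} (h : ∀ σ, P σ → Q σ) : fr P ≤ fr Q := by
  unfold fr
  refine div_le_div_of_nonneg_right ?_ (Nat.cast_nonneg _)
  exact_mod_cast Nat.card_le_card_of_injective (fun σ : {σ // P σ} => (⟨σ.1, h σ.1 σ.2⟩ : {σ // Q σ}))
    (fun σ τ h => Subtype.ext (congrArg (fun x : {σ // Q σ} => x.1) h))

theorem fr_or {ι : Type} [Fintype ι] (P Q : ι → Prop) : fr (fun σ => P σ ∨ Q σ) ≤ fr P + fr Q := by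
  classical
  unfold fr
  rw [← add_div]
  refine div_le_div_of_nonneg_right ?_ (Nat.cast_nonneg _)
  simp only [Nat.card_eq_fintype_card]
  exact_mod_cast Fintype.card_subtype_or P Q

theorem fr_true {ι : Type} [Fintype ι] [Nonempty ι] : fr (fun _ : ι => True) = 1 := by
  unfold fr
  rw [Nat.card_congr (Equiv.subtypeUnivEquiv fun _ => trivial), Nat.card_eq_fintype_card]
  exact div_self (by exact_mod_cast Fintype.card_ne_zero)

theorem fr_le_one {ι : Type} [Fintype ι] [Nonempty ι] (P : ι → Prop) : fr P ≤ 1 :=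
  (fr_mono fun _ _ => trivial).trans fr_true.le

theorem fr_markov {ι : Type} [Fintype ι] [Nonempty ι] (g : ι → ℝ) (B A : ℝ) (hA : 0 < A)
    (h : ∑ σ, |g σ| ≤ B * Fintype.card ι) : fr (fun σ => A < |g σ|) ≤ B / A := by
  classical
  unfold fr
  have hc : (0 : ℝ) < Fintype.card ι := by exact_mod_cast Fintype.card_pos
  rw [div_le_div_iff₀ hc hA]
  refine le_trans ?_ h
  rw [Nat.card_eq_fintype_card, Fintype.card_subtype]
  have h1 := Finset.card_nsmul_le_sum (Finset.univ.filter fun σ => A < |g σ|) (fun σ => |g σ|) A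
    (fun σ hσ => (Finset.mem_filter.1 hσ).2.le)
  rw [nsmul_eq_mul] at h1
  exact h1.trans (Finset.sum_le_sum_of_subset_of_nonneg (Finset.subset_univ _) fun _ _ _ => abs_nonneg _)

theorem fr_exists {ι : Type} [Fintype ι] {κ : Type} (s : Finset κ) (P : κ → ι → Prop) :
    fr (fun σ => ∃ k ∈ s, P k σ) ≤ ∑ k ∈ s, fr (P k) := by
  classical
  induction s using Finset.induction_on with
  | empty =>
    rw [Finset.sum_empty]
    unfold fr
    have : IsEmpty {σ : ι // ∃ k ∈ (∅ : Finset κ), P k σ} := ⟨fun σ => by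
      obtain ⟨k, hk, _⟩ := σ.2
      exact absurd hk (Finset.notMem_empty k)⟩
    rw [Nat.card_of_isEmpty]
    simp
  | insert a s ha ih =>
    rw [Finset.sum_insert ha]
    refine le_trans (fr_mono (Q := fun σ => P a σ ∨ ∃ k ∈ s, P k σ) ?_) ((fr_or _ _).trans (by linarith))
    rintro σ ⟨k, hk, h⟩
    rcases Finset.mem_insert.1 hk with rfl | hk
    · exact Or.inl h
    · exact Or.inr ⟨k, hk, h⟩

end Pool.Agent.Z5
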