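import Pool.Agent.Z5.K0
import Pool.Agent.Z5.A4
import Pool.Agent.Z5.B4

namespace Pool.Agent.Z5

open Pool.Agent.ZL2 Filter Topology

variable {F : Type} [Field F] [NumberField F] [Algebra F ℂ] {a b : F} {c d : Fin 3 → F}

/-- Row Z5-E2a. The heights of the `y_i` and `t` are at most `A.B [K:ℚ]` (`Ar.hB` with `r0`). So `row_bound` gives the heights of `X, 1 - X` if one row of `M` is bounded. -/
theorem ArM.hh_X (A : ArM F a b c d) (A0 : ℝ) : ∃ C : ℝ, 0 ≤ C ∧ ∀ n, (∃ j, ∑ i, |rw3 (A.M n) j i| ≤ A0) →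
    hh (A.X n) ≤ C * Module.finrank ℚ (A.K n) ∧ hh (1 - A.X n) ≤ C * Module.finrank ℚ (A.K n) := by
  obtain ⟨C, hC, h⟩ := row_bound a b A.ha A.hb A.B A0
  exact ⟨C, hC, fun n hj => h (A.K n) (A.X n) (A.y n) (A.hX0 n) (A.hX1 n) (A.y_ne n)
    (A.hB.2 n (A.u n) (A.hu n) (A.r0 n)).1 (A.M n) (A.r1 n) (A.r2 n) hj⟩

/-- Row Z5-E2b. The matrices `M` are bounded: `bddM` for `A.sq U hU` (`hbig` from `hh_X` and `sum_le_hh`; note `(A.sq U hU).M = A.M`, `(A.sq U hU).ι n = (A.K n →ₐ[F] ℂ)` and so on by `rfl`). -/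
theorem ArM.bdd (A : ArM F a b c d) (U : Ultrafilter ℕ) (hU : (U : Filter ℕ) ≤ cofinite) :
    ∃ A0, (A.sq U hU).Bdd A0 := by
  refine bddM (A.sq U hU) (fun i => (map_ne_zero _).2 (A.hc i)) A.hH ?_
  intro A0
  obtain ⟨C, hC, h⟩ := A.hh_X A0
  refine ⟨2 * (2 * C * (Module.finrank ℚ F : ℝ)), fun n hj => ?_⟩
  obtain ⟨h1, h2⟩ := h n hj
  have s1 := sum_le_hh (F := F) (A.hX0 n) h1
  have s2 := sum_le_hh (F := F) (sub_ne_zero.2 (A.hX1 n).symm) h2
  show ∑ σ : A.K n →ₐ[F] ℂ, (|Real.log ‖σ (A.X n)‖| + |Real.log ‖1 - σ (A.X n)‖|) ≤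
    2 * (2 * C * (Module.finrank ℚ F : ℝ)) * Fintype.card (A.K n →ₐ[F] ℂ)
  have e : ∀ σ : A.K n →ₐ[F] ℂ, (1 : ℂ) - σ (A.X n) = σ (1 - A.X n) := by
    intro σ
    rw [map_sub, map_one]
  simp only [e]
  rw [Finset.sum_add_distrib]
  linarith

/-- Row Z5-E2c. The points `(X, t)` satisfy one polynomial equation. Otherwise for every `L` and `f ≠ 0`, eventually `ev f ![A.X n, A.t n] ≠ 0` (ultrafilter). With `ArM.bdd`, `hh_X` (the row `j = 0` of `rw3` is `M 1`) the heights of `X` are eventually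
`≤ C [K:ℚ]`; `A.t n ≠ 0` eventually (injectivity of `j n (t n)`), so `bp_ineq` with `k = 2` gives `Gen (k := 2)` for `fun n σ => ![σ (A.X n), σ (A.t n)]`, contradiction with `core1` for `A.sq U hU`. -/
theorem ArM.exists_eq (A : ArM F a b c d) (U : Ultrafilter ℕ) (hU : (U : Filter ℕ) ≤ cofinite) :
    ∃ (L : ℕ) (f : (Fin 2 → Fin (L + 1)) → ℤ), f ≠ 0 ∧
      ∀ᶠ n in (U : Filter ℕ), ev f ![A.X n, A.t n] = 0 := by
  by_contra hcon
  obtain ⟨A0, hA0⟩ := A.bdd U hU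
  obtain ⟨C, hC, hhX⟩ := A.hh_X (3 * A0)
  have hX : ∀ᶠ n in (U : Filter ℕ), hh (A.X n) ≤ C * Module.finrank ℚ (A.K n) := by
    filter_upwards [hA0] with n hn
    refine (hhX n ⟨0, ?_⟩).1
    calc ∑ i, |rw3 (A.M n) 0 i| ≤ ∑ _i : Fin 3, A0 := Finset.sum_le_sum fun i _ => hn 1 i
      _ = 3 * A0 := by simp
  have ht0 : ∀ᶠ n in (U : Filter ℕ), A.t n ≠ 0 := by
    apply hU
    rw [mem_cofinite]
    refine Set.Subsingleton.finite ?_
    intro n hn m hm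
    have hn' : A.t n = 0 := by_contra fun h => hn h
    have hm' : A.t m = 0 := by_contra fun h => hm h
    apply A.inj
    show A.j n (A.t n) = A.j m (A.t m)
    rw [hn', hm', map_zero, map_zero]
  obtain ⟨B, hB⟩ : ∃ B : ℝ, B = max C A.B := ⟨_, rfl⟩
  have hG : Gen (k := 2) (U : Filter ℕ)
      ((Module.finrank ℚ F : ℝ) * (((2 : ℕ) : ℝ) * B + (((2 : ℕ) : ℝ) + 1) * Real.log 2))
      (fun n (σ : A.K n →ₐ[F] ℂ) => ![σ (A.X n), σ (A.t n)]) := by
    intro L f hL hf hfB C' hC'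
    have hev : ∀ᶠ n in (U : Filter ℕ), ev f ![A.X n, A.t n] ≠ 0 := by
      have h : ∀ᶠ n in (U : Filter ℕ), ¬ (ev f ![A.X n, A.t n] = 0) :=
        Ultrafilter.eventually_not.2 fun h => hcon ⟨L, f, hf, h⟩
      exact h
    filter_upwards [hX, ht0, hev] with n h1 h2 h3
    have hDn : (0 : ℝ) ≤ (Module.finrank ℚ (A.K n) : ℝ) := Nat.cast_nonneg _
    have key := bp_ineq (F := F) (K := A.K n) hL f hfB ![A.X n, A.t n] (by
      intro j
      fin_cases j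
      · exact A.hX0 n
      · exact h2) (B := B) (by
      intro j
      fin_cases j
      · refine h1.trans (mul_le_mul_of_nonneg_right ?_ hDn)
        rw [hB]
        exact le_max_left _ _
      · refine ((A.hB.2 n (A.u n) (A.hu n) (A.r0 n)).2).trans (mul_le_mul_of_nonneg_right ?_ hDn)
        rw [hB]
        exact le_max_right _ _) h3 hC'
    have e : ∀ σ : A.K n →ₐ[F] ℂ, (![σ (A.X n), σ (A.t n)] : Fin 2 → ℂ) =
        fun j => σ ((![A.X n, A.t n] : Fin 2 → A.K n) j) := by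
      intro σ
      funext j
      fin_cases j <;> rfl
    simp only [e]
    exact key
  exact core1 ((map_ne_zero _).2 A.ha) ((map_ne_zero _).2 A.hb) (A.sq U hU)
    (fun i => (map_ne_zero _).2 (A.hc i)) (fun i j h => A.hd ((algebraMap F ℂ).injective h)) hA0 hG

end Pool.Agent.Z5
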