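import Pool.Agent.Z5.K0

namespace Pool.Agent.Z5

open Pool.Agent.ZL2 Filter Topology Polynomial

variable {F : Type} [Field F] [NumberField F] [Algebra F ℂ] {a b : F} {c d : Fin 3 → F}

/-- the polynomial over `F[T]` of `f` -/
noncomputable def e4_pol (F : Type) [Field F] {L : ℕ} (f : (Fin 2 → Fin (L + 1)) → ℤ) : F[X][X] :=
  ∑ α : Fin 2 → Fin (L + 1), C (C ((f α : ℤ) : F) * X ^ (α 1 : ℕ)) * X ^ (α 0 : ℕ)

omit [Algebra F ℂ] in
theorem e4_pol_ne {L : ℕ} {f : (Fin 2 → Fin (L + 1)) → ℤ} (hf : f ≠ 0) : e4_pol F f ≠ 0 := by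
  obtain ⟨α0, h0⟩ : ∃ α, f α ≠ 0 := by
    by_contra h
    push Not at h
    exact hf (funext h)
  intro h
  have h1 : ((e4_pol F f).coeff (α0 0 : ℕ)).coeff (α0 1 : ℕ) = 0 := by
    rw [h, coeff_zero, coeff_zero]
  unfold e4_pol at h1
  rw [finsetSum_coeff, finsetSum_coeff, Finset.sum_eq_single α0] at h1
  · rw [coeff_C_mul, coeff_X_pow, if_pos rfl, mul_one, coeff_C_mul, coeff_X_pow, if_pos rfl, mul_one] at h1
    exact h0 (by exact_mod_cast h1)
  · intro α _ hα
    rw [coeff_C_mul, coeff_X_pow]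
    by_cases ha : (α0 0 : ℕ) = (α 0 : ℕ)
    · rw [if_pos ha, mul_one, coeff_C_mul, coeff_X_pow, if_neg, mul_zero]
      intro hb
      apply hα
      funext i
      fin_cases i
      · exact Fin.ext ha.symm
      · exact Fin.ext hb.symm
    · rw [if_neg ha, mul_zero, coeff_zero]
  · intro h
    exact absurd (Finset.mem_univ _) h

/-- the evaluation at `(x, t)` -/
noncomputable def e4_phi {K : Type} [Field K] [Algebra F K] (x t : K) : F[X][X] →+* K :=
  eval₂RingHom (aeval t : F[X] →ₐ[F] K).toRingHom x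

omit [NumberField F] [Algebra F ℂ] in
theorem e4_phi_pol {K : Type} [Field K] [Algebra F K] (x t : K) {L : ℕ} (f : (Fin 2 → Fin (L + 1)) → ℤ) :
    e4_phi (F := F) x t (e4_pol F f) = ev f ![x, t] := by
  unfold e4_pol ev
  rw [map_sum]
  refine Finset.sum_congr rfl fun α _ => ?_
  have h1 : e4_phi (F := F) x t X = x := eval₂_X _ _
  have h2 : ∀ p : F[X], e4_phi (F := F) x t (C p) = aeval t p := fun p => eval₂_C _ _
  rw [map_mul, map_pow, h1, h2, map_mul, map_pow, aeval_C, aeval_X, Fin.prod_univ_two, map_intCast]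
  show _ = ((f α : ℤ) : K) * (x ^ (α 0 : ℕ) * t ^ (α 1 : ℕ))
  ring

theorem e4_finite (A : Ar F a b c d) {r : F[X]} (hr : r ≠ 0) : {n | aeval (A.t n) r = 0}.Finite := by
  have h1 : ((r.map (algebraMap F ℂ)).roots.toFinset : Set ℂ).Finite := Finset.finite_toSet _
  refine (h1.preimage (f := fun n => A.j n (A.t n)) A.inj.injOn).subset ?_
  intro n hn
  have hn' : aeval (A.t n) r = 0 := hn
  show A.j n (A.t n) ∈ ((r.map (algebraMap F ℂ)).roots.toFinset : Set ℂ)
  rw [Finset.mem_coe, Multiset.mem_toFinset, mem_roots ((Polynomial.map_ne_zero_iff (algebraMap F ℂ).injective).2 hr),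
    IsRoot.def, eval_map_algebraMap, aeval_algHom_apply, hn', map_zero]

omit [Algebra F ℂ] in
/-- Bezout for an irreducible polynomial of positive degree -/
theorem e4_bezout {g : F[X][X]} (hg : Irreducible g) (hd : g.natDegree ≠ 0) :
    ∃ (P Q : F[X][X]) (r : F[X]), r ≠ 0 ∧ P * g + Q * derivative g = C r := by
  have hprim := hg.isPrimitive hd
  have h1 : Irreducible (g.map (algebraMap F[X] (FractionRing F[X]))) :=
    (hprim.irreducible_iff_irreducible_map_fraction_map (K := FractionRing F[X])).1 hg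
  have h2 : (g.map (algebraMap F[X] (FractionRing F[X]))).Separable := h1.separable
  obtain ⟨A, B, hAB⟩ := h2
  obtain ⟨a', ha', hA⟩ := IsLocalization.integerNormalization_spec (nonZeroDivisors F[X]) A
  obtain ⟨b', hb', hB⟩ := IsLocalization.integerNormalization_spec (nonZeroDivisors F[X]) B
  refine ⟨C b' * IsLocalization.integerNormalization (nonZeroDivisors F[X]) A,
    C a' * IsLocalization.integerNormalization (nonZeroDivisors F[X]) B, a' * b',
    mul_ne_zero (nonZeroDivisors.ne_zero ha') (nonZeroDivisors.ne_zero hb'), ?_⟩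
  apply Polynomial.map_injective (algebraMap F[X] (FractionRing F[X])) (IsFractionRing.injective _ _)
  rw [Polynomial.map_add, Polynomial.map_mul, Polynomial.map_mul, Polynomial.map_mul, Polynomial.map_mul, hA, hB,
    ← derivative_map, Polynomial.map_C, Polynomial.map_C, Polynomial.map_C, map_mul, C_mul]
  have h3 : ∀ (x : F[X]) (p : (FractionRing F[X])[X]), x • p = C (algebraMap F[X] (FractionRing F[X]) x) * p := by
    intro x p
    rw [← smul_eq_C_mul, algebraMap_smul]
  rw [h3, h3]
  linear_combination (C (algebraMap F[X] (FractionRing F[X]) a') * C (algebraMap F[X] (FractionRing F[X]) b')) * hAB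

/-- the map to `ℂ[T][X]` -/
noncomputable def e4_psi (F : Type) [Field F] [Algebra F ℂ] : F[X] →+* ℂ[X] := mapRingHom (algebraMap F ℂ)

omit [NumberField F] in
theorem e4_psi_inj : Function.Injective (e4_psi F) := Polynomial.map_injective _ (algebraMap F ℂ).injective

/-- the evaluation as a ring homomorphism -/
noncomputable def e4_ev2 (t x : ℂ) : ℂ[X][X] →+* ℂ := (evalRingHom x).comp (mapRingHom (evalRingHom t))

theorem e4_ev2_eq (G : ℂ[X][X]) (t x : ℂ) : ev2 G t x = e4_ev2 t x G := rfl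

omit [NumberField F] in
theorem e4_ev2_map {K : Type} [Field K] [Algebra F K] (σ : K →ₐ[F] ℂ) (x t : K) (g : F[X][X]) :
    ev2 (g.map (e4_psi F)) (σ t) (σ x) = σ (e4_phi (F := F) x t g) := by
  have h : (evalRingHom (σ t)).comp (e4_psi F) = (σ : K →+* ℂ).comp (aeval t : F[X] →ₐ[F] K).toRingHom := by
    refine Polynomial.ringHom_ext (fun y => ?_) ?_
    · show eval (σ t) ((C y).map (algebraMap F ℂ)) = σ (aeval t (C y))
      rw [Polynomial.map_C, eval_C, aeval_C, σ.commutes]
    · show eval (σ t) ((X : F[X]).map (algebraMap F ℂ)) = σ (aeval t X)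
      rw [Polynomial.map_X, eval_X, aeval_X]
  show eval (σ x) ((g.map (e4_psi F)).map (evalRingHom (σ t))) = σ (eval₂ (aeval t : F[X] →ₐ[F] K).toRingHom x g)
  rw [Polynomial.map_map, eval_map, h]
  exact (hom_eval₂ g _ (σ : K →+* ℂ) x).symm

/-- Row Z5-E4. From one polynomial equation to a separable one. Let `f' ∈ F[T][X]` be the polynomial of `f` (coefficients in `ℤ → F`; `ev f ![X, T] = ∑ f α X^(α 0) T^(α 1)`), `f' ≠ 0`. `F[T][X]` is a unique factorisation domain (`WfDvdMonoid.exists_factors` or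
`UniqueFactorizationMonoid.exists_prime_factors`): `f'` is a unit times a finite product of irreducible `g`; for every `n` with `ev f ![X n, t n] = 0` one of the factors vanishes at `(X n, t n)` (the unit is a nonzero constant); the ultrafilter chooses one factor `g` with
`∀ᶠ n in U, g(t n, X n) = 0`. Its degree in `X` is `≥ 1`: otherwise `g = g(T) ≠ 0` vanishes at infinitely many different `j n (t n)` (`A.inj`, `hU`). `g` irreducible in `F[T][X]` of positive degree is primitive and irreducible over `F(T) = FractionRing F[T]` (Gauss,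
`Polynomial.IsPrimitive.irreducible_iff_irreducible_map_fraction_map`), so separable (characteristic zero, `Irreducible.separable`): `A g + B g' = 1` over `F(T)`; multiply by a common denominator `r ∈ F[T]`, `r ≠ 0`: `A1 g + B1 g' = r`. `G` = `g` mapped to `ℂ[T][X]`,
`E` = the roots of `r` in `ℂ`. For `σ : A.K n →ₐ[F] ℂ`: `ev2 G (σ t) (σ X) = σ (g(t, X)) = 0`. (Alternative: choose `g ≠ 0` in `F[T][X]` of minimal degree in `X` among those with `∀ᶠ n in U, g(t n, X n) = 0`: then `r = resultant`/Bezout of `g, g'` over `F(T)` is nonzero, since a common factor of positive degree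
of `g` and `g'` would give a vanishing polynomial of smaller degree: the ultrafilter chooses `gcd` or the quotient.) -/
theorem Ar.exists_G (A : Ar F a b c d) (U : Ultrafilter ℕ) (hU : (U : Filter ℕ) ≤ cofinite) {L : ℕ}
    (f : (Fin 2 → Fin (L + 1)) → ℤ) (hf : f ≠ 0)
    (h : ∀ᶠ n in (U : Filter ℕ), ev f ![A.X n, A.t n] = 0) :
    ∃ (G : Polynomial (Polynomial ℂ)) (E : Set ℂ), G ≠ 0 ∧ E.Finite ∧
      (∀ t, t ∉ E → ∀ x, ev2 G t x = 0 → ev2 (derivative G) t x ≠ 0) ∧
      ∀ᶠ n in (U : Filter ℕ), ∀ σ : A.K n →ₐ[F] ℂ, ev2 G (σ (A.t n)) (σ (A.X n)) = 0 := by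
  classical
  have hne : e4_pol F f ≠ 0 := e4_pol_ne hf
  obtain ⟨S, hS, u, hu⟩ := UniqueFactorizationMonoid.exists_prime_factors (e4_pol F f) hne
  have h1 : ∀ᶠ n in (U : Filter ℕ), ∃ g ∈ {g | g ∈ S}, e4_phi (F := F) (A.X n) (A.t n) g = 0 := by
    filter_upwards [h] with n hn
    rw [← e4_phi_pol (F := F), ← hu, map_mul] at hn
    have hun : e4_phi (F := F) (A.X n) (A.t n) (u : F[X][X]) ≠ 0 := (u.isUnit.map (e4_phi (F := F) (A.X n) (A.t n))).ne_zero
    have h2 := (mul_eq_zero.1 hn).resolve_right hun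
    rw [map_multiset_prod, Multiset.prod_eq_zero_iff, Multiset.mem_map] at h2
    obtain ⟨g, hg, hg0⟩ := h2
    exact ⟨g, hg, hg0⟩
  have hfin : {g | g ∈ S}.Finite := S.finite_toSet
  obtain ⟨g, hgS, hg⟩ := (Ultrafilter.eventually_exists_mem_iff hfin).1 h1
  have hirr : Irreducible g := (hS g hgS).irreducible
  have hdeg : g.natDegree ≠ 0 := by
    intro h0
    obtain ⟨g0, hg0⟩ : ∃ g0, g = C g0 := ⟨_, eq_C_of_natDegree_eq_zero h0⟩
    have hg0ne : g0 ≠ 0 := by
      intro h3
      rw [hg0, h3, C_0] at hirr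
      exact hirr.ne_zero rfl
    have h4 : ∀ᶠ n in (U : Filter ℕ), n ∈ {n | aeval (A.t n) g0 = 0} := by
      filter_upwards [hg] with n hn
      rw [hg0] at hn
      have : e4_phi (F := F) (A.X n) (A.t n) (C g0) = aeval (A.t n) g0 := eval₂_C _ _
      rw [this] at hn
      exact hn
    have h5 : ∀ᶠ n in (U : Filter ℕ), n ∉ {n | aeval (A.t n) g0 = 0} :=
      hU (e4_finite A hg0ne).compl_mem_cofinite
    obtain ⟨n, hn1, hn2⟩ := (h4.and h5).exists
    exact hn2 hn1
  obtain ⟨P, Q, r, hr, hPQ⟩ := e4_bezout hirr hdeg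
  refine ⟨g.map (e4_psi F), {t | (r.map (algebraMap F ℂ)).eval t = 0}, ?_, ?_, ?_, ?_⟩
  · exact (Polynomial.map_ne_zero_iff e4_psi_inj).2 hirr.ne_zero
  · have hr' : r.map (algebraMap F ℂ) ≠ 0 := (Polynomial.map_ne_zero_iff (algebraMap F ℂ).injective).2 hr
    refine (Finset.finite_toSet (r.map (algebraMap F ℂ)).roots.toFinset).subset ?_
    intro t ht
    rw [Finset.mem_coe, Multiset.mem_toFinset, mem_roots hr']
    exact ht
  · intro t ht x hx hx'
    apply ht
    show (r.map (algebraMap F ℂ)).eval t = 0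
    have h6 := congrArg (fun p => e4_ev2 t x (p.map (e4_psi F))) hPQ
    have h7 : e4_ev2 t x ((C r).map (e4_psi F)) = (r.map (algebraMap F ℂ)).eval t := by
      rw [Polynomial.map_C]
      show eval x ((C (e4_psi F r)).map (evalRingHom t)) = _
      rw [Polynomial.map_C, eval_C]
      rfl
    rw [← h7, ← h6]
    show e4_ev2 t x ((P * g + Q * derivative g).map (e4_psi F)) = 0
    rw [Polynomial.map_add, Polynomial.map_mul, Polynomial.map_mul, map_add, map_mul, map_mul, ← derivative_map,
      ← e4_ev2_eq (g.map (e4_psi F)), ← e4_ev2_eq (derivative (g.map (e4_psi F))), hx, hx', mul_zero, mul_zero, add_zero]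
  · filter_upwards [hg] with n hn
    intro σ
    rw [e4_ev2_map, hn, map_zero]

end Pool.Agent.Z5
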