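import Pool.Agent.Z5.Defs

namespace Pool.Agent.Z5

open Pool.Agent.ZL2 Filter Topology

/-- For `n` large the box principle applies. -/
theorem n5_count (k : ℕ) : ∃ n : ℕ, 1 ≤ n ∧ (4 * ((n : ℝ) + 1) + 2) ^ k < 2 ^ (n + 1) := by
  have h := tendsto_pow_const_div_const_pow_of_one_lt k (r := 2) one_lt_two
  have h1 : (0 : ℝ) < 1 / 6 ^ k := by positivity
  obtain ⟨N, hN⟩ := Filter.eventually_atTop.1 (h.eventually (gt_mem_nhds h1))
  refine ⟨N + 1, by omega, ?_⟩
  have h2 := hN (N + 1 + 1) (by omega)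
  rw [div_lt_div_iff₀ (by positivity) (by positivity), one_mul] at h2
  refine lt_of_le_of_lt ?_ h2
  rw [← mul_pow]
  refine pow_le_pow_left₀ (by positivity) ?_ k
  push_cast
  nlinarith [(Nat.cast_nonneg N : (0 : ℝ) ≤ N)]

/-- The main step: no relation with coefficients in `{-1, 0, 1}` implies a lower bound of the height. -/
theorem n5_main {F : Type} [Field F] [NumberField F] (G : F) (hG : G ≠ 0)
    (hrel : ∀ (n : ℕ) (f : Fin (n + 1) → ℤ), f ≠ 0 → (∀ a, |f a| ≤ 1) →
      ∑ a, (f a : F) * G ^ (a : ℕ) ≠ 0) :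
    ∃ c : ℝ, 0 < c ∧ ∀ (K : Type) [Field K] [NumberField K] [Algebra F K],
      c * Module.finrank ℚ K ≤ hh (algebraMap F K G) := by
  classical
  obtain ⟨n, hn1, hn⟩ := n5_count (Fintype.card ((F →+* ℂ) × Fin 2))
  have hMx : ∀ τ : F →+* ℂ, (0 : ℝ) < max 1 ‖τ G‖ ^ n := fun τ =>
    pow_pos (lt_max_of_lt_left one_pos) _
  obtain ⟨f, hf0, hf1, hf2⟩ := pigeon (A := Fin (n + 1)) (J := (F →+* ℂ) × Fin 2) 1
    (fun a j => (if j.2 = 0 then ((j.1 G) ^ (a : ℕ)).re else ((j.1 G) ^ (a : ℕ)).im) /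
      max 1 ‖j.1 G‖ ^ n) 1 (1 / 2) (by norm_num) zero_le_one
    (by
      intro a j
      rw [abs_div, abs_of_pos (hMx j.1), div_le_one (hMx j.1)]
      have h1 : |if j.2 = 0 then ((j.1 G) ^ (a : ℕ)).re else ((j.1 G) ^ (a : ℕ)).im| ≤
          ‖(j.1 G) ^ (a : ℕ)‖ := by
        split_ifs
        · exact Complex.abs_re_le_norm _
        · exact Complex.abs_im_le_norm _
      refine h1.trans ?_
      rw [norm_pow]
      exact bp6_pow_le (norm_nonneg _) (Nat.lt_succ_iff.1 a.2))
    (by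
      rw [Fintype.card_fin]
      have e : (2 * ((1 : ℕ) : ℝ) * ((n + 1 : ℕ) : ℝ) * 1 / (1 / 2) + 2) = 4 * ((n : ℝ) + 1) + 2 := by
        push_cast; ring
      rw [e]
      refine hn.trans_le (le_of_eq ?_)
      norm_num)
  have hz : ∑ a, (f a : F) * G ^ (a : ℕ) ≠ 0 := hrel n f hf0 (fun a => by simpa using hf1 a)
  have hτ : ∀ τ : F →+* ℂ, ‖τ (∑ a, (f a : F) * G ^ (a : ℕ))‖ ≤ 3 / 4 * max 1 ‖τ G‖ ^ n := by
    intro τ
    have hM := hMx τ
    have e : τ (∑ a, (f a : F) * G ^ (a : ℕ)) = ∑ a, (f a : ℂ) * (τ G) ^ (a : ℕ) := by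
      rw [map_sum]
      refine Finset.sum_congr rfl fun a _ => ?_
      rw [map_mul, map_pow, map_intCast]
    have hre : |(τ (∑ a, (f a : F) * G ^ (a : ℕ))).re| ≤ 1 / 2 * max 1 ‖τ G‖ ^ n := by
      have h := hf2 (τ, 0)
      simp only [if_true] at h
      have e2 : (τ (∑ a, (f a : F) * G ^ (a : ℕ))).re =
          (∑ a, (f a : ℝ) * (((τ G) ^ (a : ℕ)).re / max 1 ‖τ G‖ ^ n)) * max 1 ‖τ G‖ ^ n := by
        rw [e, Complex.re_sum, Finset.sum_mul]
        refine Finset.sum_congr rfl fun a _ => ?_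
        rw [mul_assoc, div_mul_cancel₀ _ hM.ne', ← Complex.ofReal_intCast, Complex.re_ofReal_mul]
      rw [e2, abs_mul, abs_of_pos hM]
      exact mul_le_mul_of_nonneg_right h hM.le
    have him : |(τ (∑ a, (f a : F) * G ^ (a : ℕ))).im| ≤ 1 / 2 * max 1 ‖τ G‖ ^ n := by
      have h := hf2 (τ, 1)
      simp only [one_ne_zero, if_false] at h
      have e2 : (τ (∑ a, (f a : F) * G ^ (a : ℕ))).im =
          (∑ a, (f a : ℝ) * (((τ G) ^ (a : ℕ)).im / max 1 ‖τ G‖ ^ n)) * max 1 ‖τ G‖ ^ n := by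
        rw [e, Complex.im_sum, Finset.sum_mul]
        refine Finset.sum_congr rfl fun a _ => ?_
        rw [mul_assoc, div_mul_cancel₀ _ hM.ne', ← Complex.ofReal_intCast, Complex.im_ofReal_mul]
      rw [e2, abs_mul, abs_of_pos hM]
      exact mul_le_mul_of_nonneg_right h hM.le
    refine abs_le_of_sq_le_sq' ?_ (by positivity) |>.2
    rw [Complex.sq_norm, Complex.normSq_apply]
    nlinarith [sq_abs (τ (∑ a, (f a : F) * G ^ (a : ℕ))).re,
      sq_abs (τ (∑ a, (f a : F) * G ^ (a : ℕ))).im,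
      mul_self_le_mul_self (abs_nonneg _) hre, mul_self_le_mul_self (abs_nonneg _) him,
      sq_nonneg (max 1 ‖τ G‖ ^ n)]
  have hlog : 0 < Real.log (4 / 3) := Real.log_pos (by norm_num)
  refine ⟨Real.log (4 / 3) / n, by positivity, ?_⟩
  intro K _ _ _
  set z : F := ∑ a, (f a : F) * G ^ (a : ℕ) with hzdef
  have hzK : algebraMap F K z ≠ 0 := (map_ne_zero _).2 hz
  have hGK : algebraMap F K G ≠ 0 := (map_ne_zero _).2 hG
  have hlog2 : 0 < Real.log 2 := Real.log_pos (by norm_num)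
  have key : ∀ p : Pl K, lv p (algebraMap F K z) ≤
      n * max 0 (lv p (algebraMap F K G)) - (Real.log (4 / 3) / Real.log 2) * ell p := by
    rintro (σ | v)
    · simp only [lv, ell, Sum.elim_inl]
      rw [div_mul_cancel₀ _ hlog2.ne']
      have h1 := hτ (σ.comp (algebraMap F K))
      simp only [RingHom.comp_apply] at h1
      have h0 : 0 < ‖σ (algebraMap F K z)‖ := norm_pos_iff.2 ((map_ne_zero σ).2 hzK)
      have h0' : 0 < ‖σ (algebraMap F K G)‖ := norm_pos_iff.2 ((map_ne_zero σ).2 hGK)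
      have h2 := Real.log_le_log h0 h1
      rw [Real.log_mul (by norm_num) (ne_of_gt (pow_pos (lt_max_of_lt_left one_pos) _)), Real.log_pow,
        bp6_log_max h0'] at h2
      have h3 : Real.log (3 / 4) = - Real.log (4 / 3) := by
        rw [← Real.log_inv]; norm_num
      rw [h3] at h2
      linarith
    · simp only [lv, ell, Sum.elim_inr, mul_zero, sub_zero]
      have h0 : 0 < v (algebraMap F K z) := NumberField.FinitePlace.pos_iff.2 hzK
      have h0' : 0 < v (algebraMap F K G) := NumberField.FinitePlace.pos_iff.2 hGK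
      have h1 : v (algebraMap F K z) ≤ max 1 (v (algebraMap F K G)) ^ n := by
        rw [hzdef, map_sum]
        refine bp6_fin_sum v _ _ _ (by positivity) fun a _ => ?_
        rw [map_mul, map_pow, map_intCast, map_mul, map_pow]
        calc v ((f a : K)) * v (algebraMap F K G) ^ (a : ℕ) ≤ 1 * max 1 (v (algebraMap F K G)) ^ n :=
              mul_le_mul (bp6_fin_int v _) (bp6_pow_le h0'.le (Nat.lt_succ_iff.1 a.2))
                (by positivity) zero_le_one
          _ = _ := one_mul _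
      have h2 := Real.log_le_log h0 h1
      rwa [Real.log_pow, bp6_log_max h0'] at h2
  have h1 := Sm_mono (FS_lv hzK) (((FS_max0 hGK).smul _).sub (FS_ell.smul _)) key
  rw [Sm_sub ((FS_max0 hGK).smul _) (FS_ell.smul _), Sm_smul, Sm_smul, Sm_lv hzK, Sm_ell] at h1
  have hnpos : (0 : ℝ) < n := by exact_mod_cast hn1
  have h2 : Real.log (4 / 3) / Real.log 2 * ((Module.finrank ℚ K : ℝ) * Real.log 2) =
      Real.log (4 / 3) * Module.finrank ℚ K := by
    field_simp
  rw [h2] at h1
  have h3 : Sm (fun p : Pl K => max 0 (lv p (algebraMap F K G))) = hh (algebraMap F K G) := rfl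
  rw [h3] at h1
  rw [div_mul_eq_mul_div, div_le_iff₀ hnpos]
  linarith

/-- A relation with coefficients in `{-1, 0, 1}` gives a monic integral polynomial with coefficients in `{-1, 0, 1}`. -/
theorem n5_poly {F : Type} [Field F] [CharZero F] (G : F) (n : ℕ) (f : Fin (n + 1) → ℤ) (hf : f ≠ 0)
    (hf1 : ∀ a, |f a| ≤ 1) (h : ∑ a, (f a : F) * G ^ (a : ℕ) = 0) :
    ∃ Q : Polynomial ℤ, Q.Monic ∧ Polynomial.aeval G Q = 0 ∧ ∀ i, |Q.coeff i| ≤ 1 := by
  classical
  obtain ⟨P, hP⟩ : ∃ P : Polynomial ℤ, P = ∑ a : Fin (n + 1), Polynomial.monomial (a : ℕ) (f a) := ⟨_, rfl⟩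
  have hcoef : ∀ a : Fin (n + 1), P.coeff (a : ℕ) = f a := by
    intro a
    rw [hP, Polynomial.finsetSum_coeff, Finset.sum_eq_single a]
    · rw [Polynomial.coeff_monomial, if_pos rfl]
    · intro b _ hb
      rw [Polynomial.coeff_monomial, if_neg]
      exact fun e => hb (Fin.ext e)
    · intro h'; exact absurd (Finset.mem_univ _) h'
  have hcoef2 : ∀ i, |P.coeff i| ≤ 1 := by
    intro i
    by_cases hi : i < n + 1
    · have := hcoef ⟨i, hi⟩
      simp only at this
      rw [this]; exact hf1 _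
    · rw [hP, Polynomial.finsetSum_coeff, Finset.sum_eq_zero]
      · simp
      · intro b _
        rw [Polynomial.coeff_monomial, if_neg]
        intro e
        exact hi (e ▸ b.2)
  have hP0 : P ≠ 0 := by
    intro hP0
    apply hf
    funext a
    rw [← hcoef a, hP0]; simp
  have haev : Polynomial.aeval G P = 0 := by
    rw [hP, map_sum, ← h]
    refine Finset.sum_congr rfl fun a _ => ?_
    rw [Polynomial.aeval_monomial]
    simp
  have hl0 : P.leadingCoeff ≠ 0 := Polynomial.leadingCoeff_ne_zero.2 hP0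
  have hl1 : |P.leadingCoeff| ≤ 1 := hcoef2 _
  have hl : P.leadingCoeff = 1 ∨ P.leadingCoeff = -1 := by
    have := abs_le.1 hl1
    omega
  rcases hl with hl | hl
  · exact ⟨P, hl, haev, hcoef2⟩
  · refine ⟨-P, ?_, by rw [map_neg, haev, neg_zero], fun i => by rw [Polynomial.coeff_neg, abs_neg]; exact hcoef2 i⟩
    rw [Polynomial.Monic, Polynomial.leadingCoeff_neg, hl, neg_neg]

theorem n5_hh_pow {K : Type} [Field K] [NumberField K] (x : K) (m : ℕ) : hh (x ^ m) = m * hh x := by
  unfold hh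
  rw [← Sm_smul]
  refine Sm_congr fun p => ?_
  rw [lv_pow]
  rcases le_total 0 (lv p x) with h | h
  · rw [max_eq_right h, max_eq_right (by positivity)]
  · rw [max_eq_left h, mul_zero, max_eq_left]
    exact mul_nonpos_of_nonneg_of_nonpos (Nat.cast_nonneg _) h

/-- Row Z5-N5. A fixed algebraic number which is not a root of unity has height bounded below in all extensions. Suppose first some `τ : F →+* ℂ` has `‖τ g‖ > 1`: the `σ : K →+* ℂ` over `τ` are
`[K:F]` many (`AlgHom.card` for the algebra structure `τ`), so `hh ≥ [K:F] log ‖τ g‖`. If all `‖τ g‖ ≤ 1` and `g` is integral then `g` is a root of unity (Kronecker,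
`NumberField.Embeddings.pow_eq_one_of_norm_le_one` or `pow_eq_one_of_norm_eq_one`; `g ≠ 0`). Otherwise `g` is not integral. (Proof here by the box principle instead of the class group: `n5_main`.) -/
theorem hh_lower {F : Type} [Field F] [NumberField F] (g : F) (hg0 : g ≠ 0) (hg : ∀ n : ℕ, 0 < n → g ^ n ≠ 1) :
    ∃ c : ℝ, 0 < c ∧ ∀ (K : Type) [Field K] [NumberField K] [Algebra F K],
      c * Module.finrank ℚ K ≤ hh (algebraMap F K g) := by
  by_cases hτ : ∃ τ : F →+* ℂ, 1 < ‖τ g‖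
  · obtain ⟨τ, hτ⟩ := hτ
    obtain ⟨m, hm⟩ := pow_unbounded_of_one_lt 2 hτ
    have hm0 : m ≠ 0 := by
      rintro rfl
      norm_num at hm
    obtain ⟨c, hc, h⟩ := n5_main (g ^ m) (pow_ne_zero _ hg0) (by
      intro n f hf hf1 hf2
      obtain ⟨Q, hQ, hQ0, hQ1⟩ := n5_poly _ n f hf hf1 hf2
      have hr : (Q.map (Int.castRingHom ℂ)).IsRoot (τ (g ^ m)) := by
        have e : τ (Polynomial.aeval (g ^ m) Q) = (Q.map (Int.castRingHom ℂ)).eval (τ (g ^ m)) := by
          rw [Polynomial.aeval_def, Polynomial.hom_eval₂, Polynomial.eval_map]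
          congr 1
          exact RingHom.ext_int _ _
        rw [Polynomial.IsRoot, ← e, hQ0, map_zero]
      have h1 := hr.norm_lt_cauchyBound (hQ.map _).ne_zero
      have h2 : Polynomial.cauchyBound (Q.map (Int.castRingHom ℂ)) ≤ 2 := by
        unfold Polynomial.cauchyBound
        rw [(hQ.map (Int.castRingHom ℂ)).leadingCoeff, nnnorm_one, div_one]
        have h3 : Finset.sup (Finset.range (Q.map (Int.castRingHom ℂ)).natDegree)
            (fun i => ‖(Q.map (Int.castRingHom ℂ)).coeff i‖₊) ≤ 1 := by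
          refine Finset.sup_le fun i _ => ?_
          rw [Polynomial.coeff_map, ← NNReal.coe_le_coe]
          simp only [eq_intCast, coe_nnnorm, Complex.norm_intCast, NNReal.coe_one]
          exact_mod_cast hQ1 i
        calc _ ≤ (1 : NNReal) + 1 := add_le_add h3 le_rfl
          _ = 2 := by norm_num
      have h3 : ‖τ (g ^ m)‖ < 2 := by
        have h4 := h1.trans_le h2
        exact_mod_cast h4
      rw [map_pow, norm_pow] at h3
      linarith)
    refine ⟨c / m, by positivity, ?_⟩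
    intro K _ _ _
    have h2 := h K
    rw [map_pow, n5_hh_pow] at h2
    have hm1 : (0 : ℝ) < m := by positivity
    rw [div_mul_eq_mul_div, div_le_iff₀ hm1]
    linarith
  · push Not at hτ
    refine n5_main g hg0 ?_
    intro n f hf hf1 hf2
    obtain ⟨Q, hQ, hQ0, -⟩ := n5_poly _ n f hf hf1 hf2
    have hint : IsIntegral ℤ g := ⟨Q, hQ, by rwa [← Polynomial.aeval_def]⟩
    obtain ⟨n, hn, hn1⟩ := NumberField.Embeddings.pow_eq_one_of_norm_le_one F ℂ hg0 hint hτ
    exact hg n hn hn1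

end Pool.Agent.Z5
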