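import Pool.Agent.Z5.Defs

namespace Pool.Agent.Z5

open Pool.Agent.ZL2 Filter Topology Polynomial

/-- The product of all `X - d_j`. -/
noncomputable def r1_P (d : Fin 3 → ℂ) : Polynomial ℂ := ∏ j, (X - C (d j))

/-- The product of the `X - d_j`, `j ≠ i`. -/
noncomputable def r1_Q (d : Fin 3 → ℂ) (i : Fin 3) : Polynomial ℂ := ∏ j ∈ Finset.univ.erase i, (X - C (d j))

/-- The numerator of `∑ μ_i / (X - d_i)`. -/
noncomputable def r1_S (d : Fin 3 → ℂ) (μ : Fin 3 → ℂ) : Polynomial ℂ := ∑ i, C (μ i) * r1_Q d i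

theorem r1_P_eq (d : Fin 3 → ℂ) (i : Fin 3) : r1_P d = (X - C (d i)) * r1_Q d i :=
  (Finset.mul_prod_erase Finset.univ (fun j => (X - C (d j))) (Finset.mem_univ i)).symm

theorem r1_P_eval (d : Fin 3 → ℂ) (t : ℂ) : (r1_P d).eval t = ∏ j, (t - d j) := by
  unfold r1_P
  rw [eval_prod]
  exact Finset.prod_congr rfl fun j _ => by simp

theorem r1_P_ne {d : Fin 3 → ℂ} {t : ℂ} (h : ∀ i, t ≠ d i) : (r1_P d).eval t ≠ 0 := by
  rw [r1_P_eval]
  exact Finset.prod_ne_zero_iff.2 fun i _ => sub_ne_zero.2 (h i)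

theorem r1_P_ne0 (d : Fin 3 → ℂ) : r1_P d ≠ 0 :=
  Finset.prod_ne_zero_iff.2 fun _ _ => X_sub_C_ne_zero _

theorem r1_Q_ne {d : Fin 3 → ℂ} (hd : Function.Injective d) (i : Fin 3) : (r1_Q d i).eval (d i) ≠ 0 := by
  unfold r1_Q
  rw [eval_prod]
  refine Finset.prod_ne_zero_iff.2 fun j hj => ?_
  rw [eval_sub, eval_X, eval_C]
  exact sub_ne_zero.2 fun h => (Finset.ne_of_mem_erase hj) (hd h).symm

theorem r1_Q_zero (d : Fin 3 → ℂ) {i j : Fin 3} (h : j ≠ i) : (r1_Q d j).eval (d i) = 0 := by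
  unfold r1_Q
  rw [eval_prod]
  refine Finset.prod_eq_zero (Finset.mem_erase.2 ⟨Ne.symm h, Finset.mem_univ i⟩) ?_
  simp

theorem r1_S_at (d : Fin 3 → ℂ) (μ : Fin 3 → ℂ) (i : Fin 3) :
    (r1_S d μ).eval (d i) = μ i * (r1_Q d i).eval (d i) := by
  unfold r1_S
  rw [eval_finsetSum, Finset.sum_eq_single i]
  · rw [eval_mul, eval_C]
  · intro j _ hj
    rw [eval_mul, r1_Q_zero d hj, mul_zero]
  · intro h
    exact absurd (Finset.mem_univ i) h

theorem r1_S_eval {d : Fin 3 → ℂ} (μ : Fin 3 → ℂ) {t : ℂ} (h : ∀ i, t ≠ d i) :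
    (r1_S d μ).eval t = (r1_P d).eval t * ∑ i, μ i / (t - d i) := by
  unfold r1_S
  rw [eval_finsetSum, Finset.mul_sum]
  refine Finset.sum_congr rfl fun i _ => ?_
  have h1 : t - d i ≠ 0 := sub_ne_zero.2 (h i)
  rw [eval_mul, eval_C, r1_P_eq d i, eval_mul, eval_sub, eval_X, eval_C]
  field_simp

theorem r1_ball_inf (t0 : ℂ) {ρ : ℝ} (hρ : 0 < ρ) : (Metric.ball t0 ρ).Infinite :=
  infinite_of_mem_nhds t0 (Metric.ball_mem_nhds t0 hρ)

theorem r1_poly_eq {p q : Polynomial ℂ} {t0 : ℂ} {ρ : ℝ} (hρ : 0 < ρ)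
    (h : ∀ t ∈ Metric.ball t0 ρ, p.eval t = q.eval t) : p = q :=
  eq_of_infinite_eval_eq p q ((r1_ball_inf t0 hρ).mono fun t ht => h t ht)

theorem r1_der (r : ℂ) (n : ℕ) (q : Polynomial ℂ) :
    derivative ((X - C r) ^ n * q) * (X - C r) =
      (X - C r) ^ n * ((n : Polynomial ℂ) * q + (X - C r) * derivative q) := by
  cases n with
  | zero => simp; ring
  | succ n =>
    rw [derivative_mul, derivative_X_sub_C_pow]
    simp only [Nat.add_sub_cancel, map_natCast]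
    ring

theorem r1_mult {d : Fin 3 → ℂ} (hd : Function.Injective d) {N D : Polynomial ℂ} (hN : N ≠ 0) (hD : D ≠ 0)
    {μ : Fin 3 → ℂ}
    (h : (derivative N * D - N * derivative D) * r1_P d = r1_S d μ * (N * D)) (r : ℂ) :
    ((∀ i, r ≠ d i) → N.rootMultiplicity r = D.rootMultiplicity r) ∧
      ∀ i, r = d i → μ i = (N.rootMultiplicity r : ℂ) - D.rootMultiplicity r := by
  obtain ⟨N1, hN1, hN2⟩ := exists_eq_pow_rootMultiplicity_mul_and_not_dvd N hN r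
  obtain ⟨D1, hD1, hD2⟩ := exists_eq_pow_rootMultiplicity_mul_and_not_dvd D hD r
  generalize N.rootMultiplicity r = n at *
  generalize D.rootMultiplicity r = e at *
  rw [dvd_iff_isRoot, IsRoot.def] at hN2 hD2
  have hZ : (X - C r : Polynomial ℂ) ≠ 0 := X_sub_C_ne_zero r
  have h1 := r1_der r n N1
  have h2 := r1_der r e D1
  rw [← hN1] at h1
  rw [← hD1] at h2
  have h3 : ((X - C r : Polynomial ℂ) ^ (n + e)) *
      ((((n : Polynomial ℂ) - (e : Polynomial ℂ)) * (N1 * D1) +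
        (X - C r) * (derivative N1 * D1 - N1 * derivative D1)) * r1_P d) =
      ((X - C r : Polynomial ℂ) ^ (n + e)) * ((X - C r) * (r1_S d μ * (N1 * D1))) := by
    have h4 : (X - C r) * ((derivative N * D - N * derivative D) * r1_P d) =
        (X - C r) * (r1_S d μ * (N * D)) := by rw [h]
    have h5 : (X - C r) * ((derivative N * D - N * derivative D) * r1_P d) =
        ((derivative N * (X - C r)) * D - N * (derivative D * (X - C r))) * r1_P d := by ring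
    rw [h5, h1, h2] at h4
    calc _ = ((X - C r) ^ n * ((n : Polynomial ℂ) * N1 + (X - C r) * derivative N1) * ((X - C r) ^ e * D1) -
          ((X - C r) ^ n * N1) * ((X - C r) ^ e * ((e : Polynomial ℂ) * D1 + (X - C r) * derivative D1))) *
            r1_P d := by ring
      _ = (X - C r) * (r1_S d μ * (((X - C r) ^ n * N1) * ((X - C r) ^ e * D1))) := by
          rw [← hN1, ← hD1]; exact h4
      _ = _ := by ring
  have h6 := mul_left_cancel₀ (pow_ne_zero _ hZ) h3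
  refine ⟨fun hr => ?_, fun i hi => ?_⟩
  · have h7 := congrArg (eval r) h6
    simp only [eval_mul, eval_add, eval_sub, eval_X, eval_C, sub_self, zero_mul, add_zero, eval_natCast] at h7
    have h8 := mul_eq_zero.1 h7
    rcases h8 with h8 | h8
    · rcases mul_eq_zero.1 h8 with h9 | h9
      · exact_mod_cast sub_eq_zero.1 h9
      · exact absurd h9 (mul_ne_zero hN2 hD2)
    · exact absurd h8 (r1_P_ne hr)
  · rw [r1_P_eq d i, ← hi] at h6
    have h7 : (X - C r) * ((((n : Polynomial ℂ) - (e : Polynomial ℂ)) * (N1 * D1) +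
        (X - C r) * (derivative N1 * D1 - N1 * derivative D1)) * r1_Q d i) =
        (X - C r) * (r1_S d μ * (N1 * D1)) := by rw [← h6]; ring
    have h8 := congrArg (eval r) (mul_left_cancel₀ hZ h7)
    simp only [eval_mul, eval_add, eval_sub, eval_X, eval_C, sub_self, zero_mul, add_zero, eval_natCast] at h8
    rw [hi, r1_S_at, ← hi] at h8
    have h9 : (r1_Q d i).eval r ≠ 0 := by rw [hi]; exact r1_Q_ne hd i
    have h10 : eval r N1 * eval r D1 * (r1_Q d i).eval r ≠ 0 := mul_ne_zero (mul_ne_zero hN2 hD2) h9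
    have h11 : (μ i - ((n : ℂ) - e)) * (eval r N1 * eval r D1 * (r1_Q d i).eval r) = 0 := by
      linear_combination -h8
    rcases mul_eq_zero.1 h11 with h12 | h12
    · exact sub_eq_zero.1 h12
    · exact absurd h12 h10

theorem r1_count (d : Fin 3 → ℂ) (n : Fin 3 → ℕ) {p : Polynomial ℂ} (hp : p ≠ 0) (r : ℂ) :
    (p * ∏ i, (X - C (d i)) ^ n i).roots.count r =
      p.rootMultiplicity r + ∑ i, if r = d i then n i else 0 := by
  classical
  have h0 : ∀ i, ((X - C (d i)) ^ n i : Polynomial ℂ) ≠ 0 := fun i => pow_ne_zero _ (X_sub_C_ne_zero _)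
  have h1 : (p * ∏ i, (X - C (d i)) ^ n i) ≠ 0 := mul_ne_zero hp (Finset.prod_ne_zero_iff.2 fun i _ => h0 i)
  rw [roots_mul h1, Multiset.count_add, count_roots]
  congr 1
  rw [Fin.prod_univ_three, Fin.sum_univ_three, roots_mul (mul_ne_zero (mul_ne_zero (h0 0) (h0 1)) (h0 2)),
    roots_mul (mul_ne_zero (h0 0) (h0 1))]
  simp only [roots_pow, roots_X_sub_C, Multiset.count_add, Multiset.count_nsmul, Multiset.count_singleton]
  simp

theorem r1_eq_of_roots {p q : Polynomial ℂ} (hp : p ≠ 0) (hq : q ≠ 0) (h : p.roots = q.roots) :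
    ∃ g : ℂ, g ≠ 0 ∧ p = C g * q := by
  have h1 := (IsAlgClosed.splits p).eq_prod_roots
  have h2 := (IsAlgClosed.splits q).eq_prod_roots
  refine ⟨p.leadingCoeff / q.leadingCoeff, div_ne_zero (leadingCoeff_ne_zero.2 hp) (leadingCoeff_ne_zero.2 hq), ?_⟩
  have h3 : q.leadingCoeff ≠ 0 := leadingCoeff_ne_zero.2 hq
  have h4 : C (p.leadingCoeff / q.leadingCoeff) * (C q.leadingCoeff * (Multiset.map (fun x => X - C x) q.roots).prod) =
      C p.leadingCoeff * (Multiset.map (fun x => X - C x) p.roots).prod := by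
    rw [← mul_assoc, ← C_mul, div_mul_cancel₀ _ h3, h]
  rw [← h2, ← h1] at h4
  exact h4.symm

theorem r1_ratfun {d : Fin 3 → ℂ} (hd : Function.Injective d) {N D : Polynomial ℂ} (hN : N ≠ 0) (hD : D ≠ 0)
    {μ : Fin 3 → ℂ}
    (h : (derivative N * D - N * derivative D) * r1_P d = r1_S d μ * (N * D)) :
    ∃ (m : Fin 3 → ℤ) (g : ℂ), g ≠ 0 ∧ (∀ i, μ i = m i) ∧
      ∀ t, (∀ i, t ≠ d i) → N.eval t = g * D.eval t * ∏ i, (t - d i) ^ m i := by
  classical
  have hm := r1_mult hd hN hD h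
  set a : Fin 3 → ℕ := fun i => D.rootMultiplicity (d i) with ha
  set b : Fin 3 → ℕ := fun i => N.rootMultiplicity (d i) with hb
  have h0 : ∀ (n : Fin 3 → ℕ) i, ((X - C (d i)) ^ n i : Polynomial ℂ) ≠ 0 :=
    fun n i => pow_ne_zero _ (X_sub_C_ne_zero _)
  have hW : (N * ∏ i, (X - C (d i)) ^ a i) ≠ 0 :=
    mul_ne_zero hN (Finset.prod_ne_zero_iff.2 fun i _ => h0 a i)
  have hV : (D * ∏ i, (X - C (d i)) ^ b i) ≠ 0 :=
    mul_ne_zero hD (Finset.prod_ne_zero_iff.2 fun i _ => h0 b i)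
  have hr : (N * ∏ i, (X - C (d i)) ^ a i).roots = (D * ∏ i, (X - C (d i)) ^ b i).roots := by
    refine Multiset.ext.2 fun r => ?_
    rw [r1_count d a hN, r1_count d b hD]
    by_cases hrd : ∀ i, r ≠ d i
    · rw [(hm r).1 hrd, Finset.sum_eq_zero fun i _ => if_neg (hrd i),
        Finset.sum_eq_zero fun i _ => if_neg (hrd i)]
    · push Not at hrd
      obtain ⟨i, rfl⟩ := hrd
      have h1 : ∀ n : Fin 3 → ℕ, (∑ j, if d i = d j then n j else 0) = n i := by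
        intro n
        rw [Finset.sum_eq_single i]
        · rw [if_pos rfl]
        · intro j _ hj
          rw [if_neg fun h => hj (hd h).symm]
        · intro h
          exact absurd (Finset.mem_univ i) h
      rw [h1, h1]
      show N.rootMultiplicity (d i) + D.rootMultiplicity (d i) = _
      rw [add_comm]
  obtain ⟨g, hg, hgW⟩ := r1_eq_of_roots hW hV hr
  refine ⟨fun i => (b i : ℤ) - a i, g, hg, fun i => ?_, fun t ht => ?_⟩
  · rw [(hm (d i)).2 i rfl]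
    push_cast
    rfl
  · have h1 := congrArg (eval t) hgW
    simp only [eval_mul, eval_prod, eval_pow, eval_sub, eval_X, eval_C] at h1
    have h2 : ∏ i, (t - d i) ^ ((b i : ℤ) - a i) = (∏ i, (t - d i) ^ b i) / ∏ i, (t - d i) ^ a i := by
      rw [← Finset.prod_div_distrib]
      refine Finset.prod_congr rfl fun i _ => ?_
      rw [zpow_sub₀ (sub_ne_zero.2 (ht i)), zpow_natCast, zpow_natCast]
    have h3 : (∏ i, (t - d i) ^ a i) ≠ 0 :=
      Finset.prod_ne_zero_iff.2 fun i _ => pow_ne_zero _ (sub_ne_zero.2 (ht i))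
    rw [h2, mul_div_assoc', eq_div_iff h3, h1]
    ring

/-- Row Z5-R1a. Partial fractions: `N, D ≠ 0` polynomials, `N' D - N D' = (∑ μ_i / (X - d_i)) N D` as an identity on a ball. Then `μ_i = m_i` are integers and `N ∏ (X - d_i)^(m_i^-) = g D ∏ (X - d_i)^(m_i^+)` for a constant `g ≠ 0`. Proof: `N = a ∏ (X - r)`,
`N'/N = ∑_r n_r / (X - r)` over the roots with multiplicities; the functions `1 / (X - r)` for different `r` are independent (compare the poles), so for every `r` not among the `d_i` the multiplicities in `N` and `D` agree and `μ_i = mult_{d_i} N - mult_{d_i} D`. -/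
theorem ratfun {d : Fin 3 → ℂ} (hd : Function.Injective d) {N D : Polynomial ℂ} (hN : N ≠ 0) (hD : D ≠ 0)
    {μ : Fin 3 → ℝ} {t0 : ℂ} {ρ : ℝ} (hρ : 0 < ρ)
    (h : ∀ t ∈ Metric.ball t0 ρ, (∀ i, t ≠ d i) ∧
      (derivative N).eval t * D.eval t - N.eval t * (derivative D).eval t =
        (∑ i, (μ i : ℂ) / (t - d i)) * (N.eval t * D.eval t)) :
    ∃ (m : Fin 3 → ℤ) (g : ℂ), g ≠ 0 ∧ (∀ i, μ i = m i) ∧
      ∀ t, (∀ i, t ≠ d i) → N.eval t = g * D.eval t * ∏ i, (t - d i) ^ m i := by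
  have h1 : (derivative N * D - N * derivative D) * r1_P d = r1_S d (fun i => (μ i : ℂ)) * (N * D) := by
    refine r1_poly_eq (t0 := t0) hρ fun t ht => ?_
    obtain ⟨h2, h3⟩ := h t ht
    rw [eval_mul, eval_sub, eval_mul, eval_mul, h3, eval_mul, r1_S_eval _ h2, eval_mul]
    ring
  obtain ⟨m, g, hg, hm, h2⟩ := r1_ratfun hd hN hD h1
  exact ⟨m, g, hg, fun i => by exact_mod_cast hm i, h2⟩

theorem r1_S_zero {d : Fin 3 → ℂ} (hd : Function.Injective d) {μ : Fin 3 → ℂ} (h : r1_S d μ = 0) (i : Fin 3) :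
    μ i = 0 := by
  have h1 := r1_S_at d μ i
  rw [h, eval_zero] at h1
  exact (mul_eq_zero.1 h1.symm).resolve_right (r1_Q_ne hd i)

theorem r1_ne_ev {D : Polynomial ℂ} (hD : D ≠ 0) (t : ℂ) : ∀ᶠ s in 𝓝[≠] t, D.eval s ≠ 0 := by
  have h1 : {x | IsRoot D x}.Finite := finite_setOfPred_isRoot hD
  have h2 : ({x | IsRoot D x} \ {t}).Finite := h1.subset Set.sdiff_subset
  have h3 : ({x | IsRoot D x} \ {t})ᶜ ∈ 𝓝 t := h2.isClosed.isOpen_compl.mem_nhds fun h => h.2 rfl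
  filter_upwards [mem_nhdsWithin_of_mem_nhds h3, self_mem_nhdsWithin] with s hs1 hs2 hs3
  exact hs1 ⟨hs3, hs2⟩

theorem r1_cont {d : Fin 3 → ℂ} (m : Fin 3 → ℤ) (g : ℂ) {t : ℂ} (h : ∀ i, t ≠ d i) :
    ContinuousAt (fun t => g * ∏ i, (t - d i) ^ m i) t := by
  simp only [Fin.prod_univ_three]
  have h1 : ∀ i, ContinuousAt (fun t => (t - d i) ^ m i) t := fun i =>
    ContinuousAt.zpow₀ (continuousAt_id.sub continuousAt_const) _ (Or.inl (sub_ne_zero.2 (h i)))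
  exact continuousAt_const.mul (((h1 0).mul (h1 1)).mul (h1 2))

/-- One of the two functions. -/
theorem r1_one {d : Fin 3 → ℂ} (hd : Function.Injective d) {μ : Fin 3 → ℝ} {t0 : ℂ} {ρ : ℝ} (hρ : 0 < ρ)
    {ξ : ℂ → ℂ} (hξ : DifferentiableOn ℂ ξ (Metric.ball t0 ρ))
    (h : ∀ t ∈ Metric.ball t0 ρ, (∀ i, t ≠ d i) ∧ ξ t ≠ 0 ∧ deriv ξ t = (∑ i, (μ i : ℂ) / (t - d i)) * ξ t)
    {N D : Polynomial ℂ} (hD : D ≠ 0) (hND : ∀ t ∈ Metric.ball t0 ρ, ξ t * D.eval t = N.eval t) :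
    ∃ (m : Fin 3 → ℤ) (g : ℂ), g ≠ 0 ∧ (∀ i, μ i = m i) ∧
      ∀ t ∈ Metric.ball t0 ρ, ξ t = g * ∏ i, (t - d i) ^ m i := by
  have hN : N ≠ 0 := by
    rintro rfl
    refine hD (r1_poly_eq (t0 := t0) hρ fun t ht => ?_)
    have h1 := hND t ht
    rw [eval_zero] at h1
    rw [eval_zero]
    exact (mul_eq_zero.1 h1).resolve_left (h t ht).2.1
  have hder : ∀ t ∈ Metric.ball t0 ρ,
      deriv ξ t * D.eval t + ξ t * (derivative D).eval t = (derivative N).eval t := by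
    intro t ht
    have h1 : HasDerivAt ξ (deriv ξ t) t :=
      (hξ.differentiableAt (Metric.isOpen_ball.mem_nhds ht)).hasDerivAt
    have h2 := h1.mul (D.hasDerivAt t)
    have h3 : (fun s => ξ s * D.eval s) =ᶠ[𝓝 t] fun s => N.eval s := by
      filter_upwards [Metric.isOpen_ball.mem_nhds ht] with s hs using hND s hs
    have h4 : HasDerivAt (fun s => N.eval s) (deriv ξ t * D.eval t + ξ t * (derivative D).eval t) t :=
      h2.congr_of_eventuallyEq h3.symm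
    exact h4.unique (N.hasDerivAt t)
  obtain ⟨m, g, hg, hm, h1⟩ := ratfun hd hN hD (μ := μ) (t0 := t0) hρ fun t ht => by
    obtain ⟨h2, -, h4⟩ := h t ht
    refine ⟨h2, ?_⟩
    rw [← hder t ht, ← hND t ht, h4]
    ring
  refine ⟨m, g, hg, hm, fun t ht => ?_⟩
  refine tendsto_nhds_unique_of_eventuallyEq (l := 𝓝[≠] t)
    ((hξ.differentiableAt (Metric.isOpen_ball.mem_nhds ht)).continuousAt.tendsto.mono_left nhdsWithin_le_nhds)
    ((r1_cont m g (h t ht).1).tendsto.mono_left nhdsWithin_le_nhds) ?_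
  filter_upwards [r1_ne_ev hD t, mem_nhdsWithin_of_mem_nhds (Metric.isOpen_ball.mem_nhds ht)] with s hs1 hs2
  have h5 := h1 s (h s hs2).1
  rw [← hND s hs2] at h5
  refine mul_right_cancel₀ hs1 ?_
  rw [h5]
  ring

/-- Row Z5-R1b. `λ_j = ∑ μ_ji / (t - d_i)`. From the two equations `ξ' = λ_0 ξ` and `- ξ' = λ_1 (1 - ξ)`: `ξ (λ_0 - λ_1) = - λ_1` on the ball. If `λ_0 = λ_1` on the ball then `λ_1 = 0`, so all `μ = 0` (simple fractions) and `ξ` is constant: `m = 0`. Otherwise `ξ D = N` with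
the polynomials `N = ∏ (X - d_i) λ_1`, `D = ∏ (X - d_i) (λ_1 - λ_0)`, `D ≠ 0`, `N ≠ 0` (`ξ ≠ 0`), and `ξ'/ξ = λ_0` gives the hypothesis of `ratfun` (on a smaller ball where `D ≠ 0`, then extend). The same for `1 - ξ = (D - N) / D` with `λ_1`
(`(1-ξ)'/(1-ξ) = λ_1`). -/
theorem ode {d : Fin 3 → ℂ} (hd : Function.Injective d) {μ : Fin 2 → Fin 3 → ℝ} {t0 : ℂ} {ρ : ℝ} (hρ : 0 < ρ)
    {ξ : ℂ → ℂ} (hξ : DifferentiableOn ℂ ξ (Metric.ball t0 ρ))
    (h : ∀ t ∈ Metric.ball t0 ρ, (∀ i, t ≠ d i) ∧ ξ t ≠ 0 ∧ ξ t ≠ 1 ∧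
      deriv ξ t / ξ t = ∑ i, (μ 0 i : ℂ) / (t - d i) ∧ - deriv ξ t / (1 - ξ t) = ∑ i, (μ 1 i : ℂ) / (t - d i)) :
    ∃ (m : Fin 2 → Fin 3 → ℤ) (g : Fin 2 → ℂ), (∀ j, g j ≠ 0) ∧ (∀ j i, μ j i = m j i) ∧
      ∀ t ∈ Metric.ball t0 ρ, ξ t = g 0 * ∏ i, (t - d i) ^ m 0 i ∧ 1 - ξ t = g 1 * ∏ i, (t - d i) ^ m 1 i := by
  have e0 : ∀ t ∈ Metric.ball t0 ρ, deriv ξ t = (∑ i, (μ 0 i : ℂ) / (t - d i)) * ξ t := by
    intro t ht
    obtain ⟨-, h2, -, h4, -⟩ := h t ht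
    rw [← h4, div_mul_cancel₀ _ h2]
  have e1 : ∀ t ∈ Metric.ball t0 ρ, - deriv ξ t = (∑ i, (μ 1 i : ℂ) / (t - d i)) * (1 - ξ t) := by
    intro t ht
    obtain ⟨-, -, h3, -, h5⟩ := h t ht
    rw [← h5, div_mul_cancel₀ _ (sub_ne_zero.2 (Ne.symm h3))]
  have e2 : ∀ t ∈ Metric.ball t0 ρ,
      ξ t * (r1_S d (fun i => (μ 1 i : ℂ)) - r1_S d (fun i => (μ 0 i : ℂ))).eval t =
        (r1_S d (fun i => (μ 1 i : ℂ))).eval t := by
    intro t ht
    have h1 := e0 t ht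
    have h2 := e1 t ht
    rw [eval_sub, r1_S_eval _ (h t ht).1, r1_S_eval _ (h t ht).1]
    rw [h1] at h2
    linear_combination ((r1_P d).eval t) * h2
  by_cases hD : r1_S d (fun i => (μ 1 i : ℂ)) - r1_S d (fun i => (μ 0 i : ℂ)) = 0
  · have h1 : r1_S d (fun i => (μ 1 i : ℂ)) = 0 := r1_poly_eq (t0 := t0) hρ fun t ht => by
      rw [← e2 t ht, hD, eval_zero, mul_zero]
    have h0 : r1_S d (fun i => (μ 0 i : ℂ)) = 0 := by rw [h1, zero_sub, neg_eq_zero] at hD; exact hD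
    have m1 : ∀ i, μ 1 i = 0 := fun i => by exact_mod_cast r1_S_zero hd h1 i
    have m0 : ∀ i, μ 0 i = 0 := fun i => by exact_mod_cast r1_S_zero hd h0 i
    have hc : ∀ t ∈ Metric.ball t0 ρ, ξ t = ξ t0 := fun t ht =>
      Metric.isOpen_ball.is_const_of_deriv_eq_zero (convex_ball t0 ρ).isPreconnected hξ
        (fun s hs => by
          rw [e0 s hs]
          simp [m0]) ht (Metric.mem_ball_self hρ)
    have ht0 := h t0 (Metric.mem_ball_self hρ)
    refine ⟨fun _ _ => 0, ![ξ t0, 1 - ξ t0], ?_, ?_, ?_⟩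
    · rw [Fin.forall_fin_two]
      exact ⟨ht0.2.1, sub_ne_zero.2 (Ne.symm ht0.2.2.1)⟩
    · rw [Fin.forall_fin_two]
      exact ⟨fun i => by rw [m0 i]; simp, fun i => by rw [m1 i]; simp⟩
    · intro t ht
      rw [hc t ht]
      simp
  · obtain ⟨m0, g0, hg0, hm0, h0⟩ := r1_one hd (μ := μ 0) hρ hξ
      (fun t ht => ⟨(h t ht).1, (h t ht).2.1, e0 t ht⟩) hD e2
    have hξ1 : DifferentiableOn ℂ (fun t => 1 - ξ t) (Metric.ball t0 ρ) := (differentiableOn_const _).sub hξ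
    obtain ⟨m1, g1, hg1, hm1, h1⟩ := r1_one hd (μ := μ 1) hρ hξ1
      (fun t ht => by
        refine ⟨(h t ht).1, sub_ne_zero.2 (Ne.symm (h t ht).2.2.1), ?_⟩
        rw [deriv_const_sub, e1 t ht])
      (N := (r1_S d (fun i => (μ 1 i : ℂ)) - r1_S d (fun i => (μ 0 i : ℂ))) - r1_S d (fun i => (μ 1 i : ℂ)))
      hD (fun t ht => by
        rw [eval_sub (r1_S d (fun i => (μ 1 i : ℂ)) - r1_S d (fun i => (μ 0 i : ℂ))), ← e2 t ht]
        ring)
    refine ⟨![m0, m1], ![g0, g1], ?_, ?_, ?_⟩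
    · rw [Fin.forall_fin_two]
      exact ⟨hg0, hg1⟩
    · rw [Fin.forall_fin_two]
      exact ⟨hm0, hm1⟩
    · intro t ht
      exact ⟨h0 t ht, h1 t ht⟩

theorem r1_poly (d : Fin 3 → ℂ) (m : Fin 2 → Fin 3 → ℤ) (c : Fin 3 → ℂ) :
    ∃ (Q : Polynomial ℂ) (K : ℕ), ∀ t, (∀ i, t ≠ d i) → Q.eval t =
      (∏ i, (t - d i) ^ K) * (c 0 * ∏ i, (t - d i) ^ m 0 i + c 1 * ∏ i, (t - d i) ^ m 1 i + c 2) := by
  set K : ℕ := ∑ j, ∑ i, (m j i).natAbs with hK
  have hK1 : ∀ j i, 0 ≤ m j i + K := by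
    intro j i
    have h1 : (m j i).natAbs ≤ ∑ i, (m j i).natAbs :=
      Finset.single_le_sum (f := fun i => (m j i).natAbs) (fun _ _ => Nat.zero_le _) (Finset.mem_univ i)
    have h2 : (∑ i, (m j i).natAbs) ≤ K :=
      Finset.single_le_sum (f := fun j => ∑ i, (m j i).natAbs) (fun _ _ => Nat.zero_le _) (Finset.mem_univ j)
    omega
  have hp : ∀ j t, (∀ i, t ≠ d i) → ∏ i, (t - d i) ^ (m j i + K).toNat =
      (∏ i, (t - d i) ^ K) * ∏ i, (t - d i) ^ m j i := by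
    intro j t ht
    rw [← Finset.prod_mul_distrib]
    refine Finset.prod_congr rfl fun i _ => ?_
    rw [← zpow_natCast, Int.toNat_of_nonneg (hK1 j i), zpow_add₀ (sub_ne_zero.2 (ht i)), zpow_natCast, mul_comm]
  refine ⟨C (c 0) * ∏ i, (X - C (d i)) ^ (m 0 i + K).toNat + C (c 1) * ∏ i, (X - C (d i)) ^ (m 1 i + K).toNat +
    C (c 2) * ∏ i, (X - C (d i)) ^ K, K, fun t ht => ?_⟩
  simp only [eval_add, eval_mul, eval_C, eval_prod, eval_pow, eval_sub, eval_X]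
  rw [hp 0 t ht, hp 1 t ht]
  ring

theorem r1_ident (d : Fin 3 → ℂ) (m : Fin 2 → Fin 3 → ℤ) (c : Fin 3 → ℂ) {s : Set ℂ} (hs : s.Infinite)
    (h : ∀ t ∈ s, (∀ i, t ≠ d i) ∧ c 0 * ∏ i, (t - d i) ^ m 0 i + c 1 * ∏ i, (t - d i) ^ m 1 i + c 2 = 0) :
    ∀ t, (∀ i, t ≠ d i) → c 0 * ∏ i, (t - d i) ^ m 0 i + c 1 * ∏ i, (t - d i) ^ m 1 i + c 2 = 0 := by
  obtain ⟨Q, K, hQ⟩ := r1_poly d m c
  have hQ0 : Q = 0 := by
    refine eq_of_infinite_eval_eq Q 0 (hs.mono fun t ht => ?_)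
    show eval t Q = eval t 0
    rw [hQ t (h t ht).1, (h t ht).2, mul_zero, eval_zero]
  intro t ht
  have h1 := hQ t ht
  rw [hQ0, eval_zero] at h1
  exact (mul_eq_zero.1 h1.symm).resolve_left
    (Finset.prod_ne_zero_iff.2 fun i _ => pow_ne_zero _ (sub_ne_zero.2 (ht i)))

theorem r1_inf (d : Fin 3 → ℂ) : {t : ℂ | (∃ k : ℕ, t = k) ∧ ∀ i, t ≠ d i}.Infinite := by
  have h1 : (Set.range fun k : ℕ => (k : ℂ)).Infinite := Set.infinite_range_of_injective Nat.cast_injective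
  have h2 : (Set.range d).Finite := Set.finite_range d
  refine (h1.sdiff h2).mono ?_
  rintro _ ⟨⟨k, rfl⟩, hk⟩
  exact ⟨⟨k, rfl⟩, fun i hi => hk ⟨i, hi.symm⟩⟩

theorem r1_const {d : Fin 3 → ℂ} (hd : Function.Injective d) {m : Fin 3 → ℤ} {c : ℂ}
    (h : ∀ t, (∀ i, t ≠ d i) → ∏ i, (t - d i) ^ m i = c) : m = 0 := by
  classical
  obtain ⟨t1, -, ht1⟩ := (r1_inf d).nonempty
  have hc : c ≠ 0 := by
    rw [← h t1 ht1]
    exact Finset.prod_ne_zero_iff.2 fun i _ => zpow_ne_zero _ (sub_ne_zero.2 (ht1 i))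
  have h1 : (1 : Polynomial ℂ) * ∏ i, (X - C (d i)) ^ (m i).toNat = C c * ∏ i, (X - C (d i)) ^ (-m i).toNat := by
    refine eq_of_infinite_eval_eq _ _ ((r1_inf d).mono fun t ht => ?_)
    show eval t _ = eval t _
    simp only [eval_mul, eval_C, one_mul, eval_prod, eval_pow, eval_sub, eval_X]
    rw [← h t ht.2, ← Finset.prod_mul_distrib]
    refine Finset.prod_congr rfl fun i _ => ?_
    have h2 : t - d i ≠ 0 := sub_ne_zero.2 (ht.2 i)
    rw [← zpow_natCast, ← zpow_natCast, ← zpow_add₀ h2]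
    congr 1
    omega
  have hs : ∀ (n : Fin 3 → ℕ) i, (∑ j, if d i = d j then n j else 0) = n i := by
    intro n i
    rw [Finset.sum_eq_single i]
    · rw [if_pos rfl]
    · intro j _ hj
      rw [if_neg fun h => hj (hd h).symm]
    · intro h
      exact absurd (Finset.mem_univ i) h
  funext i
  have h2 := r1_count d (fun i => (m i).toNat) (one_ne_zero : (1 : Polynomial ℂ) ≠ 0) (d i)
  have h3 := r1_count d (fun i => (-m i).toNat) (C_ne_zero.2 hc) (d i)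
  rw [h1, h3, hs, hs] at h2
  have h4 : rootMultiplicity (d i) (C c) = 0 := by
    rw [← count_roots, roots_C, Multiset.count_zero]
  have h5 : rootMultiplicity (d i) (1 : Polynomial ℂ) = 0 := by
    rw [← count_roots, roots_one]
    exact Multiset.count_zero _
  rw [h4, h5] at h2
  show m i = 0
  omega

/-- Row Z5-R1c. The constants of an identity `g_0 ∏ (t - d_i)^(m_0i) + g_1 ∏ (t - d_i)^(m_1i) = 1` in `t` are in the field generated by the `d_i`, unless both functions are constant. `F` a subfield of `ℂ` (here: an algebra map `F → ℂ`) with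
`d i = algebraMap (d' i)`. If `m 0 ≠ 0` or `m 1 ≠ 0`: the functions `A = ∏ (t-d_i)^(m_0i)`, `B = ∏ (t - d_i)^(m_1i)` are not both constant, and from the identity they are linearly independent over `ℂ` (a relation `B = s A` gives `(g_0 + s g_1) A = 1`, both constant).
So there are two integers `t1, t2` (not among the `d_i`) with `A(t1) B(t2) ≠ A(t2) B(t1)` (otherwise the rational functions would be dependent, an identity at all large integers), and Cramer's rule gives `g_0, g_1 ∈ F`. The identity on a ball extends to all `t ≠ d_i` (rational functions). -/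
theorem const_mem {F : Type} [Field F] [Algebra F ℂ] {d' : Fin 3 → F} (hd : Function.Injective d')
    {m : Fin 2 → Fin 3 → ℤ} {g : Fin 2 → ℂ} {t0 : ℂ} {ρ : ℝ} (hρ : 0 < ρ)
    (h : ∀ t ∈ Metric.ball t0 ρ, (∀ i, t ≠ algebraMap F ℂ (d' i)) ∧
      g 0 * ∏ i, (t - algebraMap F ℂ (d' i)) ^ m 0 i + g 1 * ∏ i, (t - algebraMap F ℂ (d' i)) ^ m 1 i = 1)
    (hm : ¬ (m 0 = 0 ∧ m 1 = 0)) : ∃ g' : Fin 2 → F, ∀ j, g j = algebraMap F ℂ (g' j) := by
  classical
  set d : Fin 3 → ℂ := fun i => algebraMap F ℂ (d' i) with hdd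
  have hdi : Function.Injective d := (algebraMap F ℂ).injective.comp hd
  set A : Fin 2 → ℂ → ℂ := fun j t => ∏ i, (t - d i) ^ m j i with hA
  have hA0 : ∀ j t, (∀ i, t ≠ d i) → A j t ≠ 0 := fun j t ht =>
    Finset.prod_ne_zero_iff.2 fun i _ => zpow_ne_zero _ (sub_ne_zero.2 (ht i))
  have h1 : ∀ t, (∀ i, t ≠ d i) → g 0 * A 0 t + g 1 * A 1 t = 1 := by
    intro t ht
    have h2 := r1_ident d m ![g 0, g 1, -1] (r1_ball_inf t0 hρ) (fun t ht => ⟨(h t ht).1, by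
      have h3 := (h t ht).2
      show g 0 * ∏ i, (t - d i) ^ m 0 i + g 1 * ∏ i, (t - d i) ^ m 1 i + -1 = 0
      rw [h3]
      ring⟩) t ht
    have h4 : g 0 * A 0 t + g 1 * A 1 t + -1 = 0 := h2
    linear_combination h4
  obtain ⟨k1, k2, hk1, hk2, hdet⟩ : ∃ k1 k2 : ℕ, (∀ i, (k1 : ℂ) ≠ d i) ∧ (∀ i, (k2 : ℂ) ≠ d i) ∧
      A 0 k1 * A 1 k2 - A 0 k2 * A 1 k1 ≠ 0 := by
    by_contra hcon
    push Not at hcon
    obtain ⟨t1, ⟨k, rfl⟩, hk⟩ := (r1_inf d).nonempty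
    have h2 : ∀ t, (∀ i, t ≠ d i) → A 1 k * A 0 t + (-A 0 k) * A 1 t + 0 = 0 := by
      refine r1_ident d m ![A 1 k, -A 0 k, 0] (r1_inf d) ?_
      rintro t ⟨⟨l, rfl⟩, hl⟩
      refine ⟨hl, ?_⟩
      show A 1 k * A 0 l + (-A 0 k) * A 1 l + 0 = 0
      have h3 := hcon k l hk hl
      linear_combination -h3
    have h3 := h1 k hk
    have h4 : ∀ t, (∀ i, t ≠ d i) → A 0 t = A 0 k := by
      intro t ht
      have h5 := h1 t ht
      have h6 := h2 t ht
      linear_combination (-(A 0 t)) * h3 + (A 0 k) * h5 + g 1 * h6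
    have h5 : ∀ t, (∀ i, t ≠ d i) → A 1 t = A 1 k := by
      intro t ht
      have h5 := h1 t ht
      have h6 := h2 t ht
      linear_combination (-(A 1 t)) * h3 + (A 1 k) * h5 - g 0 * h6
    exact hm ⟨r1_const hdi h4, r1_const hdi h5⟩
  set a : Fin 2 → ℕ → F := fun j k => ∏ i, ((k : F) - d' i) ^ m j i with ha
  have hmap : ∀ j k, algebraMap F ℂ (a j k) = A j k := by
    intro j k
    show algebraMap F ℂ (∏ i, ((k : F) - d' i) ^ m j i) = ∏ i, ((k : ℂ) - algebraMap F ℂ (d' i)) ^ m j i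
    rw [map_prod]
    refine Finset.prod_congr rfl fun i _ => ?_
    rw [map_zpow₀, map_sub, map_natCast]
  have e1 := h1 k1 hk1
  have e2 := h1 k2 hk2
  refine ⟨![(a 1 k2 - a 1 k1) / (a 0 k1 * a 1 k2 - a 0 k2 * a 1 k1),
    (a 0 k1 - a 0 k2) / (a 0 k1 * a 1 k2 - a 0 k2 * a 1 k1)], ?_⟩
  rw [Fin.forall_fin_two]
  constructor
  · show g 0 = algebraMap F ℂ ((a 1 k2 - a 1 k1) / (a 0 k1 * a 1 k2 - a 0 k2 * a 1 k1))
    simp only [map_div₀, map_sub, map_mul, hmap]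
    rw [eq_div_iff hdet]
    linear_combination (A 1 k2) * e1 - (A 1 k1) * e2
  · show g 1 = algebraMap F ℂ ((a 0 k1 - a 0 k2) / (a 0 k1 * a 1 k2 - a 0 k2 * a 1 k1))
    simp only [map_div₀, map_sub, map_mul, hmap]
    rw [eq_div_iff hdet]
    linear_combination (A 0 k1) * e2 - (A 0 k2) * e1

end Pool.Agent.Z5
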