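import Pool.Agent.Z5.K0
import Pool.Agent.Z5.N5
import Pool.Agent.Z5.R1

namespace Pool.Agent.Z5

open Pool.Agent.ZL2 Filter Topology

variable {F : Type} [Field F] [NumberField F] [Algebra F ℂ] {a b : F} {c d : Fin 3 → F}

/-- Row Z5-E5a. A constant `g ∈ F` which is a monomial with exponents tending to zero is a root of unity. `|lv p g| ≤ ∑_i |w n i| |lv p (y i)|`, `hh g = Sm (max 0 (lv g)) ≤ ∑_i |w n i| Sm |lv (y i)| = 2 ∑_i |w n i| hh (y i) ≤ 2 A.B (∑_i |w n i|) [K:ℚ]`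
(`Sm_abs`, `Ar.hB`), and `hh_lower` (if `g` is not a root of unity) gives `c ≤ 2 A.B ∑ |w n i| → 0`. -/
theorem ArM.const_torsion (A : ArM F a b c d) {U : Filter ℕ} [U.NeBot] {g : F} (hg : g ≠ 0) {w : ℕ → Fin 3 → ℝ}
    (hw : Tendsto w U (𝓝 0))
    (h : ∀ᶠ n in U, ∀ p : Pl (A.K n), lv p (algebraMap F (A.K n) g) = ∑ i, w n i * lv p (A.y n i)) :
    ∃ k : ℕ, 0 < k ∧ g ^ k = 1 := by
  by_contra hcon
  push Not at hcon
  obtain ⟨C, hC, hl⟩ := hh_lower g hg hcon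
  have hsum : Tendsto (fun n => 2 * A.B * ∑ i, |w n i|) U (𝓝 0) := by
    have h1 : Tendsto (fun n => ∑ i, |w n i|) U (𝓝 (∑ i : Fin 3, |(0 : Fin 3 → ℝ) i|)) :=
      tendsto_finsetSum _ fun i _ => (tendsto_pi_nhds.1 hw i).abs
    have h2 := h1.const_mul (2 * A.B)
    simpa using h2
  obtain ⟨n, h1, h2⟩ := (h.and (hsum.eventually (gt_mem_nhds hC))).exists
  have hgK : algebraMap F (A.K n) g ≠ 0 := (map_ne_zero _).2 hg
  have hy := (A.hB.2 n (A.u n) (A.hu n) (A.r0 n)).1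
  have hD : (0 : ℝ) < Module.finrank ℚ (A.K n) := by exact_mod_cast Module.finrank_pos
  have h3 := hl (A.K n)
  have hFS : ∀ i ∈ (Finset.univ : Finset (Fin 3)), FS (fun p : Pl (A.K n) => |w n i| * |lv p (A.y n i)|) :=
    fun i _ => ((FS_lv (A.y_ne n i)).abs).smul _
  have h4 : hh (algebraMap F (A.K n) g) ≤ ∑ i, |w n i| * (2 * (A.B * Module.finrank ℚ (A.K n))) := by
    unfold hh
    refine (Sm_mono (FS_max0 hgK) (FS.sum Finset.univ hFS) (fun p => ?_)).trans ?_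
    · refine max_le (Finset.sum_nonneg fun i _ => by positivity) ?_
      rw [h1 p]
      refine Finset.sum_le_sum fun i _ => ?_
      rw [← abs_mul]
      exact le_abs_self _
    · rw [Sm_sum Finset.univ hFS]
      refine Finset.sum_le_sum fun i _ => ?_
      rw [Sm_smul, Sm_abs (A.y_ne n i)]
      exact mul_le_mul_of_nonneg_left (by linarith [hy i]) (abs_nonneg _)
  rw [← Finset.sum_mul] at h4
  have h5 : C * Module.finrank ℚ (A.K n) ≤ (2 * A.B * ∑ i, |w n i|) * Module.finrank ℚ (A.K n) := by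
    refine h3.trans (h4.trans (le_of_eq ?_))
    ring
  have h6 := le_of_mul_le_mul_right h5 hD
  linarith

/-- The computation for one of the two coordinates. -/
theorem e5_one (A : ArM F a b c d) {U : Ultrafilter ℕ} {u' : Fin 3 → ℝ} {M' : Fin 2 → Fin 3 → ℝ}
    (hu' : Tendsto A.u (U : Filter ℕ) (𝓝 u')) (hM' : Tendsto A.M (U : Filter ℕ) (𝓝 M')) {κ : ℝ} (j : Fin 2)
    {Z : ∀ n, A.K n} {e : F} (he : e ≠ 0)
    (hr : ∀ n (p : Pl (A.K n)), lv p (Z n) = ∑ i, A.M n j i * lv p (A.y n i) + lv p (algebraMap F (A.K n) e))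
    {m : Fin 3 → ℤ} {g' : F} (hg' : g' ≠ 0) (hm : ∀ i, M' j i + κ * u' i = m i)
    (hZ : ∀ᶠ n in (U : Filter ℕ), Z n = algebraMap F (A.K n) g' *
      ∏ i, (A.t n - algebraMap F (A.K n) (d i)) ^ m i) :
    ∃ k : ℕ, 0 < k ∧ ∀ᶠ n in (U : Filter ℕ),
      (Z n / algebraMap F (A.K n) e * ∏ i, A.y n i ^ (- m i)) ^ k = 1 := by
  obtain ⟨γ, hγ⟩ : ∃ γ : F, γ = g' / (e * ∏ i, c i ^ m i) := ⟨_, rfl⟩
  have hcm : ∏ i, c i ^ m i ≠ 0 := Finset.prod_ne_zero_iff.2 fun i _ => zpow_ne_zero _ (A.hc i)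
  have hγ0 : γ ≠ 0 := by rw [hγ]; exact div_ne_zero hg' (mul_ne_zero he hcm)
  have h1 : ∀ᶠ n in (U : Filter ℕ), Z n / algebraMap F (A.K n) e * ∏ i, A.y n i ^ (- m i) =
      algebraMap F (A.K n) γ := by
    filter_upwards [hZ] with n hn
    have e1 : ∏ i, A.y n i ^ (- m i) = (∏ i, (algebraMap F (A.K n) (c i)) ^ m i)⁻¹ *
        (∏ i, (A.t n - algebraMap F (A.K n) (d i)) ^ m i)⁻¹ := by
      rw [← mul_inv, ← Finset.prod_mul_distrib, ← Finset.prod_inv_distrib]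
      refine Finset.prod_congr rfl fun i _ => ?_
      rw [zpow_neg, Ar.y, mul_zpow]
    have e2 : ∏ i, (A.t n - algebraMap F (A.K n) (d i)) ^ m i ≠ 0 :=
      Finset.prod_ne_zero_iff.2 fun i _ => zpow_ne_zero _ (sub_ne_zero.2 (A.ht n i))
    have e3 : ∏ i, (algebraMap F (A.K n) (c i)) ^ m i ≠ 0 :=
      Finset.prod_ne_zero_iff.2 fun i _ => zpow_ne_zero _ ((map_ne_zero _).2 (A.hc i))
    have e4 : algebraMap F (A.K n) e ≠ 0 := (map_ne_zero _).2 he
    rw [hn, e1, hγ, map_div₀, map_mul, map_prod]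
    simp only [map_zpow₀]
    field_simp
  have h2 : ∀ᶠ n in (U : Filter ℕ), ∀ p : Pl (A.K n), lv p (algebraMap F (A.K n) γ) =
      ∑ i, (A.M n j i - M' j i + κ * (A.u n i - u' i)) * lv p (A.y n i) := by
    filter_upwards [h1, hZ] with n hn hZn
    intro p
    have z1 : Z n ≠ 0 := by
      rw [hZn]
      exact mul_ne_zero ((map_ne_zero _).2 hg') (Finset.prod_ne_zero_iff.2 fun i _ =>
        zpow_ne_zero _ (sub_ne_zero.2 (A.ht n i)))
    have z2 : algebraMap F (A.K n) e ≠ 0 := (map_ne_zero _).2 he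
    have z3 : ∀ i, A.y n i ^ (- m i) ≠ 0 := fun i => zpow_ne_zero _ (A.y_ne n i)
    rw [← hn, Fin.prod_univ_three, div_eq_mul_inv, lv_mul p (mul_ne_zero z1 (inv_ne_zero z2))
      (mul_ne_zero (mul_ne_zero (z3 0) (z3 1)) (z3 2)), lv_mul p z1 (inv_ne_zero z2), lv_inv,
      lv_mul p (mul_ne_zero (z3 0) (z3 1)) (z3 2), lv_mul p (z3 0) (z3 1), lv_zpow, lv_zpow, lv_zpow, hr n p]
    have r := A.r0 n p
    have m0 := hm 0
    have m1 := hm 1
    have m2 := hm 2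
    rw [Fin.sum_univ_three] at r ⊢
    rw [Fin.sum_univ_three]
    push_cast
    rw [← m0, ← m1, ← m2]
    linear_combination (-κ) * r
  have h3 : Tendsto (fun n i => A.M n j i - M' j i + κ * (A.u n i - u' i)) (U : Filter ℕ) (𝓝 0) := by
    rw [tendsto_pi_nhds]
    intro i
    have q1 : Tendsto (fun n => A.M n j i) (U : Filter ℕ) (𝓝 (M' j i)) :=
      tendsto_pi_nhds.1 (tendsto_pi_nhds.1 hM' j) i
    have q2 : Tendsto (fun n => A.u n i) (U : Filter ℕ) (𝓝 (u' i)) := tendsto_pi_nhds.1 hu' i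
    have q3 := (q1.sub_const (M' j i)).add ((q2.sub_const (u' i)).const_mul κ)
    simpa using q3
  obtain ⟨k, hk, h4⟩ := A.const_torsion hγ0 h3 h2
  refine ⟨k, hk, ?_⟩
  filter_upwards [h1] with n hn
  rw [hn, ← map_pow, h4, map_one]

/-- Row Z5-E5b. The monomial identities. PROOF. `ode` (with `μ j i = M' j i + κ j * u' i`) gives integers `m` and constants `g`. (1) `g j = algebraMap F ℂ (g' j)` with `g' j ∈ F`: if `¬ (m 0 = 0 ∧ m 1 = 0)` by `const_mem` (add the two identities `ξ + (1 - ξ) = 1`). If `m 0 = m 1 = 0` then `ξ = g 0`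
is constant; for eventually all `n` there is `σ` with `σ (A.X n) = g 0`. If `n ↦ j n (X n)` is injective: all these `X n` are roots (via `j n`) of one polynomial over `F` (the minimal polynomial of `g 0` over `F`; `g 0` is algebraic, it is `σ (A.X n)`), finitely many, but infinitely many `n`
(`hU`): impossible. If all `A.X n = algebraMap F (A.K n) x` then `g 0 = algebraMap F ℂ x` and `g 1 = 1 - g 0`. (2) For eventually all `n` with the `σ` of `hs`: `σ (A.X n) = ξ (σ (A.t n)) = σ (algebraMap (g' 0) * ∏ i, (A.t n - algebraMap (d i)) ^ m 0 i)`, so by injectivity of `σ`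
`A.X n = algebraMap (g' 0) * ∏ i, (A.t n - algebraMap (d i)) ^ m 0 i` in `A.K n`, similarly `1 - A.X n`. So with `γ 0 = g' 0 / (a ∏ (c i) ^ m 0 i)`, `γ 1 = g' 1 / (b ∏ (c i) ^ m 1 i)` in `F`: `A.X n / a = γ 0 ∏ (A.y n i) ^ m 0 i`, `(1 - A.X n) / b = γ 1 ∏ (A.y n i) ^ m 1 i`.
(3) `lv p (γ j) = ∑_i (A.M n j i - m j i) lv p (y i)` by `r1, r2`, and `m j i = M' j i + κ j u' i`, `∑_i A.u n i lv p (y i) = 0` (`r0`): `lv p (γ j) = ∑_i w n i lv p (y i)` with `w n i = A.M n j i - M' j i + κ j (A.u n i - u' i) → 0`. `const_torsion` for `j = 0, 1`; `k` = the product of the two exponents. -/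
theorem ArM.end_beta (A : ArM F a b c d) {U : Ultrafilter ℕ} (hU : (U : Filter ℕ) ≤ cofinite)
    (hX : Function.Injective (fun n => A.j n (A.X n)) ∨ ∃ x : F, ∀ n, A.X n = algebraMap F (A.K n) x)
    {u' : Fin 3 → ℝ} {M' : Fin 2 → Fin 3 → ℝ} (hu' : Tendsto A.u (U : Filter ℕ) (𝓝 u'))
    (hM' : Tendsto A.M (U : Filter ℕ) (𝓝 M')) {κ : Fin 2 → ℝ} {t0 : ℂ} {ρ : ℝ} {ξ : ℂ → ℂ} (hρ : 0 < ρ)
    (hξ : DifferentiableOn ℂ ξ (Metric.ball t0 ρ))
    (hode : ∀ t ∈ Metric.ball t0 ρ, (∀ i, t ≠ algebraMap F ℂ (d i)) ∧ ξ t ≠ 0 ∧ ξ t ≠ 1 ∧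
        deriv ξ t / ξ t = ∑ i, ((M' 0 i + κ 0 * u' i : ℝ) : ℂ) / (t - algebraMap F ℂ (d i)) ∧
        - deriv ξ t / (1 - ξ t) = ∑ i, ((M' 1 i + κ 1 * u' i : ℝ) : ℂ) / (t - algebraMap F ℂ (d i)))
    (hs : ∀ᶠ n in (U : Filter ℕ), ∃ σ : A.K n →ₐ[F] ℂ, σ (A.t n) ∈ Metric.ball t0 ρ ∧ σ (A.X n) = ξ (σ (A.t n))) :
    ∃ (m : Fin 2 → Fin 3 → ℤ) (k : ℕ), 0 < k ∧ ∀ᶠ n in (U : Filter ℕ),
      (A.X n / algebraMap F (A.K n) a * ∏ i, A.y n i ^ (- m 0 i)) ^ k = 1 ∧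
      ((1 - A.X n) / algebraMap F (A.K n) b * ∏ i, A.y n i ^ (- m 1 i)) ^ k = 1 := by
  classical
  have hdC : Function.Injective (fun i => algebraMap F ℂ (d i)) := fun i l h =>
    A.hd ((algebraMap F ℂ).injective h)
  obtain ⟨m, g, hg0, hμ, hmg⟩ := ode (μ := fun j i => M' j i + κ j * u' i) hdC hρ hξ hode
  -- the constants are in F
  have hgF : ∃ g' : Fin 2 → F, ∀ j, g j = algebraMap F ℂ (g' j) := by
    by_cases hm0 : m 0 = 0 ∧ m 1 = 0
    · have hconst : ∀ t ∈ Metric.ball t0 ρ, ξ t = g 0 ∧ 1 - ξ t = g 1 := by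
        intro t ht
        have h1 := hmg t ht
        simp only [hm0.1, hm0.2, Pi.zero_apply, zpow_zero, Finset.prod_const_one, mul_one] at h1
        exact h1
      have hg01 : g 1 = 1 - g 0 := by
        have h1 := hconst t0 (Metric.mem_ball_self hρ)
        rw [← h1.1, ← h1.2]
      have hs2 : ∀ᶠ n in (U : Filter ℕ), ∃ σ : A.K n →ₐ[F] ℂ, σ (A.X n) = g 0 := by
        filter_upwards [hs] with n hn
        obtain ⟨σ, h1, h2⟩ := hn
        exact ⟨σ, by rw [h2, (hconst _ h1).1]⟩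
      rcases hX with hinj | ⟨x, hx⟩
      · exfalso
        obtain ⟨n0, σ0, h0⟩ := hs2.exists
        have hint : IsIntegral F (A.X n0) := Algebra.IsIntegral.isIntegral _
        have hP0 := minpoly.ne_zero hint
        have hroot : ∀ n, (∃ σ : A.K n →ₐ[F] ℂ, σ (A.X n) = g 0) →
            A.j n (A.X n) ∈ ((minpoly F (A.X n0)).rootSet ℂ) := by
          rintro n ⟨σ, hσ⟩
          rw [Polynomial.mem_rootSet]
          refine ⟨hP0, ?_⟩
          have e1 : Polynomial.aeval (g 0) (minpoly F (A.X n0)) = 0 := by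
            rw [← h0, Polynomial.aeval_algHom_apply, minpoly.aeval, map_zero]
          rw [← hσ, Polynomial.aeval_algHom_apply] at e1
          have e2 : Polynomial.aeval (A.X n) (minpoly F (A.X n0)) = 0 := by
            apply (σ : A.K n →+* ℂ).injective
            show σ _ = σ 0
            rw [e1, map_zero]
          rw [Polynomial.aeval_algHom_apply, e2, map_zero]
        have hfin : {n | ∃ σ : A.K n →ₐ[F] ℂ, σ (A.X n) = g 0}.Finite := by
          refine Set.Finite.of_finite_image (f := fun n => A.j n (A.X n)) ?_ hinj.injOn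
          refine (Polynomial.rootSet_finite (minpoly F (A.X n0)) ℂ).subset ?_
          rintro _ ⟨n, hn, rfl⟩
          exact hroot n hn
        have hc := hU hfin.compl_mem_cofinite
        obtain ⟨n, q1, q2⟩ := (hs2.and hc).exists
        exact q2 q1
      · obtain ⟨n, σ, hσ⟩ := hs2.exists
        rw [hx n, AlgHom.commutes] at hσ
        refine ⟨![x, 1 - x], fun j => ?_⟩
        match j with
        | 0 => exact hσ.symm
        | 1 =>
          show g 1 = algebraMap F ℂ (1 - x)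
          rw [hg01, ← hσ, map_sub, map_one]
    · exact const_mem A.hd hρ (fun t ht => ⟨(hode t ht).1, by
        rw [← (hmg t ht).1, ← (hmg t ht).2, add_sub_cancel]⟩) hm0
  obtain ⟨g', hg'⟩ := hgF
  have hg'0 : ∀ j, g' j ≠ 0 := by
    intro j h
    apply hg0 j
    rw [hg' j, h, map_zero]
  have hσmap : ∀ n (σ : A.K n →ₐ[F] ℂ) (x : F) (m : Fin 3 → ℤ), σ (algebraMap F (A.K n) x *
      ∏ i, (A.t n - algebraMap F (A.K n) (d i)) ^ m i) =
      algebraMap F ℂ x * ∏ i, (σ (A.t n) - algebraMap F ℂ (d i)) ^ m i := by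
    intro n σ x m
    rw [map_mul, map_prod, AlgHom.commutes]
    simp only [map_zpow₀, map_sub, AlgHom.commutes]
  have hZ0 : ∀ᶠ n in (U : Filter ℕ), A.X n = algebraMap F (A.K n) (g' 0) *
      ∏ i, (A.t n - algebraMap F (A.K n) (d i)) ^ m 0 i := by
    filter_upwards [hs] with n hn
    obtain ⟨σ, h1, h2⟩ := hn
    apply (σ : A.K n →+* ℂ).injective
    show σ (A.X n) = σ _
    rw [hσmap, h2, (hmg _ h1).1, hg' 0]
  have hZ1 : ∀ᶠ n in (U : Filter ℕ), 1 - A.X n = algebraMap F (A.K n) (g' 1) *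
      ∏ i, (A.t n - algebraMap F (A.K n) (d i)) ^ m 1 i := by
    filter_upwards [hs] with n hn
    obtain ⟨σ, h1, h2⟩ := hn
    apply (σ : A.K n →+* ℂ).injective
    show σ (1 - A.X n) = σ _
    rw [hσmap, map_sub, map_one, h2, (hmg _ h1).2, hg' 1]
  obtain ⟨k0, hk0, H0⟩ := e5_one A hu' hM' (κ := κ 0) 0 (Z := A.X) A.ha A.r1 (hg'0 0) (hμ 0) hZ0
  obtain ⟨k1, hk1, H1⟩ := e5_one A hu' hM' (κ := κ 1) 1 (Z := fun n => 1 - A.X n) A.hb A.r2 (hg'0 1) (hμ 1) hZ1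
  refine ⟨m, k0 * k1, Nat.mul_pos hk0 hk1, ?_⟩
  filter_upwards [H0, H1] with n q0 q1
  refine ⟨by rw [pow_mul, q0, one_pow], by rw [mul_comm k0 k1, pow_mul, q1, one_pow]⟩

end Pool.Agent.Z5
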