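import Pool.Agent.Z5.B3
import Pool.Agent.Z5.C1
import Pool.Agent.Z5.C2
import Pool.Agent.Z5.C3
import Pool.Agent.Z5.C5
import Pool.Agent.Z5.D2
import Pool.Agent.Z5.D3

namespace Pool.Agent.Z5

open Pool.Agent.ZL2 Filter Topology Polynomial

/-! Identity theorems on balls. -/

theorem w1_an {f : ℂ → ℂ} {t0 : ℂ} {ρ : ℝ} (hf : DifferentiableOn ℂ f (Metric.ball t0 ρ)) :
    AnalyticOnNhd ℂ f (Metric.ball t0 ρ) := hf.analyticOnNhd Metric.isOpen_ball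

theorem w1_pre (t0 : ℂ) (ρ : ℝ) : IsPreconnected (Metric.ball t0 ρ) := (convex_ball t0 ρ).isPreconnected

theorem w1_ident {f : ℂ → ℂ} {t0 : ℂ} {ρ : ℝ} (hρ : 0 < ρ) (hf : DifferentiableOn ℂ f (Metric.ball t0 ρ))
    (hacc : ∀ O ∈ 𝓝 t0, ∃ t ∈ O, t ≠ t0 ∧ f t = 0) : ∀ t ∈ Metric.ball t0 ρ, f t = 0 := by
  have h := (w1_an hf).eqOn_zero_of_preconnected_of_frequently_eq_zero (w1_pre t0 ρ)
    (Metric.mem_ball_self hρ) (by
      rw [Filter.frequently_iff]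
      intro V hV
      rw [mem_nhdsWithin_iff_exists_mem_nhds_inter] at hV
      obtain ⟨W, hW, hWV⟩ := hV
      obtain ⟨t, h1, h2, h3⟩ := hacc W hW
      exact ⟨t, hWV ⟨h1, h2⟩, h3⟩)
  exact fun t ht => h ht

theorem w1_ident2 {f : ℂ → ℂ} {t0 t1 : ℂ} {ρ r : ℝ} (hf : DifferentiableOn ℂ f (Metric.ball t0 ρ))
    (hr : 0 < r) (ht1 : t1 ∈ Metric.ball t0 ρ) (h : ∀ t ∈ Metric.ball t1 r, f t = 0) :
    ∀ t ∈ Metric.ball t0 ρ, f t = 0 := by
  have h := (w1_an hf).eqOn_zero_of_preconnected_of_eventuallyEq_zero (w1_pre t0 ρ) ht1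
    (Filter.eventually_of_mem (Metric.ball_mem_nhds t1 hr) h)
  exact fun t ht => h ht

theorem w1_mul {f g : ℂ → ℂ} {t0 : ℂ} {ρ : ℝ} (hf : DifferentiableOn ℂ f (Metric.ball t0 ρ))
    (hg : DifferentiableOn ℂ g (Metric.ball t0 ρ)) (h : ∀ t ∈ Metric.ball t0 ρ, f t * g t = 0) :
    (∀ t ∈ Metric.ball t0 ρ, f t = 0) ∨ ∀ t ∈ Metric.ball t0 ρ, g t = 0 :=
  (w1_an hf).eq_zero_or_eq_zero_of_mul_eq_zero (w1_an hg) h (w1_pre t0 ρ)

/-- A nonconstant function has a ball where the derivative does not vanish. -/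
theorem w1_deriv {k : ℂ → ℂ} {t0 : ℂ} {ρ : ℝ} (hρ : 0 < ρ) (hk : DifferentiableOn ℂ k (Metric.ball t0 ρ))
    (hnc : ¬ ∀ t ∈ Metric.ball t0 ρ, k t = k t0) :
    ∃ t1 r, 0 < r ∧ Metric.ball t1 r ⊆ Metric.ball t0 ρ ∧ ∀ t ∈ Metric.ball t1 r, deriv k t ≠ 0 := by
  have h1 : ∃ t1 ∈ Metric.ball t0 ρ, deriv k t1 ≠ 0 := by
    by_contra hcon
    push Not at hcon
    exact hnc fun t ht => Metric.isOpen_ball.is_const_of_deriv_eq_zero (w1_pre t0 ρ) hk hcon ht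
      (Metric.mem_ball_self hρ)
  obtain ⟨t1, ht1, h2⟩ := h1
  have h3 : ContinuousAt (deriv k) t1 := ((w1_an hk).deriv t1 ht1).continuousAt
  obtain ⟨r, hr, h4⟩ := Metric.mem_nhds_iff.1 (Filter.inter_mem (Metric.isOpen_ball.mem_nhds ht1)
    (h3.eventually_ne h2))
  exact ⟨t1, r, hr, fun t ht => (h4 ht).1, fun t ht => (h4 ht).2⟩

/-! Closure properties of algebraic functions. -/

theorem w1_congr {t0 : ℂ} {ρ : ℝ} {φ ψ : ℂ → ℂ} (h : Alg t0 ρ φ) (he : ∀ t ∈ Metric.ball t0 ρ, ψ t = φ t) :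
    Alg t0 ρ ψ := by
  obtain ⟨h1, P, hP, h2⟩ := h
  exact ⟨h1.congr he, P, hP, fun t ht => by rw [he t ht]; exact h2 t ht⟩

theorem w1_cmul {t0 : ℂ} {ρ : ℝ} (hρ : 0 < ρ) {φ : ℂ → ℂ} (h : Alg t0 ρ φ) (z : ℂ) : Alg t0 ρ (fun t => z * φ t) :=
  Alg.mul hρ (Alg.const hρ z) h

theorem w1_sub {t0 : ℂ} {ρ : ℝ} (hρ : 0 < ρ) {φ ψ : ℂ → ℂ} (h1 : Alg t0 ρ φ) (h2 : Alg t0 ρ ψ) :
    Alg t0 ρ (fun t => φ t - ψ t) :=
  w1_congr (Alg.add hρ h1 (w1_cmul hρ h2 (-1))) fun t _ => by ring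

theorem w1_inv {t0 : ℂ} {ρ : ℝ} (hρ : 0 < ρ) {φ : ℂ → ℂ} (h : Alg t0 ρ φ) {z : ℂ}
    (h0 : ∀ t ∈ Metric.ball t0 ρ, φ t ≠ z) : Alg t0 ρ (fun t => 1 / (φ t - z)) :=
  w1_congr (Alg.inv hρ (w1_sub hρ h (Alg.const hρ z)) fun t ht => sub_ne_zero.2 (h0 t ht)) fun _ _ => one_div _

theorem w1_sum {t0 : ℂ} {ρ : ℝ} (hρ : 0 < ρ) {v : Fin 3 → ℝ} {φ : Fin 3 → ℂ → ℂ} (h : ∀ i, Alg t0 ρ (φ i)) :
    Alg t0 ρ (fun t => ∑ i, (v i : ℂ) * φ i t) :=
  w1_congr (Alg.add hρ (Alg.add hρ (w1_cmul hρ (h 0) (v 0)) (w1_cmul hρ (h 1) (v 1))) (w1_cmul hρ (h 2) (v 2)))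
    fun t _ => by rw [Fin.sum_univ_three]

theorem w1_rat {t0 : ℂ} {ρ : ℝ} (hρ : 0 < ρ) {v : Fin 3 → ℝ} {d : Fin 3 → ℂ}
    (h : ∀ t ∈ Metric.ball t0 ρ, ∀ i, t ≠ d i) : Alg t0 ρ (fun t => ∑ i, (v i : ℂ) / (t - d i)) :=
  w1_congr (w1_sum hρ (v := v) (φ := fun i t => 1 / (t - d i)) fun i => w1_inv hρ (Alg.id hρ) fun t ht => h t ht i)
    fun _ _ => Finset.sum_congr rfl fun i _ => by rw [mul_one_div]

/-! Conjugation. -/

theorem w1_ev2_conj (P : Polynomial (Polynomial ℂ)) (s x : ℂ) :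
    ev2 (P.map (Polynomial.mapRingHom (starRingEnd ℂ))) s x =
      (starRingEnd ℂ) (ev2 P ((starRingEnd ℂ) s) ((starRingEnd ℂ) x)) := by
  unfold ev2
  rw [Polynomial.eval_map, Polynomial.eval_map, Polynomial.hom_eval₂, Polynomial.eval₂_map, Complex.conj_conj]
  congr 1
  apply Polynomial.ringHom_ext
  · intro a
    simp
  · simp

theorem w1_dep {t0 : ℂ} {ρ ρ0 : ℝ} {k χ : ℂ → ℂ} (hk : Alg t0 ρ0 k)
    (hτ : ∀ t ∈ Metric.ball t0 ρ, (starRingEnd ℂ) (χ t) ∈ Metric.ball t0 ρ0)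
    (hkc : ∀ t ∈ Metric.ball t0 ρ, k t = (starRingEnd ℂ) (k ((starRingEnd ℂ) (χ t)))) : Dep t0 ρ χ k := by
  obtain ⟨-, P, hP, h⟩ := hk
  refine ⟨P.map (Polynomial.mapRingHom (starRingEnd ℂ)), ?_, fun t ht => ?_⟩
  · rw [Ne, Polynomial.map_eq_zero_iff]
    · exact hP
    · exact Polynomial.map_injective _ (starRingEnd ℂ).injective
  · have h1 := h _ (hτ t ht)
    have h2 : (starRingEnd ℂ) (k t) = k ((starRingEnd ℂ) (χ t)) := by
      rw [hkc t ht, Complex.conj_conj]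
    rw [w1_ev2_conj, h2, h1, map_zero]


/-! Linear algebra. -/

theorem w1_indep {u v : Fin 3 → ℝ} (hu : u ≠ 0) (h : ¬ LinearIndependent ℝ ![u, v]) : ∃ s : ℝ, v = s • u := by
  rw [LinearIndependent.pair_iff] at h
  push Not at h
  obtain ⟨s, t, h1, h2⟩ := h
  have ht : t ≠ 0 := by
    intro h3
    subst h3
    rw [zero_smul, add_zero, smul_eq_zero] at h1
    rcases h1 with h1 | h1
    · exact h2 h1 rfl
    · exact hu h1
  refine ⟨-(t⁻¹ * s), ?_⟩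
  have h3 : t • v = -(s • u) := by rw [eq_neg_iff_add_eq_zero, add_comm]; exact h1
  have h4 : v = t⁻¹ • (t • v) := by rw [smul_smul, inv_mul_cancel₀ ht, one_smul]
  rw [h4, h3, smul_neg, smul_smul, neg_smul]

theorem w1_lin {u w m : Fin 3 → ℝ} (hind : LinearIndependent ℝ ![u, w]) :
    (∃ α β : ℝ, m = α • w + β • u) ∨ ∃ α β : Fin 3 → ℝ, (∃ i l, α i * β l - α l * β i ≠ 0) ∧
      ∀ x : Fin 3 → ℂ, ∑ i, (u i : ℂ) * x i = 0 → ∀ i, x i = (α i : ℂ) * (∑ i, (w i : ℂ) * x i) +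
        (β i : ℂ) * (∑ i, (m i : ℂ) * x i) := by
  have hpair := LinearIndependent.pair_iff.1 hind
  have hu : u ≠ 0 := by
    intro h
    have := hpair 1 0 (by rw [h, smul_zero, zero_smul, add_zero])
    exact one_ne_zero this.1
  by_cases hΔ : (Matrix.of ![u, w, m]).det = 0
  · left
    obtain ⟨v, hv, hv0⟩ := Matrix.exists_vecMul_eq_zero_iff.2 hΔ
    have h0 : ∀ i, v 0 * u i + v 1 * w i + v 2 * m i = 0 := by
      intro i
      have := congrFun hv0 i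
      simp only [Matrix.vecMul, dotProduct, Fin.sum_univ_three, Matrix.of_apply, Pi.zero_apply] at this
      exact this
    have hv2 : v 2 ≠ 0 := by
      intro h2
      have h3 := hpair (v 0) (v 1) (by
        ext i
        have := h0 i
        rw [h2, zero_mul, add_zero] at this
        simpa using this)
      apply hv
      ext i
      match i with
      | 0 => exact h3.1
      | 1 => exact h3.2
      | 2 => exact h2
    refine ⟨-(v 1 / v 2), -(v 0 / v 2), ?_⟩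
    ext i
    simp only [Pi.add_apply, Pi.smul_apply, smul_eq_mul]
    field_simp
    linarith [h0 i]
  · right
    rw [Matrix.det_fin_three] at hΔ
    simp only [Matrix.of_apply, Matrix.cons_val_zero, Matrix.cons_val_one, Matrix.cons_val_two, Matrix.tail_cons,
      Matrix.head_cons] at hΔ
    set Δ : ℝ := u 0 * w 1 * m 2 - u 0 * w 2 * m 1 - u 1 * w 0 * m 2 + u 1 * w 2 * m 0 + u 2 * w 0 * m 1 -
      u 2 * w 1 * m 0 with hD
    refine ⟨![(m 1 * u 2 - m 2 * u 1) / Δ, (m 2 * u 0 - m 0 * u 2) / Δ, (m 0 * u 1 - m 1 * u 0) / Δ],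
      ![(u 1 * w 2 - u 2 * w 1) / Δ, (u 2 * w 0 - u 0 * w 2) / Δ, (u 0 * w 1 - u 1 * w 0) / Δ], ?_, ?_⟩
    · by_contra hcon
      push Not at hcon
      apply hu
      have e0 := hcon 1 2
      have e1 := hcon 2 0
      have e2 := hcon 0 1
      simp only [Matrix.cons_val_zero, Matrix.cons_val_one, Matrix.cons_val_two, Matrix.tail_cons,
        Matrix.head_cons] at e0 e1 e2
      ext i
      match i with
      | 0 =>
        show u 0 = 0
        have : u 0 * Δ = 0 := by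
          field_simp at e0
          rw [hD]
          linear_combination e0
        exact (mul_eq_zero.1 this).resolve_right hΔ
      | 1 =>
        show u 1 = 0
        have : u 1 * Δ = 0 := by
          field_simp at e1
          rw [hD]
          linear_combination e1
        exact (mul_eq_zero.1 this).resolve_right hΔ
      | 2 =>
        show u 2 = 0
        have : u 2 * Δ = 0 := by
          field_simp at e2
          rw [hD]
          linear_combination e2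
        exact (mul_eq_zero.1 this).resolve_right hΔ
    · intro x hx i
      have hΔ' : (Δ : ℂ) ≠ 0 := by exact_mod_cast hΔ
      simp only [Fin.sum_univ_three] at hx ⊢
      match i with
      | 0 =>
        simp only [Matrix.cons_val_zero]
        push_cast
        field_simp
        rw [hD]
        push_cast
        linear_combination ((w 1 : ℂ) * m 2 - w 2 * m 1) * hx
      | 1 =>
        simp only [Matrix.cons_val_one, Matrix.cons_val]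
        push_cast
        field_simp
        rw [hD]
        push_cast
        linear_combination ((w 2 : ℂ) * m 0 - w 0 * m 2) * hx
      | 2 =>
        simp only [Matrix.cons_val_two, Matrix.head_cons, Matrix.tail_cons]
        push_cast
        field_simp
        rw [hD]
        push_cast
        linear_combination ((w 0 : ℂ) * m 1 - w 1 * m 0) * hx


/-! The holomorphic continuations of the real parts of the logarithms. -/

noncomputable def w1_L (ℓ : Fin 3 → ℂ → ℂ) (χ : ℂ → ℂ) (i : Fin 3) (t : ℂ) : ℂ :=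
  (ℓ i t + (starRingEnd ℂ) (ℓ i ((starRingEnd ℂ) (χ t)))) / 2

theorem w1_zero_deriv {F : ℂ → ℂ} {F' t : ℂ} {s : Set ℂ} (hs : s ∈ 𝓝 t) (h : ∀ x ∈ s, F x = 0)
    (hF : HasDerivAt F F' t) : F' = 0 :=
  hF.unique ((hasDerivAt_const t (0 : ℂ)).congr_of_eventuallyEq (Filter.eventually_of_mem hs h))

theorem w1_L_deriv {d : Fin 3 → ℂ} {t0 : ℂ} {ρ ρ0 : ℝ} (hρ0 : ρ ≤ ρ0) {ℓ : Fin 3 → ℂ → ℂ}
    (hℓ : ∀ i, ∀ t ∈ Metric.ball t0 ρ0, HasDerivAt (ℓ i) (1 / (t - d i)) t) {χ : ℂ → ℂ}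
    (hχ : DifferentiableOn ℂ χ (Metric.ball t0 ρ))
    (hτ : ∀ t ∈ Metric.ball t0 ρ, (starRingEnd ℂ) (χ t) ∈ Metric.ball t0 ρ0) (i : Fin 3) (t : ℂ)
    (ht : t ∈ Metric.ball t0 ρ) :
    HasDerivAt (w1_L ℓ χ i) ((1 / (t - d i) + 1 / (χ t - (starRingEnd ℂ) (d i)) * deriv χ t) / 2) t := by
  have h1 := hℓ i t (Metric.ball_subset_ball hρ0 ht)
  have h2 : HasDerivAt χ (deriv χ t) t := (hχ.differentiableAt (Metric.isOpen_ball.mem_nhds ht)).hasDerivAt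
  have h3 := hasDerivAt_conj_conj (hℓ i _ (hτ t ht))
  have h4 := h3.comp t h2
  rw [map_div₀, map_one, map_sub, Complex.conj_conj] at h4
  exact (h1.add h4).div_const 2

theorem w1_L_exp {c d : Fin 3 → ℂ} {ℓ : Fin 3 → ℂ → ℂ} {χ : ℂ → ℂ} {i : Fin 3} {t : ℂ}
    (h1 : Complex.exp (ℓ i t) = c i * (t - d i))
    (h2 : Complex.exp (ℓ i ((starRingEnd ℂ) (χ t))) = c i * ((starRingEnd ℂ) (χ t) - d i)) :
    Complex.exp (2 * w1_L ℓ χ i t) = (c i * (t - d i)) * ((starRingEnd ℂ) (c i) * (χ t - (starRingEnd ℂ) (d i))) := by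
  unfold w1_L
  rw [mul_div_cancel₀ _ (two_ne_zero), Complex.exp_add, h1, Complex.exp_conj, h2]
  simp

theorem w1_const {c d : Fin 3 → ℂ} {t0 : ℂ} {ρ ρ0 : ℝ} (hρ : 0 < ρ) (hρ0 : ρ ≤ ρ0) {ℓ : Fin 3 → ℂ → ℂ}
    (hℓ : ∀ i, ∀ t ∈ Metric.ball t0 ρ0, t ≠ d i ∧ HasDerivAt (ℓ i) (1 / (t - d i)) t ∧
      Complex.exp (ℓ i t) = c i * (t - d i)) {χ k : ℂ → ℂ} (hχ : DifferentiableOn ℂ χ (Metric.ball t0 ρ))
    (hτ : ∀ t ∈ Metric.ball t0 ρ, (starRingEnd ℂ) (χ t) ∈ Metric.ball t0 ρ0) (hk : Alg t0 ρ0 k)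
    (hkc : ∀ t ∈ Metric.ball t0 ρ, k t = (starRingEnd ℂ) (k ((starRingEnd ℂ) (χ t)))) {u w m : Fin 3 → ℝ}
    (hind : LinearIndependent ℝ ![u, w]) (h1 : ∀ t ∈ Metric.ball t0 ρ, ∑ i, (u i : ℂ) * w1_L ℓ χ i t = 0)
    (h2 : ∀ t ∈ Metric.ball t0 ρ, ∑ i, (m i : ℂ) * w1_L ℓ χ i t + k t * ∑ i, (w i : ℂ) * w1_L ℓ χ i t = 0)
    (hv : ∀ v : Fin 3 → ℝ, LinearIndependent ℝ ![u, v] →
      ¬ ∀ t ∈ Metric.ball t0 ρ, ∑ i, (v i : ℂ) * w1_L ℓ χ i t = 0) :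
    ∀ t ∈ Metric.ball t0 ρ, k t = k t0 := by
  by_contra hnc
  have hLd := w1_L_deriv hρ0 (fun i t ht => (hℓ i t ht).2.1) hχ hτ
  have hLD : ∀ i, DifferentiableOn ℂ (w1_L ℓ χ i) (Metric.ball t0 ρ) := fun i t ht =>
    (hLd i t ht).differentiableAt.differentiableWithinAt
  have hkρ : Alg t0 ρ k := hk.mono (Metric.ball_subset_ball hρ0)
  have hΦ : DifferentiableOn ℂ (fun t => ∑ i, (w i : ℂ) * w1_L ℓ χ i t) (Metric.ball t0 ρ) :=
    DifferentiableOn.fun_sum fun i _ => (hLD i).const_mul _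
  rcases w1_lin hind (m := m) with ⟨α, β, hm⟩ | ⟨α, β, ⟨i, l, hil⟩, hx⟩
  · have h3 : ∀ t ∈ Metric.ball t0 ρ, ((α : ℂ) + k t) * ∑ i, (w i : ℂ) * w1_L ℓ χ i t = 0 := by
      intro t ht
      have e := h2 t ht
      have e1 := h1 t ht
      rw [hm] at e
      simp only [Pi.add_apply, Pi.smul_apply, smul_eq_mul, Fin.sum_univ_three] at e e1 ⊢
      push_cast at e
      linear_combination e - β * e1
    rcases w1_mul ((differentiableOn_const _).add hkρ.1) hΦ h3 with h4 | h4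
    · apply hnc
      intro t ht
      have e1 := h4 t ht
      have e2 := h4 t0 (Metric.mem_ball_self hρ)
      simp only [Pi.add_apply] at e1 e2
      linear_combination e1 - e2
    · exact hv w hind h4
  · obtain ⟨t1, r, hr, hsub, hk'⟩ := w1_deriv hρ hkρ.1 hnc
    have hχA : Alg t0 ρ χ := Alg.exchange hρ hkρ hχ (w1_dep hk hτ hkc) hnc
    have kA : Alg t1 r k := hkρ.mono hsub
    have cA : Alg t1 r χ := hχA.mono hsub
    have k'A : Alg t1 r (fun t => deriv k t) := Alg.deriv hr kA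
    have c'A : Alg t1 r (fun t => deriv χ t) := Alg.deriv hr cA
    have hΛ : ∀ j, ∀ t ∈ Metric.ball t0 ρ, w1_L ℓ χ j t = ((α j : ℂ) - β j * k t) *
        ∑ i, (w i : ℂ) * w1_L ℓ χ i t := by
      intro j t ht
      have e1 := hx (fun i => w1_L ℓ χ i t) (h1 t ht) j
      have e2 := h2 t ht
      have e3 : ∑ i, (m i : ℂ) * w1_L ℓ χ i t = - (k t * ∑ i, (w i : ℂ) * w1_L ℓ χ i t) := by
        linear_combination e2
      rw [e3] at e1
      linear_combination e1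
    have hne : ∀ j, ∀ t ∈ Metric.ball t1 r, χ t ≠ (starRingEnd ℂ) (d j) := by
      intro j t ht h
      have e1 := (hℓ j _ (hτ t (hsub ht))).1
      rw [h, Complex.conj_conj] at e1
      exact e1 rfl
    have L'A : ∀ j, Alg t1 r (fun t => (1 / (t - d j) + 1 / (χ t - (starRingEnd ℂ) (d j)) * deriv χ t) / 2) := by
      intro j
      have a1 : Alg t1 r (fun t => 1 / (t - d j)) := w1_inv hr (Alg.id hr) fun t ht =>
        (hℓ j t (Metric.ball_subset_ball hρ0 (hsub ht))).1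
      have a2 := w1_inv hr cA (hne j)
      exact w1_congr (w1_cmul hr (Alg.add hr a1 (Alg.mul hr a2 c'A)) (1 / 2)) fun t _ => by ring
    -- the formula for the continuation
    have key : ∀ j l : Fin 3, ∀ t ∈ Metric.ball t0 ρ, w1_L ℓ χ l t * (deriv k t * (α j * β l - α l * β j)) =
        (1 / (t - d j) + 1 / (χ t - (starRingEnd ℂ) (d j)) * deriv χ t) / 2 * (α l - β l * k t) ^ 2 -
        (1 / (t - d l) + 1 / (χ t - (starRingEnd ℂ) (d l)) * deriv χ t) / 2 * (α j - β j * k t) *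
          (α l - β l * k t) := by
      intro j l t ht
      have hkd : HasDerivAt k (deriv k t) t := (hkρ.1.differentiableAt (Metric.isOpen_ball.mem_nhds ht)).hasDerivAt
      have e1 := ((hLd j t ht).mul ((hasDerivAt_const t (α l : ℂ)).sub (hkd.const_mul (β l : ℂ)))).sub
        ((hLd l t ht).mul ((hasDerivAt_const t (α j : ℂ)).sub (hkd.const_mul (β j : ℂ))))
      have e2 := w1_zero_deriv (Metric.isOpen_ball.mem_nhds ht) (fun x hx => by
        simp only [Pi.sub_apply, Pi.mul_apply]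
        rw [hΛ j x hx, hΛ l x hx]
        ring) e1
      have e3 : w1_L ℓ χ j t * ((α l : ℂ) - β l * k t) = w1_L ℓ χ l t * ((α j : ℂ) - β j * k t) := by
        rw [hΛ j t ht, hΛ l t ht]; ring
      simp only [Pi.sub_apply] at e2
      linear_combination (-(α l - β l * k t)) * e2 - (β l * deriv k t) * e3
    have LA : ∀ j l : Fin 3, α j * β l - α l * β j ≠ 0 → ∀ t ∈ Metric.ball t1 r,
        (1 / (t - d l) + 1 / (χ t - (starRingEnd ℂ) (d l)) * deriv χ t) / 2 = 0 := by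
      intro j l hjl
      have hδ : ((α j : ℂ) * β l - α l * β j) ≠ 0 := by exact_mod_cast hjl
      have a1 : Alg t1 r (fun t => (α l : ℂ) - β l * k t) := w1_sub hr (Alg.const hr _) (w1_cmul hr kA _)
      have a2 : Alg t1 r (fun t => (α j : ℂ) - β j * k t) := w1_sub hr (Alg.const hr _) (w1_cmul hr kA _)
      have a3 : Alg t1 r (fun t => (deriv k t * (α j * β l - α l * β j))⁻¹) :=
        Alg.inv hr (Alg.mul hr k'A (Alg.const hr _)) fun t ht => mul_ne_zero (hk' t ht) hδ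
      have a4 : Alg t1 r (fun t => 2 * w1_L ℓ χ l t) := by
        refine w1_congr (w1_cmul hr (Alg.mul hr (w1_sub hr (Alg.mul hr (L'A j) (Alg.mul hr a1 a1))
          (Alg.mul hr (L'A l) (Alg.mul hr a2 a1))) a3) 2) fun t ht => ?_
        have e1 := key j l t (hsub ht)
        have e2 : deriv k t * (α j * β l - α l * β j) ≠ 0 := mul_ne_zero (hk' t ht) hδ
        rw [← div_eq_mul_inv, mul_div_assoc', eq_div_iff e2]
        linear_combination 2 * e1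
      have a5 : Alg t1 r (fun t => Complex.exp (2 * w1_L ℓ χ l t)) := by
        refine w1_congr (Alg.mul hr (w1_cmul hr (w1_sub hr (Alg.id hr) (Alg.const hr (d l))) (c l))
          (w1_cmul hr (w1_sub hr cA (Alg.const hr ((starRingEnd ℂ) (d l)))) ((starRingEnd ℂ) (c l))))
          fun t ht => ?_
        exact w1_L_exp (hℓ l t (Metric.ball_subset_ball hρ0 (hsub ht))).2.2 (hℓ l _ (hτ t (hsub ht))).2.2
      have a6 := Alg.exp_const hr a4 a5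
      intro t ht
      have e1 := (hLd l t (hsub ht)).sub_const (w1_L ℓ χ l t1)
      refine w1_zero_deriv (Metric.isOpen_ball.mem_nhds ht) (fun x hx => ?_) e1
      have := a6 x hx
      linear_combination this / 2
    have hli : α l * β i - α i * β l ≠ 0 := fun h => hil (by linarith)
    have z1 := LA i l hil
    have z2 := LA l i hli
    have Z : ∀ j l : Fin 3, α j * β l - α l * β j ≠ 0 → (∀ t ∈ Metric.ball t1 r,
        (1 / (t - d l) + 1 / (χ t - (starRingEnd ℂ) (d l)) * deriv χ t) / 2 = 0) → (∀ t ∈ Metric.ball t1 r,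
        (1 / (t - d j) + 1 / (χ t - (starRingEnd ℂ) (d j)) * deriv χ t) / 2 = 0) →
        ∀ t ∈ Metric.ball t0 ρ, w1_L ℓ χ l t = 0 := by
      intro j l hjl y1 y2
      refine w1_ident2 (hLD l) hr (hsub (Metric.mem_ball_self hr)) fun t ht => ?_
      have e1 := key j l t (hsub ht)
      rw [y1 t ht, y2 t ht, zero_mul, zero_mul, zero_mul, sub_zero] at e1
      have e2 : deriv k t * (α j * β l - α l * β j) ≠ 0 :=
        mul_ne_zero (hk' t ht) (by exact_mod_cast hjl)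
      exact (mul_eq_zero.1 e1).resolve_right e2
    have Zl := Z i l hil z1 z2
    have Zi := Z l i hli z2 z1
    have hne_il : i ≠ l := by
      rintro rfl
      exact hil (by ring)
    -- one of the coordinate vectors is independent of u
    have hcoord : ∀ j : Fin 3, (∀ t ∈ Metric.ball t0 ρ, w1_L ℓ χ j t = 0) → ∀ i, i ≠ j → u i = 0 := by
      intro j hj i hij
      by_contra hui
      refine hv (Pi.single j 1) ?_ fun t ht => ?_
      · rw [LinearIndependent.pair_iff]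
        intro s t hst
        have q1 := congrFun hst i
        have q2 := congrFun hst j
        simp only [Pi.add_apply, Pi.smul_apply, smul_eq_mul, Pi.zero_apply, Pi.single_eq_same,
          Pi.single_eq_of_ne hij, mul_zero, add_zero, mul_one] at q1 q2
        have q3 : s = 0 := (mul_eq_zero.1 q1).resolve_right hui
        rw [q3, zero_mul, zero_add] at q2
        exact ⟨q3, q2⟩
      · refine Finset.sum_eq_zero fun i' _ => ?_
        by_cases h : i' = j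
        · subst h
          rw [hj t ht, mul_zero]
        · rw [Pi.single_eq_of_ne h]
          simp
    have hu0 : u = 0 := by
      ext j
      by_cases h : j = l
      · subst h
        exact hcoord i Zi j (fun h => hne_il h.symm)
      · exact hcoord l Zl j h
    have hp := LinearIndependent.pair_iff.1 hind 1 0 (by rw [hu0, smul_zero, zero_smul, add_zero])
    exact one_ne_zero hp.1


/-! Blow-up. -/

theorem w1_blow {U : Ultrafilter ℕ} {un : ℕ → Fin 3 → ℝ} {Mn : ℕ → Fin 2 → Fin 3 → ℝ} {u' : Fin 3 → ℝ}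
    {M' : Fin 2 → Fin 3 → ℝ} (hu : Tendsto un (U : Filter ℕ) (𝓝 u')) (hM : Tendsto Mn (U : Filter ℕ) (𝓝 M'))
    (hnc : ∀ᶠ n in (U : Filter ℕ), ¬ (un n = u' ∧ Mn n = M')) :
    ∃ (ε : ℕ → ℝ) (u1 : Fin 3 → ℝ) (M1 : Fin 2 → Fin 3 → ℝ), (∀ᶠ n in (U : Filter ℕ), 0 < ε n) ∧
      Tendsto ε (U : Filter ℕ) (𝓝 0) ∧ Tendsto (fun n => (ε n)⁻¹ • (un n - u')) (U : Filter ℕ) (𝓝 u1) ∧
      Tendsto (fun n => (ε n)⁻¹ • (Mn n - M')) (U : Filter ℕ) (𝓝 M1) ∧ ¬ (u1 = 0 ∧ M1 = 0) := by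
  let v : ℕ → (Fin 3 → ℝ) × (Fin 2 → Fin 3 → ℝ) := fun n => (un n - u', Mn n - M')
  have hv0 : Tendsto v (U : Filter ℕ) (𝓝 0) := by
    have h1 : Tendsto (fun n => un n - u') (U : Filter ℕ) (𝓝 0) := by
      simpa using hu.sub_const u'
    have h2 : Tendsto (fun n => Mn n - M') (U : Filter ℕ) (𝓝 0) := by
      simpa using hM.sub_const M'
    exact h1.prodMk_nhds h2
  have hpos : ∀ᶠ n in (U : Filter ℕ), 0 < ‖v n‖ := by
    filter_upwards [hnc] with n hn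
    rw [norm_pos_iff]
    intro h
    apply hn
    have h1 := congrArg Prod.fst h
    have h2 := congrArg Prod.snd h
    exact ⟨sub_eq_zero.1 h1, sub_eq_zero.1 h2⟩
  have hK := isCompact_sphere (0 : (Fin 3 → ℝ) × (Fin 2 → Fin 3 → ℝ)) 1
  obtain ⟨w, hw, hwl⟩ := hK.ultrafilter_le_nhds (U.map fun n => (‖v n‖)⁻¹ • v n) (by
    rw [Ultrafilter.coe_map, le_principal_iff, mem_map]
    filter_upwards [hpos] with n hn
    rw [Set.mem_preimage, mem_sphere_zero_iff_norm, norm_smul, norm_inv, norm_norm, inv_mul_cancel₀ hn.ne'])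
  rw [Ultrafilter.coe_map] at hwl
  have hwt : Tendsto (fun n => (‖v n‖)⁻¹ • v n) (U : Filter ℕ) (𝓝 w) := hwl
  refine ⟨fun n => ‖v n‖, w.1, w.2, hpos, ?_, ?_, ?_, ?_⟩
  · simpa using hv0.norm
  · exact (continuous_fst.tendsto w).comp hwt
  · exact (continuous_snd.tendsto w).comp hwt
  · rintro ⟨h1, h2⟩
    rw [mem_sphere_zero_iff_norm] at hw
    have h3 : w = 0 := Prod.ext h1 h2
    rw [h3, norm_zero] at hw
    exact zero_ne_one hw

/-- The limit principle at a point of `Sup`. -/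
theorem w1_key {a b : ℂ} {c d : Fin 3 → ℂ} {U : Ultrafilter ℕ} (S : Sq a b c d U) {q : ℂ × ℂ} (hq : q ∈ S.Sup)
    {Φ : ℕ × (ℂ × ℂ) → ℝ} {l : ℝ} (hΦ : Tendsto Φ ((U : Filter ℕ) ×ˢ 𝓝 q) (𝓝 l)) {O : Set (ℂ × ℂ)} (hO : O ∈ 𝓝 q)
    (h0 : ∀ᶠ n in (U : Filter ℕ), ∀ σ, (S.X n σ, S.t n σ) ∈ O → Φ (n, (S.X n σ, S.t n σ)) ≤ 0) : l ≤ 0 := by
  by_contra hl
  have h1 := hΦ.eventually (lt_mem_nhds (not_le.1 hl))
  rw [Filter.eventually_prod_iff] at h1
  obtain ⟨pa, hpa, pb, hpb, hab⟩ := h1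
  obtain ⟨n, ⟨q1, q2⟩, ⟨σ, q3⟩⟩ := ((hpa.and h0).and (hq (O ∩ {x | pb x}) (Filter.inter_mem hO hpb))).exists
  exact absurd (hab q1 q3.2) (not_lt.2 (q2 σ q3.1))

theorem w1_dtl {α : Type} {F : Filter α} {u v : α → Fin 3 → ℝ} {u' v' : Fin 3 → ℝ}
    (hu : Tendsto u F (𝓝 u')) (hv : Tendsto v F (𝓝 v')) :
    Tendsto (fun n => dt (u n) (v n)) F (𝓝 (dt u' v')) := by
  unfold dt
  exact tendsto_finsetSum _ fun i _ => (tendsto_pi_nhds.1 hu i).mul (tendsto_pi_nhds.1 hv i)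

theorem w1_dt (u v : Fin 3 → ℝ) : dt u v = u 0 * v 0 + u 1 * v 1 + u 2 * v 2 := by
  unfold dt
  rw [Fin.sum_univ_three]

theorem w1_limits {a b : ℂ} {c d : Fin 3 → ℂ} {U : Ultrafilter ℕ} (S : Sq a b c d U) {u' : Fin 3 → ℝ}
    {M' : Fin 2 → Fin 3 → ℝ} (hu' : Tendsto S.u (U : Filter ℕ) (𝓝 u')) (hM' : Tendsto S.M (U : Filter ℕ) (𝓝 M'))
    {ε : ℕ → ℝ} (hε0 : ∀ᶠ n in (U : Filter ℕ), 0 < ε n) (hε : Tendsto ε (U : Filter ℕ) (𝓝 0)) {u1 : Fin 3 → ℝ}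
    {M1 : Fin 2 → Fin 3 → ℝ} (h1 : Tendsto (fun n => (ε n)⁻¹ • (S.u n - u')) (U : Filter ℕ) (𝓝 u1))
    (h2 : Tendsto (fun n => (ε n)⁻¹ • (S.M n - M')) (U : Filter ℕ) (𝓝 M1)) :
    dt u' u' = 1 ∧ dt u1 u' = 0 ∧ ∀ j, dt (M1 j) u' + dt (M' j) u1 = 0 := by
  have hc : Tendsto (fun _ : ℕ => u') (U : Filter ℕ) (𝓝 u') := tendsto_const_nhds
  have q1 : dt u' u' = 1 := by
    have h := w1_dtl hu' hu'
    simp only [S.hu] at h
    exact tendsto_nhds_unique h tendsto_const_nhds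
  have q2 : ∀ j, dt (M' j) u' = 0 := by
    intro j
    have h := w1_dtl (tendsto_pi_nhds.1 hM' j) hu'
    simp only [S.hM] at h
    exact tendsto_nhds_unique h tendsto_const_nhds
  refine ⟨q1, ?_, fun j => ?_⟩
  · have h := ((w1_dtl h1 hc).const_mul 2).add (hε.mul (w1_dtl h1 h1))
    have h3 : Tendsto (fun n => 2 * dt ((ε n)⁻¹ • (S.u n - u')) u' +
        ε n * dt ((ε n)⁻¹ • (S.u n - u')) ((ε n)⁻¹ • (S.u n - u'))) (U : Filter ℕ) (𝓝 0) := by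
      refine tendsto_const_nhds.congr' ?_
      filter_upwards [hε0] with n hn
      have e1 := S.hu n
      rw [w1_dt] at e1 q1
      simp only [w1_dt, Pi.smul_apply, Pi.sub_apply, smul_eq_mul]
      field_simp
      linear_combination q1 - e1
    have h4 := tendsto_nhds_unique h h3
    linarith
  · have hMj : Tendsto (fun n => ((ε n)⁻¹ • (S.M n - M')) j) (U : Filter ℕ) (𝓝 (M1 j)) := tendsto_pi_nhds.1 h2 j
    have hcj : Tendsto (fun _ : ℕ => M' j) (U : Filter ℕ) (𝓝 (M' j)) := tendsto_const_nhds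
    have h := ((w1_dtl hMj hc).add (w1_dtl hcj h1)).add (hε.mul (w1_dtl hMj h1))
    have h3 : Tendsto (fun n => dt (((ε n)⁻¹ • (S.M n - M')) j) u' + dt (M' j) ((ε n)⁻¹ • (S.u n - u')) +
        ε n * dt (((ε n)⁻¹ • (S.M n - M')) j) ((ε n)⁻¹ • (S.u n - u'))) (U : Filter ℕ) (𝓝 0) := by
      refine tendsto_const_nhds.congr' ?_
      filter_upwards [hε0] with n hn
      have e1 := S.hM n j
      have e2 := q2 j
      rw [w1_dt] at e1 e2
      simp only [w1_dt, Pi.smul_apply, Pi.sub_apply, smul_eq_mul]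
      field_simp
      linear_combination e2 - e1
    have h4 := tendsto_nhds_unique h h3
    linarith

/-! Local data. -/

noncomputable def w1_lg (j : Fin 2) (x : ℂ) : ℝ := if j = 0 then Real.log ‖x‖ else Real.log ‖1 - x‖

noncomputable def w1_cst (a b : ℂ) (j : Fin 2) : ℝ := if j = 0 then Real.log ‖a‖ else Real.log ‖b‖

noncomputable def w1_dl (ξ : ℂ → ℂ) (j : Fin 2) (t : ℂ) : ℂ :=
  if j = 0 then deriv ξ t / ξ t else - deriv ξ t / (1 - ξ t)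

theorem w1_log {ψ ψ' : ℂ → ℂ} {t0 : ℂ} {ρ : ℝ} (hρ : 0 < ρ)
    (hψ : ∀ t ∈ Metric.ball t0 ρ, HasDerivAt ψ (ψ' t) t) (h0 : ψ t0 ≠ 0) :
    ∃ r, 0 < r ∧ ∃ lm : ℂ → ℂ, ∀ t ∈ Metric.ball t0 r, ψ t ≠ 0 ∧
      HasDerivAt lm (ψ' t / ψ t) t ∧ (lm t).re = Real.log ‖ψ t‖ := by
  have hcont : ContinuousAt (fun t => ψ t / ψ t0 - 1) t0 :=
    ((hψ t0 (Metric.mem_ball_self hρ)).continuousAt.div_const _).sub continuousAt_const
  have h1 : ∀ᶠ t in 𝓝 t0, ‖ψ t / ψ t0 - 1‖ < 1 := by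
    have h2 := hcont.norm
    have h3 : ‖ψ t0 / ψ t0 - 1‖ < 1 := by rw [div_self h0, sub_self, norm_zero]; exact one_pos
    exact h2.eventually (gt_mem_nhds h3)
  obtain ⟨r, hr, hball⟩ := Metric.mem_nhds_iff.1 (Filter.inter_mem (Metric.ball_mem_nhds t0 hρ) h1)
  refine ⟨r, hr, fun t => Complex.log (ψ t / ψ t0) + Complex.log (ψ t0), fun t ht => ?_⟩
  obtain ⟨q1, q2⟩ := hball ht
  have q2 : ‖ψ t / ψ t0 - 1‖ < 1 := q2
  have hsl : ψ t / ψ t0 ∈ Complex.slitPlane := by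
    have h3 := Complex.mem_slitPlane_of_norm_lt_one q2
    rwa [add_sub_cancel] at h3
  have hne : ψ t ≠ 0 := by
    intro h
    rw [h, zero_div, zero_sub, norm_neg, norm_one] at q2
    exact lt_irrefl _ q2
  refine ⟨hne, ?_, ?_⟩
  · have h3 := (((hψ t q1).div_const (ψ t0)).clog hsl).add_const (Complex.log (ψ t0))
    have h4 : ψ' t / ψ t0 / (ψ t / ψ t0) = ψ' t / ψ t := by
      field_simp
    rw [h4] at h3
    exact h3
  · rw [Complex.add_re, Complex.log_re, Complex.log_re, norm_div, Real.log_div (norm_ne_zero_iff.2 hne)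
      (norm_ne_zero_iff.2 h0), sub_add_cancel]

theorem w1_local {c d : Fin 3 → ℂ} (hc : ∀ i, c i ≠ 0) {t0 : ℂ} (ht0 : ∀ i, t0 ≠ d i) {ξ : ℂ → ℂ} {ρ1 : ℝ}
    (hρ1 : 0 < ρ1) (hξ : DifferentiableOn ℂ ξ (Metric.ball t0 ρ1)) (h0 : ξ t0 ≠ 0) (h1 : ξ t0 ≠ 1)
    {u : Fin 3 → ℝ} (hcr : ∑ i, (u i : ℂ) / (t0 - d i) ≠ 0) :
    ∃ ρ, 0 < ρ ∧ ρ ≤ ρ1 ∧ ∃ (ℓ : Fin 3 → ℂ → ℂ) (lm : Fin 2 → ℂ → ℂ), ∀ t ∈ Metric.ball t0 ρ,
      (∀ i, t ≠ d i ∧ HasDerivAt (ℓ i) (1 / (t - d i)) t ∧ (ℓ i t).re = LY c d t i ∧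
        Complex.exp (ℓ i t) = c i * (t - d i)) ∧ ξ t ≠ 0 ∧ ξ t ≠ 1 ∧
      (∀ j, HasDerivAt (lm j) (w1_dl ξ j t) t ∧ (lm j t).re = w1_lg j (ξ t)) ∧
      ∑ i, (u i : ℂ) / (t - d i) ≠ 0 := by
  obtain ⟨r1, hr1, ℓ, hℓ⟩ := exists_log hc ht0
  have hξd : ∀ t ∈ Metric.ball t0 ρ1, HasDerivAt ξ (deriv ξ t) t := fun t ht =>
    (hξ.differentiableAt (Metric.isOpen_ball.mem_nhds ht)).hasDerivAt
  obtain ⟨r2, hr2, l0, hl0⟩ := w1_log hρ1 hξd h0
  obtain ⟨r3, hr3, l1, hl1⟩ := w1_log (ψ := fun t => 1 - ξ t) (ψ' := fun t => - deriv ξ t) hρ1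
    (fun t ht => (hξd t ht).const_sub 1) (sub_ne_zero.2 h1.symm)
  have hcont : ContinuousAt (fun t => ∑ i, (u i : ℂ) / (t - d i)) t0 :=
    tendsto_finsetSum _ fun i _ => (continuousAt_const.div (continuousAt_id.sub continuousAt_const)
      (sub_ne_zero.2 (ht0 i)))
  obtain ⟨r4, hr4, hb4⟩ := Metric.mem_nhds_iff.1 (hcont.eventually_ne hcr)
  refine ⟨min ρ1 (min (min r1 r2) (min r3 r4)), by positivity, min_le_left _ _, ℓ, ![l0, l1], fun t ht => ?_⟩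
  simp only [Metric.mem_ball, lt_min_iff] at ht
  obtain ⟨t1, ⟨t2, t3⟩, t4, t5⟩ := ht
  have e0 := hl0 t t3
  have e1 := hl1 t t4
  refine ⟨fun i => hℓ i t t2, e0.1, fun h => e1.1 (by rw [h, sub_self]), fun j => ?_, hb4 t5⟩
  match j with
  | 0 => exact ⟨e0.2.1, e0.2.2⟩
  | 1 => exact ⟨e1.2.1, e1.2.2⟩

/-- The quotient of the derivatives is invariant under the reflection. -/
theorem w1_kconj {f g f' g' χ : ℂ → ℂ} {t0 : ℂ} {ρ r : ℝ} (hf : ∀ t ∈ Metric.ball t0 ρ, HasDerivAt f (f' t) t)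
    (hg : ∀ t ∈ Metric.ball t0 ρ, HasDerivAt g (g' t) t) (hf0 : ∀ t ∈ Metric.ball t0 ρ, f' t ≠ 0) (hr : r ≤ ρ)
    (hχ : DifferentiableOn ℂ χ (Metric.ball t0 ρ))
    (hτ : ∀ t ∈ Metric.ball t0 r, (starRingEnd ℂ) (χ t) ∈ Metric.ball t0 ρ)
    (h1 : ∀ t ∈ Metric.ball t0 r, f t + (starRingEnd ℂ) (f ((starRingEnd ℂ) (χ t))) = 0)
    (h2 : ∀ t ∈ Metric.ball t0 r, g t + (starRingEnd ℂ) (g ((starRingEnd ℂ) (χ t))) = 0) (t : ℂ)
    (ht : t ∈ Metric.ball t0 r) :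
    g' t / f' t = (starRingEnd ℂ) (g' ((starRingEnd ℂ) (χ t)) / f' ((starRingEnd ℂ) (χ t))) := by
  have htρ := Metric.ball_subset_ball hr ht
  have hχt : HasDerivAt χ (deriv χ t) t := (hχ.differentiableAt (Metric.isOpen_ball.mem_nhds htρ)).hasDerivAt
  have e1 := (hf t htρ).add ((hasDerivAt_conj_conj (hf _ (hτ t ht))).comp t hχt)
  have e2 := (hg t htρ).add ((hasDerivAt_conj_conj (hg _ (hτ t ht))).comp t hχt)
  have z1 : f' t + (starRingEnd ℂ) (f' ((starRingEnd ℂ) (χ t))) * deriv χ t = 0 :=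
    e1.unique ((hasDerivAt_const t (0 : ℂ)).congr_of_eventuallyEq
      (Filter.eventually_of_mem (Metric.isOpen_ball.mem_nhds ht) fun x hx => h1 x hx))
  have z2 : g' t + (starRingEnd ℂ) (g' ((starRingEnd ℂ) (χ t))) * deriv χ t = 0 :=
    e2.unique ((hasDerivAt_const t (0 : ℂ)).congr_of_eventuallyEq
      (Filter.eventually_of_mem (Metric.isOpen_ball.mem_nhds ht) fun x hx => h2 x hx))
  have n1 := hf0 t htρ
  have n2 := hf0 _ (hτ t ht)
  have n3 : (starRingEnd ℂ) (f' ((starRingEnd ℂ) (χ t))) ≠ 0 := (_root_.map_ne_zero _).2 n2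
  rw [map_div₀, div_eq_div_iff n1 n3]
  have n4 : deriv χ t ≠ 0 := by
    intro h
    rw [h, mul_zero, add_zero] at z1
    exact n1 z1
  apply mul_right_cancel₀ n4
  linear_combination (g' t) * z1 - (f' t) * z2

theorem w1_ev2_cont (G : Polynomial (Polynomial ℂ)) : Continuous fun q : ℂ × ℂ => ev2 G q.2 q.1 := by
  unfold ev2
  simp only [Polynomial.eval_map, Polynomial.eval₂_eq_sum, Polynomial.sum_def, Polynomial.coe_evalRingHom]
  exact continuous_finsetSum _ fun i _ => ((Polynomial.continuous _).comp continuous_snd).mul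
    (continuous_fst.pow i)

theorem w1_supG {a b : ℂ} {c d : Fin 3 → ℂ} {U : Ultrafilter ℕ} (S : Sq a b c d U) {G : Polynomial (Polynomial ℂ)}
    (hG : ∀ᶠ n in (U : Filter ℕ), ∀ σ, ev2 G (S.t n σ) (S.X n σ) = 0) {q : ℂ × ℂ} (hq : q ∈ S.Sup) :
    ev2 G q.2 q.1 = 0 := by
  have h1 : Tendsto (fun p : ℕ × (ℂ × ℂ) => ‖ev2 G p.2.2 p.2.1‖) ((U : Filter ℕ) ×ˢ 𝓝 q)
      (𝓝 ‖ev2 G q.2 q.1‖) := ((w1_ev2_cont G).norm.tendsto q).comp tendsto_snd
  have h2 := w1_key S hq h1 Filter.univ_mem (hG.mono fun n hGn σ _ => by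
    simp only [hGn σ, norm_zero, le_refl])
  exact norm_le_zero_iff.1 h2

theorem w1_indep2 {u v : Fin 3 → ℝ} (hu : dt u u = 1) (hv : v ≠ 0) (h : dt v u = 0) :
    LinearIndependent ℝ ![u, v] := by
  rw [LinearIndependent.pair_iff]
  intro s t hst
  have h0 := congrFun hst 0
  have h1 := congrFun hst 1
  have h2 := congrFun hst 2
  simp only [Pi.add_apply, Pi.smul_apply, smul_eq_mul, Pi.zero_apply] at h0 h1 h2
  rw [w1_dt] at hu h
  have hs : s = 0 := by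
    linear_combination u 0 * h0 + u 1 * h1 + u 2 * h2 - s * hu - t * h
  refine ⟨hs, ?_⟩
  rw [hs, zero_smul, zero_add, smul_eq_zero] at hst
  exact hst.resolve_right hv


/-- Row Z5-W1. The analytic part for points on a curve `G(X, t) = 0`. PROOF.
(1) BLOW-UP. `ε n = ∑_i |S.u n i - u' i| + ∑_{j,i} |S.M n j i - M' j i|`, `> 0` eventually (`hnc`), `→ 0`. The vectors `(ε n)⁻¹ (S.u n - u')`, `(ε n)⁻¹ (S.M n - M')` are bounded with total
`ℓ¹` norm 1, so they converge along `U` to `u1, M1`, not both zero. Limits: `dt u' u' = 1`, `dt u1 u' = 0` (from `dt (u n) (u n) = 1 = dt u' u'`), `dt (M' j) u' = 0`, `dt (M1 j) u' + dt (M' j) u1 = 0`.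
(2) LOCAL DATA. `E'` = `E` ∪ critical points of `u'` (`crit_finite`); `exists_sup` gives `p = (x0, t0)`, `t0 ∉ E'`. `ev2 G t0 x0 = 0` (closedness, `hG`). `chart` gives `ξ` near `t0` (`ξ t0 = x0`), `ξ ≠ 0, 1` on a small ball.
`exists_log` gives `ℓ_i`; `λ_0, λ_1` holomorphic near `t0` with `exp λ_0 = ξ`, `exp λ_1 = 1 - ξ` (`λ_0 t = log (ξ t / x0) + log x0`), `Re λ_0 = log ‖ξ‖`. `f_0 = ∑ u'_i ℓ_i` (`Re f_0 = dt u' (LY t)`, derivative `r(t) = ∑ u'_i/(t - d_i) ≠ 0` on the ball),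
`g_j = λ_j - ∑_i M'_ji ℓ_i - log ‖a‖` (resp. `log ‖b‖`). `schwarz` for `f_0` gives `χ`, `χ t0 = conj t0`.
(3) For `q ∈ S.Sup` near `p`, `q.1 = ξ q.2` and `sup_rel` gives `Re f_0 (q.2) = 0`, `Re g_j (q.2) = 0`. By `exists_sup` there are such `q` with `q.2 ≠ t0` arbitrarily close to `t0`. `reflect` (for `g = g_j` and for `g = f_0`): on a ball `B` of centre `t0`
(R) `g_j(t) + g_j^*(χ t) = 0`, `f_0(t) + f_0^*(χ t) = 0`, where `h^*(s) = conj (h (conj s))`. In particular `Re f_0 t = 0 → Re g_j t = 0` on `B`. Differentiating (R): `k_j := g_j'/f_0'` satisfies `k_j(t) = k_j^*(χ t)` on `B`, so `k_j` is real at the points `t ∈ B` with `Re f_0 t = 0`.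
(4) `star` at all `q ∈ S.Sup` near `p` (hypothesis `hgr`: near `p` the points of the orbits satisfy `X = ξ t`, so `Re g_j(t) = log ‖X‖ - log ‖a‖ - dt (M' j) (LY t) = dt (S.M n j) (LY t) - dt (M' j) (LY t)`, by `S.r1, S.r2`): `dt (M1 j) (LY q.2) = - k_j(q.2) dt u1 (LY q.2)`.
Let `Λ_i(t) = (ℓ_i(t) + ℓ_i^*(χ t))/2`, holomorphic on `B`, equal to `LY t i` where `Re f_0 = 0`. Identity theorem (the `q.2` accumulate at `t0`):
(**) `∑_i M1_ji Λ_i + k_j ∑_i u1_i Λ_i = 0` on `B`; also `∑_i u'_i Λ_i = 0` on `B`.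
(5) By `HH` no real vector `v` with `u', v` independent satisfies `∑ v_i Λ_i = 0` on `B` (infinitely many points `q.2` would satisfy both relations). If `u1 = 0` then `∑ M1_ji Λ_i = 0`, so `M1_j ∈ ℝ u'`, and `dt (M1 j) u' = 0` gives `M1_j = 0`, contradiction with (1). So `u1 ≠ 0`, and `u', u1` are independent (`dt u1 u' = 0`).
CLAIM: `k_j` is constant on `B` (then it is a real constant `κ_j`). If `M1_j ∈ span (u', u1)`, `M1_j = α u1 + β u'`: `(α + k_j) ∑ u1_i Λ_i = 0`, and `∑ u1_i Λ_i` is not identically zero, so `k_j = - α`. Otherwise `u', u1, M1_j` is a basis of `ℝ^3`, so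
`Λ_i = (α_i - β_i k_j) Φ`, `Φ = ∑ u1_i Λ_i` (coordinates of the `i`-th coordinate form in the basis; the component along `u'` gives zero, that along `M1_j` gives `β_i ∑ M1_ji Λ_i = - β_i k_j Φ`), where `(α_i), (β_i) ∈ ℝ^3` are independent. Suppose `k = k_j` is not constant. Choose `i ≠ l` with `α_i β_l ≠ α_l β_i`. Then
`Λ_i (α_l - β_l k) = Λ_l (α_i - β_i k)`. Everything is algebraic: `Alg ξ` (from `G`), `Alg ξ'`, so `k f_0' = ξ'/ξ - ∑ M'_0i/(t - d_i)` (or with `-ξ'/(1-ξ)`) shows `Alg k`. From `P(t, k(t)) = 0` and (R)-derivative by conjugation (`z = conj (χ t)`): `P^*(χ t, k t) = 0` with the conjugate polynomial, so `Dep χ k`, and `Alg χ` by `Alg.exchange`. Shrink `B` so that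
`χ t ≠ conj d_i` and `α_l - β_l k` has no zero (or has: move the centre of the ball to a point where it has none). `Λ_i' = (1/(t - d_i) + χ'/(χ - conj d_i))/2` is `Alg`. With `ρ = (α_i - β_i k)/(α_l - β_l k)` (nonconstant, `Alg`): `Λ_i = ρ Λ_l`, so `Λ_i' = ρ' Λ_l + ρ Λ_l'`, so `Λ_l = (Λ_i' - ρ Λ_l')/ρ'` is `Alg` (on a ball where `ρ' ≠ 0`), and
`exp (2 Λ_l) = c_l (t - d_l) · conj c_l (χ - conj d_l)` is `Alg`. By `Alg.exp_const` `2 Λ_l` is constant. In the same way (exchange the roles) `Λ_i` is constant. As `ρ` is not constant, `Λ_i = Λ_l = 0` on a small ball, so on `B`: the coordinate vectors `e_i, e_l` are both in `ℝ u'` by (5), impossible. CLAIM proved.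
(6) `g_j' = κ_j f_0'` on `B` is the statement: `ξ'/ξ - ∑ M'_0i/(t-d_i) = κ_0 ∑ u'_i/(t-d_i)` and `-ξ'/(1-ξ) - ∑ M'_1i/(t-d_i) = κ_1 ∑ u'_i/(t-d_i)`. The last line of the statement: `p ∈ S.Sup` and `chart`. -/
theorem W1 {a b : ℂ} (ha : a ≠ 0) (hb : b ≠ 0) {c d : Fin 3 → ℂ} {U : Ultrafilter ℕ} (S : Sq a b c d U)
    (hc : ∀ i, c i ≠ 0) (hd : Function.Injective d) (hH : HH c d) {A : ℝ} (hA : S.Bdd A)
    {u' : Fin 3 → ℝ} {M' : Fin 2 → Fin 3 → ℝ} (hu' : Tendsto S.u (U : Filter ℕ) (𝓝 u'))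
    (hM' : Tendsto S.M (U : Filter ℕ) (𝓝 M')) (G : Polynomial (Polynomial ℂ)) (hG0 : G ≠ 0)
    (hG : ∀ᶠ n in (U : Filter ℕ), ∀ σ, ev2 G (S.t n σ) (S.X n σ) = 0) {E : Set ℂ} (hE : E.Finite)
    (hsep : ∀ t, t ∉ E → ∀ x, ev2 G t x = 0 → ev2 (derivative G) t x ≠ 0)
    (hnc : ∀ᶠ n in (U : Filter ℕ), ¬ (S.u n = u' ∧ S.M n = M')) :
    ∃ (κ : Fin 2 → ℝ) (t0 : ℂ) (ρ : ℝ) (ξ : ℂ → ℂ), 0 < ρ ∧ DifferentiableOn ℂ ξ (Metric.ball t0 ρ) ∧
      (∀ t ∈ Metric.ball t0 ρ, (∀ i, t ≠ d i) ∧ ξ t ≠ 0 ∧ ξ t ≠ 1 ∧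
        deriv ξ t / ξ t = ∑ i, ((M' 0 i + κ 0 * u' i : ℝ) : ℂ) / (t - d i) ∧
        - deriv ξ t / (1 - ξ t) = ∑ i, ((M' 1 i + κ 1 * u' i : ℝ) : ℂ) / (t - d i)) ∧
      ∀ᶠ n in (U : Filter ℕ), ∃ σ, S.t n σ ∈ Metric.ball t0 ρ ∧ S.X n σ = ξ (S.t n σ) := by
  classical
  obtain ⟨ε, u1, M1, hε0, hε, hb1, hb2, hne⟩ := w1_blow hu' hM' hnc
  obtain ⟨hu1, L1, L2⟩ := w1_limits S hu' hM' hε0 hε hb1 hb2
  have hu0 : u' ≠ 0 := by
    rintro rfl
    rw [w1_dt] at hu1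
    simp at hu1
  -- finite exceptional set
  have hE' : (E ∪ {t : ℂ | (∀ i, t ≠ d i) ∧ ∑ i, (u' i : ℂ) / (t - d i) = 0}).Finite :=
    hE.union (crit_finite hd hu0)
  obtain ⟨p, hp, hpE, hpd, hp0, hp1, hpacc⟩ := exists_sup S hc hA hE'
  have hcr : ∑ i, (u' i : ℂ) / (p.2 - d i) ≠ 0 := fun h => hpE (Or.inr ⟨hpd, h⟩)
  have hsG : ∀ q ∈ S.Sup, ev2 G q.2 q.1 = 0 := fun q hq => w1_supG S hG hq
  have hG1 := hsep p.2 (fun h => hpE (Or.inl h)) p.1 (hsG p hp)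
  obtain ⟨ρ1, η, ξ, hρ1, hη, hξd, hξ0, hξG, hξu⟩ := chart G (hsG p hp) hG1
  obtain ⟨ρ2, hρ2, hρ21, ℓ, lm, hloc⟩ := w1_local hc hpd hρ1 hξd (by rw [hξ0]; exact hp0)
    (by rw [hξ0]; exact hp1) hcr
  obtain ⟨x0, t0⟩ := p
  simp only at hpd hp0 hp1 hcr hG1 hρ1 hξd hξ0 hξG hξu hloc
  -- the functions f0, g
  obtain ⟨f0, hf0⟩ : ∃ f0 : ℂ → ℂ, f0 = fun t => ∑ i, (u' i : ℂ) * ℓ i t := ⟨_, rfl⟩
  obtain ⟨g, hgd⟩ : ∃ g : Fin 2 → ℂ → ℂ, g = fun j t => lm j t - ∑ i, (M' j i : ℂ) * ℓ i t -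
    (w1_cst a b j : ℂ) := ⟨_, rfl⟩
  obtain ⟨f', hf'd⟩ : ∃ f' : ℂ → ℂ, f' = fun t => ∑ i, (u' i : ℂ) / (t - d i) := ⟨_, rfl⟩
  obtain ⟨g', hg'd⟩ : ∃ g' : Fin 2 → ℂ → ℂ, g' = fun j t => w1_dl ξ j t - ∑ i, (M' j i : ℂ) / (t - d i) :=
    ⟨_, rfl⟩
  have hf : ∀ t ∈ Metric.ball t0 ρ2, HasDerivAt f0 (f' t) t := by
    intro t ht
    rw [hf0, hf'd]
    have h1 : HasDerivAt (fun t => ∑ i, (u' i : ℂ) * ℓ i t) (∑ i, (u' i : ℂ) * (1 / (t - d i))) t :=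
      HasDerivAt.fun_sum fun i _ => ((hloc t ht).1 i).2.1.const_mul _
    simpa only [mul_one_div] using h1
  have hg : ∀ j, ∀ t ∈ Metric.ball t0 ρ2, HasDerivAt (g j) (g' j t) t := by
    intro j t ht
    rw [hgd, hg'd]
    have h1 : HasDerivAt (fun t => ∑ i, (M' j i : ℂ) * ℓ i t) (∑ i, (M' j i : ℂ) / (t - d i)) t := by
      have h2 : HasDerivAt (fun t => ∑ i, (M' j i : ℂ) * ℓ i t) (∑ i, (M' j i : ℂ) * (1 / (t - d i))) t :=
        HasDerivAt.fun_sum fun i _ => ((hloc t ht).1 i).2.1.const_mul _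
      simpa only [mul_one_div] using h2
    exact ((((hloc t ht).2.2.2.1 j).1).sub h1).sub_const _
  have hfre : ∀ t ∈ Metric.ball t0 ρ2, (f0 t).re = dt u' (LY c d t) := by
    intro t ht
    rw [hf0]
    simp only [Complex.re_sum, dt, Complex.re_ofReal_mul]
    exact Finset.sum_congr rfl fun i _ => by rw [((hloc t ht).1 i).2.2.1]
  have hgre : ∀ j, ∀ t ∈ Metric.ball t0 ρ2,
      (g j t).re = w1_lg j (ξ t) - dt (M' j) (LY c d t) - w1_cst a b j := by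
    intro j t ht
    rw [hgd]
    simp only [Complex.sub_re, Complex.re_sum, dt, Complex.re_ofReal_mul, Complex.ofReal_re]
    rw [((hloc t ht).2.2.2.1 j).2]
    congr 2
    exact Finset.sum_congr rfl fun i _ => by rw [((hloc t ht).1 i).2.2.1]
  -- relations at the points of the orbits and of Sup
  have hrr : ∀ n σ j, w1_lg j (S.X n σ) = dt (S.M n j) (LY c d (S.t n σ)) + w1_cst a b j := by
    intro n σ j
    match j with
    | 0 => exact S.r1 n σ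
    | 1 => exact S.r2 n σ
  have hpt : ∀ q ∈ S.Sup, q.2 ∈ Metric.ball t0 ρ2 → ‖q.1 - x0‖ < η →
      q.1 = ξ q.2 ∧ (f0 q.2).re = 0 ∧ ∀ j, (g j q.2).re = 0 := by
    intro q hq h2 h1
    have e1 : q.1 = ξ q.2 := hξu q.2 (Metric.ball_subset_ball hρ21 h2) q.1 h1 (hsG q hq)
    obtain ⟨l1, l2, l3, -⟩ := hloc q.2 h2
    obtain ⟨s1, s2, s3⟩ := sup_rel S hc hu' hM' hq (fun i => (l1 i).1) (by rw [e1]; exact l2)
      (by rw [e1]; exact l3)
    refine ⟨e1, by rw [hfre _ h2]; exact s1, fun j => ?_⟩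
    rw [hgre j _ h2, ← e1]
    match j with
    | 0 =>
      show Real.log ‖q.1‖ - dt (M' 0) (LY c d q.2) - Real.log ‖a‖ = 0
      rw [s2]; ring
    | 1 =>
      show Real.log ‖1 - q.1‖ - dt (M' 1) (LY c d q.2) - Real.log ‖b‖ = 0
      rw [s3]; ring
  have hf00 : (f0 t0).re = 0 := (hpt (x0, t0) hp (Metric.mem_ball_self hρ2) (by simpa using hη)).2.1
  have hacc : ∀ O ∈ 𝓝 t0, ∃ q ∈ S.Sup, q.2 ∈ O ∧ q.2 ≠ t0 ∧ ‖q.1 - x0‖ < η := by
    intro O hO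
    have h1 : {q : ℂ × ℂ | q.2 ∈ O ∧ ‖q.1 - x0‖ < η} ∈ 𝓝 (x0, t0) := by
      refine Filter.inter_mem ((continuous_snd.tendsto (x0, t0)) hO) ?_
      have h2 : Continuous fun q : ℂ × ℂ => ‖q.1 - x0‖ := by fun_prop
      exact (h2.tendsto (x0, t0)).eventually (gt_mem_nhds (by simpa using hη))
    obtain ⟨q, q1, q2, q3⟩ := hpacc _ h1
    exact ⟨q, q1, q2.1, q3, q2.2⟩
  -- the Schwarz function
  have hf't0 : deriv f0 t0 ≠ 0 := by
    rw [(hf t0 (Metric.mem_ball_self hρ2)).deriv, hf'd]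
    exact hcr
  obtain ⟨ρ3, hρ3, χ, hχd, hχc⟩ := schwarz (f := f0) (t0 := t0) (Filter.eventually_of_mem
    (Metric.ball_mem_nhds t0 hρ2) fun t ht => (hf t ht).differentiableAt) hf't0 hf00
  obtain ⟨ρ4, hρ4, hρ42, hρ43⟩ : ∃ ρ4, 0 < ρ4 ∧ ρ4 ≤ ρ2 ∧ ρ4 ≤ ρ3 :=
    ⟨min ρ2 ρ3, lt_min hρ2 hρ3, min_le_left _ _, min_le_right _ _⟩
  have s42 := Metric.ball_subset_ball (x := t0) hρ42
  have s43 := Metric.ball_subset_ball (x := t0) hρ43
  have hacc2 : ∀ O ∈ 𝓝 t0, ∃ t ∈ O, t ≠ t0 ∧ (f0 t).re = 0 ∧ ∀ j, (g j t).re = 0 := by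
    intro O hO
    obtain ⟨q, q1, q2, q3, q4⟩ := hacc (O ∩ Metric.ball t0 ρ2) (Filter.inter_mem hO (Metric.ball_mem_nhds t0 hρ2))
    obtain ⟨-, e1, e2⟩ := hpt q q1 q2.2 q4
    exact ⟨q.2, q2.1, q3, e1, e2⟩
  have hRg : ∀ j, ∃ r, 0 < r ∧ r ≤ ρ4 ∧ ∀ t ∈ Metric.ball t0 r, (starRingEnd ℂ) (χ t) ∈ Metric.ball t0 ρ4 ∧
      g j t + (starRingEnd ℂ) (g j ((starRingEnd ℂ) (χ t))) = 0 := fun j =>
    reflect (f := f0) (g := g j) hρ4 (fun t ht => (hg j t (s42 ht)).differentiableAt.differentiableWithinAt)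
      (hχd.mono s43) (fun t ht => hχc t (s43 ht)) hf00 (fun O hO => by
        obtain ⟨t, q1, q2, q3, q4⟩ := hacc2 O hO
        exact ⟨t, q1, q2, q3, q4 j⟩)
  obtain ⟨r0, hr0, hr04, hR0⟩ := hRg 0
  obtain ⟨r1, hr1, hr14, hR1⟩ := hRg 1
  obtain ⟨r2, hr2, hr24, hR2⟩ := reflect (f := f0) (g := f0) hρ4
    (fun t ht => (hf t (s42 ht)).differentiableAt.differentiableWithinAt)
    (hχd.mono s43) (fun t ht => hχc t (s43 ht)) hf00 (fun O hO => by
        obtain ⟨t, q1, q2, q3, q4⟩ := hacc2 O hO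
        exact ⟨t, q1, q2, q3, q3⟩)
  obtain ⟨ρ, hρ, hρ0, hρr1, hρr2⟩ : ∃ ρ, 0 < ρ ∧ ρ ≤ r0 ∧ ρ ≤ r1 ∧ ρ ≤ r2 :=
    ⟨min r0 (min r1 r2), lt_min hr0 (lt_min hr1 hr2), min_le_left _ _,
      (min_le_right _ _).trans (min_le_left _ _), (min_le_right _ _).trans (min_le_right _ _)⟩
  have b0 := Metric.ball_subset_ball (x := t0) hρ0
  have b1 := Metric.ball_subset_ball (x := t0) hρr1
  have b2 := Metric.ball_subset_ball (x := t0) hρr2
  have hρρ4 : ρ ≤ ρ4 := hρ0.trans hr04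
  have s4 := Metric.ball_subset_ball (x := t0) hρρ4
  have hτ : ∀ t ∈ Metric.ball t0 ρ, (starRingEnd ℂ) (χ t) ∈ Metric.ball t0 ρ4 := fun t ht => (hR0 t (b0 ht)).1
  have hRf : ∀ t ∈ Metric.ball t0 ρ, f0 t + (starRingEnd ℂ) (f0 ((starRingEnd ℂ) (χ t))) = 0 :=
    fun t ht => (hR2 t (b2 ht)).2
  have hRgj : ∀ j, ∀ t ∈ Metric.ball t0 ρ, g j t + (starRingEnd ℂ) (g j ((starRingEnd ℂ) (χ t))) = 0 := by
    intro j t ht
    match j with
    | 0 => exact (hR0 t (b0 ht)).2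
    | 1 => exact (hR1 t (b1 ht)).2
  have hf'ne : ∀ t ∈ Metric.ball t0 ρ2, f' t ≠ 0 := by
    intro t ht
    rw [hf'd]
    exact (hloc t ht).2.2.2.2
  -- k
  obtain ⟨k, hkd⟩ : ∃ k : Fin 2 → ℂ → ℂ, k = fun j t => g' j t / f' t := ⟨_, rfl⟩
  have hkc : ∀ j, ∀ t ∈ Metric.ball t0 ρ, k j t = (starRingEnd ℂ) (k j ((starRingEnd ℂ) (χ t))) := by
    intro j t ht
    rw [hkd]
    exact w1_kconj (fun t ht => hf t (s42 ht)) (fun t ht => hg j t (s42 ht)) (fun t ht => hf'ne t (s42 ht)) hρρ4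
      (hχd.mono s43) hτ hRf (hRgj j) t ht
  have hfix : ∀ t ∈ Metric.ball t0 ρ, (f0 t).re = 0 → (starRingEnd ℂ) (χ t) = t := by
    intro t ht h
    rw [hχc t (s43 (s4 ht)) h, Complex.conj_conj]
  have hz : ∀ j, ∀ t ∈ Metric.ball t0 ρ, (f0 t).re = 0 → (g j t).re = 0 := by
    intro j t ht h
    have e1 := hRgj j t ht
    rw [hfix t ht h] at e1
    have e2 := congrArg Complex.re e1
    simp only [Complex.add_re, Complex.conj_re, Complex.zero_re] at e2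
    linarith
  have hkre : ∀ j, ∀ t ∈ Metric.ball t0 ρ, (f0 t).re = 0 → ((k j t).re : ℂ) = k j t := by
    intro j t ht h
    have e1 := hkc j t ht
    rw [hfix t ht h] at e1
    exact (Complex.conj_eq_iff_re.1 e1.symm)
  have hΛ : ∀ i, ∀ t ∈ Metric.ball t0 ρ, (f0 t).re = 0 → w1_L ℓ χ i t = (LY c d t i : ℂ) := by
    intro i t ht h
    unfold w1_L
    rw [hfix t ht h, ← ((hloc t (s42 (s4 ht))).1 i).2.2.1, Complex.add_conj]
    push_cast
    ring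
  -- star
  have hstar : ∀ q ∈ S.Sup, q.2 ∈ Metric.ball t0 ρ → ‖q.1 - x0‖ < η → ∀ j,
      dt (M1 j) (LY c d q.2) = - (k j q.2).re * dt u1 (LY c d q.2) := by
    intro q hq h2 h1 j
    have h22 := s42 (s4 h2)
    have hO : {x : ℂ × ℂ | x.2 ∈ Metric.ball t0 ρ2 ∧ ‖x.1 - x0‖ < η} ∈ 𝓝 q := by
      refine Filter.inter_mem ((continuous_snd.tendsto q) (Metric.isOpen_ball.mem_nhds h22)) ?_
      have h3 : Continuous fun q : ℂ × ℂ => ‖q.1 - x0‖ := by fun_prop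
      exact (h3.tendsto q).eventually (gt_mem_nhds h1)
    have hfa : HasStrictDerivAt f0 (f' q.2) q.2 := by
      have e1 : DifferentiableOn ℂ f0 (Metric.ball t0 ρ2) := fun t ht =>
        (hf t ht).differentiableAt.differentiableWithinAt
      have e2 := (w1_an e1 q.2 h22).hasStrictDerivAt
      rwa [(hf q.2 h22).deriv] at e2
    have hga : HasStrictDerivAt (g j) (g' j q.2) q.2 := by
      have e1 : DifferentiableOn ℂ (g j) (Metric.ball t0 ρ2) := fun t ht =>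
        (hg j t ht).differentiableAt.differentiableWithinAt
      have e2 := (w1_an e1 q.2 h22).hasStrictDerivAt
      rwa [(hg j q.2 h22).deriv] at e2
    have h4 := star S hc hε0 hε hb1 hb2 hq (fun i => ((hloc q.2 h22).1 i).1) hfa hga (hf'ne q.2 h22)
      (Filter.eventually_of_mem (Metric.isOpen_ball.mem_nhds h22) hfre) j hO
      (hG.mono fun n hGn σ hσ => by
        have e1 : S.X n σ = ξ (S.t n σ) := hξu _ (Metric.ball_subset_ball hρ21 hσ.1) _ hσ.2 (hGn σ)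
        rw [hgre j _ hσ.1, ← e1, hrr n σ j]
        ring)
      (Filter.eventually_of_mem (Metric.isOpen_ball.mem_nhds h2) (hz j))
    rw [hkd]
    exact h4
  -- k is algebraic
  have hball4 : ∀ t ∈ Metric.ball t0 ρ4, ∀ i, t ≠ d i := fun t ht i => ((hloc t (s42 ht)).1 i).1
  have hξA : Alg t0 ρ4 ξ := ⟨hξd.mono ((s42).trans (Metric.ball_subset_ball hρ21)), G, hG0,
    fun t ht => hξG t (Metric.ball_subset_ball hρ21 (s42 ht))⟩
  have hξ'A : Alg t0 ρ4 (fun t => deriv ξ t) := Alg.deriv hρ4 hξA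
  have hdlA : ∀ j, Alg t0 ρ4 (w1_dl ξ j) := by
    intro j
    match j with
    | 0 =>
      exact w1_congr (Alg.mul hρ4 hξ'A (Alg.inv hρ4 hξA fun t ht => (hloc t (s42 ht)).2.1)) fun t _ =>
        div_eq_mul_inv _ _
    | 1 =>
      refine w1_congr (Alg.mul hρ4 (w1_cmul hρ4 hξ'A (-1)) (Alg.inv hρ4 (w1_sub hρ4 (Alg.const hρ4 1) hξA)
        fun t ht => sub_ne_zero.2 (hloc t (s42 ht)).2.2.1.symm)) fun t _ => ?_
      show - deriv ξ t / (1 - ξ t) = _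
      rw [div_eq_mul_inv, neg_one_mul]
  have hkA : ∀ j, Alg t0 ρ4 (k j) := by
    intro j
    refine w1_congr (Alg.mul hρ4 (w1_sub hρ4 (hdlA j) (w1_rat hρ4 (v := M' j) hball4))
      (Alg.inv hρ4 (w1_rat hρ4 (v := u') hball4) fun t ht => (hloc t (s42 ht)).2.2.2.2)) fun t _ => ?_
    rw [hkd, hg'd, hf'd]
    exact div_eq_mul_inv _ _
  -- relations between the continuations
  have hLd := w1_L_deriv hρρ4 (fun i t ht => ((hloc t (s42 ht)).1 i).2.1) (hχd.mono (s4.trans s43)) hτ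
  have hLD : ∀ i, DifferentiableOn ℂ (w1_L ℓ χ i) (Metric.ball t0 ρ) := fun i t ht =>
    (hLd i t ht).differentiableAt.differentiableWithinAt
  have hΛdt : ∀ v : Fin 3 → ℝ, ∀ t ∈ Metric.ball t0 ρ, (f0 t).re = 0 →
      ∑ i, (v i : ℂ) * w1_L ℓ χ i t = (dt v (LY c d t) : ℂ) := by
    intro v t ht h
    unfold dt
    push_cast
    exact Finset.sum_congr rfl fun i _ => by rw [hΛ i t ht h]
  have hpts : ∀ O ∈ 𝓝 t0, ∃ q ∈ S.Sup, q.2 ∈ O ∧ q.2 ≠ t0 ∧ ‖q.1 - x0‖ < η ∧ q.2 ∈ Metric.ball t0 ρ ∧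
      (f0 q.2).re = 0 := by
    intro O hO
    obtain ⟨q, q1, q2, q3, q4⟩ := hacc (O ∩ Metric.ball t0 ρ) (Filter.inter_mem hO (Metric.ball_mem_nhds t0 hρ))
    exact ⟨q, q1, q2.1, q3, q4, q2.2, (hpt q q1 (s42 (s4 q2.2)) q4).2.1⟩
  have hrel1 : ∀ t ∈ Metric.ball t0 ρ, ∑ i, (u' i : ℂ) * w1_L ℓ χ i t = 0 := by
    refine w1_ident hρ (DifferentiableOn.fun_sum fun i _ => (hLD i).const_mul _) fun O hO => ?_
    obtain ⟨q, q1, q2, q3, q4, q5, q6⟩ := hpts O hO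
    refine ⟨q.2, q2, q3, ?_⟩
    rw [hΛdt u' q.2 q5 q6, ← hfre q.2 (s42 (s4 q5)), q6, Complex.ofReal_zero]
  have hrel2 : ∀ j, ∀ t ∈ Metric.ball t0 ρ, ∑ i, (M1 j i : ℂ) * w1_L ℓ χ i t +
      k j t * ∑ i, (u1 i : ℂ) * w1_L ℓ χ i t = 0 := by
    intro j
    refine w1_ident hρ ((DifferentiableOn.fun_sum fun i _ => (hLD i).const_mul _).fun_add
      ((((hkA j).mono s4).1).fun_mul (DifferentiableOn.fun_sum fun i _ => (hLD i).const_mul _))) fun O hO => ?_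
    obtain ⟨q, q1, q2, q3, q4, q5, q6⟩ := hpts O hO
    refine ⟨q.2, q2, q3, ?_⟩
    rw [hΛdt (M1 j) q.2 q5 q6, hΛdt u1 q.2 q5 q6, hstar q q1 q5 q4 j, ← hkre j q.2 q5 q6]
    push_cast
    rw [Complex.ofReal_re]
    ring
  have hv : ∀ v : Fin 3 → ℝ, LinearIndependent ℝ ![u', v] →
      ¬ ∀ t ∈ Metric.ball t0 ρ, ∑ i, (v i : ℂ) * w1_L ℓ χ i t = 0 := by
    intro v hi h
    have hfin := hH u' v hi
    obtain ⟨q, q1, q2, q3, q4, q5, q6⟩ := hpts (({t : ℂ | (∀ i, t ≠ d i) ∧ dt u' (LY c d t) = 0 ∧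
      dt v (LY c d t) = 0} \ {t0})ᶜ) ((hfin.sdiff).isClosed.isOpen_compl.mem_nhds (by simp))
    apply q2
    refine ⟨⟨fun i => ((hloc q.2 (s42 (s4 q5))).1 i).1, ?_, ?_⟩, q3⟩
    · rw [← hfre q.2 (s42 (s4 q5))]; exact q6
    · have e1 := h q.2 q5
      rw [hΛdt v q.2 q5 q6] at e1
      exact_mod_cast e1
  have hu10 : u1 ≠ 0 := by
    intro h
    apply hne
    refine ⟨h, ?_⟩
    funext j
    have e1 : ¬ LinearIndependent ℝ ![u', M1 j] := by
      intro hi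
      refine hv (M1 j) hi fun t ht => ?_
      have e2 := hrel2 j t ht
      rw [h] at e2
      simpa using e2
    obtain ⟨s, hs⟩ := w1_indep hu0 e1
    have e3 := L2 j
    rw [h, hs] at e3
    rw [w1_dt] at hu1
    simp only [w1_dt, Pi.smul_apply, smul_eq_mul, Pi.zero_apply] at e3
    have e4 : s = 0 := by linear_combination e3 - s * hu1
    rw [hs, e4, zero_smul]
    rfl
  have hind : LinearIndependent ℝ ![u', u1] := w1_indep2 hu1 hu10 L1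
  have hconst : ∀ j, ∀ t ∈ Metric.ball t0 ρ, k j t = k j t0 := fun j =>
    w1_const hρ hρρ4 (fun i t ht => ⟨((hloc t (s42 ht)).1 i).1, ((hloc t (s42 ht)).1 i).2.1,
      ((hloc t (s42 ht)).1 i).2.2.2⟩) (hχd.mono (s4.trans s43)) hτ (hkA j) (hkc j) hind hrel1 (hrel2 j) hv
  refine ⟨fun j => (k j t0).re, t0, ρ, ξ, hρ, hξd.mono ((s4.trans s42).trans (Metric.ball_subset_ball hρ21)),
    ?_, ?_⟩
  · intro t ht
    have ht2 := s42 (s4 ht)
    obtain ⟨l1, l2, l3, l4, l5⟩ := hloc t ht2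
    have hfin : ∀ j, w1_dl ξ j t = ∑ i, ((M' j i + (k j t0).re * u' i : ℝ) : ℂ) / (t - d i) := by
      intro j
      have e1 := hconst j t ht
      rw [← hkre j t0 (Metric.mem_ball_self hρ) hf00, hkd] at e1
      simp only at e1
      rw [div_eq_iff (hf'ne t ht2), hg'd, hf'd] at e1
      simp only at e1
      have e2 : ∑ i, ((M' j i + (k j t0).re * u' i : ℝ) : ℂ) / (t - d i) =
          ∑ i, (M' j i : ℂ) / (t - d i) + ((k j t0).re : ℂ) * ∑ i, (u' i : ℂ) / (t - d i) := by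
        rw [Finset.mul_sum, ← Finset.sum_add_distrib]
        exact Finset.sum_congr rfl fun i _ => by push_cast; ring
      rw [e2, hkd, hg'd, hf'd]
      linear_combination e1
    exact ⟨fun i => (l1 i).1, l2, l3, hfin 0, hfin 1⟩
  · have h1 : {q : ℂ × ℂ | q.2 ∈ Metric.ball t0 ρ ∧ ‖q.1 - x0‖ < η} ∈ 𝓝 (x0, t0) := by
      refine Filter.inter_mem ((continuous_snd.tendsto (x0, t0)) (Metric.ball_mem_nhds t0 hρ)) ?_
      have h2 : Continuous fun q : ℂ × ℂ => ‖q.1 - x0‖ := by fun_prop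
      exact (h2.tendsto (x0, t0)).eventually (gt_mem_nhds (by simpa using hη))
    filter_upwards [hp _ h1, hG] with n hn hGn
    obtain ⟨σ, q1, q2⟩ := hn
    exact ⟨σ, q1, hξu _ (Metric.ball_subset_ball hρ21 (s42 (s4 q1))) _ q2 (hGn σ)⟩

end Pool.Agent.Z5
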