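import Pool.Agent.Z5.E2
import Pool.Agent.Z5.E4
import Pool.Agent.Z5.E5
import Pool.Agent.Z5.W1

namespace Pool.Agent.Z5

open Pool.Agent.ZL2 Filter Topology

variable {F : Type} [Field F] [NumberField F] [Algebra F ℂ] {a b : F} {c d : Fin 3 → F}

theorem e6_lim {ι : Type} {E : Type} [NormedAddCommGroup E] [ProperSpace E] (U : Ultrafilter ι) (f : ι → E) {R : ℝ}
    (h : ∀ᶠ n in (U : Filter ι), ‖f n‖ ≤ R) : ∃ x : E, Tendsto f (U : Filter ι) (𝓝 x) := by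
  have h1 : Metric.closedBall (0 : E) R ∈ U.map f := by
    show ∀ᶠ n in (U : Filter ι), f n ∈ Metric.closedBall (0 : E) R
    exact h.mono fun n hn => mem_closedBall_zero_iff.2 hn
  obtain ⟨x, _, hx⟩ := (isCompact_closedBall (0 : E) R).ultrafilter_le_nhds' (U.map f) h1
  exact ⟨x, hx⟩

theorem e6_norm {v : Fin 3 → ℝ} (h : dt v v = 1) : ‖v‖ ≤ 1 := by
  rw [pi_norm_le_iff_of_nonneg zero_le_one]
  intro i
  rw [Real.norm_eq_abs, abs_le_one_iff_mul_self_le_one, ← h]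
  unfold dt
  exact Finset.single_le_sum (f := fun i => v i * v i) (fun j _ => mul_self_nonneg (v j)) (Finset.mem_univ i)

/-- Row Z5-E6. The dichotomy for a sequence. `ArM.bdd` gives `A0`; `u n` has coordinates in `[-1, 1]` (`hu`), `M n` in `[-A0, A0]` for `U`-many `n`; limits `u', M'` along `U` by compactness (`IsCompact.ultrafilter_le_nhds` for `U.map`). `exists_eq`, `Ar.exists_G` give `G, E`.
If `∀ᶠ n in U, A.u n = u' ∧ A.M n = M'`: first alternative. Otherwise (ultrafilter) `∀ᶠ n in U, ¬ (...)`: `W1` for `A.sq U hU` (with `G, E`, the limits) and `end_beta`. -/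
theorem ArM.main (A : ArM F a b c d) (U : Ultrafilter ℕ) (hU : (U : Filter ℕ) ≤ cofinite)
    (hX : Function.Injective (fun n => A.j n (A.X n)) ∨ ∃ x : F, ∀ n, A.X n = algebraMap F (A.K n) x) :
    (∃ (u' : Fin 3 → ℝ) (M' : Fin 2 → Fin 3 → ℝ), ∀ᶠ n in (U : Filter ℕ), A.u n = u' ∧ A.M n = M') ∨
    ∃ (m : Fin 2 → Fin 3 → ℤ) (k : ℕ), 0 < k ∧ ∀ᶠ n in (U : Filter ℕ),
      (A.X n / algebraMap F (A.K n) a * ∏ i, A.y n i ^ (- m 0 i)) ^ k = 1 ∧
      ((1 - A.X n) / algebraMap F (A.K n) b * ∏ i, A.y n i ^ (- m 1 i)) ^ k = 1 := by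
  obtain ⟨A0, hA⟩ := A.bdd U hU
  obtain ⟨u', hu'⟩ := e6_lim U A.u (R := 1) (Eventually.of_forall fun n => e6_norm (A.hu n))
  obtain ⟨M', hM'⟩ := e6_lim U A.M (R := |A0|) (by
    have hA2 : ∀ᶠ n in (U : Filter ℕ), ∀ j i, |A.M n j i| ≤ A0 := hA
    refine hA2.mono fun n hn => ?_
    rw [pi_norm_le_iff_of_nonneg (abs_nonneg _)]
    intro j
    rw [pi_norm_le_iff_of_nonneg (abs_nonneg _)]
    intro i
    exact (hn j i).trans (le_abs_self _))
  by_cases h : ∀ᶠ n in (U : Filter ℕ), A.u n = u' ∧ A.M n = M'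
  · exact Or.inl ⟨u', M', h⟩
  right
  have hnc : ∀ᶠ n in (U : Filter ℕ), ¬ (A.u n = u' ∧ A.M n = M') := Ultrafilter.eventually_not.2 h
  obtain ⟨L, f, hf, hev⟩ := A.exists_eq U hU
  obtain ⟨G, E, hG0, hE, hsep, hG⟩ := A.toAr.exists_G U hU f hf hev
  obtain ⟨κ, t0, ρ, ξ, hρ, hξ, hode, hs⟩ := W1 ((map_ne_zero _).2 A.ha) ((map_ne_zero _).2 A.hb) (A.sq U hU)
    (fun i => (map_ne_zero _).2 (A.hc i)) ((algebraMap F ℂ).injective.comp A.hd) A.hH hA hu' hM' G hG0 hG hE hsep hnc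
  exact A.end_beta hU hX hu' hM' hρ hξ hode hs

end Pool.Agent.Z5
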