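import Pool.Agent.ZL2.Geom4

open MvPolynomial Pool.Agent.MP_dd1803_nt Pool.Agent.ZPA

namespace Pool.Agent.Z5

/-- The product of the line `a x_0 + b x_1 = 1` and of the line `y_i = c_i (t - d_i)`. -/
def TL (a b : ℂ) (c d : Fin 3 → ℂ) : Set (Fin 2 ⊕ Fin 3 → ℂˣ) :=
  {x | a * (x (Sum.inl 0) : ℂ) + b * (x (Sum.inl 1) : ℂ) = 1 ∧
    ∃ t : ℂ, ∀ i, (x (Sum.inr i) : ℂ) = c i * (t - d i)}

variable {a b : ℂ} {c d : Fin 3 → ℂ}

theorem g1_iff (hc : ∀ i, c i ≠ 0) (x : Fin 2 ⊕ Fin 3 → ℂˣ) :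
    (∃ t : ℂ, ∀ i, (x (Sum.inr i) : ℂ) = c i * (t - d i)) ↔
      ∀ i, c 0 * (x (Sum.inr i) : ℂ) - c i * (x (Sum.inr 0) : ℂ) - c 0 * c i * (d 0 - d i) = 0 := by
  constructor
  · rintro ⟨t, ht⟩ i
    rw [ht i, ht 0]; ring
  · intro h
    refine ⟨(x (Sum.inr 0) : ℂ) / c 0 + d 0, fun i => ?_⟩
    have h1 := h i
    have h2 := hc 0
    field_simp
    linear_combination h1

/-- The three equations. -/
noncomputable def g1P (a b : ℂ) (c d : Fin 3 → ℂ) (i : Fin 3) : MvPolynomial (Fin 2 ⊕ Fin 3) ℂ :=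
  if i = 0 then C a * X (Sum.inl 0) + C b * X (Sum.inl 1) - 1
  else C (c 0) * X (Sum.inr i) - C (c i) * X (Sum.inr 0) - C (c 0 * c i * (d 0 - d i))

theorem g1_mem (hc : ∀ i, c i ≠ 0) (x : Fin 2 ⊕ Fin 3 → ℂˣ) :
    x ∈ TL a b c d ↔ ∀ i, aeval (co x) (g1P a b c d i) = 0 := by
  have h0 : aeval (co x) (g1P a b c d 0) = a * (x (Sum.inl 0) : ℂ) + b * (x (Sum.inl 1) : ℂ) - 1 := by
    unfold g1P
    rw [if_pos rfl, map_sub, map_add, map_mul, map_mul, aeval_X, aeval_X, aeval_C, aeval_C, map_one]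
    rfl
  have hi : ∀ i, i ≠ 0 → aeval (co x) (g1P a b c d i) =
      c 0 * (x (Sum.inr i) : ℂ) - c i * (x (Sum.inr 0) : ℂ) - c 0 * c i * (d 0 - d i) := by
    intro i hi
    unfold g1P
    rw [if_neg hi, map_sub, map_sub, map_mul, map_mul, aeval_X, aeval_X, aeval_C, aeval_C, aeval_C]
    rfl
  have e : x ∈ TL a b c d ↔ a * (x (Sum.inl 0) : ℂ) + b * (x (Sum.inl 1) : ℂ) = 1 ∧
    ∃ t : ℂ, ∀ i, (x (Sum.inr i) : ℂ) = c i * (t - d i) := Iff.rfl
  rw [e, g1_iff hc]
  constructor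
  · rintro ⟨h1, h2⟩ i
    by_cases hi0 : i = 0
    · subst hi0
      rw [h0, h1, sub_self]
    · rw [hi i hi0]
      exact h2 i
  · intro h
    refine ⟨?_, fun i => ?_⟩
    · have := h 0
      rw [h0] at this
      linear_combination this
    · by_cases hi0 : i = 0
      · subst hi0
        ring
      · have := h i
        rw [hi i hi0] at this
        exact this

/-- Row Z5-G1. Compare `ZL2/Geom.lean` (`zclosed_Lines`, `exists_basis_Lines`, `dm_Lines`), `ZL2/Geom2.lean` (`irr_Lines`, `td_Lines`, `rk_Lines`), `ZL2/Geom3.lean` (`coset_point`).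
`TL` is the zero set of `a x_0 + b x_1 - 1` and `c_0 y_i - c_i y_0 - c_0 c_i (d_0 - d_i)` (`i = 1, 2`). -/
theorem zclosed_TL (hc : ∀ i, c i ≠ 0) : ZClosed (TL a b c d) := by
  refine ⟨Set.range (g1P a b c d), ?_⟩
  ext x
  rw [g1_mem hc]
  simp only [Set.mem_ofPred_eq, Set.forall_mem_range, Pool.Agent.MP_dd1803_nt.aeval_eq_eval]

/-- The polynomial parametrisation `(s, t) ↦ (s, (1 - a s)/b, c_i (t - d_i))`, or as in `irr_Lines`. -/
theorem irr_TL (ha : a ≠ 0) (hb : b ≠ 0) (hc : ∀ i, c i ≠ 0) (hd : Function.Injective d) : Irr (TL a b c d) := by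
  classical
  let φ : MvPolynomial (Fin 2 ⊕ Fin 3) ℂ →ₐ[ℂ] MvPolynomial (Fin 2) ℂ :=
    aeval (Sum.elim (fun i => if i = 0 then X 0 else C (b⁻¹) * (1 - C a * X 0)) (fun i => C (c i) * (X 1 - C (d i))))
  have hφ0 : φ (X (Sum.inl 0)) = X 0 := by simp [φ]
  have hφ1 : φ (X (Sum.inl 1)) = C (b⁻¹) * (1 - C a * X 0) := by simp [φ]
  have hφr : ∀ i, φ (X (Sum.inr i)) = C (c i) * (X 1 - C (d i)) := fun i => by simp [φ]
  have hφC : ∀ z : ℂ, φ (C z) = C z := fun z => by simp [φ]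
  have hprime : (RingHom.ker φ).IsPrime := RingHom.ker_isPrime φ
  have hX : ∀ i, (X i : MvPolynomial (Fin 2 ⊕ Fin 3) ℂ) ∉ RingHom.ker φ := by
    intro i hi
    rw [RingHom.mem_ker] at hi
    rcases i with i | i
    · fin_cases i
      · have hi' : φ (X (Sum.inl 0)) = 0 := hi
        rw [hφ0] at hi'
        exact X_ne_zero _ hi'
      · have hi' : φ (X (Sum.inl 1)) = 0 := hi
        rw [hφ1] at hi'
        have h1 := congrArg (eval (0 : Fin 2 → ℂ)) hi'
        simp [hb] at h1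
    · rw [hφr] at hi
      have h1 := congrArg (eval (fun _ : Fin 2 => d i + 1)) hi
      simp [hc i] at h1
  have h := irr_zl (F := ℂ) (RingHom.ker φ) hX
  have e : TL a b c d = zl (F := ℂ) ℂ (RingHom.ker φ : Set (MvPolynomial (Fin 2 ⊕ Fin 3) ℂ)) := by
    ext x
    rw [mem_zl]
    constructor
    · rintro ⟨hx, t, ht⟩ p hp
      have h1 : ∀ p, aeval (co x) p =
          aeval (fun i : Fin 2 => if i = 0 then (x (Sum.inl 0) : ℂ) else t) (φ p) := by
        intro p
        rw [MvPolynomial.comp_aeval_apply]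
        congr 1
        congr 1
        funext i
        rcases i with i | i
        · fin_cases i
          · simp [co]
          · simp only [co, Fin.mk_one, Sum.elim_inl, one_ne_zero, if_false, map_mul, map_sub, map_one,
              aeval_C, aeval_X, if_true]
            show (x (Sum.inl 1) : ℂ) = b⁻¹ * (1 - a * (x (Sum.inl 0) : ℂ))
            field_simp
            linear_combination hx
        · simp only [co, Sum.elim_inr, map_mul, map_sub, aeval_C, aeval_X, one_ne_zero, if_false]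
          exact ht i
      rw [h1, (RingHom.mem_ker.1 hp : φ p = 0), map_zero]
    · intro hx
      rw [g1_mem hc]
      intro i
      apply hx
      rw [SetLike.mem_coe, RingHom.mem_ker]
      unfold g1P
      split_ifs with hi
      · rw [map_sub, map_add, map_mul, map_mul, hφ0, hφ1, map_one, hφC, hφC, ← mul_assoc, ← C_mul,
          mul_inv_cancel₀ hb, C_1]
        ring
      · rw [map_sub, map_sub, map_mul, map_mul, hφr, hφr, hφC, hφC, hφC]
        simp only [C_mul, C_sub]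
        ring
  rw [e]
  exact h

theorem g1_nonempty (ha : a ≠ 0) (hb : b ≠ 0) (hc : ∀ i, c i ≠ 0) :
    ∃ x ∈ TL a b c d, True := by
  obtain ⟨t, ht⟩ : ∃ t : ℂ, ∀ i, t ≠ d i := by
    obtain ⟨t, ht⟩ := ((Set.finite_range d).infinite_compl).nonempty
    exact ⟨t, fun i h => ht ⟨i, h.symm⟩⟩
  have h2 : (2 : ℂ) ≠ 0 := two_ne_zero
  refine ⟨Sum.elim (fun i => if i = 0 then Units.mk0 ((2 * a)⁻¹) (inv_ne_zero (mul_ne_zero h2 ha))
      else Units.mk0 ((2 * b)⁻¹) (inv_ne_zero (mul_ne_zero h2 hb)))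
    (fun i => Units.mk0 (c i * (t - d i)) (mul_ne_zero (hc i) (sub_ne_zero.2 (ht i)))), ⟨?_, t, fun i => ?_⟩, trivial⟩
  · simp only [Sum.elim_inl, if_true, one_ne_zero, if_false, Units.val_mk0]
    field_simp
    norm_num
  · simp

theorem g1_basis (hb : b ≠ 0) (hc : ∀ i, c i ≠ 0) {Z : Set (Fin 2 ⊕ Fin 3 → ℂˣ)} (hZ : Irr Z)
    (h : Z ⊆ TL a b c d) : td ℂ Z ≤ 2 := by
  classical
  have hP := vI_isPrime (k := ℂ) hZ.pirr
  have hne : Nontrivial (MvPolynomial (Fin 2 ⊕ Fin 3) ℂ ⧸ vI ℂ Z) := inferInstance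
  have hgen0 : ∀ s : Set (Fin 2 ⊕ Fin 3), ∀ i ∈ s, gen ℂ Z i ∈ Algebra.adjoin ℂ (gen ℂ Z '' s) := fun s i hi =>
    Algebra.subset_adjoin ⟨_, hi, rfl⟩
  have key : ∀ i, gen ℂ Z i ∈ Algebra.adjoin ℂ (gen ℂ Z '' {Sum.inl 0, Sum.inr 0}) := by
    intro i
    have hl0 := hgen0 {Sum.inl 0, Sum.inr 0} (Sum.inl 0) (by simp)
    have hr0 := hgen0 {Sum.inl 0, Sum.inr 0} (Sum.inr 0) (by simp)
    rcases i with i | i
    · fin_cases i
      · exact hl0
      · have h2 : gen ℂ Z (Sum.inl 1) = b⁻¹ • (1 - a • gen ℂ Z (Sum.inl 0)) := by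
          have h3 : (X (Sum.inl 1) - b⁻¹ • (1 - a • X (Sum.inl 0)) : MvPolynomial (Fin 2 ⊕ Fin 3) ℂ) ∈ vI ℂ Z := by
            rw [mem_vI]
            intro y hy
            have h5 := (h hy).1
            rw [map_sub, map_smul, map_sub, map_smul, aeval_X, aeval_X, map_one, sub_eq_zero]
            simp only [co_apply, smul_eq_mul]
            rw [← h5]
            field_simp
            ring
          have h4 := Ideal.Quotient.eq_zero_iff_mem.mpr h3
          have h5 : Ideal.Quotient.mkₐ ℂ (vI ℂ Z) (X (Sum.inl 1) - b⁻¹ • (1 - a • X (Sum.inl 0))) = 0 := h4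
          rw [map_sub, map_smul, map_sub, map_smul, map_one, sub_eq_zero] at h5
          exact h5
        show gen ℂ Z (Sum.inl 1) ∈ _
        rw [h2]
        exact Subalgebra.smul_mem _ (Subalgebra.sub_mem _ (Subalgebra.one_mem _)
          (Subalgebra.smul_mem _ hl0 _)) _
    · have h2 : gen ℂ Z (Sum.inr i) = (c 0)⁻¹ • (c i • gen ℂ Z (Sum.inr 0) + (c 0 * c i * (d 0 - d i)) • 1) := by
        have h3 : (X (Sum.inr i) - (c 0)⁻¹ • (c i • X (Sum.inr 0) + (c 0 * c i * (d 0 - d i)) • 1) :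
            MvPolynomial (Fin 2 ⊕ Fin 3) ℂ) ∈ vI ℂ Z := by
          rw [mem_vI]
          intro y hy
          have h5 := (g1_iff hc y).1 (h hy).2 i
          rw [map_sub, map_smul, map_add, map_smul, map_smul, aeval_X, aeval_X, map_one, sub_eq_zero]
          simp only [co_apply, smul_eq_mul]
          have h6 := hc 0
          field_simp
          linear_combination h5
        have h4 := Ideal.Quotient.eq_zero_iff_mem.mpr h3
        have h5 : Ideal.Quotient.mkₐ ℂ (vI ℂ Z)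
          (X (Sum.inr i) - (c 0)⁻¹ • (c i • X (Sum.inr 0) + (c 0 * c i * (d 0 - d i)) • 1)) = 0 := h4
        rw [map_sub, map_smul, map_add, map_smul, map_smul, map_one, sub_eq_zero] at h5
        exact h5
      rw [h2]
      exact Subalgebra.smul_mem _ (Subalgebra.add_mem _ (Subalgebra.smul_mem _ hr0 _)
        (Subalgebra.smul_mem _ (Subalgebra.one_mem _) _)) _
  obtain ⟨s, hs, _, hcard⟩ := exists_basis (k := ℂ) hZ.pirr {Sum.inl 0, Sum.inr 0} fun i =>
    isAlgebraic_algebraMap (⟨_, key i⟩ : Algebra.adjoin ℂ (gen ℂ Z '' {Sum.inl 0, Sum.inr 0}))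
  rw [← hcard]
  refine (Set.ncard_le_ncard hs).trans ?_
  rw [Set.ncard_pair (by simp)]

theorem dm_TL (ha : a ≠ 0) (hb : b ≠ 0) (hc : ∀ i, c i ≠ 0) (hd : Function.Injective d) :
    dm (TL a b c d) = (2 : WithBot ℕ∞) := by
  obtain ⟨x, hx, -⟩ := g1_nonempty (d := d) ha hb hc
  obtain ⟨n, hn, _, h1, Z, hZ, hZV, h2⟩ := exists_dm (⟨x, hx⟩ : (TL a b c d).Nonempty)
  rw [hn]
  have h3 : n ≤ 2 := by
    rw [← h2]
    exact g1_basis hb hc hZ hZV
  have h4 : 2 ≤ n := by
    have h5 : TL a b c d = Set.univ ∩ {x | ∀ i ∈ (Finset.univ : Finset (Fin 3)),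
        aeval (co x) (g1P a b c d i) = 0} := by
      ext y
      rw [g1_mem hc]
      simp only [Set.mem_inter_iff, Set.mem_univ, true_and, Finset.mem_univ, true_implies,
        Set.mem_ofPred_eq]
    obtain ⟨Y, hY, _⟩ := exists_comp_mem (zclosed_TL hc) hx
    have hY' := hY
    rw [h5] at hY'
    have h6 := krull_list Finset.univ _ irr_univ hY'
    rw [td_univ] at h6
    have h7 := h1 Y hY.irr hY.subset
    simp only [Fintype.card_sum, Fintype.card_fin, Finset.card_univ] at h6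
    omega
  have h5 : n = 2 := le_antisymm h3 h4
  rw [h5]
  rfl

theorem td_TL (ha : a ≠ 0) (hb : b ≠ 0) (hc : ∀ i, c i ≠ 0) (hd : Function.Injective d) : td ℂ (TL a b c d) = 2 := by
  have h1 := dm_TL ha hb hc hd
  rw [dm_irr (irr_TL ha hb hc hd)] at h1
  exact_mod_cast h1

theorem g1_pt (hb : b ≠ 0) (hc : ∀ i, c i ≠ 0) {s t : ℂ} (hs : s ≠ 0) (hs1 : 1 - a * s ≠ 0) (ht : ∀ i, t ≠ d i) :
    ∃ x ∈ TL a b c d, (x (Sum.inl 0) : ℂ) = s ∧ (x (Sum.inl 1) : ℂ) = b⁻¹ * (1 - a * s) ∧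
      ∀ i, (x (Sum.inr i) : ℂ) = c i * (t - d i) := by
  refine ⟨Sum.elim (fun i => if i = 0 then Units.mk0 s hs
      else Units.mk0 (b⁻¹ * (1 - a * s)) (mul_ne_zero (inv_ne_zero hb) hs1))
    (fun i => Units.mk0 (c i * (t - d i)) (mul_ne_zero (hc i) (sub_ne_zero.2 (ht i)))), ⟨?_, t, fun i => ?_⟩, ?_, ?_, fun i => ?_⟩
  · simp only [Sum.elim_inl, if_true, one_ne_zero, if_false, Units.val_mk0]
    field_simp
    ring
  · simp
  · simp
  · simp
  · simp

theorem g1_ypart (hc : ∀ i, c i ≠ 0) (hd : Function.Injective d) (n : Fin 3 → ℤ)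
    (h : ∀ t, (∀ i, t ≠ d i) → ∏ i, (c i * (t - d i)) ^ n i = 1) (j : Fin 3) : ¬ 0 < n j := by
  intro hj
  let P : Polynomial ℂ := ∏ i, (Polynomial.C (c i) * (Polynomial.X - Polynomial.C (d i))) ^ (n i).toNat
  let Q : Polynomial ℂ := ∏ i, (Polynomial.C (c i) * (Polynomial.X - Polynomial.C (d i))) ^ (-n i).toNat
  have hP : ∀ t, P.eval t = ∏ i, (c i * (t - d i)) ^ (n i).toNat := by
    intro t
    simp only [P, Polynomial.eval_prod, Polynomial.eval_pow, Polynomial.eval_mul, Polynomial.eval_C,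
      Polynomial.eval_sub, Polynomial.eval_X]
  have hQ : ∀ t, Q.eval t = ∏ i, (c i * (t - d i)) ^ (-n i).toNat := by
    intro t
    simp only [Q, Polynomial.eval_prod, Polynomial.eval_pow, Polynomial.eval_mul, Polynomial.eval_C,
      Polynomial.eval_sub, Polynomial.eval_X]
  have hPQ : P = Q := by
    refine Polynomial.eq_of_infinite_eval_eq P Q ?_
    refine ((Set.finite_range d).infinite_compl).mono fun t ht => ?_
    have ht' : ∀ i, t ≠ d i := fun i e => ht ⟨i, e.symm⟩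
    show P.eval t = Q.eval t
    rw [hP, hQ]
    have h1 := h t ht'
    have h2 : ∏ i, (c i * (t - d i)) ^ (n i).toNat =
        (∏ i, (c i * (t - d i)) ^ n i) * ∏ i, (c i * (t - d i)) ^ (-n i).toNat := by
      rw [← Finset.prod_mul_distrib]
      refine Finset.prod_congr rfl fun i _ => ?_
      have h3 : c i * (t - d i) ≠ 0 := mul_ne_zero (hc i) (sub_ne_zero.2 (ht' i))
      rw [← zpow_natCast, ← zpow_natCast, ← zpow_add₀ h3]
      congr 1
      omega
    rw [h2, h1, one_mul]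
  have h1 := hP (d j)
  rw [hPQ, hQ] at h1
  have h2 : ∏ i, (c i * (d j - d i)) ^ (n i).toNat = 0 := by
    refine Finset.prod_eq_zero (Finset.mem_univ j) ?_
    rw [sub_self, mul_zero, zero_pow]
    omega
  rw [h2, Finset.prod_eq_zero_iff] at h1
  obtain ⟨i, _, hi⟩ := h1
  by_cases hij : i = j
  · subst hij
    have h4 : (-n i).toNat = 0 := by omega
    rw [h4, pow_zero] at hi
    exact one_ne_zero hi
  · exact pow_ne_zero _ (mul_ne_zero (hc i) (sub_ne_zero.2 fun e => hij (hd e).symm)) hi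

/-- No nontrivial monomial is constant up to a torsion factor on `TL`. -/
theorem rk_TL (ha : a ≠ 0) (hb : b ≠ 0) (hc : ∀ i, c i ≠ 0) (hd : Function.Injective d) : rk (TL a b c d) = 0 := by
  classical
  have h0 : Lam (TL a b c d) = ⊥ := by
    rw [Submodule.eq_bot_iff]
    intro m hm
    obtain ⟨N, hN, hm⟩ := hm
    have hN' : (N : ℤ) ≠ 0 := by exact_mod_cast hN.ne'
    obtain ⟨t0, ht0⟩ : ∃ t : ℂ, ∀ i, t ≠ d i := by
      obtain ⟨t, ht⟩ := ((Set.finite_range d).infinite_compl).nonempty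
      exact ⟨t, fun i h => ht ⟨i, h.symm⟩⟩
    have key : ∀ s t : ℂ, s ≠ 0 → 1 - a * s ≠ 0 → (∀ i, t ≠ d i) →
        (s ^ ((N : ℤ) * m (Sum.inl 0)) * (b⁻¹ * (1 - a * s)) ^ ((N : ℤ) * m (Sum.inl 1))) *
          ∏ i, (c i * (t - d i)) ^ ((N : ℤ) * m (Sum.inr i)) = 1 := by
      intro s t hs hs1 ht
      obtain ⟨x, hx, e1, e2, e3⟩ := g1_pt (a := a) hb hc hs hs1 ht
      have h1 := congrArg Units.val (hm x hx)
      unfold ch at h1
      rw [Fintype.prod_sum_type, Fin.prod_univ_two] at h1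
      push_cast at h1
      rw [e1, e2, mul_pow, mul_pow, ← Finset.prod_pow] at h1
      refine Eq.trans ?_ h1
      simp_rw [e3, mul_comm (N : ℤ), zpow_mul, zpow_natCast]
    have hx : m (Sum.inl 0) = 0 ∧ m (Sum.inl 1) = 0 := by
      by_contra hcon
      rw [not_and_or] at hcon
      have hC0 : (∏ i, (c i * (t0 - d i)) ^ ((N : ℤ) * m (Sum.inr i))) ≠ 0 :=
        Finset.prod_ne_zero_iff.2 fun i _ => zpow_ne_zero _ (mul_ne_zero (hc i) (sub_ne_zero.2 (ht0 i)))
      have hfin := ZL2.fin_sol ha hb (n := (N : ℤ) * m (Sum.inl 0)) (n' := (N : ℤ) * m (Sum.inl 1))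
        (by
          rcases hcon with h | h
          · exact Or.inl (mul_ne_zero hN' h)
          · exact Or.inr (mul_ne_zero hN' h)) (∏ i, (c i * (t0 - d i)) ^ ((N : ℤ) * m (Sum.inr i)))⁻¹
          (inv_ne_zero hC0)
      have hinf : ({0, a⁻¹} : Set ℂ)ᶜ.Infinite := Set.Finite.infinite_compl (Set.toFinite _)
      apply hinf
      refine hfin.subset ?_
      intro s hs
      simp only [Set.mem_compl_iff, Set.mem_insert_iff, Set.mem_singleton_iff, not_or] at hs
      obtain ⟨hs0, hs1⟩ := hs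
      have hs2 : 1 - a * s ≠ 0 := by
        intro h
        apply hs1
        field_simp
        linear_combination -h
      refine ⟨hs0, b⁻¹ * (1 - a * s), mul_ne_zero (inv_ne_zero hb) hs2, ?_, ?_⟩
      · field_simp
        ring
      · exact eq_inv_of_mul_eq_one_left (key s t0 hs0 hs2 ht0)
    obtain ⟨s0, hs0, hs1⟩ : ∃ s : ℂ, s ≠ 0 ∧ 1 - a * s ≠ 0 := by
      refine ⟨(2 * a)⁻¹, inv_ne_zero (mul_ne_zero two_ne_zero ha), ?_⟩
      have h2 : (2 : ℂ) ≠ 0 := two_ne_zero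
      field_simp
      norm_num
    have hy : ∀ t, (∀ i, t ≠ d i) → ∏ i, (c i * (t - d i)) ^ ((N : ℤ) * m (Sum.inr i)) = 1 := by
      intro t ht
      have h1 := key s0 t hs0 hs1 ht
      rw [hx.1, hx.2, mul_zero, zpow_zero, zpow_zero, one_mul, one_mul] at h1
      exact h1
    have hy' : ∀ t, (∀ i, t ≠ d i) → ∏ i, (c i * (t - d i)) ^ (-((N : ℤ) * m (Sum.inr i))) = 1 := by
      intro t ht
      simp_rw [zpow_neg]
      rw [Finset.prod_inv_distrib, hy t ht, inv_one]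
    funext i
    rcases i with i | i
    · fin_cases i
      · exact hx.1
      · exact hx.2
    · have h1 := g1_ypart hc hd _ hy i
      have h2 := g1_ypart hc hd _ hy' i
      have h3 : (N : ℤ) * m (Sum.inr i) = 0 := by omega
      exact (mul_eq_zero.1 h3).resolve_left hN'
  unfold rk
  rw [h0]
  exact finrank_bot ℤ _

open Pool.Agent.MP_dd1803_nt.Tr Pool.Agent.ZL2 in
/-- On a set with `card ≤ td + ar` a line contains no coset of positive dimension. -/
theorem g1_const {κ : Type} [Fintype κ] {X : Set (κ → ℂˣ)} (hX : Irr X) (h : Fintype.card κ ≤ td ℂ X + ar X)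
    (e : Fin 2 → κ) (he : Function.Injective e) {α β : ℂ} (hα0 : α ≠ 0) (hβ0 : β ≠ 0)
    (hl : ∀ x ∈ X, α * (x (e 0) : ℂ) + β * (x (e 1) : ℂ) = 1) :
    ∀ x ∈ X, ∀ x0 ∈ X, x (e 0) = x0 (e 0) := by
  classical
  intro x hx x0 hx0
  let g : κ → ℂˣ := fun i => (x0 i)⁻¹
  have hX' : Irr (tr g '' X) := irr_image_tr g hX
  have htd : td ℂ (tr g '' X) = td ℂ X := by
    have h1 := dm_image_tr g X
    rw [dm_irr hX', dm_irr hX] at h1
    exact_mod_cast h1
  have hch : ∀ (m : κ → ℤ) x, ch m (tr g x) = (ch m x0)⁻¹ * ch m x := by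
    intro m x
    have h1 : tr g x = g * x := rfl
    rw [h1, ch_mul]
    congr 1
    simp only [ch, g, inv_zpow, Finset.prod_inv_distrib]
  have hLam : Alat X ≤ Lam (tr g '' X) := by
    rintro m ⟨c, _, hm⟩
    refine ⟨1, one_pos, ?_⟩
    rintro _ ⟨x, hx, rfl⟩
    rw [pow_one, hch, hm x hx, hm x0 hx0, inv_mul_cancel]
  have hrk : ar X ≤ rk (tr g '' X) := Submodule.finrank_mono hLam
  have hY : PIrr (pull e '' (tr g '' X)) := hX'.pirr.pull e
  have h1 := cd_pull hX'.pirr he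
  have h2 : 2 ≤ cd (pull e '' (tr g '' X)) := by
    have h3 : cd (tr g '' X) = rk (tr g '' X) + td ℂ (tr g '' X) := rfl
    rw [Fintype.card_fin] at h1
    omega
  have hα : α * (x0 (e 0) : ℂ) ≠ 0 := mul_ne_zero hα0 (x0 _).ne_zero
  have hβ : β * (x0 (e 1) : ℂ) ≠ 0 := mul_ne_zero hβ0 (x0 _).ne_zero
  have hyl : ∀ y ∈ pull e '' (tr g '' X), α * (x0 (e 0) : ℂ) * (y 0 : ℂ) +
      β * (x0 (e 1) : ℂ) * (y 1 : ℂ) = 1 := by
    rintro _ ⟨_, ⟨z, hz, rfl⟩, rfl⟩
    have h3 := hl z hz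
    have e0 : ((pull e (tr g z) 0 : ℂˣ) : ℂ) = (x0 (e 0) : ℂ)⁻¹ * (z (e 0) : ℂ) := by
      simp [pull, tr, g]
    have e1 : ((pull e (tr g z) 1 : ℂˣ) : ℂ) = (x0 (e 1) : ℂ)⁻¹ * (z (e 1) : ℂ) := by
      simp [pull, tr, g]
    rw [e0, e1]
    have h4 := (x0 (e 0)).ne_zero
    have h5 := (x0 (e 1)).ne_zero
    field_simp
    exact h3
  have hrk1 : rk (pull e '' (tr g '' X)) ≠ 0 := by
    intro h0
    obtain ⟨s, hs, hc⟩ := exists_basis' (k := ℂ) hY
    have h3 : cd (pull e '' (tr g '' X)) = rk (pull e '' (tr g '' X)) + td ℂ (pull e '' (tr g '' X)) := rfl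
    have h4 : 2 ≤ s.ncard := by omega
    have h5 : s = Set.univ := by
      apply Set.eq_univ_of_forall
      by_contra hcon
      push Not at hcon
      obtain ⟨j, hj⟩ := hcon
      have h6 : s ⊆ {j}ᶜ := fun l hl hlj => hj (by
        rw [Set.mem_singleton_iff] at hlj
        exact hlj ▸ hl)
      have h7 := Set.ncard_le_ncard h6
      have h8 : ({j}ᶜ : Set (Fin 2)).ncard = 1 := by
        rw [Set.ncard_compl, Set.ncard_singleton]
        simp
      omega
    subst h5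
    have h6 := hs (C (α * (x0 (e 0) : ℂ)) * MvPolynomial.X ⟨0, Set.mem_univ _⟩ +
      C (β * (x0 (e 1) : ℂ)) * MvPolynomial.X ⟨1, Set.mem_univ _⟩ - 1) (by
      intro y hy
      have h7 := hyl y hy
      simp only [map_sub, map_add, aeval_X, aeval_C, map_one, sub_eq_zero, map_mul]
      exact h7)
    have h7 := congrArg (eval (0 : ↥(Set.univ : Set (Fin 2)) → ℂ)) h6
    simp at h7
  obtain ⟨m, hm, hm0⟩ : ∃ m ∈ Lam (pull e '' (tr g '' X)), m ≠ 0 := by
    by_contra hcon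
    push Not at hcon
    apply hrk1
    have h3 : Lam (pull e '' (tr g '' X)) = ⊥ := (Submodule.eq_bot_iff _).2 hcon
    unfold rk
    rw [h3]
    exact finrank_bot ℤ _
  obtain ⟨N, hN, hm⟩ := hm
  have hN' : (N : ℤ) ≠ 0 := by exact_mod_cast hN.ne'
  have hfin := fin_sol hα hβ (n := (N : ℤ) * m 0) (n' := (N : ℤ) * m 1) (by
    by_contra hcon
    rw [not_or, not_not, not_not, mul_eq_zero, mul_eq_zero] at hcon
    apply hm0
    funext j
    fin_cases j
    · exact hcon.1.resolve_left hN'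
    · exact hcon.2.resolve_left hN') 1 one_ne_zero
  have h3 : {t : ℂ | ∃ y ∈ pull e '' (tr g '' X), (y 0 : ℂ) = t}.Finite := by
    refine hfin.subset ?_
    rintro _ ⟨y, hy, rfl⟩
    refine ⟨(y 0).ne_zero, (y 1 : ℂ), (y 1).ne_zero, hyl y hy, ?_⟩
    have h4 := congrArg Units.val (hm y hy)
    unfold ch at h4
    rw [Fin.prod_univ_two, mul_pow] at h4
    push_cast at h4
    rw [mul_comm (N : ℤ), mul_comm (N : ℤ), zpow_mul, zpow_mul, zpow_natCast, zpow_natCast]
    exact h4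
  have h4 := const_of_finite hY 0 h3 _ ⟨_, ⟨x0, hx0, rfl⟩, rfl⟩ _ ⟨_, ⟨x, hx, rfl⟩, rfl⟩
  have h5 : (x0 (e 0))⁻¹ * x (e 0) = (x0 (e 0))⁻¹ * x0 (e 0) := h4
  exact mul_left_cancel h5

/-- A set `X` with `5 ≤ td X + ar X` is a translate of a subtorus by algebraic constants; `TL` contains no coset of positive dimension, so `X` is an algebraic point. See `ZL2.coset_point`; on a coset the coordinates `x_0, x_1` are
constants or nonconstant characters times constants, and `a α s^n + b β s^m = 1` for infinitely many `s` forces `n = m = 0`; for the `y_i` use two of them: `c_0 y_1 - c_1 y_0` is a nonzero constant. -/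
theorem coset_point_TL (ha : a ≠ 0) (hb : b ≠ 0) (hc : ∀ i, c i ≠ 0) (hd : Function.Injective d)
    {X : Set (Fin 2 ⊕ Fin 3 → ℂˣ)} (hX : Irr X) (hXV : X ⊆ TL a b c d) (h : 5 ≤ td ℂ X + ar X) :
    ∃ P, X = {P} ∧ ∀ i, IsAlgebraic ℚ (P i : ℂ) := by
  classical
  obtain ⟨x0, hx0⟩ := hX.nonempty
  have hcard : Fintype.card (Fin 2 ⊕ Fin 3) = 5 := by simp
  have hd01 : d 1 - d 0 ≠ 0 := sub_ne_zero.2 fun e => by
    have := hd e
    exact absurd this (by decide)
  have hone : ∀ x ∈ X, x = x0 := by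
    intro x hx
    have h1 := g1_const hX (by rw [hcard]; exact h) ![Sum.inl 0, Sum.inl 1]
      (by intro u v huv; fin_cases u <;> fin_cases v <;> simp_all) ha hb
      (fun x hx => (hXV hx).1) x hx x0 hx0
    have h2 := g1_const hX (by rw [hcard]; exact h) ![Sum.inr 0, Sum.inr 1]
      (by intro u v huv; fin_cases u <;> fin_cases v <;> simp_all)
      (α := (c 0 * (d 1 - d 0))⁻¹) (β := -(c 1 * (d 1 - d 0))⁻¹)
      (inv_ne_zero (mul_ne_zero (hc 0) hd01)) (neg_ne_zero.2 (inv_ne_zero (mul_ne_zero (hc 1) hd01)))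
      (fun x hx => by
        obtain ⟨t, ht⟩ := (hXV hx).2
        show (c 0 * (d 1 - d 0))⁻¹ * (x (Sum.inr 0) : ℂ) + -(c 1 * (d 1 - d 0))⁻¹ * (x (Sum.inr 1) : ℂ) = 1
        rw [ht 0, ht 1]
        have h3 := hc 0
        have h4 := hc 1
        field_simp
        ring) x hx x0 hx0
    have h1' : x (Sum.inl 0) = x0 (Sum.inl 0) := h1
    have h2' : x (Sum.inr 0) = x0 (Sum.inr 0) := h2
    funext i
    rcases i with i | i
    · fin_cases i
      · exact h1'
      · apply Units.ext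
        show (x (Sum.inl 1) : ℂ) = (x0 (Sum.inl 1) : ℂ)
        have e1 := (hXV hx).1
        have e2 := (hXV hx0).1
        rw [h1'] at e1
        exact mul_left_cancel₀ hb (by linear_combination e1 - e2)
    · apply Units.ext
      have e1 := (g1_iff hc x).1 (hXV hx).2 i
      have e2 := (g1_iff hc x0).1 (hXV hx0).2 i
      rw [h2'] at e1
      exact mul_left_cancel₀ (hc 0) (by linear_combination e1 - e2)
  have hXs : X = {x0} := Set.Subset.antisymm (fun x hx => hone x hx) (by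
    rw [Set.singleton_subset_iff]
    exact hx0)
  refine ⟨x0, hXs, fun j => ?_⟩
  have htd0 : td ℂ X = 0 := by rw [hXs, ZL2.td_singleton']
  have hfull : Fintype.card (Fin 2 ⊕ Fin 3) ≤ ar X := by omega
  obtain ⟨n, hn, hmem⟩ : ∃ n : ℤ, n ≠ 0 ∧ n • (Pi.single j 1 : Fin 2 ⊕ Fin 3 → ℤ) ∈ Alat X := by
    by_contra hcon
    push Not at hcon
    have h1 := finrank_lt_of_mem (R := ℤ) (Alat X) ⊤ le_top (Pi.single j 1) trivial hcon
    rw [finrank_top, Module.finrank_fintype_fun_eq_card] at h1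
    unfold ar at hfull
    omega
  obtain ⟨c', hc', hcx⟩ := hmem
  have h1 := hcx x0 hx0
  rw [ch_zsmul, ch_single, zpow_one] at h1
  rw [mem_acl_empty] at hc'
  rw [← h1] at hc'
  have h2 : IsAlgebraic ℚ ((x0 j : ℂ) ^ n.natAbs) := by
    rw [Units.val_zpow_eq_zpow_val] at hc'
    rcases Int.natAbs_eq n with h3 | h3
    · rw [h3, zpow_natCast] at hc'
      exact hc'
    · rw [h3, zpow_neg, zpow_natCast] at hc'
      exact (IsAlgebraic.inv_iff).1 hc'
  exact IsAlgebraic.of_pow (Int.natAbs_pos.2 hn) h2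

end Pool.Agent.Z5
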