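import Pool.Agent.ZL2.Geom4

open MvPolynomial Pool.Agent.MP_dd1803_nt Pool.Agent.ZPA

namespace Pool.Agent.Z5

variable {κ : Type} [Fintype κ]

/-- One of the irreducible components of a closed set contains infinitely many points of an infinite subset. -/
theorem g2_comp {V : Set (κ → ℂˣ)} (hV : ZClosed V) {Q : Set (κ → ℂˣ)} (hQ : Q.Infinite) (hQV : Q ⊆ V) :
    ∃ Y, Irr Y ∧ Y ⊆ V ∧ (Q ∩ Y).Infinite := by
  by_contra hcon
  push Not at hcon
  apply hQ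
  have h1 : (⋃ Y ∈ {Y | Comp V Y}, Q ∩ Y).Finite := by
    apply (finite_comp hV).biUnion
    intro Y hY
    have h2 := hcon Y (Comp.irr hY) (Comp.subset hY)
    exact h2
  apply h1.subset
  intro x hx
  obtain ⟨Y, hY, hxY⟩ := exists_comp_mem hV (hQV hx)
  rw [Set.mem_iUnion₂]
  exact ⟨Y, hY, hx, hxY⟩

/-- An irreducible set such that the infinite subsets of the set of its points in `Ps` are dense. -/
theorem g2_min {V : Set (κ → ℂˣ)} (hV : ZClosed V) {Ps : Set (κ → ℂˣ)} (hinf : Ps.Infinite) (hPV : Ps ⊆ V) :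
    ∃ Y, Irr Y ∧ Y ⊆ V ∧ (Ps ∩ Y).Infinite ∧ 1 ≤ td ℂ Y ∧
      ∀ C : Set (κ → ℂˣ), ZClosed C → (Ps ∩ Y ∩ C).Infinite → Y ⊆ C := by
  classical
  have h1 : ∃ n : ℕ, ∃ Y, (Irr Y ∧ Y ⊆ V ∧ (Ps ∩ Y).Infinite) ∧ td ℂ Y = n := by
    obtain ⟨Y, hY⟩ := g2_comp hV hinf hPV
    exact ⟨_, Y, hY, rfl⟩
  obtain ⟨Y, ⟨hY, hYV, hYi⟩, hn⟩ := Nat.find_spec h1
  refine ⟨Y, hY, hYV, hYi, ?_, ?_⟩
  · by_contra hcon
    have h0 : td ℂ Y = 0 := by omega
    obtain ⟨y, hy⟩ := hY.nonempty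
    have h2 : ({y} : Set (κ → ℂˣ)) = Y :=
      eq_of_td_le (irr_singleton y) hY (Set.singleton_subset_iff.2 hy) (by rw [h0]; exact Nat.zero_le _)
    apply hYi
    rw [← h2]
    exact (Set.finite_singleton y).subset Set.inter_subset_right
  · intro C hC hCi
    obtain ⟨Y', hY', hYC, hi⟩ := g2_comp (hY.closed.inter hC) (Q := Ps ∩ Y ∩ C) hCi
      (fun x hx => ⟨hx.1.2, hx.2⟩)
    have h3 := Nat.find_min' h1 ⟨Y', ⟨hY', (hYC.trans Set.inter_subset_left).trans hYV,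
      hi.mono (fun x hx => ⟨hx.1.1.1, hx.2⟩)⟩, rfl⟩
    rw [← hn] at h3
    have h4 : Y' = Y := eq_of_td_le hY' hY (hYC.trans Set.inter_subset_left) h3
    rw [← h4]
    exact hYC.trans Set.inter_subset_right

theorem g2_closed {V : Set (κ → ℂˣ)} (hV : ZClosed V) (L : Submodule ℤ (κ → ℤ)) (k : ℕ) :
    ZClosed (V ∩ ⋂ m : L, {x | ch ((k : ℤ) • (m : κ → ℤ)) x = 1}) :=
  hV.inter (ZClosed.iInter fun _ => zclosed_ch _ _)

/-- The rank of the image of `Y` under independent characters is at most the rank of `Y`. -/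
theorem g2_rk {Y : Set (κ → ℂˣ)} {r : ℕ} {b : Fin r → κ → ℤ} (hb : LinearIndependent ℤ b) :
    rk (phi b '' Y) ≤ rk Y := by
  unfold rk
  let f : Lam (phi b '' Y) →ₗ[ℤ] Lam Y :=
    LinearMap.codRestrict (Lam Y) ((Fintype.linearCombination ℤ b).comp (Lam (phi b '' Y)).subtype) (by
      rintro ⟨m, N, hN, hm⟩
      refine ⟨N, hN, fun x hx => ?_⟩
      have h1 := hm (phi b x) ⟨x, hx, rfl⟩
      rw [d1_ch] at h1
      exact h1)
  apply LinearMap.finrank_le_finrank_of_injective (f := f)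
  rw [injective_iff_map_eq_zero]
  rintro ⟨m, hm⟩ h
  have h1 : Fintype.linearCombination ℤ b m = 0 := congrArg Subtype.val h
  rw [Fintype.linearCombination_apply] at h1
  have h2 := Fintype.linearIndependent_iff.1 hb m h1
  exact Subtype.ext (funext h2)

theorem g2_cl_point {κ' : Type} [Fintype κ'] {w : κ' → ℂˣ} (hw : ∀ i, Tor (w i)) :
    cl (acl (∅ : Set ℂ)) ({w} : Set (κ' → ℂˣ)) ⊆ {w} := by
  intro x hx
  rw [Set.mem_singleton_iff]
  funext i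
  obtain ⟨N, hN, h⟩ := hw i
  have h1 : (w i : ℂ) ∈ acl (∅ : Set ℂ) := f1_root hN h
  have h2 : (X i - C (⟨(w i : ℂ), h1⟩ : acl (∅ : Set ℂ)) : MvPolynomial κ' (acl (∅ : Set ℂ))) ∈
      vI (acl (∅ : Set ℂ)) ({w} : Set (κ' → ℂˣ)) := by
    rw [mem_vI]
    intro y hy
    rw [Set.mem_singleton_iff] at hy
    rw [hy, map_sub, aeval_X, aeval_C, sub_eq_zero]
    rfl
  have h3 := hx _ h2
  rw [map_sub, aeval_X, aeval_C, sub_eq_zero] at h3
  apply Units.ext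
  exact h3

theorem g2_rk_tor {r : ℕ} {w : Fin r → ℂˣ} (hw : ∀ i, Tor (w i)) :
    rk ({w} : Set (Fin r → ℂˣ)) = r := by
  unfold rk
  have h : Lam ({w} : Set (Fin r → ℂˣ)) = ⊤ := by
    rw [eq_top_iff]
    intro m _
    obtain ⟨N, hN, h⟩ := Tor.prod (F := ℂ) Finset.univ (f := fun j => w j ^ m j) (fun j _ => (hw j).zpow _)
    refine ⟨N, hN, fun x hx => ?_⟩
    rw [Set.mem_singleton_iff] at hx
    rw [hx]
    exact h
  rw [h, finrank_top, Module.finrank_fintype_fun_eq_card, Fintype.card_fin]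

/-- Row Z5-G2a. `Z = {x ∈ V | ch m x ^ k = 1 for m ∈ L}` is closed and contains `Ps`; one of its finitely many irreducible components `Y` contains infinitely many points of `Ps`, so `td Y ≥ 1`
(an irreducible closed set of `td` zero is a point), and `L ≤ Lam Y` gives `finrank L ≤ rk Y`. -/
theorem comp_of_rel {V : Set (κ → ℂˣ)} (hV : ZClosed V) {Ps : Set (κ → ℂˣ)} (hinf : Ps.Infinite) (hPV : Ps ⊆ V)
    (L : Submodule ℤ (κ → ℤ)) {k : ℕ} (hk : 0 < k) (h : ∀ P ∈ Ps, ∀ m ∈ L, ch m P ^ k = 1) :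
    ∃ Y, Irr Y ∧ Y ⊆ V ∧ 1 ≤ td ℂ Y ∧ Module.finrank ℤ L ≤ rk Y ∧ ∃ P ∈ Ps, P ∈ Y := by
  obtain ⟨Y, hY, hYV, hYi, htd, _⟩ := g2_min (g2_closed hV L k) hinf (by
    intro P hP
    refine ⟨hPV hP, ?_⟩
    rw [Set.mem_iInter]
    rintro ⟨m, hm⟩
    show ch ((k : ℤ) • m) P = 1
    rw [ch_zsmul, zpow_natCast]
    exact h P hP m hm)
  obtain ⟨P, hP⟩ := hYi.nonempty
  refine ⟨Y, hY, hYV.trans Set.inter_subset_left, htd, ?_, P, hP.1, hP.2⟩
  apply Submodule.finrank_mono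
  intro m hm
  refine ⟨k, hk, fun x hx => ?_⟩
  have h1 := (hYV hx).2
  rw [Set.mem_iInter] at h1
  have h2 : ch ((k : ℤ) • m) x = 1 := h1 ⟨m, hm⟩
  rw [ch_zsmul, zpow_natCast] at h2
  exact h2

/-- Row Z5-G2b. Manin-Mumford. Replace `V` by an irreducible component `Y` of the closure of `Ps` which contains infinitely many points of `Ps` (so `td Y ≥ 1`); `Ps ∩ Y` is dense in `Y` (a component of the closure of `Ps`). Let `r = finrank L`, `b : Fin r → κ → ℤ` a basis of `L`,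
`φ x = (ch (b l) x)_l`, a map to the torus of dimension `r` (monomial maps: see `ZPA`, `MP_dd1803_nt/Image.lean`, `Maps.lean`). The points `φ P`, `P ∈ Ps ∩ Y`, are torsion points. `W` = the closure of `φ (Ps ∩ Y)` (over `acl ∅`, and it is the closure of `φ Y`; it is irreducible), `mm_alg W _ 1 le_rfl`: finitely many
maximal irreducible `X ⊆ W` with `cd X = r`; every torsion point `w ∈ W` has `rk {w} = r`, so is in one of them (`exists_maxE`), so `W` is one of them by density and irreducibility: `cd W = r`, i.e. `rk W + td W = r`. And `rk Y ≥ rk W` (pull back characters), `td Y ≥ td W` (image of `Y`). -/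
theorem comp_of_lat {V : Set (κ → ℂˣ)} (hV : ZClosed V) {Ps : Set (κ → ℂˣ)} (hinf : Ps.Infinite) (hPV : Ps ⊆ V)
    (L : Submodule ℤ (κ → ℤ)) (h : ∀ P ∈ Ps, L ≤ Lam ({P} : Set (κ → ℂˣ))) :
    ∃ Y, Irr Y ∧ Y ⊆ V ∧ 1 ≤ td ℂ Y ∧ Module.finrank ℤ L ≤ cd Y ∧ ∃ P ∈ Ps, P ∈ Y := by
  classical
  obtain ⟨Y, hY, hYV, hYi, htd, hdense⟩ := g2_min hV hinf hPV
  obtain ⟨P0, hP0⟩ := hYi.nonempty
  refine ⟨Y, hY, hYV, htd, ?_, P0, hP0.1, hP0.2⟩
  obtain ⟨r, hr⟩ : ∃ r, r = Module.finrank ℤ L := ⟨_, rfl⟩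
  let B : Module.Basis (Fin r) ℤ L := (Module.finBasis ℤ L).reindex (finCongr hr.symm)
  let b : Fin r → κ → ℤ := fun i => ((B i : L) : κ → ℤ)
  have hb : LinearIndependent ℤ b :=
    B.linearIndependent.map' L.subtype (Submodule.ker_subtype L)
  have hbL : ∀ i, b i ∈ L := fun i => (B i).2
  have hac := isAlgClosed_acl (∅ : Set ℂ)
  have hP' : PIrr (phi b '' Y) := hY.pirr.image (d1_ratMap Y b)
  have hfin := mm_alg (F := ℂ) (core (acl (∅ : Set ℂ)) (cl ℂ (phi b '' Y))) (cl_core _) 1 le_rfl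
  have htor : ∀ P ∈ Ps, ∀ i, Tor (phi b P i) := by
    intro P hP i
    obtain ⟨N, hN, h1⟩ := h P hP (hbL i)
    exact ⟨N, hN, h1 P rfl⟩
  have hex : ∀ P ∈ Ps ∩ Y, ∃ X ∈ MaxE 1 (core (acl (∅ : Set ℂ)) (cl ℂ (phi b '' Y))), phi b P ∈ X := by
    intro P hP
    have h1 : ({phi b P} : Set (Fin r → ℂˣ)) ⊆ core (acl (∅ : Set ℂ)) (cl ℂ (phi b '' Y)) := by
      apply subset_core (pirr_singleton _)
      refine (g2_cl_point (htor P hP.1)).trans ?_
      rw [Set.singleton_subset_iff]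
      exact subset_cl _ ⟨P, hP.2, rfl⟩
    obtain ⟨X, hX, hPX⟩ := exists_maxE (e := 1) (irr_singleton (phi b P)) h1 (by
      have h2 := g2_rk_tor (htor P hP.1)
      unfold cd
      rw [h2, Fintype.card_fin]
      omega)
    exact ⟨X, hX, hPX rfl⟩
  have hex2 : ∃ X ∈ MaxE 1 (core (acl (∅ : Set ℂ)) (cl ℂ (phi b '' Y))), (Ps ∩ Y ∩ (phi b ⁻¹' X)).Infinite := by
    by_contra hcon
    push Not at hcon
    apply hYi
    have h1 : (⋃ X ∈ MaxE 1 (core (acl (∅ : Set ℂ)) (cl ℂ (phi b '' Y))), Ps ∩ Y ∩ (phi b ⁻¹' X)).Finite := by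
      apply hfin.biUnion
      intro X hX
      exact hcon X hX
    apply h1.subset
    intro P hP
    obtain ⟨X, hX, hPX⟩ := hex P hP
    rw [Set.mem_iUnion₂]
    exact ⟨X, hX, hP, hPX⟩
  obtain ⟨X, hX, hXi⟩ := hex2
  have hsub := hdense (phi b ⁻¹' X) ((d1_ratMap Set.univ b).preimage_closed (MaxE.irr hX).closed) hXi
  have h1 : cl ℂ (phi b '' Y) ⊆ X := by
    apply cl_subset _ (MaxE.irr hX).closed
    rintro _ ⟨y, hy, rfl⟩
    exact hsub hy
  have h2 : X ⊆ cl ℂ (phi b '' Y) := (MaxE.subset hX).trans (core_subset (zclosed_cl _))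
  have h3 := Set.Subset.antisymm h1 h2
  have h4 := MaxE.lt hX
  rw [← h3, cd_cl, Fintype.card_fin] at h4
  obtain ⟨Q, hQ, _⟩ := fibre_rel (k := ℂ) hY.pirr b
  have h5 := g2_rk (Y := Y) hb
  unfold cd at h4 ⊢
  omega

end Pool.Agent.Z5
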