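import Pool.Agent.Z5.A2

namespace Pool.Agent.Z5

open Pool.Agent.ZL2 Filter Topology

/-- Rolle for infinite zero sets. -/
theorem h1_rolle {p p' : ℝ → ℝ} (hp : ∀ x, HasDerivAt p (p' x) x) (h : {x | p x = 0}.Infinite) :
    {x | p' x = 0}.Infinite := by
  intro hf
  obtain ⟨x, hx, y, hy, hxy, he⟩ := h.exists_lt_map_eq_of_mapsTo
    (f := fun z => (hf.toFinset.filter (fun w => w < z)).card) (t := Set.Iic hf.toFinset.card)
    (fun z _ => Finset.card_le_card (Finset.filter_subset _ _)) (Set.finite_Iic _)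
  obtain ⟨z, hz, hz0⟩ := exists_hasDerivAt_eq_zero hxy
    (fun w _ => (hp w).continuousAt.continuousWithinAt) (by rw [show p x = 0 from hx, show p y = 0 from hy])
    (fun w _ => hp w)
  have hlt : (hf.toFinset.filter (fun w => w < x)).card < (hf.toFinset.filter (fun w => w < y)).card := by
    refine Finset.card_lt_card ?_
    rw [Finset.ssubset_iff_of_subset]
    · refine ⟨z, ?_, ?_⟩
      · rw [Finset.mem_filter]
        exact ⟨hf.mem_toFinset.2 hz0, hz.2⟩
      · rw [Finset.mem_filter]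
        exact fun h => absurd h.2 (not_lt.2 hz.1.le)
    · intro w hw
      rw [Finset.mem_filter] at hw ⊢
      exact ⟨hw.1, hw.2.trans hxy⟩
  exact absurd he hlt.ne

theorem h1_fin (F : Finset ℝ) : ∀ g : ℝ → ℝ, {s : ℝ | ∑ w ∈ F, g w * Real.exp (w * s) = 0}.Infinite →
    ∀ w ∈ F, g w = 0 := by
  induction F using Finset.induction_on with
  | empty => intro g _ w hw; exact absurd hw (Finset.notMem_empty w)
  | insert a F ha ih =>
    intro g h
    have h1 : {s : ℝ | g a + ∑ w ∈ F, g w * Real.exp ((w - a) * s) = 0}.Infinite := by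
      refine h.mono fun s hs => ?_
      have hs' : ∑ w ∈ insert a F, g w * Real.exp (w * s) = 0 := hs
      rw [Finset.sum_insert ha] at hs'
      show g a + ∑ w ∈ F, g w * Real.exp ((w - a) * s) = 0
      have e : g a + ∑ w ∈ F, g w * Real.exp ((w - a) * s) =
          (g a * Real.exp (a * s) + ∑ w ∈ F, g w * Real.exp (w * s)) * Real.exp (-(a * s)) := by
        rw [add_mul, Finset.sum_mul, mul_assoc, ← Real.exp_add, add_neg_cancel, Real.exp_zero, mul_one]
        congr 1
        refine Finset.sum_congr rfl fun w _ => ?_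
        rw [mul_assoc, ← Real.exp_add]
        congr 2
        ring
      rw [e, hs', zero_mul]
    have h2 := h1_rolle (p := fun s => g a + ∑ w ∈ F, g w * Real.exp ((w - a) * s))
      (p' := fun s => ∑ w ∈ F, g w * ((w - a) * Real.exp ((w - a) * s))) (fun s => by
        refine HasDerivAt.const_add _ (HasDerivAt.fun_sum fun w _ => ?_)
        refine HasDerivAt.const_mul _ ?_
        have := ((hasDerivAt_id s).const_mul (w - a)).exp
        simpa [mul_comm] using this) h1
    have h3 : {s : ℝ | ∑ w ∈ F, (g w * (w - a)) * Real.exp (w * s) = 0}.Infinite := by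
      refine h2.mono fun s hs => ?_
      have hs' : ∑ w ∈ F, g w * ((w - a) * Real.exp ((w - a) * s)) = 0 := hs
      show ∑ w ∈ F, (g w * (w - a)) * Real.exp (w * s) = 0
      have e : ∑ w ∈ F, (g w * (w - a)) * Real.exp (w * s) =
          (∑ w ∈ F, g w * ((w - a) * Real.exp ((w - a) * s))) * Real.exp (a * s) := by
        rw [Finset.sum_mul]
        refine Finset.sum_congr rfl fun w _ => ?_
        have key : Real.exp (w * s) = Real.exp ((w - a) * s) * Real.exp (a * s) := by
          rw [← Real.exp_add]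
          congr 1
          ring
        rw [key]
        ring
      rw [e, hs', zero_mul]
    have h4 := ih _ h3
    have h5 : ∀ w ∈ F, g w = 0 := fun w hw => by
      rcases mul_eq_zero.1 (h4 w hw) with h | h
      · exact h
      · exact absurd (by linarith : w = a) (fun e => ha (e ▸ hw))
    intro w hw
    rcases Finset.mem_insert.1 hw with rfl | hw
    · obtain ⟨s, hs⟩ := h.nonempty
      have hs' : ∑ w' ∈ insert w F, g w' * Real.exp (w' * s) = 0 := hs
      rw [Finset.sum_insert ha, Finset.sum_eq_zero (fun w' hw' => by rw [h5 w' hw', zero_mul]), add_zero] at hs'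
      exact (mul_eq_zero.1 hs').resolve_right (Real.exp_ne_zero _)
    · exact h5 w hw

theorem h1_group {ι : Type} [Fintype ι] (r ω : ι → ℝ) (s : ℝ) :
    ∑ i, r i * Real.exp (ω i * s) =
      ∑ w ∈ Finset.univ.image ω, (∑ i ∈ Finset.univ.filter (fun i => ω i = w), r i) * Real.exp (w * s) := by
  classical
  rw [← Finset.sum_fiberwise_of_maps_to (s := Finset.univ) (t := Finset.univ.image ω) (g := ω)
    (fun i _ => Finset.mem_image_of_mem ω (Finset.mem_univ i))]
  refine Finset.sum_congr rfl fun w _ => ?_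
  rw [Finset.sum_mul]
  refine Finset.sum_congr rfl fun i hi => ?_
  rw [(Finset.mem_filter.1 hi).2]

/-- Row Z5-H1a. Exponential sums have finitely many zeros unless the coefficients of every frequency cancel. Proof: group by frequency. If some group has nonzero total coefficient, the largest such
frequency dominates for `s → ∞` and the smallest for `s → -∞`, so the zeros are bounded; infinitely many bounded zeros accumulate, so the (real analytic) function vanishes
identically, which contradicts the domination. -/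
theorem expsum {ι : Type} [Fintype ι] (r ω : ι → ℝ)
    (h : {s : ℝ | ∑ i, r i * Real.exp (ω i * s) = 0}.Infinite) (ω0 : ℝ) :
    ∑ i ∈ Finset.univ.filter (fun i => ω i = ω0), r i = 0 := by
  classical
  simp_rw [h1_group r ω] at h
  have h1 := h1_fin _ _ h
  by_cases hw : ω0 ∈ Finset.univ.image ω
  · exact h1 ω0 hw
  · refine Finset.sum_eq_zero fun i hi => absurd ?_ hw
    rw [← (Finset.mem_filter.1 hi).2]
    exact Finset.mem_image_of_mem ω (Finset.mem_univ i)

theorem h1_all {ι : Type} [Fintype ι] (r ω : ι → ℝ)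
    (h : {s : ℝ | ∑ i, r i * Real.exp (ω i * s) = 0}.Infinite) (s : ℝ) :
    ∑ i, r i * Real.exp (ω i * s) = 0 := by
  rw [h1_group]
  refine Finset.sum_eq_zero fun w _ => ?_
  rw [expsum r ω h w, zero_mul]

/-- exponential sums -/
def h1_ES (f : ℝ → ℝ) : Prop :=
  ∃ (ι : Type) (_ : Fintype ι) (r ω : ι → ℝ), ∀ s, f s = ∑ i, r i * Real.exp (ω i * s)

theorem h1_ES.exp (a ω : ℝ) : h1_ES (fun s => a * Real.exp (ω * s)) :=
  ⟨Unit, inferInstance, fun _ => a, fun _ => ω, fun s => by simp⟩

theorem h1_ES.const (a : ℝ) : h1_ES (fun _ => a) :=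
  ⟨Unit, inferInstance, fun _ => a, fun _ => 0, fun s => by simp⟩

theorem h1_ES.add {f g : ℝ → ℝ} (hf : h1_ES f) (hg : h1_ES g) : h1_ES (fun s => f s + g s) := by
  obtain ⟨ι, _, r, ω, h⟩ := hf
  obtain ⟨κ, _, r', ω', h'⟩ := hg
  exact ⟨ι ⊕ κ, inferInstance, Sum.elim r r', Sum.elim ω ω', fun s => by simp [h, h', Fintype.sum_sum_type]⟩

theorem h1_ES.mul {f g : ℝ → ℝ} (hf : h1_ES f) (hg : h1_ES g) : h1_ES (fun s => f s * g s) := by
  obtain ⟨ι, _, r, ω, h⟩ := hf
  obtain ⟨κ, _, r', ω', h'⟩ := hg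
  refine ⟨ι × κ, inferInstance, fun p => r p.1 * r' p.2, fun p => ω p.1 + ω' p.2, fun s => ?_⟩
  show f s * g s = _
  rw [h, h', Finset.sum_mul_sum, Fintype.sum_prod_type]
  refine Finset.sum_congr rfl fun i _ => Finset.sum_congr rfl fun j _ => ?_
  rw [add_mul, Real.exp_add]
  ring

theorem h1_ES.neg {f : ℝ → ℝ} (hf : h1_ES f) : h1_ES (fun s => - f s) := by
  have := (h1_ES.const (-1)).mul hf
  simpa using this

theorem h1_ES.sub {f g : ℝ → ℝ} (hf : h1_ES f) (hg : h1_ES g) : h1_ES (fun s => f s - g s) := by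
  simpa [sub_eq_add_neg] using hf.add hg.neg

theorem h1_ES.zero {f : ℝ → ℝ} (hf : h1_ES f) (h : {s | f s = 0}.Infinite) (s : ℝ) : f s = 0 := by
  obtain ⟨ι, _, r, ω, e⟩ := hf
  rw [e]
  refine h1_all r ω ?_ s
  simpa [e] using h

/-- the relation between the squared distances to `0`, `1`, `w` -/
theorem h1_rel (z w : ℂ) :
    w.im ^ 2 * (Complex.normSq z - Complex.normSq (z - 1) + 1) ^ 2 +
      (Complex.normSq z - Complex.normSq (z - w) + (w.re ^ 2 + w.im ^ 2) -
        w.re * (Complex.normSq z - Complex.normSq (z - 1) + 1)) ^ 2 - 4 * w.im ^ 2 * Complex.normSq z = 0 := by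
  simp only [Complex.normSq_apply, Complex.sub_re, Complex.sub_im, Complex.one_re, Complex.one_im]
  ring

theorem h1_rel0 (z w : ℂ) (h : w.im = 0) :
    (1 - w.re) * Complex.normSq z + w.re * Complex.normSq (z - 1) - Complex.normSq (z - w) = w.re * (1 - w.re) := by
  simp only [Complex.normSq_apply, Complex.sub_re, Complex.sub_im, Complex.one_re, Complex.one_im, h]
  ring

theorem h1_lim {α m : ℝ} (h : α ≤ m) (a : ℝ) :
    Tendsto (fun s : ℝ => a * Real.exp (2 * α * s) * Real.exp (-(2 * m * s))) atTop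
      (𝓝 (if α = m then a else 0)) := by
  have e : ∀ s : ℝ, a * Real.exp (2 * α * s) * Real.exp (-(2 * m * s)) = a * Real.exp (-(2 * (m - α) * s)) := fun s => by
    rw [mul_assoc, ← Real.exp_add]
    congr 2
    ring
  simp_rw [e]
  split_ifs with hm
  · subst hm
    simp
  · have hlt : 0 < 2 * (m - α) := by
      have := lt_of_le_of_ne h hm
      linarith
    have h1 : Tendsto (fun s : ℝ => Real.exp (-(2 * (m - α) * s))) atTop (𝓝 0) :=
      Real.tendsto_exp_neg_atTop_nhds_zero.comp (tendsto_id.const_mul_atTop hlt)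
    simpa using h1.const_mul a

/-- the noncollinear case -/
theorem h1_noncol {p q κ a b c α β γ m : ℝ} (hq : q ≠ 0) (ha : 0 < a) (hb : 0 < b) (hc : 0 < c) (hm : 0 < m)
    (h1 : α ≤ m) (h2 : β ≤ m) (h3 : γ ≤ m) (hex : α = m ∨ β = m ∨ γ = m)
    (h : ∀ s : ℝ, q ^ 2 * (a * Real.exp (2 * α * s) - b * Real.exp (2 * β * s) + 1) ^ 2 +
      (a * Real.exp (2 * α * s) - c * Real.exp (2 * γ * s) + κ -
        p * (a * Real.exp (2 * α * s) - b * Real.exp (2 * β * s) + 1)) ^ 2 -
        4 * q ^ 2 * (a * Real.exp (2 * α * s)) = 0) : False := by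
  have L0 : Tendsto (fun s : ℝ => Real.exp (-(2 * m * s))) atTop (𝓝 0) :=
    Real.tendsto_exp_neg_atTop_nhds_zero.comp (tendsto_id.const_mul_atTop (by positivity))
  have LA := h1_lim h1 a
  have LB := h1_lim h2 b
  have LC := h1_lim h3 c
  set a' := if α = m then a else 0 with ha'
  set b' := if β = m then b else 0 with hb'
  set c' := if γ = m then c else 0 with hc'
  have L : Tendsto (fun s : ℝ => q ^ 2 * (a * Real.exp (2 * α * s) * Real.exp (-(2 * m * s)) -
        b * Real.exp (2 * β * s) * Real.exp (-(2 * m * s)) + Real.exp (-(2 * m * s))) ^ 2 +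
      (a * Real.exp (2 * α * s) * Real.exp (-(2 * m * s)) - c * Real.exp (2 * γ * s) * Real.exp (-(2 * m * s)) +
        κ * Real.exp (-(2 * m * s)) -
        p * (a * Real.exp (2 * α * s) * Real.exp (-(2 * m * s)) - b * Real.exp (2 * β * s) * Real.exp (-(2 * m * s)) +
          Real.exp (-(2 * m * s)))) ^ 2 -
        4 * q ^ 2 * (a * Real.exp (2 * α * s) * Real.exp (-(2 * m * s))) * Real.exp (-(2 * m * s))) atTop
      (𝓝 (q ^ 2 * (a' - b' + 0) ^ 2 + (a' - c' + κ * 0 - p * (a' - b' + 0)) ^ 2 - 4 * q ^ 2 * a' * 0)) :=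
    (((((LA.sub LB).add L0).pow 2).const_mul _).add
      ((((LA.sub LC).add (L0.const_mul κ)).sub (((LA.sub LB).add L0).const_mul p)).pow 2)).sub
      ((LA.const_mul (4 * q ^ 2)).mul L0)
  have Z : (fun s : ℝ => q ^ 2 * (a * Real.exp (2 * α * s) * Real.exp (-(2 * m * s)) -
        b * Real.exp (2 * β * s) * Real.exp (-(2 * m * s)) + Real.exp (-(2 * m * s))) ^ 2 +
      (a * Real.exp (2 * α * s) * Real.exp (-(2 * m * s)) - c * Real.exp (2 * γ * s) * Real.exp (-(2 * m * s)) +
        κ * Real.exp (-(2 * m * s)) -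
        p * (a * Real.exp (2 * α * s) * Real.exp (-(2 * m * s)) - b * Real.exp (2 * β * s) * Real.exp (-(2 * m * s)) +
          Real.exp (-(2 * m * s)))) ^ 2 -
        4 * q ^ 2 * (a * Real.exp (2 * α * s) * Real.exp (-(2 * m * s))) * Real.exp (-(2 * m * s))) = fun _ => 0 := by
    funext s
    have := h s
    linear_combination (Real.exp (-(2 * m * s))) ^ 2 * this
  rw [Z] at L
  have E := tendsto_nhds_unique tendsto_const_nhds L
  have E1 : a' = b' ∧ a' = c' := by
    have h4 : q ^ 2 * (a' - b') ^ 2 + (a' - c' - p * (a' - b')) ^ 2 = 0 := by linarith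
    have hq2 : 0 < q ^ 2 := by positivity
    have h5 : (a' - b') ^ 2 = 0 := by
      by_contra h6
      have : 0 < (a' - b') ^ 2 := lt_of_le_of_ne (sq_nonneg _) (Ne.symm h6)
      nlinarith [sq_nonneg (a' - c' - p * (a' - b')), mul_pos hq2 this]
    have h6 : a' - b' = 0 := by simpa using h5
    rw [h6] at h4
    have h7 : a' - c' = 0 := by
      have : (a' - c') ^ 2 = 0 := by nlinarith
      simpa using this
    exact ⟨by linarith, by linarith⟩
  have hα : α = m := by
    by_contra hn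
    rw [if_neg hn] at ha'
    rcases hex with e | e | e
    · exact hn e
    · rw [if_pos e] at hb'
      linarith [E1.1]
    · rw [if_pos e] at hc'
      linarith [E1.2]
  rw [if_pos hα] at ha'
  have hβ : β = m := by
    by_contra hn
    rw [if_neg hn] at hb'
    linarith [E1.1]
  have hγ : γ = m := by
    by_contra hn
    rw [if_neg hn] at hc'
    linarith [E1.2]
  rw [if_pos hβ] at hb'
  rw [if_pos hγ] at hc'
  have eab : b = a := by linarith [E1.1]
  have eac : c = a := by linarith [E1.2]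
  subst hα hβ
  rw [hγ, eab, eac] at h
  have s0 := h 0
  have s1 := h 1
  have hexp : Real.exp (2 * β * 1) = 1 := by
    have h8 : 4 * q ^ 2 * a * (Real.exp (2 * β * 1) - 1) = 0 := by
      rw [mul_zero, Real.exp_zero] at s0
      linear_combination s0 - s1
    rcases mul_eq_zero.1 h8 with h9 | h9
    · exact absurd h9 (by positivity)
    · linarith
  rw [Real.exp_eq_one_iff] at hexp
  linarith

theorem h1_param {u v : Fin 3 → ℝ} (h : LinearIndependent ℝ ![u, v]) :
    ∃ α : Fin 3 → ℝ, α ≠ 0 ∧ ∀ w : Fin 3 → ℝ, dt u w = 0 → dt v w = 0 → ∃ s : ℝ, ∀ i, w i = s * α i := by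
  have hne : crossProduct u v ≠ 0 := crossProduct_ne_zero_iff_linearIndependent.2 h
  rw [cross_apply] at hne
  refine ⟨_, hne, fun w h1 h2 => ?_⟩
  unfold dt at h1 h2
  rw [Fin.sum_univ_three] at h1 h2
  set x := u 1 * v 2 - u 2 * v 1 with hx
  set y := u 2 * v 0 - u 0 * v 2 with hy
  set z := u 0 * v 1 - u 1 * v 0 with hz
  have c0 : y * w 2 - z * w 1 = 0 := by
    rw [hy, hz]
    linear_combination v 0 * h1 - u 0 * h2
  have c1 : z * w 0 - x * w 2 = 0 := by
    rw [hx, hz]
    linear_combination v 1 * h1 - u 1 * h2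
  have c2 : x * w 1 - y * w 0 = 0 := by
    rw [hx, hy]
    linear_combination v 2 * h1 - u 2 * h2
  clear_value x y z
  have hN : x * x + y * y + z * z ≠ 0 := by
    intro h0
    apply hne
    have hx0 : x = 0 := by nlinarith [mul_self_nonneg x, mul_self_nonneg y, mul_self_nonneg z]
    have hy0 : y = 0 := by nlinarith [mul_self_nonneg x, mul_self_nonneg y, mul_self_nonneg z]
    have hz0 : z = 0 := by nlinarith [mul_self_nonneg x, mul_self_nonneg y, mul_self_nonneg z]
    rw [hx0, hy0, hz0]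
    funext i
    fin_cases i <;> rfl
  refine ⟨(x * w 0 + y * w 1 + z * w 2) / (x * x + y * y + z * z), fun i => ?_⟩
  fin_cases i
  · show w 0 = _ * x
    rw [div_mul_eq_mul_div, eq_div_iff hN]
    linear_combination z * c1 - y * c2
  · show w 1 = _ * y
    rw [div_mul_eq_mul_div, eq_div_iff hN]
    linear_combination x * c2 - z * c0
  · show w 2 = _ * z
    rw [div_mul_eq_mul_div, eq_div_iff hN]
    linear_combination y * c0 - x * c1

theorem h1_comb (r α : Fin 3 → ℝ) (hr : ∀ i, r i ≠ 0) (hα : α ≠ 0)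
    (h0 : ∑ i, (if α i = 0 then r i else 0) = 1) (h1 : ∀ x, x ≠ 0 → ∑ i, (if α i = x then r i else 0) = 0) :
    ∃ i j k : Fin 3, i ≠ j ∧ j ≠ k ∧ k ≠ i ∧ r i = 1 ∧ r j + r k = 0 := by
  rw [Fin.sum_univ_three] at h0
  simp_rw [Fin.sum_univ_three] at h1
  have key : ∀ x y : ℝ, ∀ P : Prop, [Decidable P] → x ≠ 0 → x + (if P then y else 0) = 0 → x + y = 0 := by
    intro x y P _ hx hP
    by_cases h : P
    · rwa [if_pos h] at hP
    · rw [if_neg h, add_zero] at hP
      exact absurd hP hx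
  by_cases a0 : α 0 = 0 <;> by_cases a1 : α 1 = 0 <;> by_cases a2 : α 2 = 0
  · exact absurd (by funext i; fin_cases i <;> assumption) hα
  · have := h1 (α 2) a2
    rw [a0, a1, if_neg (Ne.symm a2), if_neg (Ne.symm a2), if_pos rfl] at this
    exact absurd (by linarith) (hr 2)
  · have := h1 (α 1) a1
    rw [a0, a2, if_neg (Ne.symm a1), if_pos rfl, if_neg (Ne.symm a1)] at this
    exact absurd (by linarith) (hr 1)
  · refine ⟨0, 1, 2, by decide, by decide, by decide, ?_, ?_⟩
    · rw [if_pos a0, if_neg a1, if_neg a2] at h0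
      linarith
    · have := h1 (α 1) a1
      rw [a0, if_neg (Ne.symm a1), if_pos rfl, zero_add] at this
      exact key _ _ _ (hr 1) this
  · have := h1 (α 0) a0
    rw [a1, a2, if_pos rfl, if_neg (Ne.symm a0), if_neg (Ne.symm a0)] at this
    exact absurd (by linarith) (hr 0)
  · refine ⟨1, 0, 2, by decide, by decide, by decide, ?_, ?_⟩
    · rw [if_pos a1, if_neg a0, if_neg a2] at h0
      linarith
    · have := h1 (α 0) a0
      rw [a1, if_neg (Ne.symm a0), if_pos rfl, add_zero] at this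
      exact key _ _ _ (hr 0) this
  · refine ⟨2, 0, 1, by decide, by decide, by decide, ?_, ?_⟩
    · rw [if_pos a2, if_neg a0, if_neg a1] at h0
      linarith
    · have := h1 (α 0) a0
      rw [a2, if_neg (Ne.symm a0), if_pos rfl, add_zero] at this
      exact key _ _ _ (hr 0) this
  · rw [if_neg a0, if_neg a1, if_neg a2] at h0
    exact absurd h0 (by norm_num)

/-- fibres -/
theorem h1_circ (A B : ℝ) : {z : ℂ | Complex.normSq z = A ∧ Complex.normSq (z - 1) = B}.Finite := by
  refine ((Set.finite_singleton (⟨(A - B + 1) / 2, -Real.sqrt (A - ((A - B + 1) / 2) ^ 2)⟩ : ℂ)).insert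
    (⟨(A - B + 1) / 2, Real.sqrt (A - ((A - B + 1) / 2) ^ 2)⟩ : ℂ)).subset ?_
  rintro z ⟨h1, h2⟩
  rw [Complex.normSq_apply] at h1 h2
  simp only [Complex.sub_re, Complex.sub_im, Complex.one_re, Complex.one_im] at h2
  have hx : z.re = (A - B + 1) / 2 := by linarith
  have hy : z.im ^ 2 = A - ((A - B + 1) / 2) ^ 2 := by
    rw [← hx]
    linarith
  rw [Set.mem_insert_iff, Set.mem_singleton_iff, ← hy, Real.sqrt_sq_eq_abs]
  rcases abs_choice z.im with e | e
  · left
    rw [e]
    exact Complex.ext hx rfl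
  · right
    rw [e, neg_neg]
    exact Complex.ext hx rfl

theorem h1_max (α : Fin 3 → ℝ) (h : ∃ i, 0 < α i) : ∃ m : ℝ, 0 < m ∧ (∀ i, α i ≤ m) ∧ (α 0 = m ∨ α 1 = m ∨ α 2 = m) := by
  obtain ⟨x, hx⟩ := Finite.exists_max α
  obtain ⟨i, hi⟩ := h
  refine ⟨α x, hi.trans_le (hx i), hx, ?_⟩
  fin_cases x
  · left; rfl
  · right; left; rfl
  · right; right; rfl

theorem h1_case1 {p q κ a b c : ℝ} {α : Fin 3 → ℝ} (hq : q ≠ 0) (ha : 0 < a) (hb : 0 < b) (hc : 0 < c) (hα : α ≠ 0)
    (h : ∀ s : ℝ, q ^ 2 * (a * Real.exp (2 * α 0 * s) - b * Real.exp (2 * α 1 * s) + 1) ^ 2 +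
      (a * Real.exp (2 * α 0 * s) - c * Real.exp (2 * α 2 * s) + κ -
        p * (a * Real.exp (2 * α 0 * s) - b * Real.exp (2 * α 1 * s) + 1)) ^ 2 -
        4 * q ^ 2 * (a * Real.exp (2 * α 0 * s)) = 0) : False := by
  by_cases hp : ∃ i, 0 < α i
  · obtain ⟨m, hm, h1, h2⟩ := h1_max α hp
    exact h1_noncol hq ha hb hc hm (h1 0) (h1 1) (h1 2) h2 h
  · have hn : ∃ i, 0 < (fun j => - α j) i := by
      by_contra hcon
      refine hα (funext fun i => le_antisymm ?_ ?_)
      · exact not_lt.1 fun h => hp ⟨i, h⟩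
      · exact not_lt.1 fun h => hcon ⟨i, by simpa using h⟩
    obtain ⟨m, hm, h1, h2⟩ := h1_max _ hn
    refine h1_noncol (p := p) (κ := κ) hq ha hb hc hm (h1 0) (h1 1) (h1 2) h2 fun s => ?_
    have := h (-s)
    simp only [mul_neg, neg_mul] at this ⊢
    exact this

theorem h1_ES.sq {f : ℝ → ℝ} (hf : h1_ES f) : h1_ES (fun s => f s ^ 2) := by
  simpa [_root_.sq] using hf.mul hf

theorem h1_col {r α : Fin 3 → ℝ} (h : {s : ℝ | ∑ i, r i * Real.exp (2 * α i * s) = 1}.Infinite) (x : ℝ) :
    ∑ i, (if α i = x then r i else 0) = if x = 0 then 1 else 0 := by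
  have h1 := expsum (ι := Option (Fin 3)) (fun o => o.elim (-1) r) (fun o => o.elim 0 (fun i => 2 * α i))
    (by
      refine h.mono fun s hs => ?_
      have hs' : ∑ i, r i * Real.exp (2 * α i * s) = 1 := hs
      show ∑ o : Option (Fin 3), o.elim (-1) r * Real.exp (o.elim 0 (fun i => 2 * α i) * s) = 0
      rw [Fintype.sum_option]
      show (-1) * Real.exp (0 * s) + ∑ i, r i * Real.exp (2 * α i * s) = 0
      rw [hs', zero_mul, Real.exp_zero]
      ring) (2 * x)
  rw [Finset.sum_filter, Fintype.sum_option] at h1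
  have h2 : ∑ i, (if α i = x then r i else 0) = ∑ i, (if 2 * α i = 2 * x then r i else 0) := by
    refine Finset.sum_congr rfl fun i _ => ?_
    by_cases hi : α i = x
    · rw [if_pos hi, if_pos (by rw [hi])]
    · rw [if_neg hi, if_neg (fun h => hi (by linarith))]
  have h3 : (if (0 : ℝ) = 2 * x then (-1 : ℝ) else 0) + ∑ i, (if 2 * α i = 2 * x then r i else 0) = 0 := h1
  rw [h2]
  by_cases hx : x = 0
  · rw [if_pos hx]
    rw [if_pos (by rw [hx, mul_zero])] at h3
    linarith
  · rw [if_neg hx]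
    rw [if_neg (fun h => hx (by linarith))] at h3
    linarith

/-- Row Z5-H1b. The non-reciprocity condition implies (H). Let `u, v` be independent and the set infinite. Then `dt u (LY t) = dt v (LY t) = 0`
means `LY t = s α` with `α = u × v ≠ 0`. Write `ρ_i = ‖c_i‖`, `‖t - d_i‖ = exp (α_i s) / ρ_i`; for `i ≠ j`: `| exp (α_i s) / ρ_i - exp (α_j s) / ρ_j | ≤ ‖d_i - d_j‖`
and `exp (α_i s) / ρ_i + exp (α_j s) / ρ_j ≥ ‖d_i - d_j‖ > 0`. The map `t ↦ s` has fibres with at most 2 points (two circles with different centres meet in at most two points), so infinitely many `s` occur.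
COLLINEAR CASE (`(d_2 - d_0) / (d_1 - d_0)` real): with `β_i` real, `∑ β_i = 0`, `∑ β_i ‖t - d_i‖^2 = 1` for all `t` (`d_i = d_0 + λ_i e`, `‖e‖ = 1`, `β_i = 1 / ∏_{j ≠ i} (λ_i - λ_j)`, all nonzero): so
`∑ (β_i / ρ_i^2) exp (2 α_i s) = 1` for infinitely many `s`; use `expsum`. So the indices with `α_i = 0` have `∑ β_i / ρ_i^2 = 1` and those with a given `α_i ≠ 0` have `∑ β_i / ρ_i^2 = 0`; as `α ≠ 0` and `β_i ≠ 0`, exactly one index `i` has `α_i = 0`, `β_i = ρ_i^2`, and the other two satisfy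
`β_j / ρ_j^2 + β_k / ρ_k^2 = 0`. Then for every `t` with `‖c_i (t - d_i)‖ = 1`: `β_i ‖t - d_i‖^2 = 1`, so `β_j ‖t - d_j‖^2 + β_k ‖t - d_k‖^2 = 0`, i.e. `‖c_j (t - d_j)‖ = ‖c_k (t - d_k)‖`: contradiction with `hrec`.
NONCOLLINEAR CASE: `‖t‖^2, Re t, Im t` are affine functions of the `R_i = ‖t - d_i‖^2`: `t = τ + ∑ τ_i R_i` (`τ_i ∈ ℂ`, `∑ τ_i = 0`, any two of the `τ_i` independent over `ℝ`), `‖t‖^2 = ξ + ∑ ξ_i R_i`, `∑ ξ_i = 1`. The equation `‖t‖^2 = |t|^2` is an exponential polynomial
in `s` with frequencies `2 α_i, 2 (α_i + α_j), 0`. Let `m = max α_i` and suppose `m > 0` (otherwise replace `s` by `-s`, `α` by `-α`): the coefficient of `exp (4 m s)` is `- ‖∑_{α_i = m} τ_i / ρ_i^2‖^2`, which is nonzero unless all three `α_i = m` and the `ρ_i` are equal; in this last case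
the coefficient of `exp (2 m s)` is `∑ ξ_i / ρ_i^2 ≠ 0` (with `t` constant). Contradiction. -/
theorem hh_of_rec {c d : Fin 3 → ℂ} (hc : ∀ i, c i ≠ 0) (hd : Function.Injective d)
    (hrec : ∀ i j k : Fin 3, i ≠ j → j ≠ k → k ≠ i → ∃ t : ℂ, ‖c i * (t - d i)‖ = 1 ∧ ‖c j * (t - d j)‖ ≠ ‖c k * (t - d k)‖) :
    HH c d := by
  intro u v huv
  by_contra hT
  obtain ⟨α, hα, hp⟩ := h1_param huv
  set T := {t : ℂ | (∀ i, t ≠ d i) ∧ dt u (LY c d t) = 0 ∧ dt v (LY c d t) = 0} with hTdef
  have hTi : T.Infinite := hT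
  have he : d 1 - d 0 ≠ 0 := sub_ne_zero.2 (fun h => absurd (hd h) (by decide))
  obtain ⟨e, hed⟩ : ∃ e, e = d 1 - d 0 := ⟨_, rfl⟩
  rw [← hed] at he
  obtain ⟨w, hw⟩ : ∃ w, w = (d 2 - d 0) / e := ⟨_, rfl⟩
  obtain ⟨a, ha⟩ : ∃ a : Fin 3 → ℝ, a = fun i => 1 / (Complex.normSq (c i) * Complex.normSq e) := ⟨_, rfl⟩
  have hN : ∀ i, 0 < Complex.normSq (c i) * Complex.normSq e := fun i =>
    mul_pos (Complex.normSq_pos.2 (hc i)) (Complex.normSq_pos.2 he)
  have hap : ∀ i, 0 < a i := fun i => by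
    rw [ha]
    exact one_div_pos.2 (hN i)
  have hX : ∀ i t, Complex.normSq ((t - d i) / e) = a i * Complex.normSq (c i * (t - d i)) := by
    intro i t
    have h1 := (Complex.normSq_pos.2 (hc i)).ne'
    have h2 := (Complex.normSq_pos.2 he).ne'
    rw [ha, map_div₀, map_mul]
    field_simp
  have h01 : ∀ t, (t - d 1) / e = (t - d 0) / e - 1 := by
    intro t
    rw [eq_sub_iff_add_eq, ← div_self he, ← add_div, hed]
    congr 1
    ring
  have h02 : ∀ t, (t - d 2) / e = (t - d 0) / e - w := by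
    intro t
    rw [hw, ← sub_div]
    congr 1
    ring
  choose! s hs using fun t (ht : t ∈ T) => hp _ ht.2.1 ht.2.2
  have hXs : ∀ t ∈ T, ∀ i, Complex.normSq (c i * (t - d i)) = Real.exp (2 * α i * s t) := by
    intro t ht i
    have h1 := hs t ht i
    have hne : c i * (t - d i) ≠ 0 := mul_ne_zero (hc i) (sub_ne_zero.2 (ht.1 i))
    have h2 : ‖c i * (t - d i)‖ = Real.exp (s t * α i) := by
      rw [← h1]
      exact (Real.exp_log (norm_pos_iff.2 hne)).symm
    rw [Complex.normSq_eq_norm_sq, h2, ← Real.exp_nat_mul]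
    congr 1
    push_cast
    ring
  have hA : ∀ t ∈ T, ∀ i, Complex.normSq ((t - d i) / e) = a i * Real.exp (2 * α i * s t) := by
    intro t ht i
    rw [hX, hXs t ht]
  have hS : (s '' T).Infinite := by
    intro hfin
    apply hTi
    refine Set.Finite.of_finite_fibers s hfin ?_
    intro σ _
    have hfib := (h1_circ (a 0 * Real.exp (2 * α 0 * σ)) (a 1 * Real.exp (2 * α 1 * σ))).preimage
      (f := fun t => (t - d 0) / e) (fun x _ y _ hxy => by
        have : (x - d 0) / e = (y - d 0) / e := hxy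
        rw [div_left_inj' he] at this
        exact sub_left_injective this)
    refine hfib.subset ?_
    rintro t ⟨ht, hts⟩
    have hts' : s t = σ := hts
    refine ⟨?_, ?_⟩
    · rw [hA t ht 0, hts']
    · rw [← h01, hA t ht 1, hts']
  by_cases hq : w.im = 0
  · have hp0 : w.re ≠ 0 := by
      intro h
      have hw0 : w = 0 := Complex.ext h hq
      rw [hw, div_eq_zero_iff, sub_eq_zero] at hw0
      rcases hw0 with h | h
      · exact absurd (hd h) (by decide)
      · exact he h
    have hp1 : 1 - w.re ≠ 0 := by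
      intro h
      have hw1 : w = 1 := Complex.ext (by rw [Complex.one_re]; linarith) (by rw [Complex.one_im]; exact hq)
      rw [hw, div_eq_one_iff_eq he, hed] at hw1
      exact absurd (hd (sub_left_injective hw1)) (by decide)
    obtain ⟨r, hr⟩ : ∃ r : Fin 3 → ℝ, r = ![a 0 / w.re, a 1 / (1 - w.re), -(a 2 / (w.re * (1 - w.re)))] := ⟨_, rfl⟩
    have hr0 : r 0 = a 0 / w.re := by rw [hr]; rfl
    have hr1 : r 1 = a 1 / (1 - w.re) := by rw [hr]; rfl
    have hr2 : r 2 = -(a 2 / (w.re * (1 - w.re))) := by rw [hr]; rfl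
    have hrel : ∀ t, ∑ i, r i * Complex.normSq (c i * (t - d i)) = 1 := by
      intro t
      have h := h1_rel0 ((t - d 0) / e) w hq
      rw [← h01, ← h02, hX, hX, hX] at h
      rw [Fin.sum_univ_three, hr0, hr1, hr2]
      field_simp
      linear_combination h
    have hne : ∀ i, r i ≠ 0 := by
      intro i
      fin_cases i
      · show r 0 ≠ 0
        rw [hr0]
        exact div_ne_zero (hap 0).ne' hp0
      · show r 1 ≠ 0
        rw [hr1]
        exact div_ne_zero (hap 1).ne' hp1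
      · show r 2 ≠ 0
        rw [hr2]
        exact neg_ne_zero.2 (div_ne_zero (hap 2).ne' (mul_ne_zero hp0 hp1))
    have hinf : {s : ℝ | ∑ i, r i * Real.exp (2 * α i * s) = 1}.Infinite := by
      refine hS.mono ?_
      rintro _ ⟨t, ht, rfl⟩
      show ∑ i, r i * Real.exp (2 * α i * s t) = 1
      rw [← hrel t]
      exact Finset.sum_congr rfl fun i _ => by rw [hXs t ht]
    have hcol := h1_col hinf
    obtain ⟨i, j, k, hij, hjk, hki, h1, h2⟩ := h1_comb r α hne hα
      (by rw [hcol 0, if_pos rfl]) (fun x hx => by rw [hcol x, if_neg hx])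
    obtain ⟨t, ht1, ht2⟩ := hrec i j k hij hjk hki
    apply ht2
    have hsum : r i * Complex.normSq (c i * (t - d i)) + r j * Complex.normSq (c j * (t - d j)) +
        r k * Complex.normSq (c k * (t - d k)) = 1 := by
      rw [← hrel t, Fin.sum_univ_three]
      fin_cases i <;> fin_cases j <;> fin_cases k <;>
        first
        | exact absurd rfl hij
        | exact absurd rfl hjk
        | exact absurd rfl hki
        | (simp only [Fin.zero_eta, Fin.mk_one, Fin.reduceFinMk] <;> ring)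
    have hi1 : Complex.normSq (c i * (t - d i)) = 1 := by
      rw [Complex.normSq_eq_norm_sq, ht1, one_pow]
    rw [h1, hi1] at hsum
    have hjk' : r j * (Complex.normSq (c j * (t - d j)) - Complex.normSq (c k * (t - d k))) = 0 := by
      linear_combination hsum - Complex.normSq (c k * (t - d k)) * h2
    have h3 := sub_eq_zero.1 ((mul_eq_zero.1 hjk').resolve_left (hne j))
    rw [Complex.normSq_eq_norm_sq, Complex.normSq_eq_norm_sq] at h3
    exact (sq_eq_sq₀ (norm_nonneg _) (norm_nonneg _)).1 h3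
  · have hE : ∀ i : Fin 3, h1_ES (fun s => a i * Real.exp (2 * α i * s)) := fun i => h1_ES.exp (a i) (2 * α i)
    have hG : h1_ES (fun s => a 0 * Real.exp (2 * α 0 * s) - a 1 * Real.exp (2 * α 1 * s) + 1) :=
      ((hE 0).sub (hE 1)).add (h1_ES.const 1)
    have hF : h1_ES (fun s => w.im ^ 2 * (a 0 * Real.exp (2 * α 0 * s) - a 1 * Real.exp (2 * α 1 * s) + 1) ^ 2 +
      (a 0 * Real.exp (2 * α 0 * s) - a 2 * Real.exp (2 * α 2 * s) + (w.re ^ 2 + w.im ^ 2) -
        w.re * (a 0 * Real.exp (2 * α 0 * s) - a 1 * Real.exp (2 * α 1 * s) + 1)) ^ 2 -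
        4 * w.im ^ 2 * (a 0 * Real.exp (2 * α 0 * s))) :=
      (((h1_ES.const (w.im ^ 2)).mul hG.sq).add
        ((((hE 0).sub (hE 2)).add (h1_ES.const (w.re ^ 2 + w.im ^ 2))).sub ((h1_ES.const w.re).mul hG)).sq).sub
        ((h1_ES.const (4 * w.im ^ 2)).mul (hE 0))
    refine h1_case1 hq (hap 0) (hap 1) (hap 2) hα (hF.zero ?_)
    refine hS.mono ?_
    rintro _ ⟨t, ht, rfl⟩
    have h := h1_rel ((t - d 0) / e) w
    rw [← h01, ← h02, hA t ht, hA t ht, hA t ht] at h
    exact h

end Pool.Agent.Z5
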