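import Pool.Agent.Z5.Defs

namespace Pool.Agent.Z5

open Pool.Agent.ZL2 Filter Topology

theorem n2_hh_zero {K : Type} [Field K] [NumberField K] : hh (0 : K) = 0 := by
  have h : ∀ p : Pl K, max 0 (lv p (0 : K)) = 0 := by
    rintro (σ | v) <;> simp [lv]
  unfold hh
  rw [Sm_congr h]
  exact Sm_zero

theorem n2_hh_one {K : Type} [Field K] [NumberField K] : hh (1 : K) = 0 := by
  have h : ∀ p : Pl K, max 0 (lv p (1 : K)) = 0 := by
    intro p
    rw [lv_one, max_self]
  unfold hh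
  rw [Sm_congr h]
  exact Sm_zero

theorem n2_D_nonneg {K : Type} [Field K] [NumberField K] :
    0 ≤ (Module.finrank ℚ K : ℝ) * Real.log 2 :=
  mul_nonneg (Nat.cast_nonneg _) (Real.log_nonneg (by norm_num))

/-- The height of a sum. -/
theorem n2_hh_add {K : Type} [Field K] [NumberField K] (x y : K) :
    hh (x + y) ≤ hh x + hh y + (Module.finrank ℚ K : ℝ) * Real.log 2 := by
  have hD := n2_D_nonneg (K := K)
  have h1 := hh_nonneg x
  have h2 := hh_nonneg y
  rcases eq_or_ne x 0 with hx | hx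
  · subst hx
    rw [zero_add]; linarith
  rcases eq_or_ne y 0 with hy | hy
  · subst hy
    rw [add_zero]; linarith
  rcases eq_or_ne (x + y) 0 with hxy | hxy
  · rw [hxy, n2_hh_zero]; linarith
  have hp : ∀ p : Pl K, max 0 (lv p (x + y)) ≤ max 0 (lv p x) + max 0 (lv p y) + ell p := by
    intro p
    have h := lv_add_le p hx hy hxy
    have e0 := ell_nonneg p
    have e1 := le_max_left 0 (lv p x)
    have e2 := le_max_left 0 (lv p y)
    have e3 := le_max_right 0 (lv p x)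
    have e4 := le_max_right 0 (lv p y)
    refine max_le (by linarith) (h.trans ?_)
    rcases max_choice (lv p x) (lv p y) with h5 | h5 <;> rw [h5] <;> linarith
  have h3 := Sm_mono (FS_max0 hxy) (((FS_max0 hx).add (FS_max0 hy)).add FS_ell) hp
  rw [Sm_add ((FS_max0 hx).add (FS_max0 hy)) FS_ell, Sm_add (FS_max0 hx) (FS_max0 hy), Sm_ell] at h3
  exact h3

/-- The height of a product. -/
theorem n2_hh_mul {K : Type} [Field K] [NumberField K] (x y : K) : hh (x * y) ≤ hh x + hh y := by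
  have h1 := hh_nonneg x
  have h2 := hh_nonneg y
  rcases eq_or_ne x 0 with hx | hx
  · rw [hx, zero_mul, n2_hh_zero]; linarith
  rcases eq_or_ne y 0 with hy | hy
  · rw [hy, mul_zero, n2_hh_zero]; linarith
  have hp : ∀ p : Pl K, max 0 (lv p (x * y)) ≤ max 0 (lv p x) + max 0 (lv p y) := by
    intro p
    rw [lv_mul p hx hy]
    have e1 := le_max_left 0 (lv p x)
    have e2 := le_max_left 0 (lv p y)
    have e3 := le_max_right 0 (lv p x)
    have e4 := le_max_right 0 (lv p y)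
    exact max_le (by linarith) (by linarith)
  have h3 := Sm_mono (FS_max0 (mul_ne_zero hx hy)) ((FS_max0 hx).add (FS_max0 hy)) hp
  rw [Sm_add (FS_max0 hx) (FS_max0 hy)] at h3
  exact h3

/-- `hh x = ∑ max 0 (- lv x)`. -/
theorem n2_hh_neg {K : Type} [Field K] [NumberField K] {x : K} (hx : x ≠ 0) :
    Sm (fun p : Pl K => max 0 (- lv p x)) = hh x := by
  have h1 := Sm_sub (FS_max0 hx) (FS_lv hx)
  rw [Sm_lv hx, sub_zero] at h1
  unfold hh
  rw [← h1]
  refine Sm_congr fun p => ?_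
  rcases le_total 0 (lv p x) with h | h
  · rw [max_eq_left (by linarith), max_eq_right h]; ring
  · rw [max_eq_right (by linarith), max_eq_left h]; ring

theorem n2_hh_inv {K : Type} [Field K] [NumberField K] (x : K) : hh x⁻¹ = hh x := by
  rcases eq_or_ne x 0 with hx | hx
  · rw [hx, inv_zero]
  · rw [← n2_hh_neg hx]
    unfold hh
    exact Sm_congr fun p => by rw [lv_inv]

/-- The height of a fixed number in extensions. -/
theorem n2_ext {F : Type} [Field F] [NumberField F] (a : F) :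
    ∃ C : ℝ, 0 ≤ C ∧ ∀ (K : Type) [Field K] [NumberField K] [Algebra F K],
      hh (algebraMap F K a) ≤ C * Module.finrank ℚ K := by
  rcases eq_or_ne a 0 with ha | ha
  · refine ⟨0, le_rfl, ?_⟩
    intro K _ _ _
    rw [ha, map_zero, n2_hh_zero, zero_mul]
  · exact hh_ext ha

/-- Row Z5-N2a. `|log|` sums over the `F`-embeddings are bounded by the height: `∑_σ |log ‖σ x‖| ≤ 2 hh x ≤ 2 B [K:ℚ] = 2 B [F:ℚ] card`
(`ZL2.sum_abs_le`; the `σ : K →ₐ[F] ℂ` are some of the embeddings). -/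
theorem sum_le_hh {F : Type} [Field F] [NumberField F] [Algebra F ℂ] {K : Type} [Field K] [NumberField K]
    [Algebra F K] [FiniteDimensional F K] {x : K} (hx : x ≠ 0) {B : ℝ} (hB : hh x ≤ B * Module.finrank ℚ K) :
    ∑ σ : K →ₐ[F] ℂ, |Real.log ‖σ x‖| ≤ 2 * B * (Module.finrank ℚ F : ℝ) * Fintype.card (K →ₐ[F] ℂ) := by
  classical
  have h1 : ∑ σ : K →ₐ[F] ℂ, |Real.log ‖σ x‖| ≤ ∑ σ : K →+* ℂ, |Real.log ‖σ x‖| := by
    let e : (K →ₐ[F] ℂ) ↪ (K →+* ℂ) := ⟨fun σ => (σ : K →+* ℂ), AlgHom.coe_ringHom_injective⟩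
    have h2 : ∑ σ : K →ₐ[F] ℂ, |Real.log ‖σ x‖| =
        ∑ σ ∈ Finset.univ.map e, |Real.log ‖σ x‖| := by
      rw [Finset.sum_map]
      rfl
    rw [h2]
    exact Finset.sum_le_sum_of_subset_of_nonneg (Finset.subset_univ _) fun _ _ _ => abs_nonneg _
  have h3 := sum_abs_le hx
  have h4 : Fintype.card (K →ₐ[F] ℂ) = Module.finrank F K := AlgHom.card F K ℂ
  have h5 : Module.finrank ℚ F * Module.finrank F K = Module.finrank ℚ K :=
    Module.finrank_mul_finrank ℚ F K
  have h6 : (Module.finrank ℚ K : ℝ) = (Module.finrank ℚ F : ℝ) * (Fintype.card (K →ₐ[F] ℂ) : ℝ) := by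
    rw [h4, ← h5]
    push_cast
    ring
  rw [h6] at hB
  calc ∑ σ : K →ₐ[F] ℂ, |Real.log ‖σ x‖| ≤ 2 * hh x := h1.trans h3
    _ ≤ 2 * (B * ((Module.finrank ℚ F : ℝ) * (Fintype.card (K →ₐ[F] ℂ) : ℝ))) := by linarith
    _ = _ := by ring

/-- one of the three coordinates is at least `1 / 2` -/
theorem n2_half {u : Fin 3 → ℝ} (h : dt u u = 1) : ∃ i, 1 / 2 ≤ |u i| := by
  by_contra hc
  push Not at hc
  have h1 : ∀ i, u i * u i < 1 / 4 := by
    intro i
    have h2 := hc i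
    have h3 := abs_nonneg (u i)
    rw [← abs_mul_abs_self]
    nlinarith
  unfold dt at h
  rw [Fin.sum_univ_three] at h
  have := h1 0
  have := h1 1
  have := h1 2
  linarith

theorem n2_le_one {u : Fin 3 → ℝ} (h : dt u u = 1) (i : Fin 3) : |u i| ≤ 1 := by
  have h1 : u i * u i ≤ 1 := by
    rw [← h]
    unfold dt
    exact Finset.single_le_sum (f := fun i => u i * u i) (fun j _ => mul_self_nonneg _)
      (Finset.mem_univ i)
  rw [abs_le_one_iff_mul_self_le_one]
  exact h1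

/-- the estimate at one place -/
theorem n2_place {u C W D : Fin 3 → ℝ} {i0 : Fin 3} {m l : ℝ} (hu : dt u u = 1) (h0 : 1 / 2 ≤ |u i0|)
    (hl : 0 ≤ l) (hm : l + ∑ i, |C i| + ∑ i, |D i| ≤ m)
    (h1 : ∀ j, j ≠ i0 → W j ≤ max (W i0) (D j) + l)
    (h2 : ∀ j, j ≠ i0 → D j ≤ max (W j) (W i0) + l)
    (hr : ∑ i, u i * (C i + W i) = 0) : max 0 (- W i0) ≤ 6 * m := by
  have hC : ∀ i, |C i| ≤ ∑ i, |C i| := fun i =>
    Finset.single_le_sum (f := fun i => |C i|) (fun j _ => abs_nonneg _) (Finset.mem_univ i)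
  have hD : ∀ i, |D i| ≤ ∑ i, |D i| := fun i =>
    Finset.single_le_sum (f := fun i => |D i|) (fun j _ => abs_nonneg _) (Finset.mem_univ i)
  have hC0 : 0 ≤ ∑ i, |C i| := Finset.sum_nonneg fun _ _ => abs_nonneg _
  have hD0 : 0 ≤ ∑ i, |D i| := Finset.sum_nonneg fun _ _ => abs_nonneg _
  have hm0 : 0 ≤ m := by linarith
  refine max_le (by linarith) ?_
  by_cases hN : - W i0 ≤ 2 * m
  · linarith
  push Not at hN
  have hW : ∀ j, j ≠ i0 → |W j| ≤ m := by
    intro j hj
    have e1 := h1 j hj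
    have e2 := h2 j hj
    have e3 := hD j
    have e4 := neg_abs_le (D j)
    have e5 := le_abs_self (D j)
    rw [max_eq_right (by linarith)] at e1
    rcases le_total (W j) (W i0) with h | h
    · rw [max_eq_right h] at e2
      exfalso; linarith
    · rw [max_eq_left h] at e2
      exact abs_le.2 ⟨by linarith, by linarith⟩
  have h3 : u i0 * W i0 = - ∑ i, u i * C i - ∑ i ∈ Finset.univ.erase i0, u i * W i := by
    have e1 : ∑ i, u i * (C i + W i) = ∑ i, u i * C i + ∑ i, u i * W i := by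
      rw [← Finset.sum_add_distrib]
      exact Finset.sum_congr rfl fun i _ => by ring
    have e2 := Finset.add_sum_erase Finset.univ (fun i => u i * W i) (Finset.mem_univ i0)
    rw [e1] at hr
    linarith
  have h4 : |∑ i, u i * C i| ≤ m := by
    refine (Finset.abs_sum_le_sum_abs _ _).trans ?_
    have : ∑ i, |u i * C i| ≤ ∑ i, |C i| := by
      refine Finset.sum_le_sum fun i _ => ?_
      rw [abs_mul]
      have := n2_le_one hu i
      nlinarith [abs_nonneg (C i)]
    linarith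
  have h5 : |∑ i ∈ Finset.univ.erase i0, u i * W i| ≤ 2 * m := by
    refine (Finset.abs_sum_le_sum_abs _ _).trans ?_
    have e1 : ∑ i ∈ Finset.univ.erase i0, |u i * W i| ≤ ∑ _i ∈ Finset.univ.erase i0, m := by
      refine Finset.sum_le_sum fun i hi => ?_
      rw [abs_mul]
      have e2 := n2_le_one hu i
      have e3 := hW i (Finset.ne_of_mem_erase hi)
      nlinarith [abs_nonneg (W i), abs_nonneg (u i)]
    refine e1.trans ?_
    rw [Finset.sum_const, Finset.card_erase_of_mem (Finset.mem_univ i0)]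
    simp
  have h6 : |u i0| * |W i0| ≤ 3 * m := by
    rw [← abs_mul, h3]
    have e1 := abs_le.1 h4
    have e2 := abs_le.1 h5
    exact abs_le.2 ⟨by linarith, by linarith⟩
  have h7 := neg_abs_le (W i0)
  nlinarith [abs_nonneg (W i0)]

/-- Row Z5-N2b. The points of a line of `G_m^3` satisfying one real relation have bounded height. Choose `i0` with `|u i0| ≥ 1/2` (`∑ u_i^2 = 1`).
Let `δ_j = d_i0 - d_j ≠ 0`, `z = t - d_i0`, `t - d_j = z + δ_j`. At a place `p` let `m p = ell p + ∑_j (|lv p c_j| + |lv p δ_j|)` (`j ≠ i0` for `δ`).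
If `lv p z ≤ - 2 m p` then for `j ≠ i0` one has `|lv p (z + δ_j) - lv p δ_j| ≤ ell p`-ish (two applications of `lv_add_le`), hence from the relation
`|u i0| |lv p z| ≤ 4 m p`, `lv p z ≥ - 8 m p`. So always `max 0 (- lv p z) ≤ 8 m p`. `Sm m ≤ const [K:ℚ]` (`ZL2.hh_ext`, `Sm_abs`, `Sm_ell`), product formula
`hh z = Sm (max 0 (- lv z)) ≤ const [K:ℚ]`, and `hh (c_i (z + δ_i)) ≤ hh z + const [K:ℚ]`. (`u` real, all constants depend on `F, c, d` only.) -/
theorem hb {F : Type} [Field F] [NumberField F] (c d : Fin 3 → F) (hc : ∀ i, c i ≠ 0)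
    (hd : Function.Injective d) :
    ∃ B : ℝ, 0 ≤ B ∧ ∀ (K : Type) [Field K] [NumberField K] [Algebra F K] (t : K), (∀ i, t ≠ algebraMap F K (d i)) →
      ∀ u : Fin 3 → ℝ, dt u u = 1 →
        (∀ p : Pl K, ∑ i, u i * lv p (algebraMap F K (c i) * (t - algebraMap F K (d i))) = 0) →
        (∀ i, hh (algebraMap F K (c i) * (t - algebraMap F K (d i))) ≤ B * Module.finrank ℚ K) ∧
        hh t ≤ B * Module.finrank ℚ K := by
  choose Cc hCc0 hCc using fun i => n2_ext (c i)
  choose Cd hCd0 hCd using fun i => n2_ext (d i)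
  choose Ce hCe0 hCe using fun q : Fin 3 × Fin 3 => n2_ext (d q.1 - d q.2)
  have hl2 : 0 ≤ Real.log 2 := Real.log_nonneg (by norm_num)
  have hScc : 0 ≤ ∑ i, Cc i := Finset.sum_nonneg fun i _ => hCc0 i
  have hScd : 0 ≤ ∑ i, Cd i := Finset.sum_nonneg fun i _ => hCd0 i
  have hSce : 0 ≤ ∑ q, Ce q := Finset.sum_nonneg fun i _ => hCe0 i
  set Cm : ℝ := Real.log 2 + 2 * ∑ i, Cc i + 2 * ∑ q, Ce q with hCm
  have hCm0 : 0 ≤ Cm := by positivity
  refine ⟨6 * Cm + ∑ i, Cc i + ∑ i, Cd i + ∑ q, Ce q + Real.log 2, by positivity, ?_⟩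
  intro K _ _ _ t ht u hu hr
  obtain ⟨i0, hi0⟩ := n2_half hu
  set D : ℝ := (Module.finrank ℚ K : ℝ) with hDD
  have hD0 : 0 ≤ D := Nat.cast_nonneg _
  set z : K := t - algebraMap F K (d i0) with hz
  have hz0 : z ≠ 0 := sub_ne_zero.2 (ht i0)
  have hcK : ∀ i, algebraMap F K (c i) ≠ 0 := fun i => (map_ne_zero _).2 (hc i)
  have htd : ∀ i, t - algebraMap F K (d i) ≠ 0 := fun i => sub_ne_zero.2 (ht i)
  have hdd : ∀ j, j ≠ i0 → algebraMap F K (d i0 - d j) ≠ 0 := fun j hj =>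
    (map_ne_zero _).2 (sub_ne_zero.2 fun h => hj (hd h).symm)
  have hw : ∀ j, t - algebraMap F K (d j) = z + algebraMap F K (d i0 - d j) := by
    intro j
    rw [hz, map_sub]; ring
  -- the estimate at every place
  have hplace : ∀ p : Pl K, max 0 (- lv p z) ≤
      6 * (ell p + ∑ i, |lv p (algebraMap F K (c i))| +
        ∑ i, |if i = i0 then 0 else lv p (algebraMap F K (d i0 - d i))|) := by
    intro p
    refine n2_place (u := u) (C := fun i => lv p (algebraMap F K (c i)))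
      (W := fun i => lv p (t - algebraMap F K (d i)))
      (D := fun i => if i = i0 then 0 else lv p (algebraMap F K (d i0 - d i))) (i0 := i0)
      (l := ell p) hu hi0 (ell_nonneg p) le_rfl ?_ ?_ ?_
    · intro j hj
      simp only [if_neg hj]
      rw [hw j]
      refine lv_add_le p hz0 (hdd j hj) ?_
      rw [← hw j]; exact htd j
    · intro j hj
      simp only [if_neg hj]
      have e1 : algebraMap F K (d i0 - d j) = (t - algebraMap F K (d j)) + (-z) := by
        rw [hw j]; ring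
      have e2 := lv_add_le p (htd j) (neg_ne_zero.2 hz0) (by rw [← e1]; exact hdd j hj)
      rw [← e1, lv_neg] at e2
      exact e2
    · rw [← hr p]
      refine Finset.sum_congr rfl fun i _ => ?_
      rw [lv_mul p (hcK i) (htd i)]
  have hFSc : ∀ i ∈ (Finset.univ : Finset (Fin 3)),
      FS (fun p : Pl K => |lv p (algebraMap F K (c i))|) := fun i _ => (FS_lv (hcK i)).abs
  have hFSd : ∀ i ∈ (Finset.univ : Finset (Fin 3)),
      FS (fun p : Pl K => |if i = i0 then 0 else lv p (algebraMap F K (d i0 - d i))|) := by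
    intro i _
    by_cases h : i = i0
    · simp only [if_pos h, abs_zero]; exact FS.zero
    · simp only [if_neg h]; exact (FS_lv (hdd i h)).abs
  have hFS1 := (FS_ell (K := K)).add (FS.sum Finset.univ hFSc)
  have hFS2 := hFS1.add (FS.sum Finset.univ hFSd)
  have hFSz : FS (fun p : Pl K => max 0 (- lv p z)) := FS.zero.max (FS_lv hz0).neg
  have h1 := Sm_mono hFSz (hFS2.smul 6) hplace
  rw [Sm_smul, n2_hh_neg hz0, Sm_add hFS1 (FS.sum Finset.univ hFSd),
    Sm_add FS_ell (FS.sum Finset.univ hFSc), Sm_sum _ hFSc, Sm_sum _ hFSd, Sm_ell] at h1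
  have h2 : ∑ i, Sm (fun p : Pl K => |lv p (algebraMap F K (c i))|) ≤ (2 * ∑ i, Cc i) * D := by
    rw [Finset.mul_sum, Finset.sum_mul]
    refine Finset.sum_le_sum fun i _ => ?_
    rw [Sm_abs (hcK i)]
    have := hCc i K
    nlinarith
  have h3 : ∑ i, Sm (fun p : Pl K => |if i = i0 then 0 else lv p (algebraMap F K (d i0 - d i))|) ≤
      (2 * ∑ q, Ce q) * D := by
    have e1 : ∑ i, Sm (fun p : Pl K => |if i = i0 then 0 else lv p (algebraMap F K (d i0 - d i))|) ≤
        ∑ i, 2 * Ce (i0, i) * D := by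
      refine Finset.sum_le_sum fun i _ => ?_
      by_cases h : i = i0
      · simp only [if_pos h, abs_zero]
        rw [Sm_zero]
        exact mul_nonneg (mul_nonneg (by norm_num) (hCe0 _)) hD0
      · simp only [if_neg h]
        rw [Sm_abs (hdd i h)]
        have := hCe (i0, i) K
        simp only at this
        nlinarith
    refine e1.trans ?_
    have e2 : ∑ i, Ce (i0, i) ≤ ∑ q, Ce q := by
      rw [Fintype.sum_prod_type]
      exact Finset.single_le_sum (f := fun i => ∑ j, Ce (i, j))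
        (fun i _ => Finset.sum_nonneg fun j _ => hCe0 _) (Finset.mem_univ i0)
    have e3 : ∑ i, 2 * Ce (i0, i) * D = (2 * ∑ i, Ce (i0, i)) * D := by
      rw [Finset.mul_sum, Finset.sum_mul]
    rw [e3]
    nlinarith
  have hzB : hh z ≤ 6 * Cm * D := by
    have e1 : hh z ≤ 6 * (D * Real.log 2 + (2 * ∑ i, Cc i) * D + (2 * ∑ q, Ce q) * D) := by
      linarith
    refine e1.trans (le_of_eq ?_)
    rw [hCm]; ring
  have hci : ∀ i, Cc i ≤ ∑ i, Cc i := fun i =>
    Finset.single_le_sum (f := Cc) (fun j _ => hCc0 j) (Finset.mem_univ i)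
  have hdi : ∀ i, Cd i ≤ ∑ i, Cd i := fun i =>
    Finset.single_le_sum (f := Cd) (fun j _ => hCd0 j) (Finset.mem_univ i)
  have hei : ∀ q, Ce q ≤ ∑ q, Ce q := fun q =>
    Finset.single_le_sum (f := Ce) (fun j _ => hCe0 j) (Finset.mem_univ q)
  refine ⟨fun i => ?_, ?_⟩
  · have e1 := n2_hh_mul (algebraMap F K (c i)) (t - algebraMap F K (d i))
    have e2 := n2_hh_add z (algebraMap F K (d i0 - d i))
    rw [← hw i] at e2
    have e3 := hCc i K
    have e4 := hCe (i0, i) K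
    simp only at e4
    have e5 : Cc i * D ≤ (∑ i, Cc i) * D := mul_le_mul_of_nonneg_right (hci i) hD0
    have e6 : Ce (i0, i) * D ≤ (∑ q, Ce q) * D := mul_le_mul_of_nonneg_right (hei _) hD0
    have e7 : 0 ≤ (∑ i, Cd i) * D := mul_nonneg hScd hD0
    have e8 : (6 * Cm + ∑ i, Cc i + ∑ i, Cd i + ∑ q, Ce q + Real.log 2) * D =
        6 * Cm * D + (∑ i, Cc i) * D + (∑ i, Cd i) * D + (∑ q, Ce q) * D + D * Real.log 2 := by ring
    rw [e8]
    linarith
  · have e1 : t = z + algebraMap F K (d i0) := by rw [hz]; ring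
    have e2 := n2_hh_add z (algebraMap F K (d i0))
    rw [← e1] at e2
    have e3 := hCd i0 K
    have e5 : 0 ≤ (∑ i, Cc i) * D := mul_nonneg hScc hD0
    have e6 : 0 ≤ (∑ q, Ce q) * D := mul_nonneg hSce hD0
    have e7 : Cd i0 * D ≤ (∑ i, Cd i) * D := mul_le_mul_of_nonneg_right (hdi i0) hD0
    have e8 : (6 * Cm + ∑ i, Cc i + ∑ i, Cd i + ∑ q, Ce q + Real.log 2) * D =
        6 * Cm * D + (∑ i, Cc i) * D + (∑ i, Cd i) * D + (∑ q, Ce q) * D + D * Real.log 2 := by ring
    rw [e8]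
    linarith

/-- the height of an element given by a relation -/
theorem n2_row {K : Type} [Field K] [NumberField K] {W e : K} {y : Fin 3 → K} (hW : W ≠ 0)
    (he : e ≠ 0) (hy : ∀ i, y i ≠ 0) {r : Fin 3 → ℝ} {A B C : ℝ} (hr : ∑ i, |r i| ≤ A)
    (hB : ∀ i, hh (y i) ≤ B * Module.finrank ℚ K) (hC : hh e ≤ C * Module.finrank ℚ K)
    (h : ∀ p : Pl K, lv p W = ∑ i, r i * lv p (y i) + lv p e) :
    hh W ≤ (3 * |A| * |B| + C) * Module.finrank ℚ K := by
  have hA0 : 0 ≤ A := (Finset.sum_nonneg fun _ _ => abs_nonneg _).trans hr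
  have hri : ∀ i, |r i| ≤ A := fun i =>
    (Finset.single_le_sum (f := fun i => |r i|) (fun j _ => abs_nonneg _) (Finset.mem_univ i)).trans hr
  set D : ℝ := (Module.finrank ℚ K : ℝ) with hDD
  have hD0 : 0 ≤ D := Nat.cast_nonneg _
  have hp : ∀ p : Pl K, |lv p W| ≤ ∑ i, A * |lv p (y i)| + |lv p e| := by
    intro p
    rw [h p]
    refine (abs_add_le _ _).trans (add_le_add ((Finset.abs_sum_le_sum_abs _ _).trans
      (Finset.sum_le_sum fun i _ => ?_)) le_rfl)
    rw [abs_mul]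
    exact mul_le_mul_of_nonneg_right (hri i) (abs_nonneg _)
  have hFS : ∀ i ∈ (Finset.univ : Finset (Fin 3)), FS (fun p : Pl K => A * |lv p (y i)|) :=
    fun i _ => (FS_lv (hy i)).abs.smul A
  have h1 := Sm_mono (FS_lv hW).abs ((FS.sum Finset.univ hFS).add (FS_lv he).abs) hp
  rw [Sm_add (FS.sum Finset.univ hFS) (FS_lv he).abs, Sm_sum _ hFS, Sm_abs hW, Sm_abs he] at h1
  have h2 : ∑ i, Sm (fun p : Pl K => A * |lv p (y i)|) ≤ ∑ _i : Fin 3, 2 * (|A| * |B| * D) := by
    refine Finset.sum_le_sum fun i _ => ?_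
    rw [Sm_smul, Sm_abs (hy i), abs_of_nonneg hA0]
    have e1 := hB i
    have e2 : B * D ≤ |B| * D := mul_le_mul_of_nonneg_right (le_abs_self B) hD0
    have e3 := mul_le_mul_of_nonneg_left (e1.trans e2) hA0
    nlinarith
  rw [Finset.sum_const, Finset.card_univ, Fintype.card_fin, nsmul_eq_mul] at h2
  push_cast at h2
  nlinarith

/-- Row Z5-N2c. If one of the three rows of the matrix `M` is bounded then `X` has bounded height. `x = a⁻¹ X`, `y = b⁻¹ (1 - X)`.
With `v p := lv p (y_i)`: row 0 (`M 1`): `lv p (1 - X) = ∑ M 1 i v_i + lv p b`, so `hh (1 - X) ≤ A ∑_i Sm |v_i| + Sm |lv b| ≤ const`, `hh X ≤ hh (1 - X) + log 2 [K:ℚ]` (`hh_one_sub`).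
Row 1 (`M 0`): the same with `X`. Row 2: `w = X / (1 - X)` has bounded height and `1 + w = 1 / (1 - X)`, so `hh (1 - X) = hh (1 + w) ≤ hh w + log 2 [K:ℚ]`
(`hh x⁻¹ = hh x` by the product formula). -/
theorem row_bound {F : Type} [Field F] [NumberField F] (a b : F) (ha : a ≠ 0) (hb : b ≠ 0) (B A : ℝ) :
    ∃ C : ℝ, 0 ≤ C ∧ ∀ (K : Type) [Field K] [NumberField K] [Algebra F K] (X : K) (y : Fin 3 → K), X ≠ 0 → X ≠ 1 →
      (∀ i, y i ≠ 0) → (∀ i, hh (y i) ≤ B * Module.finrank ℚ K) → ∀ M : Fin 2 → Fin 3 → ℝ,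
      (∀ p : Pl K, lv p X = ∑ i, M 0 i * lv p (y i) + lv p (algebraMap F K a)) →
      (∀ p : Pl K, lv p (1 - X) = ∑ i, M 1 i * lv p (y i) + lv p (algebraMap F K b)) →
      (∃ j, ∑ i, |rw3 M j i| ≤ A) → hh X ≤ C * Module.finrank ℚ K ∧ hh (1 - X) ≤ C * Module.finrank ℚ K := by
  obtain ⟨Ca, hCa0, hCa⟩ := n2_ext a
  obtain ⟨Cb, hCb0, hCb⟩ := n2_ext b
  have hl2 : 0 ≤ Real.log 2 := Real.log_nonneg (by norm_num)
  refine ⟨3 * |A| * |B| + (Ca + Cb) + 2 * Real.log 2, by positivity, ?_⟩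
  intro K _ _ _ X y hX0 hX1 hy hB M hM0 hM1 hj
  set D : ℝ := (Module.finrank ℚ K : ℝ) with hDD
  have hD0 : 0 ≤ D := Nat.cast_nonneg _
  have h1X : (1 - X) ≠ 0 := sub_ne_zero.2 (Ne.symm hX1)
  have haK : algebraMap F K a ≠ 0 := (map_ne_zero _).2 ha
  have hbK : algebraMap F K b ≠ 0 := (map_ne_zero _).2 hb
  have eD : 0 ≤ D * Real.log 2 := mul_nonneg hD0 hl2
  have eE : (3 * |A| * |B| + (Ca + Cb) + 2 * Real.log 2) * D =
      3 * |A| * |B| * D + Ca * D + Cb * D + 2 * (D * Real.log 2) := by ring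
  have ea : 0 ≤ Ca * D := mul_nonneg hCa0 hD0
  have eb : 0 ≤ Cb * D := mul_nonneg hCb0 hD0
  have hXle : hh X ≤ hh (1 - X) + D * Real.log 2 := by
    have := hh_one_sub (x := 1 - X) h1X (by
      intro h
      exact hX0 (by linear_combination -h))
    rwa [sub_sub_cancel] at this
  have h1Xle : hh (1 - X) ≤ hh X + D * Real.log 2 := hh_one_sub hX0 hX1
  rw [eE]
  obtain ⟨j, hj⟩ := hj
  fin_cases j
  · have h1 := n2_row h1X hbK hy (r := M 1) (A := A) hj hB (hCb K) hM1
    have h2 : (3 * |A| * |B| + Cb) * D = 3 * |A| * |B| * D + Cb * D := by ring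
    rw [h2] at h1
    exact ⟨by linarith, by linarith⟩
  · have h1 := n2_row hX0 haK hy (r := M 0) (A := A) hj hB (hCa K) hM0
    have h2 : (3 * |A| * |B| + Ca) * D = 3 * |A| * |B| * D + Ca * D := by ring
    rw [h2] at h1
    exact ⟨by linarith, by linarith⟩
  · have hw0 : X * (1 - X)⁻¹ ≠ 0 := mul_ne_zero hX0 (inv_ne_zero h1X)
    have he0 : algebraMap F K a * (algebraMap F K b)⁻¹ ≠ 0 := mul_ne_zero haK (inv_ne_zero hbK)
    have hCe : hh (algebraMap F K a * (algebraMap F K b)⁻¹) ≤ (Ca + Cb) * D := by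
      refine (n2_hh_mul _ _).trans ?_
      rw [n2_hh_inv]
      have e1 := hCa K
      have e2 := hCb K
      linarith
    have h1 := n2_row hw0 he0 hy (r := fun i => M 0 i - M 1 i) (A := A) hj hB hCe (by
      intro p
      rw [lv_mul p hX0 (inv_ne_zero h1X), lv_inv, hM0 p, hM1 p, lv_mul p haK (inv_ne_zero hbK), lv_inv]
      have : ∑ i, (M 0 i - M 1 i) * lv p (y i) =
          ∑ i, M 0 i * lv p (y i) - ∑ i, M 1 i * lv p (y i) := by
        rw [← Finset.sum_sub_distrib]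
        exact Finset.sum_congr rfl fun i _ => by ring
      rw [this]
      ring)
    have h2 : (1 - X)⁻¹ = 1 + X * (1 - X)⁻¹ := by
      field_simp
      ring
    have h3 : hh (1 - X) ≤ hh (X * (1 - X)⁻¹) + D * Real.log 2 := by
      have := n2_hh_add (1 : K) (X * (1 - X)⁻¹)
      rw [n2_hh_one, zero_add, ← h2, n2_hh_inv] at this
      exact this
    have h4 : (3 * |A| * |B| + (Ca + Cb)) * D = 3 * |A| * |B| * D + Ca * D + Cb * D := by ring
    rw [h4] at h1
    exact ⟨by linarith, by linarith⟩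

end Pool.Agent.Z5
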