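import Pool.Agent.Z5.N1
import Pool.Agent.Z5.N2
import Pool.Agent.Z5.A2
import Pool.Agent.ZL2.Geom4

open MvPolynomial Pool.Agent.MP_dd1803_nt Pool.Agent.ZPA Pool.Agent.ZL2

namespace Pool.Agent.Z5

/-- Relations of one coordinate over `y0`, from the rank of the lattice of relations. -/
theorem k2_rel {y0 : Fin 3 → ℂˣ} (hrk0 : rk ({y0} : Set (Fin 3 → ℂˣ)) ≤ 1)
    {P : Fin 2 ⊕ Fin 3 → ℂˣ} (hy : ∀ i, P (Sum.inr i) = y0 i)
    (hrk : 3 ≤ rk ({P} : Set (Fin 2 ⊕ Fin 3 → ℂˣ))) (j : Fin 2) :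
    ∃ (e : ℤ) (m : Fin 3 → ℤ), e ≠ 0 ∧ P (Sum.inl j) ^ e = ch m y0 := by
  classical
  have hch : ∀ m : Fin 2 ⊕ Fin 3 → ℤ, ch m P = P (Sum.inl 0) ^ m (Sum.inl 0) * P (Sum.inl 1) ^ m (Sum.inl 1) *
      ch (fun i => m (Sum.inr i)) y0 := by
    intro m
    unfold ch
    rw [Fintype.prod_sum_type, Fin.prod_univ_two]
    simp only [hy]
  obtain ⟨j', hj'⟩ : ∃ j' : Fin 2, j' ≠ j := by
    fin_cases j
    · exact ⟨1, by decide⟩
    · exact ⟨0, by decide⟩
  -- the relations with exponent `0` at `j'`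
  let f : Lam ({P} : Set (Fin 2 ⊕ Fin 3 → ℂˣ)) →ₗ[ℤ] ℤ :=
    (LinearMap.proj (R := ℤ) (φ := fun _ : Fin 2 ⊕ Fin 3 => ℤ) (Sum.inl j')).comp (Lam _).subtype
  have h1 := finrank_le_ker_add f
  have h2 : Module.finrank ℤ (LinearMap.range f) ≤ 1 := by
    refine (Submodule.finrank_le _).trans ?_
    rw [Module.finrank_self]
  have h3 : 2 ≤ Module.finrank ℤ (LinearMap.ker f) := by
    have : 3 ≤ Module.finrank ℤ (Lam ({P} : Set (Fin 2 ⊕ Fin 3 → ℂˣ))) := hrk
    omega
  by_contra hcon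
  push Not at hcon
  -- all of them vanish at `j`
  have h4 : ∀ w : LinearMap.ker f, ((w : Lam ({P} : Set (Fin 2 ⊕ Fin 3 → ℂˣ))) : Fin 2 ⊕ Fin 3 → ℤ) (Sum.inl j) = 0 := by
    intro w
    by_contra hne
    obtain ⟨m, hm⟩ : ∃ m : Fin 2 ⊕ Fin 3 → ℤ,
      m = ((w : Lam ({P} : Set (Fin 2 ⊕ Fin 3 → ℂˣ))) : Fin 2 ⊕ Fin 3 → ℤ) := ⟨_, rfl⟩
    rw [← hm] at hne
    have hmL : m ∈ Lam ({P} : Set (Fin 2 ⊕ Fin 3 → ℂˣ)) := hm ▸ (w : Lam ({P} : Set (Fin 2 ⊕ Fin 3 → ℂˣ))).2
    have hmj' : m (Sum.inl j') = 0 := by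
      have := LinearMap.mem_ker.1 w.2
      rw [hm]
      exact this
    obtain ⟨N, hN, hNx⟩ := mem_Lam.1 hmL
    have h5 := hNx P rfl
    have h6 : P (Sum.inl j) ^ m (Sum.inl j) * ch (fun i => m (Sum.inr i)) y0 = ch m P := by
      rw [hch]
      congr 1
      fin_cases j
      · have : j' = 1 := by
          fin_cases j'
          · exact absurd rfl hj'
          · rfl
        rw [this] at hmj'
        rw [hmj', zpow_zero, mul_one]
        rfl
      · have : j' = 0 := by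
          fin_cases j'
          · rfl
          · exact absurd rfl hj'
        rw [this] at hmj'
        rw [hmj', zpow_zero, one_mul]
        rfl
    refine hcon (m (Sum.inl j) * N) (-((N : ℤ) • fun i => m (Sum.inr i))) (mul_ne_zero hne (by exact_mod_cast hN.ne')) ?_
    rw [ch_neg, ch_zsmul, zpow_mul]
    rw [← h6, mul_pow, ← zpow_natCast, ← zpow_natCast] at h5
    exact eq_inv_of_mul_eq_one_left h5
  -- so they are relations of `y0`
  have hmem : ∀ w : LinearMap.ker f, (LinearMap.funLeft ℤ ℤ (Sum.inr : Fin 3 → Fin 2 ⊕ Fin 3))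
      ((w : Lam ({P} : Set (Fin 2 ⊕ Fin 3 → ℂˣ))) : Fin 2 ⊕ Fin 3 → ℤ) ∈ Lam ({y0} : Set (Fin 3 → ℂˣ)) := by
    intro w
    have k1 := h4 w
    have k2 : ((w : Lam ({P} : Set (Fin 2 ⊕ Fin 3 → ℂˣ))) : Fin 2 ⊕ Fin 3 → ℤ) (Sum.inl j') = 0 :=
      LinearMap.mem_ker.1 w.2
    obtain ⟨N, hN, hNx⟩ := mem_Lam.1 (w : Lam ({P} : Set (Fin 2 ⊕ Fin 3 → ℂˣ))).2
    obtain ⟨m, hm⟩ : ∃ m : Fin 2 ⊕ Fin 3 → ℤ,
      m = ((w : Lam ({P} : Set (Fin 2 ⊕ Fin 3 → ℂˣ))) : Fin 2 ⊕ Fin 3 → ℤ) := ⟨_, rfl⟩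
    rw [← hm] at k1 k2 hNx ⊢
    refine mem_Lam.2 ⟨N, hN, ?_⟩
    intro y hy'
    rw [Set.mem_singleton_iff.1 hy']
    have h5 := hNx P rfl
    rw [hch] at h5
    have e0 : m (Sum.inl 0) = 0 ∧ m (Sum.inl 1) = 0 := by
      fin_cases j
      · have : j' = 1 := by
          fin_cases j'
          · exact absurd rfl hj'
          · rfl
        rw [this] at k2
        exact ⟨k1, k2⟩
      · have : j' = 0 := by
          fin_cases j'
          · rfl
          · exact absurd rfl hj'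
        rw [this] at k2
        exact ⟨k2, k1⟩
    rw [e0.1, e0.2, zpow_zero, zpow_zero, one_mul, one_mul] at h5
    exact h5
  let g : LinearMap.ker f →ₗ[ℤ] Lam ({y0} : Set (Fin 3 → ℂˣ)) := LinearMap.codRestrict _
    ((LinearMap.funLeft ℤ ℤ (Sum.inr : Fin 3 → Fin 2 ⊕ Fin 3)).comp ((Lam ({P} : Set (Fin 2 ⊕ Fin 3 → ℂˣ))).subtype.comp
      (LinearMap.ker f).subtype)) hmem
  have hg : Function.Injective g := by
    rw [injective_iff_map_eq_zero]
    intro w hw
    apply Subtype.ext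
    apply Subtype.ext
    funext i
    have h5 : ∀ i, ((w : Lam ({P} : Set (Fin 2 ⊕ Fin 3 → ℂˣ))) : Fin 2 ⊕ Fin 3 → ℤ) (Sum.inr i) = 0 := fun i =>
      congrFun (congrArg Subtype.val hw) i
    have k1 := h4 w
    have k2 : ((w : Lam ({P} : Set (Fin 2 ⊕ Fin 3 → ℂˣ))) : Fin 2 ⊕ Fin 3 → ℤ) (Sum.inl j') = 0 :=
      LinearMap.mem_ker.1 w.2
    rcases i with i | i
    · by_cases hij : i = j
      · rw [hij]
        exact k1
      · have : i = j' := by
          fin_cases i <;> fin_cases j <;> fin_cases j' <;> simp_all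
        rw [this]
        exact k2
    · exact h5 i
  have h5 := LinearMap.finrank_le_finrank_of_injective hg
  have h6 : Module.finrank ℤ (Lam ({y0} : Set (Fin 3 → ℂˣ))) ≤ 1 := hrk0
  omega

/-- A nontrivial relation of `y0`. -/
theorem k2_lam {y0 : Fin 3 → ℂˣ} {P : Fin 2 ⊕ Fin 3 → ℂˣ} (hy : ∀ i, P (Sum.inr i) = y0 i)
    (hrk : 3 ≤ rk ({P} : Set (Fin 2 ⊕ Fin 3 → ℂˣ))) : ∃ l : Fin 3 → ℤ, l ≠ 0 ∧ ch l y0 = 1 := by
  classical
  let f : Lam ({P} : Set (Fin 2 ⊕ Fin 3 → ℂˣ)) →ₗ[ℤ] (Fin 2 → ℤ) :=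
    (LinearMap.funLeft ℤ ℤ (Sum.inl : Fin 2 → Fin 2 ⊕ Fin 3)).comp (Lam _).subtype
  have h1 := finrank_le_ker_add f
  have h2 : Module.finrank ℤ (LinearMap.range f) ≤ 2 := by
    refine (Submodule.finrank_le _).trans ?_
    rw [Module.finrank_fintype_fun_eq_card, Fintype.card_fin]
  have h3 : 0 < Module.finrank ℤ (LinearMap.ker f) := by
    have : 3 ≤ Module.finrank ℤ (Lam ({P} : Set (Fin 2 ⊕ Fin 3 → ℂˣ))) := hrk
    omega
  have h4 : Nontrivial (LinearMap.ker f) := Module.nontrivial_of_finrank_pos h3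
  obtain ⟨w, hw⟩ := exists_ne (0 : LinearMap.ker f)
  obtain ⟨m, hm⟩ : ∃ m : Fin 2 ⊕ Fin 3 → ℤ,
    m = ((w : Lam ({P} : Set (Fin 2 ⊕ Fin 3 → ℂˣ))) : Fin 2 ⊕ Fin 3 → ℤ) := ⟨_, rfl⟩
  have hw0 : m ≠ 0 := by
    intro h
    apply hw
    exact Subtype.ext (Subtype.ext (hm ▸ h))
  have hmL : m ∈ Lam ({P} : Set (Fin 2 ⊕ Fin 3 → ℂˣ)) := hm ▸ (w : Lam ({P} : Set (Fin 2 ⊕ Fin 3 → ℂˣ))).2
  have hml : ∀ j, m (Sum.inl j) = 0 := by
    intro j
    have := congrFun (LinearMap.mem_ker.1 w.2) j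
    rw [hm]
    exact this
  obtain ⟨N, hN, hNx⟩ := mem_Lam.1 hmL
  have h5 := hNx P rfl
  refine ⟨(N : ℤ) • fun i => m (Sum.inr i), ?_, ?_⟩
  · intro h
    apply hw0
    funext i
    rcases i with i | i
    · exact hml i
    · have h6 := congrFun h i
      simp only [Pi.smul_apply, smul_eq_mul, Pi.zero_apply, mul_eq_zero] at h6
      rcases h6 with h6 | h6
      · exact absurd h6 (by exact_mod_cast hN.ne')
      · exact h6
  · rw [ch_zsmul, zpow_natCast, ← h5]
    congr 1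
    unfold ch
    rw [Fintype.prod_sum_type, Fin.prod_univ_two, hml, hml, zpow_zero, zpow_zero, one_mul, one_mul]
    simp only [hy]

/-- Three elements of the division group of a group of rank two are dependent. -/
theorem k2_dep {y0 : Fin 3 → ℂˣ} {l0 : Fin 3 → ℤ} (hl0 : l0 ≠ 0) (hl : ch l0 y0 = 1) (z : Fin 3 → ℂˣ)
    (h : ∀ l, ∃ (e : ℤ) (m : Fin 3 → ℤ), e ≠ 0 ∧ z l ^ e = ch m y0) :
    ∃ n : Fin 3 → ℤ, n ≠ 0 ∧ ∏ l, z l ^ n l = 1 := by
  classical
  choose e m he hz using h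
  let f : (Fin 4 → ℤ) →ₗ[ℤ] (Fin 3 → ℤ) :=
    { toFun := fun c => c 0 • l0 + ∑ l : Fin 3, c l.succ • m l
      map_add' := by
        intro c c'
        simp only [Pi.add_apply, add_smul, Finset.sum_add_distrib]
        abel
      map_smul' := by
        intro r c
        simp only [Pi.smul_apply, smul_eq_mul, mul_smul, RingHom.id_apply, smul_add, Finset.smul_sum] }
  have h1 := finrank_le_ker_add f
  have h2 : Module.finrank ℤ (LinearMap.range f) ≤ 3 := by
    refine (Submodule.finrank_le _).trans ?_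
    rw [Module.finrank_fintype_fun_eq_card, Fintype.card_fin]
  have h3 : 0 < Module.finrank ℤ (LinearMap.ker f) := by
    rw [Module.finrank_fintype_fun_eq_card, Fintype.card_fin] at h1
    omega
  have h4 : Nontrivial (LinearMap.ker f) := Module.nontrivial_of_finrank_pos h3
  obtain ⟨w, hw⟩ := exists_ne (0 : LinearMap.ker f)
  obtain ⟨c, hc⟩ : ∃ c : Fin 4 → ℤ, c = (w : Fin 4 → ℤ) := ⟨_, rfl⟩
  have hc0 : c ≠ 0 := by
    intro h
    exact hw (Subtype.ext (hc ▸ h))
  have hker : c 0 • l0 + ∑ l : Fin 3, c l.succ • m l = 0 := by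
    have := LinearMap.mem_ker.1 w.2
    rw [hc]
    exact this
  refine ⟨fun l => e l * c l.succ, ?_, ?_⟩
  · intro h0
    have h5 : ∀ l : Fin 3, c l.succ = 0 := by
      intro l
      have := congrFun h0 l
      simp only [Pi.zero_apply, mul_eq_zero] at this
      exact this.resolve_left (he l)
    have h6 : c 0 • l0 = 0 := by
      rw [← hker]
      simp [h5]
    rw [smul_eq_zero] at h6
    rcases h6 with h6 | h6
    · apply hc0
      funext i
      refine Fin.cases h6 (fun l => h5 l) i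
    · exact hl0 h6
  · have h5 : ∀ l, z l ^ (e l * c l.succ) = ch (c l.succ • m l) y0 := by
      intro l
      rw [zpow_mul, hz, ch_zsmul]
    have h6 : ∀ s : Finset (Fin 3), ∏ l ∈ s, ch (c l.succ • m l) y0 = ch (∑ l ∈ s, c l.succ • m l) y0 := by
      intro s
      induction s using Finset.induction_on with
      | empty => rw [Finset.prod_empty, Finset.sum_empty, ch_zero]
      | insert a s ha ih => rw [Finset.prod_insert ha, Finset.sum_insert ha, ih, ch_add]
    calc ∏ l, z l ^ (e l * c l.succ) = ∏ l, ch (c l.succ • m l) y0 := Finset.prod_congr rfl fun l _ => h5 l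
      _ = ch (∑ l, c l.succ • m l) y0 := h6 _
      _ = ch (-(c 0 • l0)) y0 := by
          congr 1
          exact eq_neg_of_add_eq_zero_right hker
      _ = 1 := by rw [ch_neg, ch_zsmul, hl, one_zpow, inv_one]

/-- Row Z5-K2. Points of a line in the division group of a fixed group of rank two. `P = (x, y0)` with `rk {P} ≥ 3` and `rk {y0} ≤ 1`. PROOF. Let `F = ℚ(a, b, y0) ⊂ ℂ` (number field).
(1) Relations: the kernel of the projection of `Lam {P}` to the `x`-part is `Lam {y0}` of rank `≤ 1`, so the image has rank `2` (and `rk {y0} = 1`): for each `j` there are `e_j ≠ 0`, `m_j ∈ ℤ^3` and `k > 0` with `(x_j ^ e_j · ∏ y0_i ^ (m_j i)) ^ k = 1`.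
So (a) `‖σ x_j‖ = ‖x_j‖` for every field embedding `σ` over `F` (`σ` fixes `y0`), (b) with `M_P j i = - m_j i / e_j`: `lv p (x_j) = ∑_i M_P j i lv p (y0_i)` for all places `p` of all number fields containing `P, y0`; and as `rk {y0} = 1` the three functions `p ↦ lv p (y0_i)` span a real space of dimension `≤ 2`.
(2) UNBOUNDED HEIGHTS: there is `H0` (depending on `a, b`) such that only finitely many `P ∈ Ps` have `Ht (Xl a b x_0 x_1) > H0 [K:ℚ]`: if `P, P'` are two of them, in a common number field `K`, and with `Ht P ≤ Ht P'`, then by `ZL2.rank_one` the functions `lv x_0, lv x_1` are linearly independent, so by (b)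
`lv x'_j = p_j lv x_0 + q_j lv x_1`, and `ZL2.theoremH` gives a permutation `σ` with `DD (Xl P) (Xl P' ∘ σ) = 0` (see the use in `ZL2/Main3.lean`), so `a x'_0` is one of six values determined by `x`. So given `P` of smallest height (the set of the `P` of height `> H0` if infinite contains 8 points; take the one of the smallest normalised height) there are at most 6 others: contradiction. (Heights in different fields: call `P` large if `Ht > H0 [K:ℚ]` for ALL number fields `K ⊇ F` containing it, take 8 large points in one `K` and the one of smallest height in `K`. If `P` is not large, use in (3) a field `K` where `Ht ≤ H0 [K:ℚ]`; the proportion of the `σ : K →ₐ[F] ℂ` with `σ x_0 = x_0` is `1 / [F(x_0):F] ≥ 1/2`.)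
(3) BOUNDED HEIGHTS: `hh (a x_0) ≤ B [K:ℚ]` for infinitely many `P ∈ Ps`. `K = F(x_0)`: an embedding `σ` over `F` is determined by `σ x_0`, and by (a) `‖σ x_0‖, ‖σ x_1‖` are given, `a σ x_0 + b σ x_1 = 1`: two circles meet in at most two points (`‖X‖` and `‖1 - X‖` determine `X` up to conjugation), so `[K:F] ≤ 2`. So `‖x_0‖ ≤ exp (2 B [F:ℚ])`.
Take a sequence of different points `P_n`, a nonprincipal ultrafilter `U`, `a x_0 → w` along `U`. `noatom` for `z n σ = σ (a x_0)` with `θ = 1/4` (`Gen` from `bp_ineq`: for `f ≠ 0` only finitely many `n` have `ev f (a x_0) = 0`; there `B` is fixed): the identity embedding has proportion `≥ 1/2` and `‖a x_0 - w‖ < δ` eventually: contradiction. (Or Northcott.) -/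
theorem fibre {a b : ℂ} (ha : a ≠ 0) (hb : b ≠ 0) (haa : IsAlgebraic ℚ a) (hba : IsAlgebraic ℚ b)
    {y0 : Fin 3 → ℂˣ} (hy0 : ∀ i, IsAlgebraic ℚ (y0 i : ℂ)) (hrk0 : rk ({y0} : Set (Fin 3 → ℂˣ)) ≤ 1)
    {Ps : Set (Fin 2 ⊕ Fin 3 → ℂˣ)} (hline : ∀ P ∈ Ps, a * (P (Sum.inl 0) : ℂ) + b * (P (Sum.inl 1) : ℂ) = 1)
    (hy : ∀ P ∈ Ps, ∀ i, P (Sum.inr i) = y0 i) (hrk : ∀ P ∈ Ps, 3 ≤ rk ({P} : Set (Fin 2 ⊕ Fin 3 → ℂˣ)))
    (hinf : Ps.Infinite) : False := by
  classical
  obtain ⟨P1, hP1⟩ := hinf.nonempty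
  obtain ⟨l0, hl0, hl0y⟩ := k2_lam (hy P1 hP1) (hrk P1 hP1)
  -- the number field of the coefficients
  set S : Set ℂ := {a, b} with hS
  have hSfin : S.Finite := (Set.finite_singleton b).insert a
  have hSalg : ∀ z ∈ S, IsIntegral ℚ z := by
    rintro z (rfl | rfl)
    · exact haa.isIntegral
    · exact hba.isIntegral
  have : Finite S := hSfin
  let F : IntermediateField ℚ ℂ := IntermediateField.adjoin ℚ S
  have hFfin : FiniteDimensional ℚ F := IntermediateField.finiteDimensional_adjoin hSalg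
  have hFn : NumberField F := ⟨⟩
  let a' : F := ⟨a, IntermediateField.subset_adjoin ℚ S (Or.inl rfl)⟩
  let b' : F := ⟨b, IntermediateField.subset_adjoin ℚ S (Or.inr rfl)⟩
  have ha' : a' ≠ 0 := fun h => ha (congrArg Subtype.val h)
  have hb' : b' ≠ 0 := fun h => hb (congrArg Subtype.val h)
  obtain ⟨PP, hPP, hmain⟩ := main3 (F := F) (fun _ => a') (fun _ => b') (fun _ => ha') (fun _ => hb')
  -- infinitely many values
  let φ : (Fin 2 ⊕ Fin 3 → ℂˣ) → ℂ := fun P => a * (P (Sum.inl 0) : ℂ)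
  have hφ : Set.InjOn φ Ps := by
    intro P hP P' hP' h
    have h1 : (P (Sum.inl 0) : ℂ) = P' (Sum.inl 0) := mul_left_cancel₀ ha h
    have h2 : (P (Sum.inl 1) : ℂ) = P' (Sum.inl 1) := by
      have k1 := hline P hP
      have k2 := hline P' hP'
      rw [h1] at k1
      exact mul_left_cancel₀ hb (add_left_cancel (k1.trans k2.symm))
    funext i
    rcases i with i | i
    · fin_cases i
      · exact Units.ext h1
      · exact Units.ext h2
    · rw [hy P hP, hy P' hP']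
  have hinf' : (φ '' Ps).Infinite := hinf.image hφ
  -- the product polynomial
  let R : MvPolynomial (Fin 3) ℂ := ∏ P ∈ PP, map (Int.castRingHom ℂ) P
  have hR : R ≠ 0 := by
    refine Finset.prod_ne_zero_iff.2 fun P hP => ?_
    rw [← map_zero (map (Int.castRingHom ℂ))]
    exact fun h => hPP P hP (MvPolynomial.map_injective (Int.castRingHom ℂ) Int.cast_injective h)
  obtain ⟨v, hv, hvR⟩ : ∃ v ∈ Set.pi Set.univ (fun _ : Fin 3 => φ '' Ps), eval v R ≠ 0 := by
    by_contra hcon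
    push Not at hcon
    apply hR
    exact MvPolynomial.funext_set (fun _ : Fin 3 => φ '' Ps) (fun _ => hinf') (fun v hv => by
      rw [hcon v hv, map_zero])
  have hv' : ∀ j, ∃ P ∈ Ps, φ P = v j := fun j => hv j (Set.mem_univ j)
  choose Q hQ hQv using hv'
  -- descent to a number field
  let x : Fin 3 ⊕ Fin 3 → ℂˣ := Sum.elim (fun j => Q j (Sum.inl 0)) (fun j => Q j (Sum.inl 1))
  let G : MvPolynomial (Fin 3 ⊕ Fin 3) F := ∏ P ∈ PP, aeval (fun j => C a' * X (Sum.inl j)) P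
  have hG : ∀ (K : Type) [Field K] [Algebra F K] (z : Fin 3 ⊕ Fin 3 → K),
      aeval z G = ∏ P ∈ PP, aeval (fun j => algebraMap F K a' * z (Sum.inl j)) P := by
    intro K _ _ z
    rw [map_prod]
    refine Finset.prod_congr rfl fun P _ => ?_
    have h1 : (aeval z (aeval (fun j => C a' * X (Sum.inl j) :
        Fin 3 → MvPolynomial (Fin 3 ⊕ Fin 3) F) P) : K) =
        aeval (fun j => aeval z (C a' * X (Sum.inl j) : MvPolynomial (Fin 3 ⊕ Fin 3) F)) P :=
      (MvPolynomial.comp_aeval_apply _ ((aeval z : MvPolynomial (Fin 3 ⊕ Fin 3) F →ₐ[F] K).restrictScalars ℤ) P)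
    rw [h1]
    congr 2
    funext j
    rw [map_mul, aeval_X, aeval_C]
  have hGx : aeval (fun i => (x i : ℂ)) G ≠ 0 := by
    rw [hG]
    have h1 : eval v R = ∏ P ∈ PP, aeval v P := by
      rw [map_prod]
      refine Finset.prod_congr rfl fun P _ => ?_
      rw [eval_map, aeval_def]
      rfl
    have h2 : (fun j => algebraMap F ℂ a' * (x (Sum.inl j) : ℂ)) = v := by
      funext j
      rw [← hQv j]
      rfl
    rw [h2, ← h1]
    exact hvR
  obtain ⟨K, iK1, iK2, iK3, z, hz1, hz2, hz3⟩ := descent (F := F) x G hGx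
  have hlineK : ∀ i, algebraMap F K a' * (z (Sum.inl i) : K) + algebraMap F K b' * (z (Sum.inr i) : K) = 1 := by
    intro i
    have h1 := hz1 (C a' * X (Sum.inl i) + C b' * X (Sum.inr i) - 1) (by
      rw [map_sub, map_add, map_mul, map_mul, aeval_X, aeval_X, aeval_C, aeval_C, map_one, sub_eq_zero]
      exact hline (Q i) (hQ i))
    rwa [map_sub, map_add, map_mul, map_mul, aeval_X, aeval_X, aeval_C, aeval_C, map_one,
      sub_eq_zero] at h1
  obtain ⟨P, hP, hP0⟩ := hmain K (fun j => (z (Sum.inl j) : K)) (fun j => (z (Sum.inr j) : K))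
    (fun j => (z _).ne_zero) (fun j => (z _).ne_zero) (fun j => hlineK j) (by
      intro i
      let i' : Fin 3 → Fin 3 ⊕ Fin 3 := fun l => if (i l).2 = 0 then Sum.inl (i l).1 else Sum.inr (i l).1
      obtain ⟨n, hn, hprod⟩ := k2_dep hl0 hl0y (fun l => x (i' l)) (fun l => by
        have h1 := fun j : Fin 2 => k2_rel hrk0 (hy (Q (i l).1) (hQ (i l).1)) (hrk (Q (i l).1) (hQ (i l).1)) j
        simp only [i']
        split_ifs
        · exact h1 0
        · exact h1 1)
      refine ⟨n, hn, ?_⟩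
      have h1 := hz3 3 i' n hprod
      have h2 := congrArg (Units.val) h1
      rw [Units.coe_prod, Units.val_one] at h2
      rw [← h2]
      refine Finset.prod_congr rfl fun l _ => ?_
      rw [Units.val_zpow_eq_zpow_val]
      congr 1
      simp only [cc, i']
      split_ifs <;> rfl)
  apply hz2
  rw [hG]
  exact Finset.prod_eq_zero hP hP0

end Pool.Agent.Z5
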