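import Pool.Agent.Z5.K1
import Pool.Agent.Z5.K2
import Pool.Agent.Z5.G2
import Pool.Agent.Z5.H1

open MvPolynomial Pool.Agent.MP_dd1803_nt Pool.Agent.ZPA Pool.Agent.ZL2

namespace Pool.Agent.Z5

variable {a b : ℂ} {c d : Fin 3 → ℂ}

/-- Row Z5-G3a. `core_seq`, then `comp_of_lat` or `comp_of_rel` for `Ps = P '' 𝒩` (infinite, because the `y`-parts are different). `cd Y = rk Y + td ℂ Y` by definition. -/
theorem exists_Y (ha : a ≠ 0) (hb : b ≠ 0) (haa : IsAlgebraic ℚ a)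
    (hba : IsAlgebraic ℚ b) (hc : ∀ i, c i ≠ 0) (hca : ∀ i, IsAlgebraic ℚ (c i)) (hd : Function.Injective d)
    (hda : ∀ i, IsAlgebraic ℚ (d i)) (hH : HH c d) (P : ℕ → Fin 2 ⊕ Fin 3 → ℂˣ)
    (hPV : ∀ n, P n ∈ TL a b c d) (hPa : ∀ n i, IsAlgebraic ℚ (P n i : ℂ))
    (hinj : Function.Injective (fun n i => P n (Sum.inr i)))
    (hrk : ∀ n, 3 ≤ rk ({P n} : Set (Fin 2 ⊕ Fin 3 → ℂˣ))) {V : Set (Fin 2 ⊕ Fin 3 → ℂˣ)} (hV : ZClosed V)
    (hPV' : ∀ n, P n ∈ V) : ∃ Y, Irr Y ∧ Y ⊆ V ∧ 1 ≤ td ℂ Y ∧ 3 ≤ cd Y ∧ ∃ n, P n ∈ Y := by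
  obtain ⟨𝒩, hinf, h⟩ := core_seq ha hb haa hba hc hca hd hda hH P hPV hPa hinj hrk
  have hPinj : Function.Injective P := by
    intro m n hmn
    apply hinj
    simp only [hmn]
  have hPs : (P '' 𝒩).Infinite := hinf.image hPinj.injOn
  have hsub : P '' 𝒩 ⊆ V := by
    rintro _ ⟨n, -, rfl⟩
    exact hPV' n
  rcases h with ⟨L, h1, h2⟩ | ⟨L, k, h1, hk, h2⟩
  · obtain ⟨Y, y1, y2, y3, y4, Q, ⟨n, -, rfl⟩, y5⟩ := comp_of_lat hV hPs hsub L (by
      rintro _ ⟨n, hn, rfl⟩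
      exact h2 n hn)
    exact ⟨Y, y1, y2, y3, h1.trans y4, n, y5⟩
  · obtain ⟨Y, y1, y2, y3, y4, Q, ⟨n, -, rfl⟩, y5⟩ := comp_of_rel hV hPs hsub L hk (by
      rintro _ ⟨n, hn, rfl⟩
      exact h2 n hn)
    refine ⟨Y, y1, y2, y3, ?_, n, y5⟩
    unfold cd
    omega

/-- Row Z5-G3b. Reparametrisation of the line by two of its points with different `y`-parts: with `t1, t2` the parameters of `P, Q`, `c' i = c i * (t2 - t1)` `= Q (inr i) - P (inr i)`, `d' i = (d i - t1) / (t2 - t1)` `= - P (inr i) / c' i`; `LY c' d' s i = LY c d (t1 + s (t2 - t1)) i`. -/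
theorem repar_y (hc : ∀ i, c i ≠ 0) (hd : Function.Injective d) (hH : HH c d) {P Q : Fin 2 ⊕ Fin 3 → ℂˣ}
    (hP : P ∈ TL a b c d) (hQ : Q ∈ TL a b c d) (hPa : ∀ i, IsAlgebraic ℚ (P i : ℂ))
    (hQa : ∀ i, IsAlgebraic ℚ (Q i : ℂ)) (hne : (fun i => P (Sum.inr i)) ≠ fun i => Q (Sum.inr i)) :
    ∃ c' d' : Fin 3 → ℂ, (∀ i, c' i ≠ 0) ∧ (∀ i, IsAlgebraic ℚ (c' i)) ∧ Function.Injective d' ∧
      (∀ i, IsAlgebraic ℚ (d' i)) ∧ HH c' d' ∧ ∀ a b : ℂ, TL a b c d = TL a b c' d' := by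
  obtain ⟨-, t1, h1⟩ := hP
  obtain ⟨-, t2, h2⟩ := hQ
  have ht : t2 - t1 ≠ 0 := by
    intro h
    apply hne
    funext i
    apply Units.ext
    rw [h1, h2, sub_eq_zero.1 h]
  have hci : ∀ i, c i * (t2 - t1) = (Q (Sum.inr i) : ℂ) - P (Sum.inr i) := by
    intro i
    rw [h1, h2]
    ring
  refine ⟨fun i => c i * (t2 - t1), fun i => (d i - t1) / (t2 - t1), fun i => mul_ne_zero (hc i) ht, ?_, ?_, ?_, ?_,
    ?_⟩
  · intro i
    simp only [hci]
    exact (hQa _).sub (hPa _)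
  · intro i l h
    apply hd
    have h3 := (div_left_inj' ht).1 h
    linear_combination h3
  · intro i
    have h3 : (d i - t1) / (t2 - t1) = - (P (Sum.inr i) : ℂ) * ((Q (Sum.inr i) : ℂ) - P (Sum.inr i))⁻¹ := by
      rw [← hci i, h1]
      have := hc i
      field_simp
      ring
    simp only [h3]
    exact ((hPa _).neg).mul ((hQa _).sub (hPa _)).inv
  · intro u v huv
    have h3 := hH u v huv
    refine (h3.preimage (f := fun s : ℂ => t1 + s * (t2 - t1)) (Function.Injective.injOn ?_)).subset ?_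
    · intro s s' h4
      have h5 : s * (t2 - t1) = s' * (t2 - t1) := by linear_combination h4
      exact mul_right_cancel₀ ht h5
    · rintro s ⟨q1, q2, q3⟩
      have hL : LY (fun i => c i * (t2 - t1)) (fun i => (d i - t1) / (t2 - t1)) s =
          LY c d (t1 + s * (t2 - t1)) := by
        funext i
        unfold LY
        congr 2
        field_simp
        ring
      rw [hL] at q2 q3
      refine ⟨fun i hi => q1 i ?_, q2, q3⟩
      rw [eq_div_iff ht]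
      linear_combination hi
  · intro a b
    ext x
    constructor
    · rintro ⟨q1, t, q2⟩
      refine ⟨q1, (t - t1) / (t2 - t1), fun i => ?_⟩
      rw [q2 i]
      field_simp
      ring
    · rintro ⟨q1, s, q2⟩
      refine ⟨q1, t1 + s * (t2 - t1), fun i => ?_⟩
      rw [q2 i]
      field_simp
      ring

/-- Row Z5-G3c. The coefficients of the first line: two points with different `x`-parts determine `a, b` (Cramer; the `x`-parts are not proportional), so they are algebraic. -/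
theorem alg_ab {P Q : Fin 2 ⊕ Fin 3 → ℂˣ} (hP : P ∈ TL a b c d) (hQ : Q ∈ TL a b c d)
    (hPa : ∀ i, IsAlgebraic ℚ (P i : ℂ)) (hQa : ∀ i, IsAlgebraic ℚ (Q i : ℂ))
    (hne : (fun j => P (Sum.inl j)) ≠ fun j => Q (Sum.inl j)) : IsAlgebraic ℚ a ∧ IsAlgebraic ℚ b := by
  obtain ⟨h1, -⟩ := hP
  obtain ⟨h2, -⟩ := hQ
  have a0 := hPa (Sum.inl 0)
  have a1 := hPa (Sum.inl 1)
  have b0 := hQa (Sum.inl 0)
  have b1 := hQa (Sum.inl 1)
  have hp0 : (P (Sum.inl 0) : ℂ) ≠ 0 := Units.ne_zero _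
  by_cases hD : (P (Sum.inl 0) : ℂ) * Q (Sum.inl 1) - P (Sum.inl 1) * Q (Sum.inl 0) = 0
  · exfalso
    apply hne
    -- the determinant vanishes, so the two points are proportional, with factor one
    have h3 : (P (Sum.inl 0) : ℂ) = Q (Sum.inl 0) := by
      linear_combination (Q (Sum.inl 0) : ℂ) * h1 - (P (Sum.inl 0) : ℂ) * h2 + b * hD
    have h4 : (P (Sum.inl 1) : ℂ) = Q (Sum.inl 1) := by
      apply mul_left_cancel₀ hp0
      linear_combination (P (Sum.inl 1) : ℂ) * h3 - hD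
    funext j
    match j with
    | 0 => exact Units.ext h3
    | 1 => exact Units.ext h4
  · have ea : a = ((Q (Sum.inl 1) : ℂ) - P (Sum.inl 1)) *
        ((P (Sum.inl 0) : ℂ) * Q (Sum.inl 1) - P (Sum.inl 1) * Q (Sum.inl 0))⁻¹ := by
      rw [← div_eq_mul_inv, eq_div_iff hD]
      linear_combination (Q (Sum.inl 1) : ℂ) * h1 - (P (Sum.inl 1) : ℂ) * h2
    have eb : b = ((P (Sum.inl 0) : ℂ) - Q (Sum.inl 0)) *
        ((P (Sum.inl 0) : ℂ) * Q (Sum.inl 1) - P (Sum.inl 1) * Q (Sum.inl 0))⁻¹ := by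
      rw [← div_eq_mul_inv, eq_div_iff hD]
      linear_combination (P (Sum.inl 0) : ℂ) * h2 - (Q (Sum.inl 0) : ℂ) * h1
    have hDa := ((a0.mul b1).sub (a1.mul b0)).inv
    constructor
    · rw [ea]
      exact (b1.sub a1).mul hDa
    · rw [eb]
      exact (a0.sub b0).mul hDa

/-- A common exponent. -/
theorem g3_exp {κ : Type} [Fintype κ] (y : κ → ℂˣ) :
    ∃ k : ℕ, 0 < k ∧ ∀ m ∈ Lam ({y} : Set (κ → ℂˣ)), ch m y ^ k = 1 := by
  classical
  obtain ⟨s, hs⟩ := IsNoetherian.noetherian (Lam ({y} : Set (κ → ℂˣ)))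
  have h1 : ∀ s' : Finset (κ → ℤ), (∀ m ∈ s', m ∈ Lam ({y} : Set (κ → ℂˣ))) →
      ∃ k : ℕ, 0 < k ∧ ∀ m ∈ s', ch m y ^ k = 1 := by
    intro s'
    induction s' using Finset.induction_on with
    | empty => exact fun _ => ⟨1, one_pos, fun m hm => absurd hm (Finset.notMem_empty m)⟩
    | insert m s' _ ih =>
      intro h
      obtain ⟨k, hk, h2⟩ := ih fun m' hm' => h m' (Finset.mem_insert_of_mem hm')
      obtain ⟨N, hN, h3⟩ := h m (Finset.mem_insert_self m s')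
      refine ⟨N * k, Nat.mul_pos hN hk, fun m' hm' => ?_⟩
      rcases Finset.mem_insert.1 hm' with rfl | hm'
      · rw [pow_mul, h3 y (Set.mem_singleton y), one_pow]
      · rw [mul_comm, pow_mul, h2 m' hm', one_pow]
  obtain ⟨k, hk, h2⟩ := h1 s fun m hm => by
    rw [← hs]
    exact Submodule.subset_span hm
  refine ⟨k, hk, fun m hm => ?_⟩
  rw [← hs] at hm
  induction hm using Submodule.span_induction with
  | mem x hx => exact h2 x hx
  | zero => rw [ch_zero, one_pow]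
  | add x z _ _ h3 h4 => rw [ch_add, mul_pow, h3, h4, one_mul]
  | smul r x _ h3 =>
    rw [ch_zsmul, ← zpow_natCast, ← zpow_mul, mul_comm, zpow_mul, zpow_natCast, h3, one_zpow]

/-- Row Z5-G3d. Infinitely many points over one point `y0`. `a, b` are algebraic by `alg_ab`. If `rk {y0} ≤ 1`: `fibre` (row K2) is a contradiction. If `rk {y0} ≥ 2`: there is `k > 0` with `ch m y0 ^ k = 1` for all `m ∈ Lam {y0}` (finitely generated), `L` = the image of `Lam {y0}` under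
`m ↦ Sum.elim 0 m` (an injective linear map, so `finrank L = rk {y0}`), `comp_of_rel`. -/
theorem exists_Y_fibre (ha : a ≠ 0) (hb : b ≠ 0) {V : Set (Fin 2 ⊕ Fin 3 → ℂˣ)} (hV : ZClosed V)
    {y0 : Fin 3 → ℂˣ} {Ps : Set (Fin 2 ⊕ Fin 3 → ℂˣ)} (hPs : Ps ⊆ TL a b c d) (hPV : Ps ⊆ V)
    (hPa : ∀ P ∈ Ps, ∀ i, IsAlgebraic ℚ (P i : ℂ)) (hy : ∀ P ∈ Ps, ∀ i, P (Sum.inr i) = y0 i)
    (hrk : ∀ P ∈ Ps, 3 ≤ rk ({P} : Set (Fin 2 ⊕ Fin 3 → ℂˣ))) (hinf : Ps.Infinite) :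
    ∃ Y, Irr Y ∧ Y ⊆ V ∧ 1 ≤ td ℂ Y ∧ 3 ≤ cd Y ∧ ∃ P ∈ Ps, P ∈ Y := by
  obtain ⟨P, hP, Q, hQ, hPQ⟩ := hinf.nontrivial
  have hxne : (fun j => P (Sum.inl j)) ≠ fun j => Q (Sum.inl j) := by
    intro h
    apply hPQ
    funext i
    rcases i with i | i
    · exact congrFun h i
    · rw [hy P hP i, hy Q hQ i]
  obtain ⟨haa, hba⟩ := alg_ab (hPs hP) (hPs hQ) (hPa P hP) (hPa Q hQ) hxne
  have hy0 : ∀ i, IsAlgebraic ℚ (y0 i : ℂ) := fun i => by
    rw [← hy P hP i]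
    exact hPa P hP _
  by_cases hrk0 : rk ({y0} : Set (Fin 3 → ℂˣ)) ≤ 1
  · exact absurd (fibre ha hb haa hba hy0 hrk0 (fun P hP => (hPs hP).1) hy hrk hinf) id
  · obtain ⟨k, hk, h1⟩ := g3_exp y0
    have hinj : Function.Injective (inrM : (Fin 3 → ℤ) →ₗ[ℤ] (Fin 2 ⊕ Fin 3 → ℤ)) := by
      intro m n h
      funext i
      exact congrFun h (Sum.inr i)
    obtain ⟨Y, y1, y2, y3, y4, y5⟩ := comp_of_rel hV hinf hPV
      ((Lam ({y0} : Set (Fin 3 → ℂˣ))).map (inrM : (Fin 3 → ℤ) →ₗ[ℤ] (Fin 2 ⊕ Fin 3 → ℤ))) hk (by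
        rintro P hP _ ⟨m, hm, rfl⟩
        rw [ch_inrM]
        have h2 : P ∘ Sum.inr = y0 := funext fun i => hy P hP i
        rw [h2]
        exact h1 m hm)
    have h3 := (Submodule.equivMapOfInjective _ hinj (Lam ({y0} : Set (Fin 3 → ℂˣ)))).finrank_eq
    rw [← h3] at y4
    refine ⟨Y, y1, y2, y3, ?_, y5⟩
    have h4 : rk ({y0} : Set (Fin 3 → ℂˣ)) = Module.finrank ℤ (Lam ({y0} : Set (Fin 3 → ℂˣ))) := rfl
    unfold cd
    omega

end Pool.Agent.Z5
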