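import Pool.Agent.Z5.G3

open MvPolynomial Pool.Agent.MP_dd1803_nt Pool.Agent.ZPA Pool.Agent.ZL2

namespace Pool.Agent.Z5

variable {a b : ℂ} {c d : Fin 3 → ℂ}

/-- Row Z5-G4a. Suppose the set is infinite. If for some `y0` infinitely many of its points have the `y`-part `y0`: `exists_Y_fibre` with `V = TL a b c d` (closed: `zclosed_TL`); the `Y` contradicts the last condition for the point in `Y`. Otherwise the `y`-parts take infinitely many values: a sequence `P n` of points of the set with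
different `y`-parts. `repar_y` for `P 0, P 1` gives `c', d'`. If two of the `P n` have different `x`-parts then `a, b` are algebraic, `a' = a, b' = b`; otherwise all `x`-parts are `(x0, x1)`: `a' = 1 / (2 x0)`, `b' = 1 / (2 x1)`. In both cases `P n ∈ TL a' b' c' d'`. `exists_Y` for `a', b', c', d'` and `V = TL a b c d`: contradiction. -/
theorem finite_pts (ha : a ≠ 0) (hb : b ≠ 0) (hc : ∀ i, c i ≠ 0) (hd : Function.Injective d) (hH : HH c d) :
    {P : Fin 2 ⊕ Fin 3 → ℂˣ | P ∈ TL a b c d ∧ (∀ i, IsAlgebraic ℚ (P i : ℂ)) ∧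
      3 ≤ rk ({P} : Set (Fin 2 ⊕ Fin 3 → ℂˣ)) ∧
      ∀ Y, Irr Y → Y ⊆ TL a b c d → 3 ≤ cd Y → P ∈ Y → td ℂ Y = 0}.Finite := by
  classical
  by_contra hinf
  obtain ⟨S, hS⟩ : ∃ S : Set (Fin 2 ⊕ Fin 3 → ℂˣ), S = {P : Fin 2 ⊕ Fin 3 → ℂˣ | P ∈ TL a b c d ∧
      (∀ i, IsAlgebraic ℚ (P i : ℂ)) ∧ 3 ≤ rk ({P} : Set (Fin 2 ⊕ Fin 3 → ℂˣ)) ∧
      ∀ Y, Irr Y → Y ⊆ TL a b c d → 3 ≤ cd Y → P ∈ Y → td ℂ Y = 0} := ⟨_, rfl⟩
  rw [← hS] at hinf
  have hmem : ∀ P ∈ S, P ∈ TL a b c d ∧ (∀ i, IsAlgebraic ℚ (P i : ℂ)) ∧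
      3 ≤ rk ({P} : Set (Fin 2 ⊕ Fin 3 → ℂˣ)) ∧
      ∀ Y, Irr Y → Y ⊆ TL a b c d → 3 ≤ cd Y → P ∈ Y → td ℂ Y = 0 := fun P hP => by
    rw [hS] at hP
    exact hP
  have hV : ZClosed (TL a b c d) := zclosed_TL hc
  by_cases hfib : ∃ y0 : Fin 3 → ℂˣ, {P | P ∈ S ∧ ∀ i, P (Sum.inr i) = y0 i}.Infinite
  · obtain ⟨y0, hy0⟩ := hfib
    obtain ⟨Y, hY, hYV, htd, hcd, P, hP, hPY⟩ := exists_Y_fibre ha hb hV
      (Ps := {P | P ∈ S ∧ ∀ i, P (Sum.inr i) = y0 i}) (fun P hP => (hmem P hP.1).1)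
      (fun P hP => (hmem P hP.1).1) (fun P hP => (hmem P hP.1).2.1) (fun P hP => hP.2)
      (fun P hP => (hmem P hP.1).2.2.1) hy0
    have h1 := (hmem P hP.1).2.2.2 Y hY hYV hcd hPY
    omega
  · push Not at hfib
    have himg : ((fun (P : Fin 2 ⊕ Fin 3 → ℂˣ) (i : Fin 3) => P (Sum.inr i)) '' S).Infinite := by
      intro hfin
      apply hinf
      refine (hfin.biUnion (t := fun y0 => {P | P ∈ S ∧ ∀ i, P (Sum.inr i) = y0 i})
        fun y0 _ => ?_).subset ?_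
      · exact hfib y0
      · intro P hP
        simp only [Set.mem_iUnion]
        exact ⟨_, ⟨P, hP, rfl⟩, hP, fun i => rfl⟩
    have hex : ∀ n : ℕ, ∃ P ∈ S, (fun i : Fin 3 => P (Sum.inr i)) = (himg.natEmbedding _ n : Fin 3 → ℂˣ) := by
      intro n
      obtain ⟨P, hP, h⟩ := (himg.natEmbedding _ n).2
      exact ⟨P, hP, h⟩
    choose P hPS hPe using hex
    have hinj : Function.Injective (fun n i => P n (Sum.inr i)) := by
      intro m n hmn
      have h1 : (fun i : Fin 3 => P m (Sum.inr i)) = fun i => P n (Sum.inr i) := hmn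
      rw [hPe m, hPe n] at h1
      exact (himg.natEmbedding _).injective (Subtype.ext h1)
    have hne : (fun i => P 0 (Sum.inr i)) ≠ fun i => P 1 (Sum.inr i) := fun h =>
      zero_ne_one (hinj h)
    obtain ⟨c', d', hc', hca', hd', hda', hH', hTL⟩ := repar_y hc hd hH (hmem _ (hPS 0)).1
      (hmem _ (hPS 1)).1 (hmem _ (hPS 0)).2.1 (hmem _ (hPS 1)).2.1 hne
    have fin : ∀ a' b' : ℂ, a' ≠ 0 → b' ≠ 0 → IsAlgebraic ℚ a' → IsAlgebraic ℚ b' →
        (∀ n, P n ∈ TL a' b' c' d') → False := by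
      intro a' b' ha' hb' haa hba hPT
      obtain ⟨Y, hY, hYV, htd, hcd, n, hPY⟩ := exists_Y ha' hb' haa hba hc' hca' hd' hda' hH' P hPT
        (fun n => (hmem _ (hPS n)).2.1) hinj (fun n => (hmem _ (hPS n)).2.2.1) hV
        (fun n => (hmem _ (hPS n)).1)
      have h1 := (hmem _ (hPS n)).2.2.2 Y hY hYV hcd hPY
      omega
    by_cases hx : ∃ n, (fun j => P 0 (Sum.inl j)) ≠ fun j => P n (Sum.inl j)
    · obtain ⟨n, hn⟩ := hx
      obtain ⟨haa, hba⟩ := alg_ab (hmem _ (hPS 0)).1 (hmem _ (hPS n)).1 (hmem _ (hPS 0)).2.1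
        (hmem _ (hPS n)).2.1 hn
      exact fin a b ha hb haa hba fun n => by
        rw [← hTL a b]
        exact (hmem _ (hPS n)).1
    · push Not at hx
      have h2 : (2 : ℂ) ≠ 0 := two_ne_zero
      have h20 : IsAlgebraic ℚ (2 : ℂ) := by
        have := isAlgebraic_algebraMap (R := ℚ) (A := ℂ) (2 : ℚ)
        simpa using this
      refine fin (2 * (P 0 (Sum.inl 0) : ℂ))⁻¹ (2 * (P 0 (Sum.inl 1) : ℂ))⁻¹
        (inv_ne_zero (mul_ne_zero h2 (P 0 (Sum.inl 0)).ne_zero))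
        (inv_ne_zero (mul_ne_zero h2 (P 0 (Sum.inl 1)).ne_zero))
        (h20.mul ((hmem _ (hPS 0)).2.1 _)).inv (h20.mul ((hmem _ (hPS 0)).2.1 _)).inv ?_
      intro n
      refine ⟨?_, ?_⟩
      · have e0 : P n (Sum.inl 0) = P 0 (Sum.inl 0) := (congrFun (hx n) 0).symm
        have e1 : P n (Sum.inl 1) = P 0 (Sum.inl 1) := (congrFun (hx n) 1).symm
        rw [e0, e1]
        have h3 := (P 0 (Sum.inl 0)).ne_zero
        have h4 := (P 0 (Sum.inl 1)).ne_zero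
        field_simp
        norm_num
      · have h3 := (hmem _ (hPS n)).1
        rw [hTL a b] at h3
        exact h3.2

/-- Row Z5-G4b. Compare `ZL2.core3` (`ZL2/Geom3.lean`). `maxP_all (fun Z => ar Z ≤ rk Z + 1) ...` for `V = TL a b c d`, `e = 3` (`Fintype.card = 5`, so `5 < cd X + 3` iff `3 ≤ cd X`): a finite set `S`. An irreducible `X ⊆ V` with `3 ≤ cd X` and `ar X ≤ rk X + 1` is contained in an element of `S` (`exists_maxP`). Otherwise
`5 ≤ td X + ar X` (as `cd X = rk X + td X ≥ 3`), so `X = {P}` with `P` algebraic (`coset_point_TL`), `rk {P} ≥ 3`; if `P` is not in the finite set of `finite_pts`, some irreducible `Y ⊆ V` with `P ∈ Y`, `3 ≤ cd Y`, `td Y ≠ 0`; `Y` is not a point, so by the first part of the argument `Y` is contained in an element of `S`.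
So every irreducible `X ⊆ V` with `3 ≤ cd X` is contained in an element of the finite set `S ∪ {{P} | P ∈ finite_pts}`, whose elements are irreducible subsets of `V` with `cd ≥ 3`. `maximal_atypical_iff` with `d = 2` (`dm_TL`; `MaxE (5 - 2)`): a maximal element is one of them. -/
theorem zp_TL (ha : a ≠ 0) (hb : b ≠ 0) (hc : ∀ i, c i ≠ 0) (hd : Function.Injective d) (hH : HH c d) :
    {X | Maximal (Atypical (TL a b c d)) X}.Finite := by
  classical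
  have hcard : Fintype.card (Fin 2 ⊕ Fin 3) = 5 := by simp
  have hV : ZClosed (TL a b c d) := zclosed_TL hc
  have hfin := maxP_all (F := ℂ) (κ := Fin 2 ⊕ Fin 3) (fun Z => ar Z ≤ rk Z + 1)
    (fun V hV e => maxP_base 1 (fun s' hs' => by
      interval_cases s'
      · exact ndk_zero
      · exact Pool.Agent.ZPB.ndk_one) V hV e) hV 3
  have hpts := finite_pts ha hb hc hd hH
  have hcdZ : ∀ Z : Set (Fin 2 ⊕ Fin 3 → ℂˣ), cd Z = rk Z + td ℂ Z := fun Z => rfl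
  have key1 : ∀ Z, Irr Z → Z ⊆ TL a b c d → 3 ≤ cd Z → ar Z ≤ rk Z + 1 →
      ∃ Y ∈ MaxP (acl (∅ : Set ℂ)) (fun Z => ar Z ≤ rk Z + 1) 3 (TL a b c d), Z ⊆ Y := by
    intro Z hZ hZV hcd har
    exact exists_maxP (k0 := acl (∅ : Set ℂ)) (P := fun Z => ar Z ≤ rk Z + 1) (e := 3) hZ hZV (by omega) (by
        show ar (cl (acl (∅ : Set ℂ)) Z) ≤ rk (cl (acl (∅ : Set ℂ)) Z) + 1
        unfold ar at *
        rw [Alat_cl, rk_cl]
        exact har)
  have key2 : ∀ Z, Irr Z → Z ⊆ TL a b c d → 3 ≤ cd Z → ¬ ar Z ≤ rk Z + 1 →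
      ∃ P, Z = {P} ∧ ∀ i, IsAlgebraic ℚ (P i : ℂ) := by
    intro Z hZ hZV hcd har
    have h1 := hcdZ Z
    exact coset_point_TL ha hb hc hd hZ hZV (by omega)
  refine (hfin.union (hpts.image fun P => ({P} : Set (Fin 2 ⊕ Fin 3 → ℂˣ)))).subset ?_
  intro X hX
  have hX' : Maximal (Atypical (TL a b c d)) X := hX
  have hdm : dm (TL a b c d) = ((2 : ℕ) : WithBot ℕ∞) := dm_TL ha hb hc hd
  rw [maximal_atypical_iff hV hdm (by omega) X] at hX'
  have hXi := MaxE.irr hX'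
  have hXV := MaxE.subset hX'
  have hlt := MaxE.lt hX'
  have hcdX : 3 ≤ cd X := by omega
  have hmaxeq : ∀ Y ∈ MaxP (acl (∅ : Set ℂ)) (fun Z => ar Z ≤ rk Z + 1) 3 (TL a b c d), X ⊆ Y → X = Y := by
    intro Y hY hXY
    have h1 := MaxP.lt hY
    exact MaxE.eq hX' (MaxP.irr hY) (MaxP.subset hY) (by omega) hXY
  by_cases har : ar X ≤ rk X + 1
  · left
    obtain ⟨Y, hY, hXY⟩ := key1 X hXi hXV hcdX har
    rw [hmaxeq Y hY hXY]
    exact hY
  · obtain ⟨P, hP, hPa⟩ := key2 X hXi hXV hcdX har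
    by_cases hPm : P ∈ {P : Fin 2 ⊕ Fin 3 → ℂˣ | P ∈ TL a b c d ∧ (∀ i, IsAlgebraic ℚ (P i : ℂ)) ∧
      3 ≤ rk ({P} : Set (Fin 2 ⊕ Fin 3 → ℂˣ)) ∧
      ∀ Y, Irr Y → Y ⊆ TL a b c d → 3 ≤ cd Y → P ∈ Y → td ℂ Y = 0}
    · right
      exact ⟨P, hPm, hP.symm⟩
    · left
      have hPV : P ∈ TL a b c d := hXV (by rw [hP]; rfl)
      have hrk : 3 ≤ rk ({P} : Set (Fin 2 ⊕ Fin 3 → ℂˣ)) := by
        have h1 := hcdZ X
        rw [hP] at h1 hcdX
        rw [td_singleton'] at h1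
        omega
      have hex : ∃ Y, Irr Y ∧ Y ⊆ TL a b c d ∧ 3 ≤ cd Y ∧ P ∈ Y ∧ td ℂ Y ≠ 0 := by
        by_contra hcon
        push Not at hcon
        exact hPm ⟨hPV, hPa, hrk, fun Y h1 h2 h3 h4 => hcon Y h1 h2 h3 h4⟩
      obtain ⟨Y, hY, hYV, hcdY, hPY, htd⟩ := hex
      have harY : ar Y ≤ rk Y + 1 := by
        by_contra hcon
        obtain ⟨Q, hQ, _⟩ := key2 Y hY hYV hcdY hcon
        apply htd
        rw [hQ, td_singleton']
      obtain ⟨W, hW, hYW⟩ := key1 Y hY hYV hcdY harY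
      have hXW : X ⊆ W := by
        rw [hP, Set.singleton_subset_iff]
        exact hYW hPY
      rw [hmaxeq W hW hXW]
      exact hW

end Pool.Agent.Z5
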