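import Pool.Agent.Z5.N1
import Pool.Agent.Z5.N2
import Pool.Agent.Z5.A3

namespace Pool.Agent.Z5

open Pool.Agent.ZL2 Filter Topology

/-- A sequence of points `(X, t)` over number fields `K n`, extensions of `F`, inside `ℂ`. -/
structure Ar (F : Type) [Field F] [NumberField F] [Algebra F ℂ] (a b : F) (c d : Fin 3 → F) where
  ha : a ≠ 0
  hb : b ≠ 0
  hc : ∀ i, c i ≠ 0
  hd : Function.Injective d
  hH : HH (fun i => algebraMap F ℂ (c i)) (fun i => algebraMap F ℂ (d i))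
  K : ℕ → Type
  [fld : ∀ n, Field (K n)]
  [nf : ∀ n, NumberField (K n)]
  [alg : ∀ n, Algebra F (K n)]
  [fd : ∀ n, FiniteDimensional F (K n)]
  j : ∀ n, K n →ₐ[F] ℂ
  X : ∀ n, K n
  t : ∀ n, K n
  hX0 : ∀ n, X n ≠ 0
  hX1 : ∀ n, X n ≠ 1
  ht : ∀ n i, t n ≠ algebraMap F (K n) (d i)
  inj : Function.Injective (fun n => j n (t n))

attribute [instance] Ar.fld Ar.nf Ar.alg Ar.fd

variable {F : Type} [Field F] [NumberField F] [Algebra F ℂ] {a b : F} {c d : Fin 3 → F}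

/-- The coordinates `y_i = c_i (t - d_i)`. -/
noncomputable def Ar.y (A : Ar F a b c d) (n : ℕ) (i : Fin 3) : A.K n :=
  algebraMap F (A.K n) (c i) * (A.t n - algebraMap F (A.K n) (d i))

theorem Ar.y_ne (A : Ar F a b c d) (n : ℕ) (i : Fin 3) : A.y n i ≠ 0 :=
  mul_ne_zero ((map_ne_zero _).2 (A.hc i)) (sub_ne_zero.2 (A.ht n i))

theorem k0_ev {K K' : Type} [Field K] [Field K'] (σ : K →+* K') {k L : ℕ}
    (f : (Fin k → Fin (L + 1)) → ℤ) (u : Fin k → K) : σ (ev f u) = ev f (fun i => σ (u i)) := by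
  unfold ev
  rw [map_sum]
  refine Finset.sum_congr rfl fun α _ => ?_
  rw [map_mul, map_prod, map_intCast]
  simp only [map_pow]

theorem k0_roots {L : ℕ} (f : (Fin 1 → Fin (L + 1)) → ℤ) (hf : f ≠ 0) :
    {x : ℂ | ev f (fun _ => x) = 0}.Finite := by
  classical
  set q : Polynomial ℂ := ∑ α : Fin 1 → Fin (L + 1), Polynomial.C ((f α : ℤ) : ℂ) * Polynomial.X ^ ((α 0 : Fin (L + 1)) : ℕ) with hq
  have hev : ∀ x : ℂ, ev f (fun _ => x) = q.eval x := by
    intro x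
    rw [hq, Polynomial.eval_finsetSum]
    unfold ev
    refine Finset.sum_congr rfl fun α _ => ?_
    rw [Fin.prod_univ_one, Polynomial.eval_mul, Polynomial.eval_C, Polynomial.eval_pow, Polynomial.eval_X]
  have hq0 : q ≠ 0 := by
    intro h
    apply hf
    funext α
    have h1 : q.coeff ((α 0 : Fin (L + 1)) : ℕ) = ((f α : ℤ) : ℂ) := by
      rw [hq, Polynomial.finsetSum_coeff]
      rw [Finset.sum_eq_single α]
      · rw [Polynomial.coeff_C_mul, Polynomial.coeff_X_pow, if_pos rfl, mul_one]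
      · intro β _ hβ
        rw [Polynomial.coeff_C_mul, Polynomial.coeff_X_pow, if_neg, mul_zero]
        intro h2
        apply hβ
        funext i
        have hi : i = 0 := Subsingleton.elim _ _
        subst hi
        exact (Fin.ext h2).symm
      · intro h2
        exact absurd (Finset.mem_univ _) h2
    rw [h, Polynomial.coeff_zero] at h1
    exact_mod_cast h1.symm
  refine (q.roots.toFinset.finite_toSet).subset ?_
  intro x hx
  have hx' : q.eval x = 0 := by rw [← hev]; exact hx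
  simp only [Finset.mem_coe, Multiset.mem_toFinset]
  exact (Polynomial.mem_roots hq0).2 hx'

/-- Row Z5-E1a. The numbers `σ (t n)` are generic. `f ≠ 0` is a nonzero polynomial in one variable, it has finitely many roots, and `ev f (j (t n)) = j (ev f (t n))`; as `n ↦ j n (t n)` is injective, `ev f (t n) ≠ 0` and `t n ≠ 0` for all
but finitely many `n`; `bp_ineq` with `k = 1` for these. -/
theorem Ar.gen1 (A : Ar F a b c d) {U : Filter ℕ} (hU : U ≤ cofinite) {B : ℝ}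
    (hB : ∀ᶠ n in U, hh (A.t n) ≤ B * Module.finrank ℚ (A.K n)) :
    Gen (k := 1) U ((Module.finrank ℚ F : ℝ) * (((1 : ℕ) : ℝ) * B + (((1 : ℕ) : ℝ) + 1) * Real.log 2))
      (fun n (σ : A.K n →ₐ[F] ℂ) _ => σ (A.t n)) := by
  intro L f hL hf0 hf C hC
  have hfin := k0_roots f hf0
  have h1 : {n : ℕ | ev f (fun _ => A.j n (A.t n)) = 0 ∨ A.j n (A.t n) = 0}.Finite := by
    have h2 : ({x : ℂ | ev f (fun _ => x) = 0} ∪ {0}).Finite := hfin.union (Set.finite_singleton _)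
    refine Set.Finite.subset (h2.preimage (A.inj.injOn)) ?_
    rintro n (hn | hn)
    · exact Or.inl hn
    · exact Or.inr hn
  have h3 : ∀ᶠ n in U, ¬ (ev f (fun _ => A.j n (A.t n)) = 0 ∨ A.j n (A.t n) = 0) := by
    refine hU ?_
    rw [Filter.mem_cofinite]
    refine h1.subset ?_
    intro n hn
    by_contra h
    exact hn h
  filter_upwards [h3, hB] with n hn hBn
  rw [not_or] at hn
  have ht0 : A.t n ≠ 0 := fun h => hn.2 (by rw [h, map_zero])
  have hev0 : ev f (fun _ : Fin 1 => A.t n) ≠ 0 := by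
    intro h
    apply hn.1
    have h4 := k0_ev (A.j n : A.K n →+* ℂ) f (fun _ => A.t n)
    rw [h, map_zero] at h4
    exact h4.symm
  exact bp_ineq hL f hf (fun _ : Fin 1 => A.t n) (fun _ => ht0) (fun _ => hBn) hev0 hC

/-- The constant of `hb`. -/
noncomputable def Ar.B (A : Ar F a b c d) : ℝ := Classical.choose (Z5.hb c d A.hc A.hd)

theorem Ar.hB (A : Ar F a b c d) : 0 ≤ A.B ∧ ∀ n (u : Fin 3 → ℝ), dt u u = 1 →
    (∀ p : Pl (A.K n), ∑ i, u i * lv p (A.y n i) = 0) →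
      (∀ i, hh (A.y n i) ≤ A.B * Module.finrank ℚ (A.K n)) ∧ hh (A.t n) ≤ A.B * Module.finrank ℚ (A.K n) := by
  have h := Classical.choose_spec (Z5.hb c d A.hc A.hd)
  exact ⟨h.1, fun n u hu hr => h.2 (A.K n) (A.t n) (A.ht n) u hu hr⟩

theorem Ar.map_y (A : Ar F a b c d) (n : ℕ) (σ : A.K n →ₐ[F] ℂ) (i : Fin 3) :
    σ (A.y n i) = algebraMap F ℂ (c i) * (σ (A.t n) - algebraMap F ℂ (d i)) := by
  simp only [Ar.y, map_mul, map_sub, AlgHom.commutes]

theorem Ar.LY_eq (A : Ar F a b c d) (n : ℕ) (σ : A.K n →ₐ[F] ℂ) (i : Fin 3) :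
    LY (fun i => algebraMap F ℂ (c i)) (fun i => algebraMap F ℂ (d i)) (σ (A.t n)) i =
      lv (Sum.inl (σ : A.K n →+* ℂ) : Pl (A.K n)) (A.y n i) := by
  show Real.log ‖algebraMap F ℂ (c i) * (σ (A.t n) - algebraMap F ℂ (d i))‖ = Real.log ‖σ (A.y n i)‖
  rw [A.map_y]

/-- Row Z5-E1b. Two orthonormal real relations for all `n` are impossible. `lemI` with `U` the hyperfilter, `t n σ = σ (t n)`, `cn = u`, `en n _ = v n`, `ε = 0`, `gen1`, `Ar.hB`, `sum_le_hh`; all `σ` satisfy both relations (`LY_eq`), so `fr = 1`. -/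
theorem Ar.no_two (A : Ar F a b c d) (u v : ℕ → Fin 3 → ℝ) (hu : ∀ n, dt (u n) (u n) = 1)
    (hv : ∀ n, dt (v n) (v n) = 1) (huv : ∀ n, dt (u n) (v n) = 0)
    (h1 : ∀ n (p : Pl (A.K n)), ∑ i, u n i * lv p (A.y n i) = 0)
    (h2 : ∀ n (p : Pl (A.K n)), ∑ i, v n i * lv p (A.y n i) = 0) : False := by
  have hne : ∀ n, Nonempty (A.K n →ₐ[F] ℂ) := fun n => ⟨A.j n⟩
  have hU : ((Filter.hyperfilter ℕ : Ultrafilter ℕ) : Filter ℕ) ≤ cofinite := Filter.hyperfilter_le_cofinite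
  have hg := A.gen1 hU (Eventually.of_forall fun n => (A.hB.2 n (u n) (hu n) (h1 n)).2)
  refine lemI (Filter.hyperfilter ℕ) (ι := fun n => A.K n →ₐ[F] ℂ)
    (B := 2 * A.B * (Module.finrank ℚ F : ℝ))
    (c := fun i => algebraMap F ℂ (c i)) (d := fun i => algebraMap F ℂ (d i))
    (fun i => (map_ne_zero _).2 (A.hc i)) A.hH (fun n σ => σ (A.t n)) hg ?_ ?_ u (fun n _ => v n) hu
    (fun n _ => hv n) (fun n _ => huv n) (fun _ => 0) tendsto_const_nhds ?_
  · intro n σ i h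
    refine A.ht n i ?_
    have h1 : σ (A.t n) = σ (algebraMap F (A.K n) (d i)) := by rw [h, AlgHom.commutes]
    exact (σ : A.K n →+* ℂ).injective h1
  · intro n i
    have h := (A.hB.2 n (u n) (hu n) (h1 n)).1 i
    have h1 := sum_le_hh (F := F) (A.y_ne n i) h
    refine le_trans (le_of_eq ?_) h1
    refine Finset.sum_congr rfl fun σ _ => ?_
    rw [A.LY_eq]
    rfl
  · refine Eventually.of_forall fun n => ?_
    have h3 : (1 : ℝ) ≤ fr (fun σ : A.K n →ₐ[F] ℂ => ∃ j : Fin 3,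
        |dt (u n) (LY (fun i => algebraMap F ℂ (c i)) (fun i => algebraMap F ℂ (d i)) (σ (A.t n)))| ≤ 0 ∧
        |dt (v n) (LY (fun i => algebraMap F ℂ (c i)) (fun i => algebraMap F ℂ (d i)) (σ (A.t n)))| ≤ 0) := by
      rw [← fr_true (ι := A.K n →ₐ[F] ℂ)]
      refine fr_mono fun σ _ => ⟨0, ?_, ?_⟩
      · simp only [dt, A.LY_eq]
        rw [h1 n, abs_zero]
      · simp only [dt, A.LY_eq]
        rw [h2 n, abs_zero]
    exact le_trans (by norm_num) h3

/-- A sequence of points with the real relations `u, M`. -/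
structure ArM (F : Type) [Field F] [NumberField F] [Algebra F ℂ] (a b : F) (c d : Fin 3 → F) extends
    Ar F a b c d where
  u : ℕ → Fin 3 → ℝ
  M : ℕ → Fin 2 → Fin 3 → ℝ
  hu : ∀ n, dt (u n) (u n) = 1
  hM : ∀ n j, dt (M n j) (u n) = 0
  r0 : ∀ n (p : Pl (K n)), ∑ i, u n i * lv p (toAr.y n i) = 0
  r1 : ∀ n (p : Pl (K n)), lv p (X n) = ∑ i, M n 0 i * lv p (toAr.y n i) + lv p (algebraMap F (K n) a)
  r2 : ∀ n (p : Pl (K n)), lv p (1 - X n) = ∑ i, M n 1 i * lv p (toAr.y n i) + lv p (algebraMap F (K n) b)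

/-- The sequence of Galois orbits. -/
noncomputable def ArM.sq (A : ArM F a b c d) (U : Ultrafilter ℕ) (hU : (U : Filter ℕ) ≤ cofinite) :
    Sq (algebraMap F ℂ a) (algebraMap F ℂ b) (fun i => algebraMap F ℂ (c i))
      (fun i => algebraMap F ℂ (d i)) U where
  ι n := A.K n →ₐ[F] ℂ
  fin n := inferInstance
  ne n := ⟨A.j n⟩
  X n σ := σ (A.X n)
  t n σ := σ (A.t n)
  u := A.u
  M := A.M
  B := 2 * A.B * (Module.finrank ℚ F : ℝ)
  κ := (Module.finrank ℚ F : ℝ) * (((1 : ℕ) : ℝ) * A.B + (((1 : ℕ) : ℝ) + 1) * Real.log 2)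
  hX0 n σ := (map_ne_zero _).2 (A.hX0 n)
  hX1 n σ := fun h => A.hX1 n (by
    have h1 : σ (A.X n) = σ 1 := by rw [h, map_one]
    exact (σ : A.K n →+* ℂ).injective h1)
  ht n σ i := fun h => A.ht n i (by
    have h1 : σ (A.t n) = σ (algebraMap F (A.K n) (d i)) := by rw [h, AlgHom.commutes]
    exact (σ : A.K n →+* ℂ).injective h1)
  hu := A.hu
  hM := A.hM
  r0 n σ := by
    simp only [dt, A.LY_eq]
    exact A.r0 n _
  r1 n σ := by
    simp only [dt, A.LY_eq]
    have h := A.r1 n (Sum.inl (σ : A.K n →+* ℂ))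
    have h2 : lv (Sum.inl (σ : A.K n →+* ℂ) : Pl (A.K n)) (algebraMap F (A.K n) a) =
        Real.log ‖algebraMap F ℂ a‖ := by
      show Real.log ‖σ (algebraMap F (A.K n) a)‖ = _
      rw [AlgHom.commutes]
    rw [h2] at h
    exact h
  r2 n σ := by
    simp only [dt, A.LY_eq]
    have h := A.r2 n (Sum.inl (σ : A.K n →+* ℂ))
    have h2 : lv (Sum.inl (σ : A.K n →+* ℂ) : Pl (A.K n)) (algebraMap F (A.K n) b) =
        Real.log ‖algebraMap F ℂ b‖ := by
      show Real.log ‖σ (algebraMap F (A.K n) b)‖ = _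
      rw [AlgHom.commutes]
    rw [h2] at h
    have h3 : lv (Sum.inl (σ : A.K n →+* ℂ) : Pl (A.K n)) (1 - A.X n) = Real.log ‖1 - σ (A.X n)‖ := by
      show Real.log ‖σ (1 - A.X n)‖ = _
      rw [map_sub, map_one]
    rw [h3] at h
    exact h
  hB n i := by
    have h := (A.hB.2 n (A.u n) (A.hu n) (A.r0 n)).1 i
    have h1 := sum_le_hh (F := F) (A.y_ne n i) h
    refine le_trans (le_of_eq ?_) h1
    refine Finset.sum_congr rfl fun σ _ => ?_
    rw [A.LY_eq]
    rfl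
  gen := A.gen1 hU (Eventually.of_forall fun n => (A.hB.2 n (A.u n) (A.hu n) (A.r0 n)).2)

end Pool.Agent.Z5
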