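import Pool.Agent.Z5.K4

open Pool.Agent.MP_dd1803_nt Pool.Agent.ZPA Pool.Agent.ZL2

namespace Pool.Agent.Z5

/-- Row Z5-K1a. Every sequence has a subsequence which is injective or constant. -/
theorem inj_or_const {α : Type} (f : ℕ → α) : ∃ φ : ℕ → ℕ, Function.Injective φ ∧
    (Function.Injective (f ∘ φ) ∨ ∃ x, ∀ n, f (φ n) = x) := by
  classical
  by_cases h : (Set.range f).Infinite
  · have e := h.natEmbedding
    have he : ∀ n, ∃ m, f m = (e n : α) := fun n => (e n).2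
    choose φ hφ using he
    have hi : Function.Injective (f ∘ φ) := by
      intro m n hmn
      simp only [Function.comp_apply, hφ] at hmn
      exact e.injective (Subtype.ext hmn)
    exact ⟨φ, hi.of_comp, Or.inl hi⟩
  · have hfin : Finite (Set.range f) := Set.not_infinite.1 h
    obtain ⟨y, hy⟩ := Finite.exists_infinite_fiber (Set.rangeFactorization f)
    have e := Infinite.natEmbedding (Set.rangeFactorization f ⁻¹' {y})
    refine ⟨fun n => (e n : ℕ), fun m n hmn => e.injective (Subtype.ext hmn), Or.inr ⟨y, fun n => ?_⟩⟩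
    have h1 : Set.rangeFactorization f (e n) = y := (e n).2
    exact congrArg Subtype.val h1

/-- The vectors `e_j - m_j`. -/
def k1_v (m : Fin 2 → Fin 3 → ℤ) (j : Fin 2) : Fin 2 ⊕ Fin 3 → ℤ :=
  Sum.elim (Pi.single j 1) (fun i => - m j i)

theorem k1_indep (m : Fin 2 → Fin 3 → ℤ) : LinearIndependent ℤ (k1_v m) := by
  rw [Fintype.linearIndependent_iff]
  intro g hg i
  have h1 := congrFun hg (Sum.inl i)
  rw [Fin.sum_univ_two] at h1
  match i with
  | 0 => simpa [k1_v] using h1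
  | 1 => simpa [k1_v] using h1

theorem k1_ch (m : Fin 2 → Fin 3 → ℤ) (j : Fin 2) (x : Fin 2 ⊕ Fin 3 → ℂˣ) :
    (ch (k1_v m j) x : ℂ) = (x (Sum.inl j) : ℂ) * ∏ i, (x (Sum.inr i) : ℂ) ^ (- m j i) := by
  unfold ch
  rw [Fintype.prod_sum_type, Units.val_mul, Units.coe_prod, Units.coe_prod]
  congr 1
  · rw [Finset.prod_eq_single j]
    · simp [k1_v]
    · intro i _ hi
      simp [k1_v, Pi.single_eq_of_ne hi]
    · intro h
      exact absurd (Finset.mem_univ j) h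
  · refine Finset.prod_congr rfl fun i _ => ?_
    simp only [k1_v, Sum.elim_inr, Units.val_zpow_eq_zpow_val]

/-- Row Z5-K1b. The first case: `X` injective or constant along the sequence. `exists_Ar` with `x0 = a * P 0 (inl 0)`, `Ar.rk_le`, `Ar.main`. In the case of the same `N'`: `L = Lam {P n0}` for one `n0 ∈ 𝒩`; `Ar.mem_Lam_iff` twice. In the other case
`L` = the span over `ℤ` of the two vectors `Sum.elim (Pi.single j 1) (fun i => - m j i)`, which are independent (`finrank_span_eq_card`), and `ch v (P n) ^ k = 1` for them (apply `A.j n` to the identities), hence for all `m ∈ L` (`Submodule.span_induction`, `ch` is multiplicative in the exponent). -/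
theorem core_seq' {a b : ℂ} {c d : Fin 3 → ℂ} (ha : a ≠ 0) (hb : b ≠ 0) (haa : IsAlgebraic ℚ a)
    (hba : IsAlgebraic ℚ b) (hc : ∀ i, c i ≠ 0) (hca : ∀ i, IsAlgebraic ℚ (c i)) (hd : Function.Injective d)
    (hda : ∀ i, IsAlgebraic ℚ (d i)) (hH : HH c d) (P : ℕ → Fin 2 ⊕ Fin 3 → ℂˣ)
    (hPV : ∀ n, P n ∈ TL a b c d) (hPa : ∀ n i, IsAlgebraic ℚ (P n i : ℂ))
    (hinj : Function.Injective (fun n i => P n (Sum.inr i)))
    (hrk : ∀ n, 3 ≤ rk ({P n} : Set (Fin 2 ⊕ Fin 3 → ℂˣ)))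
    (hX : Function.Injective (fun n => P n (Sum.inl 0)) ∨ ∃ x, ∀ n, P n (Sum.inl 0) = x) :
    ∃ 𝒩 : Set ℕ, 𝒩.Infinite ∧
      ((∃ L : Submodule ℤ (Fin 2 ⊕ Fin 3 → ℤ), 3 ≤ Module.finrank ℤ L ∧
        ∀ n ∈ 𝒩, L ≤ Lam ({P n} : Set (Fin 2 ⊕ Fin 3 → ℂˣ))) ∨
      ∃ (L : Submodule ℤ (Fin 2 ⊕ Fin 3 → ℤ)) (k : ℕ), 2 ≤ Module.finrank ℤ L ∧ 0 < k ∧
        ∀ n ∈ 𝒩, ∀ m ∈ L, ch m (P n) ^ k = 1) := by
  have hx0 : IsAlgebraic ℚ (a * (P 0 (Sum.inl 0) : ℂ)) := haa.mul (hPa 0 _)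
  obtain ⟨F, _, _, _, a', b', c', d', x', A, ha', hx', hpt, hX'⟩ :=
    exists_Ar ha hb haa hba hc hca hd hda hH P hPV hPa hinj hx0
  have hN : ∀ n, 3 ≤ Module.finrank ℝ (A.N n) := fun n => (hrk n).trans (A.rk_le (hpt n))
  have hXX : Function.Injective (fun n => A.j n (A.X n)) ∨ ∃ x : F, ∀ n, A.X n = algebraMap F (A.K n) x := by
    rcases hX with h | ⟨x, h⟩
    · left
      intro m n hmn
      simp only [hX'] at hmn
      exact h (Units.ext (mul_left_cancel₀ ha hmn))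
    · right
      refine ⟨x', fun n => ?_⟩
      apply (A.j n : A.K n →+* ℂ).injective
      show A.j n (A.X n) = A.j n (algebraMap F (A.K n) x')
      rw [hX', AlgHom.commutes, hx', h n, h 0]
  obtain ⟨𝒩, hinf, h⟩ := A.main hN hXX
  refine ⟨𝒩, hinf, ?_⟩
  rcases h with ⟨N', hN'⟩ | ⟨m, k, hk, hm⟩
  · left
    obtain ⟨n0, hn0⟩ := hinf.nonempty
    refine ⟨Lam ({P n0} : Set (Fin 2 ⊕ Fin 3 → ℂˣ)), hrk n0, fun n hn m hm => ?_⟩
    rw [A.mem_Lam_iff (hpt n), hN' n hn, ← hN' n0 hn0, ← A.mem_Lam_iff (hpt n0)]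
    exact hm
  · right
    refine ⟨Submodule.span ℤ (Set.range (k1_v m)), k, ?_, hk, fun n hn w hw => ?_⟩
    · rw [finrank_span_eq_card (k1_indep m), Fintype.card_fin]
    · have hgen : ∀ j, ch (k1_v m j) (P n) ^ k = 1 := by
        intro j
        apply Units.ext
        rw [Units.val_pow_eq_pow_val, k1_ch, Units.val_one]
        have e := hm n hn
        match j with
        | 0 =>
          have e1 := congrArg (A.j n) e.1
          rw [map_pow, map_mul, map_prod, map_one] at e1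
          simp only [map_zpow₀, hpt] at e1
          exact e1
        | 1 =>
          have e1 := congrArg (A.j n) e.2
          rw [map_pow, map_mul, map_prod, map_one] at e1
          simp only [map_zpow₀, hpt] at e1
          exact e1
      induction hw using Submodule.span_induction with
      | mem x hx =>
        obtain ⟨j, rfl⟩ := hx
        exact hgen j
      | zero => rw [ch_zero, one_pow]
      | add x y _ _ h1 h2 => rw [ch_add, mul_pow, h1, h2, one_mul]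
      | smul r x _ h1 =>
        rw [ch_zsmul, ← zpow_natCast, ← zpow_mul, mul_comm, zpow_mul, zpow_natCast, h1, one_zpow]

/-- Row Z5-K1c. `inj_or_const` and `core_seq'` for the subsequence. -/
theorem core_seq {a b : ℂ} {c d : Fin 3 → ℂ} (ha : a ≠ 0) (hb : b ≠ 0) (haa : IsAlgebraic ℚ a)
    (hba : IsAlgebraic ℚ b) (hc : ∀ i, c i ≠ 0) (hca : ∀ i, IsAlgebraic ℚ (c i)) (hd : Function.Injective d)
    (hda : ∀ i, IsAlgebraic ℚ (d i)) (hH : HH c d) (P : ℕ → Fin 2 ⊕ Fin 3 → ℂˣ)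
    (hPV : ∀ n, P n ∈ TL a b c d) (hPa : ∀ n i, IsAlgebraic ℚ (P n i : ℂ))
    (hinj : Function.Injective (fun n i => P n (Sum.inr i)))
    (hrk : ∀ n, 3 ≤ rk ({P n} : Set (Fin 2 ⊕ Fin 3 → ℂˣ))) :
    ∃ 𝒩 : Set ℕ, 𝒩.Infinite ∧
      ((∃ L : Submodule ℤ (Fin 2 ⊕ Fin 3 → ℤ), 3 ≤ Module.finrank ℤ L ∧
        ∀ n ∈ 𝒩, L ≤ Lam ({P n} : Set (Fin 2 ⊕ Fin 3 → ℂˣ))) ∨
      ∃ (L : Submodule ℤ (Fin 2 ⊕ Fin 3 → ℤ)) (k : ℕ), 2 ≤ Module.finrank ℤ L ∧ 0 < k ∧
        ∀ n ∈ 𝒩, ∀ m ∈ L, ch m (P n) ^ k = 1) := by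
  obtain ⟨φ, hφ, h⟩ := inj_or_const (fun n => P n (Sum.inl 0))
  obtain ⟨𝒩, hinf, h1⟩ := core_seq' ha hb haa hba hc hca hd hda hH (fun n => P (φ n)) (fun n => hPV (φ n))
    (fun n => hPa (φ n)) (hinj.comp hφ) (fun n => hrk (φ n)) h
  refine ⟨φ '' 𝒩, hinf.image hφ.injOn, ?_⟩
  rcases h1 with ⟨L, h2, h3⟩ | ⟨L, k, h2, hk, h3⟩
  · left
    refine ⟨L, h2, ?_⟩
    rintro _ ⟨n, hn, rfl⟩
    exact h3 n hn
  · right
    refine ⟨L, k, h2, hk, ?_⟩
    rintro _ ⟨n, hn, rfl⟩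
    exact h3 n hn

end Pool.Agent.Z5
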