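import Pool.Agent.Z5.E6
import Pool.Agent.Z5.N3

namespace Pool.Agent.Z5

open Pool.Agent.ZL2 Filter Topology

variable {F : Type} [Field F] [NumberField F] [Algebra F ℂ] {a b : F} {c d : Fin 3 → F}

/-- The points of `G_m^5`. -/
noncomputable def Ar.pt (A : Ar F a b c d) (n : ℕ) : Fin 2 ⊕ Fin 3 → A.K n :=
  Sum.elim ![A.X n / algebraMap F (A.K n) a, (1 - A.X n) / algebraMap F (A.K n) b] (A.y n)

/-- The real relations. -/
def Ar.N (A : Ar F a b c d) (n : ℕ) : Submodule ℝ (Fin 2 ⊕ Fin 3 → ℝ) where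
  carrier := {w | ∀ p : Pl (A.K n), ∑ k, w k * lv p (A.pt n k) = 0}
  add_mem' {v w} hv hw p := by
    have h : ∑ k, (v + w) k * lv p (A.pt n k) =
        ∑ k, v k * lv p (A.pt n k) + ∑ k, w k * lv p (A.pt n k) := by
      rw [← Finset.sum_add_distrib]
      exact Finset.sum_congr rfl fun k _ => by rw [Pi.add_apply, add_mul]
    rw [h, hv p, hw p, add_zero]
  zero_mem' p := by simp
  smul_mem' r w hw p := by
    have h : ∑ k, (r • w) k * lv p (A.pt n k) = r * ∑ k, w k * lv p (A.pt n k) := by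
      rw [Finset.mul_sum]
      exact Finset.sum_congr rfl fun k _ => by rw [Pi.smul_apply, smul_eq_mul, mul_assoc]
    rw [h, hw p, mul_zero]

/-- A subsequence. -/
noncomputable def Ar.comp (A : Ar F a b c d) (φ : ℕ → ℕ) (hφ : Function.Injective φ) : Ar F a b c d where
  ha := A.ha
  hb := A.hb
  hc := A.hc
  hd := A.hd
  hH := A.hH
  K n := A.K (φ n)
  j n := A.j (φ n)
  X n := A.X (φ n)
  t n := A.t (φ n)
  hX0 n := A.hX0 (φ n)
  hX1 n := A.hX1 (φ n)
  ht n := A.ht (φ n)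
  inj := A.inj.comp hφ

theorem k3_sub {s : Set ℕ} (hs : s.Infinite) : ∃ φ : ℕ → ℕ, Function.Injective φ ∧ ∀ n, φ n ∈ s :=
  ⟨Nat.nth (· ∈ s), Nat.nth_injective hs, fun n => Nat.nth_mem_of_infinite hs n⟩

/-- Row Z5-K3. `dichotomy` for every `A.N n`. If the first alternative holds for infinitely many `n`: a subsequence (`Ar.comp` with `Nat.nth` or `Set.Infinite` order embedding; `(A.comp φ hφ).y n = A.y (φ n)` by `rfl`) and `no_two` (the relation for `inY u` is
`∑ i, u i * lv p (A.y n i) = 0`: `Fintype.sum_sum_type`). Otherwise there is a subsequence `φ` for which always the second alternative holds: `u, M` by `choose`; they give `ArM` extending `A.comp φ hφ`: `r0` from `inY u ∈ N`; `r1`: `inX 0 (M 0) ∈ N` gives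
`lv p (X / a) = ∑ i, M 0 i lv p (y i)` and `lv p (X / a) = lv p X - lv p a`; `r2` the same. `ArM.main` with `U = hyperfilter ℕ`; sets of `U` are infinite; the image under `φ`. In the first case `A.N (φ n)` is the span of `inY u', inX 0 (M' 0), inX 1 (M' 1)` (last part of `dichotomy`), the same for all `n`. -/
theorem Ar.main (A : Ar F a b c d) (hN : ∀ n, 3 ≤ Module.finrank ℝ (A.N n))
    (hX : Function.Injective (fun n => A.j n (A.X n)) ∨ ∃ x : F, ∀ n, A.X n = algebraMap F (A.K n) x) :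
    ∃ 𝒩 : Set ℕ, 𝒩.Infinite ∧ ((∃ N' : Submodule ℝ (Fin 2 ⊕ Fin 3 → ℝ), ∀ n ∈ 𝒩, A.N n = N') ∨
    ∃ (m : Fin 2 → Fin 3 → ℤ) (k : ℕ), 0 < k ∧ ∀ n ∈ 𝒩,
      (A.pt n (Sum.inl 0) * ∏ i, A.pt n (Sum.inr i) ^ (- m 0 i)) ^ k = 1 ∧
      (A.pt n (Sum.inl 1) * ∏ i, A.pt n (Sum.inr i) ^ (- m 1 i)) ^ k = 1) := by
  classical
  have hdich := fun n => dichotomy (A.N n) (hN n)
  have hY : ∀ n (u : Fin 3 → ℝ), inY u ∈ A.N n → ∀ p : Pl (A.K n), ∑ i, u i * lv p (A.y n i) = 0 := by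
    intro n u h p
    have h1 : ∑ k, inY u k * lv p (A.pt n k) = 0 := h p
    rw [Fintype.sum_sum_type] at h1
    have h2 : ∑ x : Fin 2, inY u (Sum.inl x) * lv p (A.pt n (Sum.inl x)) = 0 :=
      Finset.sum_eq_zero fun x _ => by
        show (0 : ℝ) * _ = 0
        rw [zero_mul]
    rw [h2, zero_add] at h1
    exact h1
  have hXr : ∀ n (j : Fin 2) (m : Fin 3 → ℝ), inX j m ∈ A.N n → ∀ p : Pl (A.K n),
      lv p (A.pt n (Sum.inl j)) = ∑ i, m i * lv p (A.y n i) := by
    intro n j m h p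
    have h1 : ∑ k, inX j m k * lv p (A.pt n k) = 0 := h p
    rw [Fintype.sum_sum_type] at h1
    have h2 : ∑ x : Fin 2, inX j m (Sum.inl x) * lv p (A.pt n (Sum.inl x)) = lv p (A.pt n (Sum.inl j)) := by
      rw [Finset.sum_eq_single j]
      · show (Pi.single j 1 : Fin 2 → ℝ) j * _ = _
        rw [Pi.single_eq_same, one_mul]
      · intro x _ hx
        show (Pi.single j 1 : Fin 2 → ℝ) x * _ = 0
        rw [Pi.single_eq_of_ne hx, zero_mul]
      · intro h'; exact absurd (Finset.mem_univ _) h'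
    have h3 : ∑ x : Fin 3, inX j m (Sum.inr x) * lv p (A.pt n (Sum.inr x)) = - ∑ i, m i * lv p (A.y n i) := by
      rw [← Finset.sum_neg_distrib]
      refine Finset.sum_congr rfl fun x _ => ?_
      show (- m x) * lv p (A.y n x) = _
      ring
    rw [h2, h3] at h1
    linarith
  have hr1 : ∀ n (m : Fin 3 → ℝ), inX 0 m ∈ A.N n → ∀ p : Pl (A.K n),
      lv p (A.X n) = ∑ i, m i * lv p (A.y n i) + lv p (algebraMap F (A.K n) a) := by
    intro n m h p
    have e1 := hXr n 0 m h p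
    have e2 : lv p (A.X n / algebraMap F (A.K n) a) = lv p (A.X n) - lv p (algebraMap F (A.K n) a) := by
      rw [div_eq_mul_inv, lv_mul p (A.hX0 _) (inv_ne_zero ((map_ne_zero _).2 A.ha)), lv_inv, sub_eq_add_neg]
    have e3 : lv p (A.pt n (Sum.inl 0)) = lv p (A.X n / algebraMap F (A.K n) a) := rfl
    rw [e3, e2] at e1
    linarith
  have hr2 : ∀ n (m : Fin 3 → ℝ), inX 1 m ∈ A.N n → ∀ p : Pl (A.K n),
      lv p (1 - A.X n) = ∑ i, m i * lv p (A.y n i) + lv p (algebraMap F (A.K n) b) := by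
    intro n m h p
    have e1 := hXr n 1 m h p
    have e2 : lv p ((1 - A.X n) / algebraMap F (A.K n) b) =
        lv p (1 - A.X n) - lv p (algebraMap F (A.K n) b) := by
      rw [div_eq_mul_inv, lv_mul p (sub_ne_zero.2 (A.hX1 _).symm) (inv_ne_zero ((map_ne_zero _).2 A.hb)),
        lv_inv]
      ring
    have e3 : lv p (A.pt n (Sum.inl 1)) = lv p ((1 - A.X n) / algebraMap F (A.K n) b) := rfl
    rw [e3, e2] at e1
    linarith
  by_cases h1 : {n | ∃ u v : Fin 3 → ℝ, dt u u = 1 ∧ dt v v = 1 ∧ dt u v = 0 ∧ inY u ∈ A.N n ∧ inY v ∈ A.N n}.Infinite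
  · exfalso
    obtain ⟨φ, hφ, hm⟩ := k3_sub h1
    choose u v a1 a2 a3 a4 a5 using hm
    exact (A.comp _ hφ).no_two u v a1 a2 a3 (fun n p => hY _ _ (a4 n) p) (fun n p => hY _ _ (a5 n) p)
  · have h2 : {n | ∃ (u : Fin 3 → ℝ) (M : Fin 2 → Fin 3 → ℝ), dt u u = 1 ∧ (∀ j, dt (M j) u = 0) ∧ inY u ∈ A.N n ∧
      (∀ j, inX j (M j) ∈ A.N n) ∧
      ∀ w ∈ A.N n, ∃ (s : ℝ) (r : Fin 2 → ℝ), w = s • inY u + ∑ j, r j • inX j (M j)}.Infinite := by
      refine (Set.not_infinite.1 h1).infinite_compl.mono fun n hn => ?_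
      exact (hdich n).resolve_left hn
    obtain ⟨φ, hφ, hm⟩ := k3_sub h2
    choose u M b1 b2 b3 b4 b5 using hm
    let B : ArM F a b c d :=
      { toAr := A.comp φ hφ
        u := u
        M := M
        hu := b1
        hM := b2
        r0 := fun n p => hY _ _ (b3 n) p
        r1 := fun n p => hr1 _ _ (b4 n 0) p
        r2 := fun n p => hr2 _ _ (b4 n 1) p }
    have hXB : Function.Injective (fun n => B.j n (B.X n)) ∨ ∃ x : F, ∀ n, B.X n = algebraMap F (B.K n) x := by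
      rcases hX with h | ⟨x, hx⟩
      · exact Or.inl (h.comp hφ)
      · exact Or.inr ⟨x, fun n => hx (φ n)⟩
    have hinf : ∀ s : Set ℕ, (∀ᶠ n in ((hyperfilter ℕ : Ultrafilter ℕ) : Filter ℕ), n ∈ s) → s.Infinite := by
      intro s hs hfin
      exact notMem_hyperfilter_of_finite hfin hs
    rcases B.main (hyperfilter ℕ) (hyperfilter_le_cofinite) hXB with ⟨u', M', h3⟩ | ⟨m, k, hk, h3⟩
    · refine ⟨φ '' {n | u n = u' ∧ M n = M'}, (hinf _ h3).image hφ.injOn, Or.inl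
        ⟨Submodule.span ℝ {inY u', inX 0 (M' 0), inX 1 (M' 1)}, ?_⟩⟩
      rintro _ ⟨n, ⟨e1, e2⟩, rfl⟩
      apply le_antisymm
      · intro w hw
        obtain ⟨s, r, hw'⟩ := b5 n w hw
        rw [hw', Fin.sum_univ_two, e1, e2]
        refine Submodule.add_mem _ (Submodule.smul_mem _ _ (Submodule.subset_span (by simp)))
          (Submodule.add_mem _ (Submodule.smul_mem _ _ (Submodule.subset_span (by simp)))
            (Submodule.smul_mem _ _ (Submodule.subset_span (by simp))))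
      · rw [Submodule.span_le]
        rintro w hw
        simp only [Set.mem_insert_iff, Set.mem_singleton_iff] at hw
        rcases hw with rfl | rfl | rfl
        · rw [← e1]; exact b3 n
        · rw [← e2]; exact b4 n 0
        · rw [← e2]; exact b4 n 1
    · refine ⟨φ '' {n | (B.X n / algebraMap F (B.K n) a * ∏ i, B.y n i ^ (- m 0 i)) ^ k = 1 ∧
        ((1 - B.X n) / algebraMap F (B.K n) b * ∏ i, B.y n i ^ (- m 1 i)) ^ k = 1},
        (hinf _ h3).image hφ.injOn, Or.inr ⟨m, k, hk, ?_⟩⟩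
      rintro _ ⟨n, ⟨e1, e2⟩, rfl⟩
      exact ⟨e1, e2⟩

end Pool.Agent.Z5
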