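import Pool.Agent.Z5.K3
import Pool.Agent.Z5.G1
import Pool.Agent.Z5.N5

open Pool.Agent.MP_dd1803_nt Pool.Agent.ZPA Pool.Agent.ZL2

namespace Pool.Agent.Z5

/-- Row Z5-K4a. The arithmetic data of a sequence of algebraic points of `TL`. `F = IntermediateField.adjoin ℚ {a, b, c i, d i, x0} ⊂ ℂ` (a number field, compare the beginning of `ZL2.main` in `ZL2/Geom.lean`), `K n = IntermediateField.adjoin F {a * P n (inl 0), t n}` where
`t n = P n (inr 0) / c 0 + d 0` (so `P n (inr i) = c i * (t n - d i)` for all `i`, from `hPV`); `NumberField (K n)` from finite dimension over `F` and tower; `j n` is the inclusion, `X n = a * P n (inl 0)`, `1 - X n = b * P n (inl 1)`. `inj`: `t n` determines the `y`-part. -/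
theorem exists_Ar {a b : ℂ} {c d : Fin 3 → ℂ} (ha : a ≠ 0) (hb : b ≠ 0) (haa : IsAlgebraic ℚ a)
    (hba : IsAlgebraic ℚ b) (hc : ∀ i, c i ≠ 0) (hca : ∀ i, IsAlgebraic ℚ (c i)) (hd : Function.Injective d)
    (hda : ∀ i, IsAlgebraic ℚ (d i)) (hH : HH c d) (P : ℕ → Fin 2 ⊕ Fin 3 → ℂˣ)
    (hPV : ∀ n, P n ∈ TL a b c d) (hPa : ∀ n i, IsAlgebraic ℚ (P n i : ℂ))
    (hinj : Function.Injective (fun n i => P n (Sum.inr i))) {x0 : ℂ} (hx0 : IsAlgebraic ℚ x0) :
    ∃ (F : Type) (_ : Field F) (_ : NumberField F) (_ : Algebra F ℂ) (a' b' : F) (c' d' : Fin 3 → F) (x' : F)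
      (A : Ar F a' b' c' d'), algebraMap F ℂ a' = a ∧ algebraMap F ℂ x' = x0 ∧
      (∀ n k, A.j n (A.pt n k) = (P n k : ℂ)) ∧ ∀ n, A.j n (A.X n) = a * (P n (Sum.inl 0) : ℂ) := by
  classical
  set S : Set ℂ := {a, b, x0} ∪ (Set.range c ∪ Set.range d) with hS
  have hSfin : S.Finite := (Set.toFinite _).union ((Set.finite_range c).union (Set.finite_range d))
  have hSalg : ∀ z ∈ S, IsIntegral ℚ z := by
    rintro z (hz | ⟨i, rfl⟩ | ⟨i, rfl⟩)
    · simp only [Set.mem_insert_iff, Set.mem_singleton_iff] at hz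
      rcases hz with rfl | rfl | rfl
      · exact haa.isIntegral
      · exact hba.isIntegral
      · exact hx0.isIntegral
    · exact (hca i).isIntegral
    · exact (hda i).isIntegral
  have : Finite S := hSfin
  let F : IntermediateField ℚ ℂ := IntermediateField.adjoin ℚ S
  have hFfin : FiniteDimensional ℚ F := IntermediateField.finiteDimensional_adjoin hSalg
  have hFn : NumberField F := ⟨⟩
  have hmem : ∀ z ∈ S, z ∈ F := fun z hz => IntermediateField.subset_adjoin ℚ S hz
  let a' : F := ⟨a, hmem a (Or.inl (by simp))⟩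
  let b' : F := ⟨b, hmem b (Or.inl (by simp))⟩
  let x' : F := ⟨x0, hmem x0 (Or.inl (by simp))⟩
  let c' : Fin 3 → F := fun i => ⟨c i, hmem _ (Or.inr (Or.inl ⟨i, rfl⟩))⟩
  let d' : Fin 3 → F := fun i => ⟨d i, hmem _ (Or.inr (Or.inr ⟨i, rfl⟩))⟩
  obtain ⟨t, htdef⟩ : ∃ t : ℕ → ℂ, t = fun n => (P n (Sum.inr 0) : ℂ) / c 0 + d 0 := ⟨_, rfl⟩
  have ht : ∀ n i, (P n (Sum.inr i) : ℂ) = c i * (t n - d i) := by
    intro n i
    obtain ⟨s, hs⟩ := (hPV n).2
    have h1 : t n = s := by
      rw [htdef]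
      simp only
      rw [hs 0]
      have := hc 0
      field_simp
      ring
    rw [h1]
    exact hs i
  have hline : ∀ n, a * (P n (Sum.inl 0) : ℂ) + b * (P n (Sum.inl 1) : ℂ) = 1 := fun n => (hPV n).1
  have htalg : ∀ n, IsAlgebraic ℚ (t n) := by
    intro n
    rw [htdef]
    simp only [div_eq_mul_inv]
    exact ((hPa n _).mul (hca 0).inv).add (hda 0)
  let T : ℕ → Set ℂ := fun n => {a * (P n (Sum.inl 0) : ℂ), t n}
  let K : ℕ → IntermediateField F ℂ := fun n => IntermediateField.adjoin F (T n)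
  have hKfin : ∀ n, FiniteDimensional F (K n) := by
    intro n
    have : Finite (T n) := (Set.toFinite _ : ({a * (P n (Sum.inl 0) : ℂ), t n} : Set ℂ).Finite)
    refine IntermediateField.finiteDimensional_adjoin ?_
    intro z hz
    have hz' : z = a * (P n (Sum.inl 0) : ℂ) ∨ z = t n := hz
    have h1 : IsIntegral ℚ z := by
      rcases hz' with rfl | rfl
      · exact (haa.mul (hPa n _)).isIntegral
      · exact (htalg n).isIntegral
    exact h1.tower_top
  have hKn : ∀ n, NumberField (K n) := by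
    intro n
    have h1 := hKfin n
    have h2 : FiniteDimensional ℚ (K n) := FiniteDimensional.trans ℚ F (K n)
    exact ⟨⟩
  have hXm : ∀ n, a * (P n (Sum.inl 0) : ℂ) ∈ K n := fun n =>
    IntermediateField.subset_adjoin F (T n) (Or.inl rfl)
  have htm : ∀ n, t n ∈ K n := fun n => IntermediateField.subset_adjoin F (T n) (Or.inr rfl)
  let A : Ar F a' b' c' d' :=
    { ha := fun h => ha (congrArg Subtype.val h)
      hb := fun h => hb (congrArg Subtype.val h)
      hc := fun i h => hc i (congrArg Subtype.val h)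
      hd := fun i l h => hd (congrArg Subtype.val h)
      hH := hH
      K := fun n => K n
      fld := fun n => inferInstance
      nf := hKn
      alg := fun n => inferInstance
      fd := hKfin
      j := fun n => (K n).val
      X := fun n => ⟨a * (P n (Sum.inl 0) : ℂ), hXm n⟩
      t := fun n => ⟨t n, htm n⟩
      hX0 := fun n h => mul_ne_zero ha (P n (Sum.inl 0)).ne_zero (congrArg Subtype.val h)
      hX1 := fun n h => by
        have h1 : a * (P n (Sum.inl 0) : ℂ) = 1 := congrArg Subtype.val h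
        have h2 := hline n
        rw [h1] at h2
        exact mul_ne_zero hb (P n (Sum.inl 1)).ne_zero (by linear_combination h2)
      ht := fun n i h => by
        have h1 : t n = d i := congrArg Subtype.val h
        have h2 := ht n i
        rw [h1, sub_self, mul_zero] at h2
        exact (P n (Sum.inr i)).ne_zero h2
      inj := fun n m h => by
        have h1 : t n = t m := h
        apply hinj
        funext i
        apply Units.ext
        show (P n (Sum.inr i) : ℂ) = (P m (Sum.inr i) : ℂ)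
        rw [ht n i, ht m i, h1] }
  refine ⟨F, inferInstance, hFn, inferInstance, a', b', c', d', x', A, rfl, rfl, ?_, fun n => rfl⟩
  intro n k
  rcases k with k | k
  · fin_cases k
    · show (K n).val ((⟨a * (P n (Sum.inl 0) : ℂ), hXm n⟩ : K n) / algebraMap F (K n) a') = _
      rw [map_div₀]
      show a * (P n (Sum.inl 0) : ℂ) / a = _
      field_simp
      rfl
    · show (K n).val ((1 - (⟨a * (P n (Sum.inl 0) : ℂ), hXm n⟩ : K n)) / algebraMap F (K n) b') = _
      rw [map_div₀, map_sub, map_one]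
      show (1 - a * (P n (Sum.inl 0) : ℂ)) / b = (P n (Sum.inl 1) : ℂ)
      rw [div_eq_iff hb]
      linear_combination - hline n
  · show (K n).val (algebraMap F (K n) (c' k) * ((⟨t n, htm n⟩ : K n) - algebraMap F (K n) (d' k))) = _
    rw [map_mul, map_sub]
    show c k * (t n - d k) = _
    rw [ht n k]

variable {F : Type} [Field F] [NumberField F] [Algebra F ℂ] {a b : F} {c d : Fin 3 → F}

theorem k4_lv_prod {K : Type} [Field K] [NumberField K] (p : Pl K) {ι : Type} (s : Finset ι) (x : ι → K)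
    (hx : ∀ i, x i ≠ 0) (m : ι → ℤ) : lv p (∏ i ∈ s, x i ^ m i) = ∑ i ∈ s, (m i : ℝ) * lv p (x i) := by
  classical
  induction s using Finset.induction_on with
  | empty => rw [Finset.prod_empty, Finset.sum_empty, lv_one]
  | insert a s ha ih =>
    rw [Finset.prod_insert ha, Finset.sum_insert ha, lv_mul p (zpow_ne_zero _ (hx a))
      (Finset.prod_ne_zero_iff.2 fun i _ => zpow_ne_zero _ (hx i)), ih, lv_zpow]

/-- Row Z5-K4b. The integral relations up to torsion are the integral points of the space of real relations. `→`: `(∏ P k ^ m k) ^ N = 1` with `N > 0`, so `(∏ (A.pt n k) ^ m k) ^ N = 1` in `A.K n` (`A.j n` is injective) and `lv p` of it is `N ∑ m k lv p (pt k) = 0`.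
`←`: `z = ∏ (A.pt n k) ^ m k` has `lv p z = 0` at all places, so it is a root of unity: otherwise `hh_lower` (row N5) for `F := A.K n`, `K := A.K n` gives `0 < c ≤ hh z = Sm (max 0 (lv z)) = 0`. (`mem_Lam`, `ch`.) -/
theorem Ar.mem_Lam_iff (A : Ar F a b c d) {n : ℕ} {P : Fin 2 ⊕ Fin 3 → ℂˣ}
    (hP : ∀ k, A.j n (A.pt n k) = (P k : ℂ)) (m : Fin 2 ⊕ Fin 3 → ℤ) :
    m ∈ Lam ({P} : Set (Fin 2 ⊕ Fin 3 → ℂˣ)) ↔ (fun k => (m k : ℝ)) ∈ A.N n := by
  have hpt : ∀ k, A.pt n k ≠ 0 := by
    intro k h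
    have h1 := hP k
    rw [h, map_zero] at h1
    exact (P k).ne_zero h1.symm
  obtain ⟨z, hz⟩ : ∃ z : A.K n, z = ∏ k, A.pt n k ^ m k := ⟨_, rfl⟩
  have hz0 : z ≠ 0 := by
    rw [hz]
    exact Finset.prod_ne_zero_iff.2 fun k _ => zpow_ne_zero _ (hpt k)
  have hjz : A.j n z = ((ch m P : ℂˣ) : ℂ) := by
    rw [hz, map_prod]
    unfold ch
    rw [Units.coe_prod]
    refine Finset.prod_congr rfl fun k _ => ?_
    rw [map_zpow₀, hP k, Units.val_zpow_eq_zpow_val]
  have hlv : ∀ p : Pl (A.K n), lv p z = ∑ k, (m k : ℝ) * lv p (A.pt n k) := by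
    intro p
    rw [hz, k4_lv_prod p _ _ hpt]
  have hj : Function.Injective (A.j n) := (A.j n : A.K n →+* ℂ).injective
  have hpow : ∀ N : ℕ, ch m P ^ N = 1 ↔ z ^ N = 1 := by
    intro N
    constructor
    · intro h
      apply hj
      rw [map_pow, map_one, hjz, ← Units.val_pow_eq_pow_val, h, Units.val_one]
    · intro h
      apply Units.ext
      rw [Units.val_pow_eq_pow_val, ← hjz, ← map_pow, h, map_one]
      rfl
  constructor
  · rintro ⟨N, hN, h⟩
    have h1 := (hpow N).1 (h P rfl)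
    intro p
    have h2 : lv p (z ^ N) = 0 := by rw [h1, lv_one]
    rw [lv_pow, hlv] at h2
    exact (mul_eq_zero.1 h2).resolve_left (by exact_mod_cast hN.ne')
  · intro h
    have h0 : ∀ p : Pl (A.K n), lv p z = 0 := fun p => by rw [hlv]; exact h p
    by_contra hcon
    have h1 : ∀ N : ℕ, 0 < N → z ^ N ≠ 1 := by
      intro N hN h2
      apply hcon
      refine ⟨N, hN, ?_⟩
      intro x hx
      rw [Set.mem_singleton_iff] at hx
      subst hx
      exact (hpow N).2 h2
    obtain ⟨c0, hc0, h2⟩ := hh_lower z hz0 h1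
    have h3 := h2 (A.K n)
    have h4 : Pool.Agent.ZL2.hh (algebraMap (A.K n) (A.K n) z) = 0 := by
      unfold Pool.Agent.ZL2.hh
      rw [Sm_congr (g := fun _ => 0) (fun p => ?_), Sm_zero]
      show max 0 (lv p z) = 0
      rw [h0 p, max_self]
    rw [h4] at h3
    have h5 : (0 : ℝ) < Module.finrank ℚ (A.K n) := by exact_mod_cast Module.finrank_pos
    have := mul_pos hc0 h5
    linarith

/-- Row Z5-K4c. A `ℤ`-basis of `Lam {P}` is linearly independent over `ℝ` (`linearIndependent_algebraMap_comp_iff` with `R = ℤ`, `S = ℝ`) and lies in `A.N n` (K4b). -/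
theorem Ar.rk_le (A : Ar F a b c d) {n : ℕ} {P : Fin 2 ⊕ Fin 3 → ℂˣ}
    (hP : ∀ k, A.j n (A.pt n k) = (P k : ℂ)) :
    rk ({P} : Set (Fin 2 ⊕ Fin 3 → ℂˣ)) ≤ Module.finrank ℝ (A.N n) := by
  classical
  unfold rk
  obtain ⟨B⟩ : Nonempty (Module.Basis (Fin (Module.finrank ℤ (Lam ({P} : Set (Fin 2 ⊕ Fin 3 → ℂˣ))))) ℤ
    (Lam ({P} : Set (Fin 2 ⊕ Fin 3 → ℂˣ)))) := ⟨Module.finBasis ℤ _⟩
  have h1 : LinearIndependent ℤ (fun i => ((B i : Lam ({P} : Set (Fin 2 ⊕ Fin 3 → ℂˣ))) : Fin 2 ⊕ Fin 3 → ℤ)) :=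
    B.linearIndependent.map' (Lam ({P} : Set (Fin 2 ⊕ Fin 3 → ℂˣ))).subtype (Submodule.ker_subtype _)
  have h2 : LinearIndependent ℝ (fun i => (algebraMap ℤ ℝ) ∘
      ((B i : Lam ({P} : Set (Fin 2 ⊕ Fin 3 → ℂˣ))) : Fin 2 ⊕ Fin 3 → ℤ)) := by
    rw [linearIndependent_algebraMap_comp_iff]
    exact h1
  let w : Fin (Module.finrank ℤ (Lam ({P} : Set (Fin 2 ⊕ Fin 3 → ℂˣ)))) → A.N n := fun i =>
    ⟨fun k => (((B i : Lam ({P} : Set (Fin 2 ⊕ Fin 3 → ℂˣ))) : Fin 2 ⊕ Fin 3 → ℤ) k : ℝ),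
      (A.mem_Lam_iff hP _).1 (B i).2⟩
  have h3 : LinearIndependent ℝ w := by
    apply LinearIndependent.of_comp (A.N n).subtype
    exact h2
  have h4 := h3.fintype_card_le_finrank
  rwa [Fintype.card_fin] at h4

end Pool.Agent.Z5
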