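import Pool.Agent.Z5.Defs

namespace Pool.Agent.Z5

open Pool.Agent.ZL2 Filter Topology

theorem n1_ineq {K : Type} [Field K] [NumberField K] {k L : ℕ} (hL : 1 ≤ L) (f : (Fin k → Fin (L + 1)) → ℤ)
    (hf : ∀ α, |f α| ≤ 2 ^ L) (u : Fin k → K) (hu : ∀ j, u j ≠ 0) {B : ℝ}
    (hB : ∀ j, hh (u j) ≤ B * Module.finrank ℚ K) (h0 : ev f u ≠ 0) {C : ℝ}
    (good : Finset (K →+* ℂ))
    (hgood : ∀ σ ∈ good, ‖σ (ev f u)‖ ≤ Real.exp (-(C * L))) :
    C * good.card ≤ (Module.finrank ℚ K : ℝ) * (k * B + (k + 1) * Real.log 2) := by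
  classical
  set D : ℝ := (Module.finrank ℚ K : ℝ) with hD
  have hcard : ((Finset.univ : Finset (K →+* ℂ)).card : ℝ) = D := by
    rw [Finset.card_univ, NumberField.Embeddings.card K ℂ]
  have hLpos : (0 : ℝ) < L := by exact_mod_cast hL
  have hlog20 : 0 ≤ Real.log 2 := Real.log_nonneg (by norm_num)
  obtain ⟨G, hG⟩ : ∃ G : Pl K → ℝ, G = Sum.elim
      (fun σ => if σ ∈ good then -(C * L) else ((k : ℝ) + 1) * L * Real.log 2) (fun _ => 0) :=
    ⟨_, rfl⟩
  have hGF : FS G := by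
    unfold FS
    refine Set.Finite.subset (Set.finite_range (Sum.inl : (K →+* ℂ) → Pl K)) ?_
    rintro (σ | v) hp
    · exact ⟨σ, rfl⟩
    · simp [hG] at hp
  have hpt : ∀ p : Pl K, lv p (ev f u) ≤ L * ∑ j, max 0 (lv p (u j)) + G p := by
    intro p
    have hS : 0 ≤ (L : ℝ) * ∑ j, max 0 (lv p (u j)) :=
      mul_nonneg hLpos.le (Finset.sum_nonneg fun _ _ => le_max_left _ _)
    rcases p with σ | v
    · by_cases hb : σ ∈ good
      · have hpos : 0 < ‖σ (ev f u)‖ := norm_pos_iff.2 ((map_ne_zero σ).2 h0)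
        have h1 : Real.log ‖σ (ev f u)‖ ≤ Real.log (Real.exp (-(C * L))) :=
          Real.log_le_log hpos (hgood σ hb)
        rw [Real.log_exp] at h1
        have h2 : G (Sum.inl σ) = -(C * L) := by
          simp only [hG, Sum.elim_inl, if_pos hb]
        have h3 : lv (Sum.inl σ : Pl K) (ev f u) = Real.log ‖σ (ev f u)‖ := rfl
        rw [h2, h3]
        linarith
      · have := lv_ev_le f hf u hu h0 (Sum.inl σ)
        simp only [Sum.elim_inl] at this
        simpa only [hG, Sum.elim_inl, if_neg hb] using this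
    · have := lv_ev_le f hf u hu h0 (Sum.inr v)
      simpa only [hG, Sum.elim_inr] using this
  have hFm : ∀ j, FS (fun p : Pl K => max 0 (lv p (u j))) :=
    fun j => FS.max FS.zero (FS_lv (hu j))
  have hFs : FS (fun p : Pl K => ∑ j, max 0 (lv p (u j))) :=
    FS.sum Finset.univ (F := fun j (p : Pl K) => max 0 (lv p (u j))) fun j _ => hFm j
  have hfin := Sm_mono (FS_lv h0) ((hFs.smul (L : ℝ)).add hGF) hpt
  rw [Sm_lv h0, Sm_add (hFs.smul (L : ℝ)) hGF, Sm_smul,
    Sm_sum Finset.univ (F := fun j (p : Pl K) => max 0 (lv p (u j))) fun j _ => hFm j] at hfin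
  have hhs : ∑ j, Sm (fun p : Pl K => max 0 (lv p (u j))) ≤ k * (B * D) := by
    have h1 : ∀ j ∈ (Finset.univ : Finset (Fin k)),
        Sm (fun p : Pl K => max 0 (lv p (u j))) ≤ B * D := fun j _ => hB j
    refine (Finset.sum_le_card_nsmul _ _ _ h1).trans (le_of_eq ?_)
    rw [Finset.card_univ, Fintype.card_fin, nsmul_eq_mul]
  have hGs : Sm G = good.card * (-(C * L)) + (D - good.card) * (((k : ℝ) + 1) * L * Real.log 2) := by
    rw [Sm_split hGF]
    simp only [hG, Sum.elim_inl, Sum.elim_inr, finsum_zero, add_zero]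
    rw [Finset.sum_ite, Finset.sum_const, Finset.sum_const, nsmul_eq_mul, nsmul_eq_mul]
    have c1 : (Finset.univ.filter (fun σ : K →+* ℂ => σ ∈ good)).card = good.card := by
      congr 1
      ext σ
      simp
    have c2 : ((Finset.univ.filter (fun σ : K →+* ℂ => σ ∉ good)).card : ℝ) = D - good.card := by
      have h3 := Finset.card_filter_add_card_filter_not (s := (Finset.univ : Finset (K →+* ℂ)))
        (fun σ : K →+* ℂ => σ ∈ good)
      rw [c1] at h3
      have h4 : (good.card : ℝ) + ((Finset.univ.filter (fun σ : K →+* ℂ => σ ∉ good)).card : ℝ) = D := by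
        rw [← hcard]
        exact_mod_cast h3
      linarith
    rw [c1, c2]
  rw [hGs] at hfin
  have hcn : (0 : ℝ) ≤ good.card := Nat.cast_nonneg _
  have t1 : (L : ℝ) * ∑ j, Sm (fun p : Pl K => max 0 (lv p (u j))) ≤ L * (k * (B * D)) :=
    mul_le_mul_of_nonneg_left hhs hLpos.le
  have t2 : 0 ≤ (good.card : ℝ) * (((k : ℝ) + 1) * L * Real.log 2) := by positivity
  have t3 : (L : ℝ) * (C * good.card) ≤ L * (D * (k * B + (k + 1) * Real.log 2)) := by
    nlinarith
  exact le_of_mul_le_mul_left t3 hLpos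

/-- Row Z5-N1. The product formula for the value of an integral polynomial (compare the end of the proof of `ZL2.BP` in
`ZL2/BP6.lean`). Let `D = [K:ℚ] = [F:ℚ] [K:F]`, `g` = the number of the good `σ : K →ₐ[F] ℂ` (`‖ev f (σ ∘ u)‖ = ‖σ (ev f u)‖ ≤ exp (-(C L))`); they are different as ring
homomorphisms `K →+* ℂ`. `Sm_lv`, `Sm_split`, `lv_ev_le`: `0 = Sm (lv (ev f u)) ≤ L k B D + (D - g) (k+1) L log 2 - g C L`. So
`g C ≤ D (k B + (k+1) log 2)`, and `Nat.card (K →ₐ[F] ℂ) = [K:F]` (`AlgHom.card`; `K/F` is separable). -/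
theorem bp_ineq {F : Type} [Field F] [NumberField F] [Algebra F ℂ] {K : Type} [Field K] [NumberField K]
    [Algebra F K] [FiniteDimensional F K] {k L : ℕ} (hL : 1 ≤ L) (f : (Fin k → Fin (L + 1)) → ℤ)
    (hf : ∀ α, |f α| ≤ 2 ^ L) (u : Fin k → K) (hu : ∀ j, u j ≠ 0) {B : ℝ}
    (hB : ∀ j, hh (u j) ≤ B * Module.finrank ℚ K) (h0 : ev f u ≠ 0) {C : ℝ} (hC : 0 < C) :
    C * fr (fun σ : K →ₐ[F] ℂ => ‖ev f (fun j => σ (u j))‖ ≤ Real.exp (-(C * L))) ≤
      (Module.finrank ℚ F : ℝ) * (k * B + (k + 1) * Real.log 2) := by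
  classical
  have hinj : Function.Injective (fun σ : K →ₐ[F] ℂ => (σ : K →+* ℂ)) := by
    intro σ τ h
    ext x
    exact congrArg (fun g : K →+* ℂ => g x) h
  set P : (K →ₐ[F] ℂ) → Prop := fun σ => ‖ev f (fun j => σ (u j))‖ ≤ Real.exp (-(C * L)) with hP
  have key := n1_ineq hL f hf u hu hB h0 ((Finset.univ.filter P).image (fun σ : K →ₐ[F] ℂ => (σ : K →+* ℂ))) (by
    intro σ hσ
    rw [Finset.mem_image] at hσ
    obtain ⟨τ, hτ, rfl⟩ := hσ
    have h1 := (Finset.mem_filter.1 hτ).2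
    have hev : (τ : K →+* ℂ) (ev f u) = ev f (fun j => τ (u j)) := by
      unfold ev
      rw [map_sum]
      refine Finset.sum_congr rfl fun α _ => ?_
      rw [map_mul, map_prod, map_intCast]
      simp only [map_pow, RingHom.coe_coe]
    show ‖(τ : K →+* ℂ) (ev f u)‖ ≤ _
    rw [hev]
    exact h1)
  rw [Finset.card_image_of_injective _ hinj] at key
  have hcF : Fintype.card (K →ₐ[F] ℂ) = Module.finrank F K := AlgHom.card F K ℂ
  have hmul : Module.finrank ℚ F * Module.finrank F K = Module.finrank ℚ K := Module.finrank_mul_finrank ℚ F K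
  have hpos : (0 : ℝ) < Module.finrank F K := by exact_mod_cast Module.finrank_pos
  unfold fr
  rw [hcF, Nat.card_eq_fintype_card, Fintype.card_subtype]
  rw [← mul_div_assoc, div_le_iff₀ hpos]
  refine key.trans (le_of_eq ?_)
  rw [← hmul]
  push_cast
  ring

end Pool.Agent.Z5
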